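import Pool.Agent.MP_ae0bd0_nt.RF.B5
import Pool.Agent.MP_ae0bd0_nt.B3.Q10

set_option autoImplicit false

open CM27 NumberField IsDedekindDomain BS3

namespace RF

/-! ## [RF-B6] local obstruction at `√-3` (file B6.lean) -/

section
open WithZero

variable {F : Type} [Field F] {w : Valuation F ℤᵐ⁰}

theorem b6_int_unit (h3 : q10_ge w (3 : F) 1) (k : ℤ) (hk : ¬ 3 ∣ k) : q10_eq w (k : F) 0 := by
  obtain ⟨a, b, hab⟩ : ∃ a b : ℤ, k * a + 3 * b = 1 := by
    have hc : IsCoprime k 3 := by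
      rw [isCoprime_comm]
      exact (Prime.coprime_iff_not_dvd Int.prime_three).2 hk
    obtain ⟨a, b, hab⟩ := hc
    exact ⟨a, b, by linarith⟩
  have h2 : (k : F) * (a : F) + (3 : F) * (b : F) = 1 := by
    have h2 : ((k * a + 3 * b : ℤ) : F) = 1 := by rw [hab]; simp
    push_cast at h2
    exact h2
  have h4 : q10_ge w ((3 : F) * (b : F)) 1 := (h3.mul (q10_int w b)).mono (by omega)
  have hk0 : (k : F) ≠ 0 := by
    intro h0
    rw [h0, zero_mul, zero_add] at h2
    rw [h2] at h4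
    have := q10_one.le h4
    omega
  obtain ⟨n, hn⟩ := q10_exists (w := w) hk0
  have h1 := hn.le (q10_int w k)
  rcases lt_or_ge n 1 with h | h
  · have : n = 0 := by omega
    rw [← this]; exact hn
  · exfalso
    have h3' : q10_ge w ((k : F) * (a : F)) 1 := ((hn.ge.mul (q10_int w a))).mono (by omega)
    have h5 := h3'.add h4
    rw [h2] at h5
    have := q10_one.le h5
    omega

theorem b6_ge_of_cube {x : F} {n : ℤ} (h : q10_ge w (x ^ 3) (3 * n + 1)) : q10_ge w x (n + 1) := by
  by_cases hx : x = 0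
  · rw [hx]; exact q10_ge_zero
  · obtain ⟨m, hm⟩ := q10_exists (w := w) hx
    have h1 := (hm.mul hm).mul hm
    rw [← sq, ← pow_succ] at h1
    have := h1.le h
    exact hm.ge.mono (by omega)

end

/-- `F ∋ ω`, `v` a valuation of `F` with `v(π) = 1`, `π = 2 ω + 1 = √-3` (`π² = -3`), `r ≡ ± 4 mod 9`.
`y - r i = (2 ± π i)(a + b i)³` gives (imaginary parts, `3 = -π²`)
`-r = 2 (3 a² b - b³) ± π (a³ - 3 a b²) = -2 π² a² b - 2 b³ ± (π a³ + π³ a b²)`, i.e.
`2 b³ + 2 π² a² b ∓ (π a³ + π³ a b²) = r`. Let `α = v(a)`, `β = v(b)` (additive). If `α < β` the term `π a³` has the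
strictly smallest valuation `3 α + 1 ≠ 0 = v(r)`; contradiction. So `β ≤ α` and `2 b³` has the strictly
smallest valuation, `3 β = 0`. So `a` is integral and `b` is a unit, `2 b³ ≡ r mod π`. Say `r ≡ 4 e mod 9`,
`e = ± 1`. `2 b³ ≡ 4 e`, `b³ ≡ 2 e ≡ - e mod π`, `(b + e)³ ≡ 0`, so `b = - e + π c`, `c` integral and
`b³ = -e + 3 π c(..) ∈ - e + π³ O`. So `2 b³ - r ≡ - 2 e - 4 e = - 6 e = 2 π² e mod π³` (`9 = π⁴`), and
`2 π² e + 2 π² a² b ∓ π a³ ∈ π³ O`. So `a³ ∈ π O`, `v(a) ≥ 1`, then `2 π² e ∈ π³ O`: contradiction. -/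
theorem no_sol {F : Type} [Field F] [CharZero F] (v : Valuation F (WithZero (Multiplicative ℤ)))
    (om : F) (hom : om ^ 2 + om + 1 = 0) (hv : v (2 * om + 1) = WithZero.exp (-1 : ℤ)) (r : ℤ)
    (hr : r % 9 = 4 ∨ r % 9 = 5) (e : F) (he : e = 1 ∨ e = -1) (a b : F) :
    2 * b ^ 3 - 6 * a ^ 2 * b + e * ((2 * om + 1) * (a ^ 3 - 3 * a * b ^ 2)) ≠ (r : F) := by
  intro h
  have hpi : q10_eq v (2 * om + 1) 1 := hv
  have hpi2 : (2 * om + 1) * (2 * om + 1) = -3 := by linear_combination 4 * hom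
  have h3 : q10_eq v (3 : F) 2 := by
    have h1 := (hpi.mul hpi).neg
    rw [hpi2, neg_neg] at h1
    exact h1
  have hu : ∀ k : ℤ, ¬ 3 ∣ k → q10_eq v (k : F) 0 := b6_int_unit (h3.ge.mono (by omega))
  have hu2 : q10_eq v (2 : F) 0 := by
    have := hu 2 (by omega)
    exact_mod_cast this
  have hru : q10_eq v (r : F) 0 := hu r (by omega)
  have hee : q10_eq v e 0 := by
    rcases he with rfl | rfl
    · exact q10_one
    · exact q10_one.neg
  have h6 : q10_eq v (6 : F) 2 := by
    have := hu2.mul h3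
    have e1 : (2 : F) * 3 = 6 := by norm_num
    rw [e1] at this
    exact this
  set p := 2 * om + 1 with hp
  -- first step
  have hab : q10_ge v a 0 ∧ q10_eq v b 0 := by
    by_cases hb : b = 0
    · exfalso
      have ha : a ≠ 0 := by
        rintro rfl
        rw [hb] at h
        have h0 : (r : F) = 0 := by rw [← h]; ring
        rw [h0] at hru
        have := hru.le (q10_ge_zero (n := 1))
        omega
      obtain ⟨α, hα⟩ := q10_exists (w := v) ha
      have h1 := (hee.mul (hpi.mul ((hα.mul hα).mul hα)))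
      have e1 : e * (p * (a * a * a)) = r := by rw [← h, hb]; ring
      rw [e1] at h1
      have := h1.unique hru
      omega
    · obtain ⟨β, hβ⟩ := q10_exists (w := v) hb
      have hb3 := hu2.mul ((hβ.mul hβ).mul hβ)
      by_cases ha : a = 0
      · have e1 : 2 * (b * b * b) = (r : F) := by rw [← h, ha]; ring
        rw [e1] at hb3
        have h1 := hb3.unique hru
        have h2 : β = 0 := by omega
        subst h2
        exact ⟨by rw [ha]; exact q10_ge_zero, hβ⟩
      · obtain ⟨α, hα⟩ := q10_exists (w := v) ha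
        have ht2 := (h6.mul ((hα.mul hα).mul hβ)).neg
        have ht3 := (hee.mul (hpi.mul ((hα.mul hα).mul hα)))
        have ht4 := (hee.mul (hpi.mul (h3.mul (hα.mul (hβ.mul hβ))))).neg
        rcases lt_or_ge α β with hlt | hge
        · exfalso
          have hs := ht3.add (((hb3.ge.mono (m := 0 + (1 + (α + α + α)) + 1) (by omega)).add
            (ht2.ge.mono (m := 0 + (1 + (α + α + α)) + 1) (by omega))).add
            (ht4.ge.mono (m := 0 + (1 + (α + α + α)) + 1) (by omega)))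
          have e1 : e * (p * (a * a * a)) + (2 * (b * b * b) + -(6 * (a * a * b)) +
              -(e * (p * (3 * (a * (b * b)))))) = r := by rw [← h]; ring
          rw [e1] at hs
          have := hs.unique hru
          omega
        · have hs := hb3.add (((ht3.ge.mono (m := 0 + (β + β + β) + 1) (by omega)).add
            (ht2.ge.mono (m := 0 + (β + β + β) + 1) (by omega))).add
            (ht4.ge.mono (m := 0 + (β + β + β) + 1) (by omega)))
          have e1 : 2 * (b * b * b) + (e * (p * (a * a * a)) + -(6 * (a * a * b)) +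
              -(e * (p * (3 * (a * (b * b)))))) = r := by rw [← h]; ring
          rw [e1] at hs
          have h1 := hs.unique hru
          have h2 : β = 0 := by omega
          subst h2
          exact ⟨hα.ge.mono hge, hβ⟩
  obtain ⟨ha, hb⟩ := hab
  -- second step
  obtain ⟨d, k, hd, hrk⟩ : ∃ d k : ℤ, (d = 1 ∨ d = -1) ∧ r = 4 * d + 9 * k := by
    rcases hr with h1 | h1
    · exact ⟨1, r / 9, Or.inl rfl, by omega⟩
    · exact ⟨-1, r / 9 + 1, Or.inr rfl, by omega⟩
  have hd2 : (d : F) ^ 2 = 1 := by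
    rcases hd with rfl | rfl <;> norm_num
  have hdu : q10_eq v (d : F) 0 := hu d (by rcases hd with rfl | rfl <;> omega)
  have hrF : (r : F) = 4 * d + 9 * k := by rw [hrk]; push_cast; ring
  have h9k : q10_ge v (9 * (k : F)) 4 := by
    have := (h3.ge.mul h3.ge).mul (q10_int v k)
    have e1 : (3 : F) * 3 * k = 9 * k := by ring
    rw [e1] at this
    exact this.mono (by omega)
  have hz : q10_ge v (0 : F) 0 := q10_ge_zero
  have hT4 : q10_ge v (e * (p * (3 * (a * (b * b))))) 3 :=
    (hee.ge.mul (hpi.ge.mul (h3.ge.mul (ha.mul (hb.ge.mul hb.ge))))).mono (by omega)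
  have hT2 : q10_ge v (6 * (a * a * b)) 2 := (h6.ge.mul ((ha.mul ha).mul hb.ge)).mono (by omega)
  have hT3 : q10_ge v (e * (p * (a * a * a))) 1 :=
    (hee.ge.mul (hpi.ge.mul ((ha.mul ha).mul ha))).mono (by omega)
  -- `(b + d)³`
  have hbd3 : q10_ge v ((b + d) ^ 3) (3 * 0 + 1) := by
    -- `2 (b + d)³ = 2 b³ + 2 d + 6 b d (b + d)`, `2 b³ = r + ...`
    have h1 : q10_ge v (6 * (b * (d * (b + d)))) 1 :=
      (h6.ge.mul (hb.ge.mul (hdu.ge.mul (hb.ge.add hdu.ge)))).mono (by omega)
    have h2 : q10_ge v (6 * (d : F)) 1 := (h6.ge.mul hdu.ge).mono (by omega)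
    have hS := (((((h2.add (h9k.mono (m := 1) (by omega))).add (hT2.mono (m := 1) (by omega))).sub
      hT3).add (hT4.mono (m := 1) (by omega))).add h1)
    have e1 : 6 * (d : F) + 9 * k + 6 * (a * a * b) - e * (p * (a * a * a)) +
        e * (p * (3 * (a * (b * b)))) + 6 * (b * (d * (b + d))) = 2 * (b + d) ^ 3 := by
      have h4 : 2 * b ^ 3 - 6 * a ^ 2 * b + e * (p * (a ^ 3 - 3 * a * b ^ 2)) = 4 * d + 9 * k := by
        rw [h, hrF]
      linear_combination (-1 : F) * h4 - 2 * (d : F) * hd2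
    rw [e1] at hS
    by_cases h0 : b + d = 0
    · rw [h0, zero_pow (by norm_num)]; exact q10_ge_zero
    · obtain ⟨m, hm⟩ := q10_exists (w := v) (pow_ne_zero 3 h0)
      have h5 := (hu2.mul hm).le hS
      exact hm.ge.mono (by omega)
  have hbd : q10_ge v (b + d) 1 := by
    have := b6_ge_of_cube hbd3
    simpa using this
  have hb3 : q10_ge v (b ^ 3 + d) 3 := by
    have h1 : q10_ge v ((b + d) * (b + d) * (b + d)) 3 := ((hbd.mul hbd).mul hbd).mono (by omega)
    have h2 : q10_ge v (3 * (b * (d * (b + d)))) 3 :=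
      (h3.ge.mul (hb.ge.mul (hdu.ge.mul hbd))).mono (by omega)
    have h4 := h1.sub h2
    have e1 : (b + d) * (b + d) * (b + d) - 3 * (b * (d * (b + d))) = b ^ 3 + d := by
      linear_combination (d : F) * hd2
    rwa [e1] at h4
  -- `-6 d + (2 (b³ + d) - 9 k - 6 a² b + e π a³ - 3 e π a b²) = 0`
  have hmain : 6 * (d : F) = 2 * (b ^ 3 + d) - 9 * k - 6 * (a * a * b) + e * (p * (a * a * a)) -
      e * (p * (3 * (a * (b * b)))) := by
    have h4 : 2 * b ^ 3 - 6 * a ^ 2 * b + e * (p * (a ^ 3 - 3 * a * b ^ 2)) = 4 * d + 9 * k := by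
      rw [h, hrF]
    linear_combination (-1 : F) * h4
  have h2b : q10_ge v (2 * (b ^ 3 + d)) 3 := (hu2.ge.mul hb3).mono (by omega)
  have h6d : q10_eq v (6 * (d : F)) 2 := (h6.mul hdu)
  have ha3 : q10_ge v (e * (p * (a * a * a))) 2 := by
    have h4 := ((((h6d.ge.sub (h2b.mono (m := 2) (by omega))).add
      (h9k.mono (m := 2) (by omega))).add hT2).add (hT4.mono (m := 2) (by omega)))
    have e1 : 6 * (d : F) - 2 * (b ^ 3 + d) + 9 * k + 6 * (a * a * b) +
        e * (p * (3 * (a * (b * b)))) = e * (p * (a * a * a)) := by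
      rw [hmain]; ring
    rw [e1] at h4
    exact h4
  have ha1 : q10_ge v a 1 := by
    by_cases h0 : a = 0
    · rw [h0]; exact q10_ge_zero
    · obtain ⟨m, hm⟩ := q10_exists (w := v) h0
      have h5 := (hee.mul (hpi.mul ((hm.mul hm).mul hm))).le ha3
      exact hm.ge.mono (by omega)
  have hfin : q10_ge v (6 * (d : F)) 3 := by
    rw [hmain]
    refine (((h2b.sub (h9k.mono (by omega))).sub ?_).add ?_).sub hT4
    · exact (h6.ge.mul ((ha1.mul ha1).mul hb.ge)).mono (by omega)
    · exact (hee.ge.mul (hpi.ge.mul ((ha1.mul ha1).mul ha1))).mono (by omega)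
  have := h6d.le hfin
  omega

theorem not_eps' {F : Type} [Field F] [CharZero F] (v : Valuation F (WithZero (Multiplicative ℤ)))
    (om : F) (hom : om ^ 2 + om + 1 = 0) (hv : v (2 * om + 1) = WithZero.exp (-1 : ℤ)) (r : ℤ)
    (hr : r % 9 = 4 ∨ r % 9 = 5) (y : F) (s : Q2 (-1) F) :
    (⟨y, -(r : F)⟩ : Q2 (-1) F) ≠ eps om * s ^ 3 ∧
    (⟨y, -(r : F)⟩ : Q2 (-1) F) ≠ star (eps om) * s ^ 3 := by
  obtain ⟨a, b⟩ := s
  constructor
  · intro h
    have h1 := congrArg QuadraticAlgebra.im h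
    simp only [eps, pow_succ, pow_zero, one_mul, QuadraticAlgebra.im_mul,
      QuadraticAlgebra.re_mul] at h1
    push_cast at h1
    exact no_sol v om hom hv r hr (-1) (Or.inr rfl) a b (by linear_combination h1)
  · intro h
    have h1 := congrArg QuadraticAlgebra.im h
    simp only [eps, pow_succ, pow_zero, one_mul, QuadraticAlgebra.im_mul,
      QuadraticAlgebra.re_mul, QuadraticAlgebra.im_star, QuadraticAlgebra.re_star] at h1
    push_cast at h1
    exact no_sol v om hom hv r hr 1 (Or.inl rfl) a b (by linear_combination h1)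

end RF
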