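import Pool.Agent.MP_ae0bd0_nt.RF.Defs
import Pool.Agent.MP_dfae13_nt.T.TD2
import Pool.Agent.MP_dfae13_nt.T.TD1

set_option autoImplicit false

open CM27

namespace RF

open CM27 CMT CF

theorem NEis.prime {b : Eis} (h : NEis b) : Prime b := by
  obtain ⟨_, p, hp, hn⟩ := h
  exact a3_prime_of_norm p hp.1 b hn

theorem d2_ne_two {p : ℕ} (hp : NP7 p) : p ≠ 2 := by
  rintro rfl
  exact absurd hp.2.1 (by norm_num)

theorem primary_gS (S : Finset Eis) (hS : ∀ b ∈ S, NEis b) : Primary (gS S) := by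
  classical
  unfold gS
  induction S using Finset.induction_on with
  | empty => simpa using a3_primary_one
  | insert b S hb ih =>
    rw [Finset.prod_insert hb]
    exact (hS b (Finset.mem_insert_self b S)).1.mul (ih fun c hc => hS c (Finset.mem_insert_of_mem hc))

/-- the norm of `gS S` is positive and all its prime factors are good -/
theorem good_of_dvd_norm (S : Finset Eis) (hS : ∀ b ∈ S, NEis b) (p : ℕ) (hp : p.Prime)
    (h : (p : ℤ) ∣ (gS S).norm) : NP7 p := by
  rw [d2_norm_gS, (Nat.prime_iff_prime_int.1 hp).dvd_finsetProd_iff] at h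
  obtain ⟨b, hb, hpb⟩ := h
  obtain ⟨_, q, hq, hn⟩ := hS b hb
  rw [hn] at hpb
  have h1 : p ∣ q := by exact_mod_cast hpb
  rw [(Nat.prime_dvd_prime_iff_eq hp hq.1).1 h1]
  exact hq

theorem good_star (S : Finset Eis) (hS : ∀ b ∈ S, NEis b) : ∀ b ∈ S.image star, NEis b := by
  intro b hb
  rw [Finset.mem_image] at hb
  obtain ⟨c, hc, rfl⟩ := hb
  obtain ⟨h1, p, hp, hn⟩ := hS c hc
  exact ⟨h1.star, p, hp, by rw [QuadraticAlgebra.norm_star, hn]⟩

end RF
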