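import Pool.Agent.MP_ae0bd0_nt.RF.Defs
import Pool.Agent.MP_dfae13_nt.T.TE2
import Pool.Agent.MP_ae0bd0_nt.RF.TD2
import Pool.Agent.MP_dfae13_nt.T.TA1
import Pool.Agent.MP_dfae13_nt.T.TA2
import Pool.Agent.MP_dfae13_nt.T.TB1
import Pool.Agent.MP_dfae13_nt.T.TB2
import Pool.Agent.MP_dfae13_nt.T.TC1
import Pool.Agent.MP_dfae13_nt.T.TC2
import Pool.Agent.MP_dfae13_nt.T.TC3
import Pool.Agent.MP_dfae13_nt.T.TD5
import Pool.Agent.MP_dfae13_nt.T.TE1
import Pool.Agent.MP_ae0bd0_nt.CM.F2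
import Pool.Agent.MP_ae0bd0_nt.CM.F4

set_option autoImplicit false

open ArithmeticFunction Filter IsDedekindDomain NumberField
open CM27
open scoped ComplexConjugate

namespace RF

open CM27 CMT CF

section general
variable (K : Type) [Field K] [NumberField K] (W : WeierstrassCurve K)

end general

theorem gS_dvd {S : Finset Eis} (hS : ∀ b ∈ S, NEis b) {b : Eis} (hb : Primary b)
    (hp : Prime b) (h : b ∣ gS S) : b ∈ S := by
  obtain ⟨b', hb', h1⟩ := (Prime.dvd_finset_prod_iff hp _).1 h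
  rw [primary_eq_of_dvd hb hp (hS b' hb').1 (hS b' hb').prime h1]
  exact hb'

theorem gS_sq_dvd {S : Finset Eis} (hS : ∀ b ∈ S, NEis b) {b : Eis} (hb : Primary b)
    (hp : Prime b) (h : b ∣ gS S) : ∃ c, gS S = b * c ∧ ¬ b ∣ c := by
  classical
  have h1 := gS_dvd hS hb hp h
  refine ⟨gS (S.erase b), ?_, ?_⟩
  · rw [gS, gS, Finset.mul_prod_erase S (fun x => x) h1]
  · intro h2
    have h3 := gS_dvd (fun x hx => hS x (Finset.mem_of_mem_erase hx)) hb hp h2
    exact (Finset.notMem_erase b S) h3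

end RF
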