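import Pool.Agent.MP_ae0bd0_nt.RF.Defs
import Pool.Agent.MP_dfae13_nt.T.H
import Pool.Agent.MP_ae0bd0_nt.RF.TF1
import Pool.Agent.MP_dfae13_nt.T.G2
import Pool.Agent.MP_9ab903_nt.AN.B5
import Pool.Agent.MP_ae0bd0_nt.CM.A2
import Pool.Agent.MP_ae0bd0_nt.CM.A3
import Pool.Agent.MP_ae0bd0_nt.CM.B6
import Pool.Agent.MP_dfae13_nt.T.TD2

set_option autoImplicit false

open scoped ComplexConjugate
open Filter Topology Polynomial

namespace RF

open CM27 CMT CF

open CM27

variable {g : Eis} {X : Eis → ℂ}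

theorem h_gS (S : Finset Eis) (hS : ∀ b ∈ S, NEis b) :
    Primary (gS S) ∧ Odd (gS S).norm := by
  classical
  induction S using Finset.induction_on with
  | empty =>
    have h1 : gS ∅ = 1 := rfl
    rw [h1]
    refine ⟨?_, ?_⟩
    · unfold Primary
      rw [sub_self]
      exact dvd_zero _
    · have h2 : (1 : Eis).norm = 1 := map_one _
      rw [h2]
      exact odd_one
  | insert b S hb ih =>
    obtain ⟨h1, h2⟩ := ih fun b' hb' => hS b' (Finset.mem_insert_of_mem hb')
    obtain ⟨h3, p, hp, hn⟩ := hS b (Finset.mem_insert_self _ _)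
    have e : gS (insert b S) = b * gS S := Finset.prod_insert hb
    rw [e]
    refine ⟨h3.mul h1, ?_⟩
    rw [I3.norm_mul', hn]
    refine Odd.mul ?_ h2
    have hp2 : p ≠ 2 := by
      intro h
      have := hp.2.1
      rw [h] at this
      omega
    exact_mod_cast hp.1.odd_of_ne_two hp2

end RF
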