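import Pool.Agent.MP_ae0bd0_nt.RF.Defs
import Pool.Agent.MP_9ab903_nt.CF.C1
import Pool.Agent.MP_ae0bd0_nt.RF.TH
import Pool.Agent.MP_9ab903_nt.CF.Defs
import Pool.Agent.MP_ae0bd0_nt.CM.D2
import Pool.Agent.MP_ae0bd0_nt.CM.I3

set_option autoImplicit false

open NumberField IsDedekindDomain
open CM27 CMT
open scoped ComplexConjugate Classical

namespace RF

open CM27 CMT CF

theorem c1_ne {b : Eis} (hb : NEis b) : b ≠ 0 := by
  rintro rfl
  obtain ⟨-, p, hp, hn⟩ := hb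
  rw [QuadraticAlgebra.norm_zero] at hn
  have h2 : p = 0 := by exact_mod_cast hn.symm
  exact hp.1.ne_zero h2

theorem c1_fin (S : Finset Eis) (hS : ∀ b ∈ S, NEis b) (b : {x // x ∈ S}) :
    Finite (Eis ⧸ Ideal.span {(b : Eis)}) := I3.quot_finite _ (c1_ne (hS b b.2))

theorem XX_finite (S : Finset Eis) (hS : ∀ b ∈ S, NEis b) : Finite (XX S) := by
  have : ∀ b : {x // x ∈ S}, Finite (Eis ⧸ Ideal.span {(b : Eis)}) := c1_fin S hS
  infer_instance

theorem mem_chF (S : Finset Eis) (hS : ∀ b ∈ S, NEis b) (F : IntermediateField ℚ ℂ) (X : XX S) :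
    X ∈ chF S F ↔ ∀ σ ∈ fixer F, ev S X (th S σ) = 1 := by
  have := XX_finite S hS
  have h : {X : XX S | ∀ σ ∈ fixer F, ev S X (th S σ) = 1}.Finite := Set.toFinite _
  unfold chF
  rw [dif_pos h, Set.Finite.mem_toFinset]
  rfl

section gen

variable {A Ξ : Type} [CommGroup A] [Finite A] (e : Ξ → A → ℂ) (hom : Ξ → A →* ℂˣ)
  (inv : (A →* ℂˣ) → Ξ) (h1 : ∀ χ a, e (inv χ) a = (χ a : ℂˣ)) (h2 : ∀ X a, ((hom X a : ℂˣ) : ℂ) = e X a)
  (h3 : ∀ X Y : Ξ, (∀ a, e X a = e Y a) → X = Y)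

end gen

theorem c1_finAS (S : Finset Eis) (hS : ∀ b ∈ S, NEis b) : Finite (AS S) := by
  have : ∀ b : {x // x ∈ S}, Finite (Eis ⧸ Ideal.span {(b : Eis)}) := c1_fin S hS
  infer_instance

/-- the product over the characters of `AS S` which are trivial on `H`: the characters which are
nontrivial on `J` give the factor `1` (compare CM/D2 `prod_char`; `AS S` is a finite abelian group, the
`ev S X` are all its characters) -/
theorem grp (S : Finset Eis) (hS : ∀ b ∈ S, NEis b) (H J : Subgroup (AS S)) (φ : AS S) (f : ℕ)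
    (hf : 0 < f) (hφ : ∀ k : ℕ, φ ^ k ∈ H ⊔ J ↔ f ∣ k) (T : Finset (XX S))
    (hT : ∀ X, X ∈ T ↔ ∀ a ∈ H, ev S X a = 1) (u : ℂ) :
    ∏ X ∈ T, (if ∀ a ∈ J, ev S X a = 1 then 1 - ev S X φ * u else 1) =
      (1 - u ^ f) ^ ((H ⊔ J).index / f) := by
  have := c1_finAS S hS
  exact @c1_grp (AS S) (XX S) inferInstance this (ev S) (c1_hom S) (c1_inv S) (c1_ev_inv S)
    (c1_hom_apply S) (c1_ev_inj S) H J φ f hφ T hT u

theorem card_chars (S : Finset Eis) (hS : ∀ b ∈ S, NEis b) (H : Subgroup (AS S))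
    (T : Finset (XX S)) (hT : ∀ X, X ∈ T ↔ ∀ a ∈ H, ev S X a = 1) : T.card = H.index := by
  have := c1_finAS S hS
  exact @c1_card (AS S) (XX S) inferInstance this (ev S) (c1_hom S) (c1_inv S) (c1_ev_inv S)
    (c1_hom_apply S) (c1_ev_inj S) H T hT

/-- the product of the values at `a` of all characters trivial on `H` is `1` or `-1` -/
theorem prod_ev (S : Finset Eis) (hS : ∀ b ∈ S, NEis b) (H : Subgroup (AS S))
    (T : Finset (XX S)) (hT : ∀ X, X ∈ T ↔ ∀ a ∈ H, ev S X a = 1) (a : AS S) :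
    ∏ X ∈ T, ev S X a = 1 ∨ ∏ X ∈ T, ev S X a = -1 := by
  have hinv : ∀ (X : XX S) (a : AS S), ev S (c1_inv S (c1_hom S X)⁻¹) a = (ev S X a)⁻¹ := by
    intro X a
    rw [c1_ev_inv, MonoidHom.inv_apply, Units.val_inv_eq_inv_val, c1_hom_apply]
  have hne : ∀ (X : XX S) (a : AS S), ev S X a ≠ 0 := by
    intro X a
    rw [← c1_hom_apply]
    exact Units.ne_zero _
  have h1 : ∏ X ∈ T, ev S X a = ∏ X ∈ T, (ev S X a)⁻¹ := by
    refine Finset.prod_bij' (fun X _ => c1_inv S (c1_hom S X)⁻¹)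
      (fun X _ => c1_inv S (c1_hom S X)⁻¹) ?_ ?_ ?_ ?_ ?_
    · intro X hX
      rw [hT] at hX ⊢
      intro b hb
      rw [hinv, hX b hb, inv_one]
    · intro X hX
      rw [hT] at hX ⊢
      intro b hb
      rw [hinv, hX b hb, inv_one]
    · intro X _
      refine c1_ev_inj S _ _ fun b => ?_
      rw [hinv, hinv, inv_inv]
    · intro X _
      refine c1_ev_inj S _ _ fun b => ?_
      rw [hinv, hinv, inv_inv]
    · intro X _
      rw [hinv, inv_inv]
  rw [Finset.prod_inv_distrib] at h1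
  have h2 : ∏ X ∈ T, ev S X a ≠ 0 := Finset.prod_ne_zero_iff.2 fun X _ => hne X a
  have h3 : (∏ X ∈ T, ev S X a) * (∏ X ∈ T, ev S X a) = 1 := by
    nth_rewrite 2 [h1]
    exact mul_inv_cancel₀ h2
  exact mul_self_eq_one_iff.1 h3

end RF
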