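import Pool.Agent.MP_ae0bd0_nt.RF.Defs
import Pool.Agent.MP_9ab903_nt.CF.G1
import Pool.Agent.MP_ae0bd0_nt.RF.C1
import Pool.Agent.MP_9ab903_nt.CF.Defs

set_option autoImplicit false

open NumberField IsDedekindDomain
open CM27 CMT
open scoped ComplexConjugate Classical

namespace RF

open CM27 CMT CF

theorem g1_ne_zero {b : Eis} (hb : NEis b) : b ≠ 0 := by
  rintro rfl
  obtain ⟨-, p, hp, h⟩ := hb
  have h1 : (0 : Eis).norm = 0 := by simp
  rw [h1] at h
  exact hp.1.ne_zero (by exact_mod_cast h.symm)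

theorem exists_th (S : Finset Eis) (hS : ∀ b ∈ S, NEis b) : ∃ θ, IsTh S θ := by
  have hne : ∀ b : {x // x ∈ S}, (b : Eis) ≠ 0 := fun b => g1_ne_zero (hS b b.2)
  choose f hf using fun (σ : AutK) (b : {x // x ∈ S}) =>
    g1_exists (b : Eis) (hne b) (σ : ℂ ≃+* ℂ) σ.2
  refine ⟨MonoidHom.mk' (fun σ b => f σ b) ?_, ?_⟩
  · intro σ τ
    funext b
    apply Units.ext
    exact g1_unique b (hne b) _ _ _ (hf (σ * τ) b)
      (g1_mul (b : Eis) (σ : ℂ ≃+* ℂ) (τ : ℂ ≃+* ℂ) _ _ (hf σ b) (hf τ b) (hne b))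
  · intro σ b u hu c
    exact hf σ b u hu c

theorem th_spec (S : Finset Eis) (hS : ∀ b ∈ S, NEis b) : IsTh S (th S) := by
  have h := exists_th S hS
  unfold th
  rw [dif_pos h]
  exact h.choose_spec

end RF
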