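import Pool.Agent.MP_ae0bd0_nt.RF.Defs
import Pool.Agent.MP_9ab903_nt.CF.G3
import Pool.Agent.MP_ae0bd0_nt.RF.G1
import Pool.Agent.MP_9ab903_nt.CF.Defs
import Pool.Agent.MP_9ab903_nt.CF.G1
import Pool.Agent.MP_9ab903_nt.AN.A9

set_option autoImplicit false

open NumberField IsDedekindDomain
open CM27 CMT
open scoped ComplexConjugate Classical

namespace RF

open CM27 CMT CF

theorem g3_good {b : Eis} (hb : NEis b) :
    ∃ p : ℕ, p.Prime ∧ Odd p ∧ b.norm = p ∧ Prime b := by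
  obtain ⟨_, p, hp, hn⟩ := hb
  refine ⟨p, hp.1, ?_, hn, a3_prime_of_norm p hp.1 b hn⟩
  rcases hp.1.eq_two_or_odd' with h | h
  · have := hp.2.1
    rw [h] at this
    norm_num at this
  · exact h

theorem g3_emb_ne {b : Eis} (hb : NEis b) : emb b ≠ 0 := by
  obtain ⟨p, _, _, _, hpr⟩ := g3_good hb
  intro h
  exact hpr.ne_zero (emb_injective (by rw [h, map_zero]))

/-- `δ / b` is not in the lattice when `b ∤ δ`. -/
theorem g3_not_mem {b δ : Eis} (hb : NEis b) (h : ¬ b ∣ δ) :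
    emb δ / emb b ∉ Set.range emb := by
  rintro ⟨c, hc⟩
  apply h
  refine ⟨c, emb_injective ?_⟩
  rw [map_mul, hc, mul_div_cancel₀ _ (g3_emb_ne hb)]

theorem g3_mul_mem {b : Eis} (hb : NEis b) {p : ℕ} (hn : b.norm = p) (δ : Eis) :
    (p : ℂ) * (emb δ / emb b) ∈ Set.range emb := by
  refine ⟨star b * δ, ?_⟩
  have h1 : emb b * emb (star b) = (p : ℂ) := by
    rw [← map_mul, a3_mul_star, hn]
    simp
  have h2 := g3_emb_ne hb
  rw [map_mul, ← h1]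
  field_simp

theorem g3_alg {b : Eis} (hb : NEis b) (δ : Eis) :
    IsAlgebraic ℚ (xw (emb δ / emb b)) ∧ IsAlgebraic ℚ (yw (emb δ / emb b)) := by
  obtain ⟨p, hp, hodd, hn, _⟩ := g3_good hb
  exact ⟨xw_alg p hodd _ (g3_mul_mem hb hn δ), yw_alg p hodd _ (g3_mul_mem hb hn δ)⟩

/-- finitely many generators, algebraic by AN/A9 (`xw_alg`, `yw_alg`, `b.norm` is an odd prime) -/
theorem LS_finite (S : Finset Eis) (hS : ∀ b ∈ S, NEis b) : FiniteDimensional ℚ (LS S) := by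
  have hfin : ({w} ∪ {c | ∃ b ∈ S, ∃ δ : Eis, ¬ b ∣ δ ∧
      (c = xw (emb δ / emb b) ∨ c = yw (emb δ / emb b))} : Set ℂ).Finite := by
    refine (Set.finite_singleton w).union ?_
    have hsub : {c | ∃ b ∈ S, ∃ δ : Eis, ¬ b ∣ δ ∧
        (c = xw (emb δ / emb b) ∨ c = yw (emb δ / emb b))} ⊆
        ⋃ b ∈ S, (Set.range (fun d : Eis ⧸ Ideal.span {b} => xw (emb d.out / emb b)) ∪
          Set.range (fun d : Eis ⧸ Ideal.span {b} => yw (emb d.out / emb b))) := by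
      rintro c ⟨b, hb, δ, _, hc⟩
      simp only [Set.mem_iUnion]
      refine ⟨b, hb, ?_⟩
      have hb' := hS b hb
      set d : Eis ⧸ Ideal.span {b} := Ideal.Quotient.mk _ δ with hd
      have h1 : Ideal.Quotient.mk (Ideal.span {b}) d.out = Ideal.Quotient.mk _ δ := by
        rw [← hd]
        exact Quotient.out_eq d
      rw [Ideal.Quotient.eq, Ideal.mem_span_singleton] at h1
      obtain ⟨e, he⟩ := h1
      have h2 : emb d.out / emb b = emb δ / emb b + emb e := by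
        have h3 : d.out = δ + b * e := by linear_combination he
        rw [h3, map_add, map_mul]
        field_simp [g3_emb_ne hb']
      rcases hc with rfl | rfl
      · left
        refine ⟨d, ?_⟩
        simp only []
        rw [h2, xw_add]
      · right
        refine ⟨d, ?_⟩
        simp only []
        rw [h2, yw_add]
    refine Set.Finite.subset ?_ hsub
    refine S.finite_toSet.biUnion fun b hb => ?_
    have hb' := hS b hb
    have hb0 : b ≠ 0 := by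
      obtain ⟨_, _, _, _, hpr⟩ := g3_good hb'
      exact hpr.ne_zero
    have : Finite (Eis ⧸ Ideal.span {b}) := I3.quot_finite b hb0
    exact (Set.finite_range _).union (Set.finite_range _)
  have : Finite ({w} ∪ {c | ∃ b ∈ S, ∃ δ : Eis, ¬ b ∣ δ ∧
      (c = xw (emb δ / emb b) ∨ c = yw (emb δ / emb b))} : Set ℂ) := hfin.to_subtype
  refine IntermediateField.finiteDimensional_adjoin ?_
  rintro x (hx | ⟨b, hb, δ, _, hx | hx⟩)
  · rw [Set.mem_singleton_iff] at hx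
    rw [hx]
    exact g3_w_alg.isIntegral
  · rw [hx]
    exact (g3_alg (hS b hb) δ).1.isIntegral
  · rw [hx]
    exact (g3_alg (hS b hb) δ).2.isIntegral

/-- The action on coordinates. -/
theorem g3_act {b c d : Eis} (hb : NEis b) (hc : ¬ b ∣ c) (hd : ¬ b ∣ d) (σ : ℂ ≃+* ℂ)
    (h : ptMap (σ : ℂ →+* ℂ) (pt (emb c / emb b)) = pt (emb d / emb b)) :
    σ (xw (emb c / emb b)) = xw (emb d / emb b) ∧ σ (yw (emb c / emb b)) = yw (emb d / emb b) := by
  obtain ⟨h1, e1⟩ := pt_of_not_mem _ (g3_not_mem hb hc)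
  obtain ⟨h2, e2⟩ := pt_of_not_mem _ (g3_not_mem hb hd)
  rw [e1, e2] at h
  have h3 := WeierstrassCurve.Affine.Point.some.inj h
  obtain ⟨h4, h5⟩ := h3
  have h6 : σ (xw (emb c / emb b)) = xw (emb d / emb b) := h4
  have h7 : σ ((yw (emb c / emb b) - 1) / 2) = (yw (emb d / emb b) - 1) / 2 := h5
  refine ⟨h6, ?_⟩
  have h8 : σ ((yw (emb c / emb b) - 1) / 2) = (σ (yw (emb c / emb b)) - 1) / 2 := by
    rw [map_div₀, map_sub, map_one, map_ofNat]
  rw [h8] at h7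
  linear_combination 2 * h7

theorem g3_unit {b : Eis} (hb : NEis b) {u : Eis} (v : (Eis ⧸ Ideal.span {b})ˣ)
    (hv : (v : Eis ⧸ Ideal.span {b}) = Ideal.Quotient.mk _ u) {c : Eis} (hc : ¬ b ∣ c) :
    ¬ b ∣ c * u := by
  obtain ⟨_, _, _, _, hpr⟩ := g3_good hb
  intro h
  rcases hpr.dvd_or_dvd h with h | h
  · exact hc h
  · have h0 : (v : Eis ⧸ Ideal.span {b}) = 0 := by
      rw [hv, Ideal.Quotient.eq_zero_iff_mem, Ideal.mem_span_singleton]
      exact h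
    have hnt : Nontrivial (Eis ⧸ Ideal.span {b}) := by
      apply Ideal.Quotient.nontrivial_iff.2
      rw [Ne, Ideal.span_singleton_eq_top]
      exact hpr.not_isUnit
    exact v.ne_zero h0

theorem LS_stable (S : Finset Eis) (hS : ∀ b ∈ S, NEis b) (σ : AutK) (x : ℂ) (hx : x ∈ LS S) :
    (σ : ℂ ≃+* ℂ) x ∈ LS S := by
  refine g3_ind S (fun x => (σ : ℂ ≃+* ℂ) x ∈ LS S) ?_ ?_ ?_ ?_ ?_ ?_ x hx
  · have : (σ : ℂ ≃+* ℂ) w = w := σ.2
    change (σ : ℂ ≃+* ℂ) w ∈ LS S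
    rw [this]
    exact w_mem_LS S
  · intro b hb δ hδ
    have hb' := hS b hb
    obtain ⟨u, hu⟩ := Ideal.Quotient.mk_surjective
      ((th S σ ⟨b, hb⟩ : (Eis ⧸ Ideal.span {b})ˣ) : Eis ⧸ Ideal.span {b})
    have h1 := th_spec S hS σ ⟨b, hb⟩ u hu.symm δ
    have hdu := g3_unit hb' _ hu.symm hδ
    obtain ⟨h2, h3⟩ := g3_act hb' hδ hdu _ h1
    refine ⟨?_, ?_⟩
    · rw [h2]
      exact g3_x_mem S hb hdu
    · rw [h3]
      exact g3_y_mem S hb hdu
  · intro q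
    rw [eq_ratCast, map_ratCast]
    exact (LS S).algebraMap_mem q
  · intro x y h1 h2
    rw [map_add]
    exact add_mem h1 h2
  · intro x h1
    rw [map_inv₀]
    exact inv_mem h1
  · intro x y h1 h2
    rw [map_mul]
    exact mul_mem h1 h2

/-- `th σ = 1` iff `σ` is trivial on `LS S` -/
theorem th_eq_one_iff (S : Finset Eis) (hS : ∀ b ∈ S, NEis b) (σ : AutK) :
    th S σ = 1 ↔ σ ∈ fixer (LS S) := by
  constructor
  · intro h x hx
    refine g3_ind S (fun x => (σ : ℂ ≃+* ℂ) x = x) σ.2 ?_ ?_ ?_ ?_ ?_ x hx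
    · intro b hb δ hδ
      have hb' := hS b hb
      have h1 := th_spec S hS σ ⟨b, hb⟩ 1 (by rw [h]; rfl) δ
      rw [mul_one] at h1
      exact g3_act hb' hδ hδ _ h1
    · intro q
      rw [eq_ratCast, map_ratCast]
    · intro x y h1 h2
      rw [map_add, h1, h2]
    · intro x h1
      rw [map_inv₀, h1]
    · intro x y h1 h2
      rw [map_mul, h1, h2]
  · intro h
    funext b
    obtain ⟨b, hb⟩ := b
    have hb' := hS b hb
    obtain ⟨p, hp, hodd, hn, hpr⟩ := g3_good hb'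
    apply Units.ext
    obtain ⟨u, hu⟩ := Ideal.Quotient.mk_surjective
      ((th S σ ⟨b, hb⟩ : (Eis ⧸ Ideal.span {b})ˣ) : Eis ⧸ Ideal.span {b})
    have h1 := th_spec S hS σ ⟨b, hb⟩ u hu.symm 1
    have hb1 : ¬ b ∣ 1 := fun h => hpr.not_isUnit (isUnit_of_dvd_one h)
    have h2 : ptMap ((σ : ℂ ≃+* ℂ) : ℂ →+* ℂ) (pt (emb 1 / emb b)) = pt (emb 1 / emb b) := by
      obtain ⟨h3, e3⟩ := pt_of_not_mem _ (g3_not_mem hb' hb1)
      rw [e3]
      have hx : (σ : ℂ ≃+* ℂ) (xw (emb 1 / emb b)) = xw (emb 1 / emb b) :=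
        h _ (g3_x_mem S hb hb1)
      have hy : (σ : ℂ ≃+* ℂ) (yw (emb 1 / emb b)) = yw (emb 1 / emb b) :=
        h _ (g3_y_mem S hb hb1)
      have hy2 : (σ : ℂ ≃+* ℂ) ((yw (emb 1 / emb b) - 1) / 2) = (yw (emb 1 / emb b) - 1) / 2 := by
        rw [map_div₀, map_sub, hy, map_ofNat, map_one (σ : ℂ ≃+* ℂ)]
      simp only [ptMap]
      congr 1
    have h3 : pt (emb 1 / emb b) = pt (emb (1 * u) / emb b) := h2.symm.trans h1
    rw [pt_eq_iff] at h3
    obtain ⟨e, he⟩ := h3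
    have h4 : (1 : Eis) - u = b * e := by
      apply emb_injective
      rw [map_mul, he, map_sub, one_mul]
      have := g3_emb_ne hb'
      field_simp
    have h5 : Ideal.Quotient.mk (Ideal.span {b}) u = Ideal.Quotient.mk _ 1 := by
      rw [Ideal.Quotient.eq, Ideal.mem_span_singleton]
      exact ⟨-e, by linear_combination -h4⟩
    have h6 : ((th S σ ⟨b, hb⟩ : (Eis ⧸ Ideal.span {b})ˣ) : Eis ⧸ Ideal.span {b}) = 1 := by
      rw [← hu, h5, map_one]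
    exact h6

theorem LS_comm (S : Finset Eis) (hS : ∀ b ∈ S, NEis b) (σ τ : AutK) (x : ℂ) (hx : x ∈ LS S) :
    (σ : ℂ ≃+* ℂ) ((τ : ℂ ≃+* ℂ) x) = (τ : ℂ ≃+* ℂ) ((σ : ℂ ≃+* ℂ) x) := by
  have h1 : th S (σ * τ * (τ * σ)⁻¹) = 1 := by
    rw [map_mul, map_inv, map_mul, map_mul, mul_comm (th S τ), mul_inv_cancel]
  have h2 := (th_eq_one_iff S hS _).1 h1
  have h3 : (τ : ℂ ≃+* ℂ) ((σ : ℂ ≃+* ℂ) x) ∈ LS S := LS_stable S hS τ _ (LS_stable S hS σ x hx)
  have h4 := h2 _ h3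
  have h5 : ((σ * τ * (τ * σ)⁻¹ : AutK) : ℂ ≃+* ℂ) ((τ : ℂ ≃+* ℂ) ((σ : ℂ ≃+* ℂ) x)) =
      (σ : ℂ ≃+* ℂ) ((τ : ℂ ≃+* ℂ) x) := by
    have h6 : (((τ * σ)⁻¹ : AutK) : ℂ ≃+* ℂ) ((τ : ℂ ≃+* ℂ) ((σ : ℂ ≃+* ℂ) x)) = x := by
      change ((τ * σ : AutK) : ℂ ≃+* ℂ).symm (((τ * σ : AutK) : ℂ ≃+* ℂ) x) = x
      exact RingEquiv.symm_apply_apply _ _
    change (σ : ℂ ≃+* ℂ) ((τ : ℂ ≃+* ℂ) ((((τ * σ)⁻¹ : AutK) : ℂ ≃+* ℂ)
      ((τ : ℂ ≃+* ℂ) ((σ : ℂ ≃+* ℂ) x)))) = _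
    rw [h6]
  rw [← h5, h4]

end RF
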