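import Pool.Agent.MP_ae0bd0_nt.RF.Defs
import Pool.Agent.MP_9ab903_nt.CF.G4
import Pool.Agent.MP_ae0bd0_nt.RF.G3
import Pool.Agent.MP_9ab903_nt.CF.Defs
import Pool.Agent.MP_9ab903_nt.CF.G2
import Pool.Agent.MP_9ab903_nt.CF.G3
import Pool.Agent.MP_9ab903_nt.CF.P5
import Pool.Agent.MP_9ab903_nt.CF.H3

set_option autoImplicit false

open NumberField IsDedekindDomain
open CM27 CMT
open scoped ComplexConjugate Classical

namespace RF

open CM27 CMT CF

/-- the value of `th` from the action on points -/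
theorem g4_th (S : Finset Eis) (hS : ∀ b ∈ S, NEis b) (σ : AutK) (b : {x // x ∈ S}) (u : Eis)
    (h : ptMap ((σ : ℂ ≃+* ℂ) : ℂ →+* ℂ) (pt (emb 1 / emb (b : Eis))) =
      pt (emb (1 * u) / emb (b : Eis))) :
    (th S σ b : Eis ⧸ Ideal.span {(b : Eis)}) = Ideal.Quotient.mk _ u := by
  obtain ⟨v, hv⟩ := Ideal.Quotient.mk_surjective (th S σ b : Eis ⧸ Ideal.span {(b : Eis)})
  have h1 := th_spec S hS σ b v hv.symm 1
  rw [h] at h1
  have h2 := g4_dvd b (hS b b.2).prime.ne_zero _ _ h1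
  rw [one_mul, one_mul] at h2
  rw [← hv, eq_comm, Ideal.Quotient.eq, Ideal.mem_span_singleton]
  exact h2

theorem g4_finite (S : Finset Eis) (hS : ∀ b ∈ S, NEis b) (b : {x // x ∈ S}) :
    Finite (Eis ⧸ Ideal.span {(b : Eis)}) :=
  I3.quot_finite _ (hS b b.2).prime.ne_zero

theorem g4_AS_finite (S : Finset Eis) (hS : ∀ b ∈ S, NEis b) : Finite (AS S) := by
  have := g4_finite S hS
  infer_instance

theorem g4_Ib_card (S : Finset Eis) (hS : ∀ b ∈ S, NEis b) (b : Eis) (hb : b ∈ S) (p : ℕ)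
    (hp : p.Prime) (hn : b.norm = p) : Nat.card (Ib S b) ≤ p - 1 := by
  have hfin := g4_finite S hS ⟨b, hb⟩
  refine le_trans ?_ (g4_card b p hp hn)
  have hinj : Function.Injective
      (fun a : Ib S b => ((a : AS S) ⟨b, hb⟩ : (Eis ⧸ Ideal.span {b})ˣ)) := by
    intro a a' h
    apply Subtype.ext
    funext b'
    by_cases hb' : (b' : Eis) = b
    · have : b' = ⟨b, hb⟩ := Subtype.ext hb'
      subst this
      exact h
    · rw [a.2 b' hb', a'.2 b' hb']
  have : Finite (Eis ⧸ Ideal.span {b})ˣ := by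
    have : Finite (Eis ⧸ Ideal.span {b}) := hfin
    infer_instance
  exact Nat.card_le_card_of_injective _ hinj

theorem g4_ker (S : Finset Eis) (hS : ∀ b ∈ S, NEis b) : (th S).ker = fixer (LS S) := by
  ext σ
  rw [MonoidHom.mem_ker]
  exact th_eq_one_iff S hS σ

theorem g4_relIndex (S : Finset Eis) (hS : ∀ b ∈ S, NEis b) (J : Subgroup AutK) :
    (fixer (LS S)).relIndex J = Nat.card (J.map (th S)) := by
  have h1 : ((th S).comp J.subtype).ker = (fixer (LS S)).subgroupOf J := by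
    rw [← g4_ker S hS]
    rfl
  have h2 : ((th S).comp J.subtype).range = J.map (th S) := by
    rw [MonoidHom.range_comp, Subgroup.range_subtype]
  rw [Subgroup.relIndex, ← h1, Subgroup.index_ker, h2]

/-- the main step -/
theorem g4_main (S : Finset Eis) (hS : ∀ b ∈ S, NEis b) (b : Eis) (hb : Primary b)
    (hbp : Prime b) : ∃ (φ : AutK) (J : Subgroup AutK),
      (∀ b' : {x // x ∈ S}, (b' : Eis) ≠ b →
        (th S φ b' : Eis ⧸ Ideal.span {(b' : Eis)}) = Ideal.Quotient.mk _ b) ∧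
      J.map (th S) = Ib S b ∧ fixer (LS S) ≤ J ∧
      ∀ (F : IntermediateField ℚ ℂ) [NumberField F], w ∈ F → F ≤ LS S → ∃ f g : ℕ, 0 < f ∧
        (above F b).Finite ∧ (above F b).ncard = g ∧
        (∀ v ∈ above F b, Nat.card (𝓞 F ⧸ v.asIdeal) = b.norm.natAbs ^ f) ∧
        (∀ k : ℕ, φ ^ k ∈ fixer F ⊔ J ↔ f ∣ k) ∧ (fixer F ⊔ J).index = g * f := by
  have hfd := LS_finite S hS
  have hnf : NumberField (LS S) := ⟨⟩
  obtain ⟨A, φ, J, hA, hφ, hJ, hfix, hram, hF⟩ :=
    hilbert_C (LS S) (w_mem_LS S) (fun σ x hx => LS_stable S hS σ x hx)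
      (fun σ τ x hx => LS_comm S hS σ τ x hx) b hbp
  have h3 := g4_three A b hb hA
  have hun : ∀ b' : {x // x ∈ S}, (b' : Eis) ≠ b → A.valuation (emb (b' : Eis)) = 1 :=
    fun b' hb' => g4_unit A b b' hA
      (g4_coprime b b' hb hbp (hS b' b'.2).1 (hS b' b'.2).prime hb')
  refine ⟨φ, J, ?_, ?_, hfix, hF⟩
  · intro b' hb'
    apply g4_th S hS
    have hu := hun b' hb'
    refine gal_frob A b hb hbp hA b' hu (φ : ℂ ≃+* ℂ) φ.2 ?_ 1
    intro δ hδ
    obtain ⟨hx, hy⟩ := g4_coords S b' b'.2 δ hδ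
    obtain ⟨v1, v2, -⟩ := val_tors A h3 b' hu δ hδ
    exact ⟨hφ _ hx v1, hφ _ (g4_yy_mem _ _ hy) v2⟩
  · have hle : J.map (th S) ≤ Ib S b := by
      rintro _ ⟨σ, hσ, rfl⟩ b' hb'
      have hu := hun b' hb'
      apply Units.ext
      rw [Units.val_one, ← map_one (Ideal.Quotient.mk (Ideal.span {(b' : Eis)}))]
      apply g4_th S hS
      rw [mul_one]
      refine gal_inert A h3 b' hu (σ : ℂ ≃+* ℂ) σ.2 ?_ 1
      intro δ hδ
      obtain ⟨hx, hy⟩ := g4_coords S b' b'.2 δ hδ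
      obtain ⟨v1, v2, -⟩ := val_tors A h3 b' hu δ hδ
      exact ⟨hJ σ hσ _ hx v1, hJ σ hσ _ (g4_yy_mem _ _ hy) v2⟩
    by_cases hbS : b ∈ S
    · obtain ⟨-, p, hp, hn⟩ := hS b hbS
      have hnd : ¬ b ∣ 1 := fun h => hbp.not_isUnit (isUnit_of_dvd_one h)
      obtain ⟨hx, hy⟩ := g4_coords S b hbS 1 hnd
      have h1 := hram _ (p - 1) (g4_zz_mem _ _ hx hy) (val_b A b hb p hp.1 hn hA 1 hnd)
      rw [g4_relIndex S hS] at h1
      have hfin := g4_AS_finite S hS
      have hpos : 0 < Nat.card (J.map (th S)) := Nat.card_pos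
      have h2 := Nat.le_of_dvd hpos h1
      have h4 := g4_Ib_card S hS b hbS p hp.1 hn
      apply Subgroup.eq_of_le_of_card_ge hle
      omega
    · refine le_antisymm hle ?_
      intro a ha
      have : a = 1 := by
        funext b'
        exact ha b' fun h => hbS (h ▸ b'.2)
      rw [this]
      exact Subgroup.one_mem _

theorem g4_surj (S : Finset Eis) (hS : ∀ b ∈ S, NEis b) :
    Function.Surjective (th S) := by
  have key : ∀ b : {x // x ∈ S}, ∀ a : AS S, (∀ b', b' ≠ b → a b' = 1) → a ∈ (th S).range := by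
    intro b a ha
    obtain ⟨φ, J, -, hJ, -⟩ := g4_main S hS b (hS b b.2).1 (hS b b.2).prime
    have h1 : a ∈ Ib S (b : Eis) := by
      intro b' hb'
      exact ha b' (fun h => hb' (by rw [h]))
    rw [← hJ] at h1
    obtain ⟨σ, -, hσ⟩ := h1
    exact ⟨σ, hσ⟩
  intro a
  have h2 : ∀ T : Finset {x // x ∈ S},
      (fun b => if b ∈ T then a b else 1 : AS S) ∈ (th S).range := by
    intro T
    induction T using Finset.induction_on with
    | empty =>
      have e : (fun b => if b ∈ (∅ : Finset {x // x ∈ S}) then a b else 1 : AS S) = 1 := by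
        funext b
        simp
      rw [e]
      exact Subgroup.one_mem _
    | insert b T hb ih =>
      have e : (fun b' => if b' ∈ insert b T then a b' else 1 : AS S) =
          (fun b' => if b' = b then a b' else 1 : AS S) *
            (fun b' => if b' ∈ T then a b' else 1 : AS S) := by
        funext b'
        rw [Pi.mul_apply]
        by_cases h : b' = b
        · subst h
          simp [hb]
        · simp [h]
      rw [e]
      refine Subgroup.mul_mem _ (key b _ fun b' hb' => ?_) ih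
      simp [hb']
  have h3 := h2 Finset.univ
  have e : (fun b => if b ∈ (Finset.univ : Finset {x // x ∈ S}) then a b else 1 : AS S) = a := by
    funext b
    simp
  rw [e] at h3
  exact h3

/-- Sketch: `hilbert_C` for `L = LS S`. For `b' ∈ S`, `b' ≠ b`, `|b'| = 1` (coprime primes), so by
`gal_frob`, `gal_inert` (`g = b'`): `th φ` is `b` at `b'` and `th σ` is `1` at `b'` for `σ ∈ J`. If
`b ∈ S` then `zz (pt (1/b)) ∈ LS S` has `|zz|^(p-1) = |b|` (`val_b`), so `p - 1` divides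
`[J : fixer (LS S)] = #(th J)`, and `th J ≤ Ib S b` which has `p - 1` elements. Hence `th J = Ib S b`
for all `b ∈ S`, and `th` is surjective. The statements on `F` are transported by `th`
(`fixer (LS S) = ker th ≤ fixer F`). -/
theorem decomp (S : Finset Eis) (hS : ∀ b ∈ S, NEis b) (b : Eis) (hb : Primary b)
    (hbp : Prime b) : ∃ φ : AS S,
      (∀ b' : {x // x ∈ S}, (b' : Eis) ≠ b →
        (φ b' : Eis ⧸ Ideal.span {(b' : Eis)}) = Ideal.Quotient.mk _ b) ∧
      ∀ (F : IntermediateField ℚ ℂ) [NumberField F], w ∈ F → F ≤ LS S → ∃ f g : ℕ, 0 < f ∧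
        (above F b).Finite ∧ (above F b).ncard = g ∧
        (∀ v ∈ above F b, Nat.card (𝓞 F ⧸ v.asIdeal) = b.norm.natAbs ^ f) ∧
        (∀ k : ℕ, φ ^ k ∈ (fixer F).map (th S) ⊔ Ib S b ↔ f ∣ k) ∧
        ((fixer F).map (th S) ⊔ Ib S b).index = g * f := by
  obtain ⟨φ, J, h1, hJ, hfix, hF⟩ := g4_main S hS b hb hbp
  refine ⟨th S φ, h1, fun F _ hw hFL => ?_⟩
  obtain ⟨f, g, hf, h2, h3, h4, h5, h6⟩ := hF F hw hFL
  have hker : (th S).ker ≤ fixer F ⊔ J := by
    rw [g4_ker S hS]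
    exact hfix.trans le_sup_right
  refine ⟨f, g, hf, h2, h3, h4, ?_, ?_⟩
  · intro k
    rw [← hJ, ← Subgroup.map_sup, ← h5 k, ← map_pow, ← Subgroup.mem_comap,
      Subgroup.comap_map_eq_self hker]
  · rw [← hJ, ← Subgroup.map_sup, Subgroup.index_map_eq _ (g4_surj S hS) hker, h6]

theorem th_surjective (S : Finset Eis) (hS : ∀ b ∈ S, NEis b) :
    Function.Surjective (th S) := g4_surj S hS

end RF
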