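import Pool.Agent.MP_ae0bd0_nt.RF.Defs
import Pool.Agent.MP_9ab903_nt.CF.G5
import Pool.Agent.MP_ae0bd0_nt.RF.G4
import Pool.Agent.MP_9ab903_nt.CF.Defs
import Pool.Agent.MP_9ab903_nt.CF.G4
import Pool.Agent.MP_9ab903_nt.CF.C1

set_option autoImplicit false

open NumberField IsDedekindDomain
open CM27 CMT
open scoped ComplexConjugate Classical

namespace RF

open CM27 CMT CF

theorem g5_mem_map (S : Finset Eis) (hS : ∀ b ∈ S, NEis b) (F : IntermediateField ℚ ℂ)
    (X : XX S) : X ∈ chF S F ↔ ∀ a ∈ (fixer F).map (th S), ev S X a = 1 := by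
  rw [mem_chF S hS]
  constructor
  · rintro h a ⟨σ, hσ, rfl⟩
    exact h σ hσ
  · intro h σ hσ
    exact h _ ⟨σ, hσ, rfl⟩

/-- Sketch: `decomp` and `grp` with `H = th (fixer F)`, `J = Ib S b`: `ev S X` is trivial on `Ib S b`
iff `X b = 1` or `b ∉ S`; then `Xt S X b = ev S X φ`; otherwise `Xt S X b = 0`. (`b' ∈ S`, `b' ≠ b` are
not associated as they are primary, so `b` is a unit modulo `b'`.) -/
theorem split_LS (S : Finset Eis) (hS : ∀ b ∈ S, NEis b) (b : Eis) (hb : Primary b)
    (hbp : Prime b) (F : IntermediateField ℚ ℂ) [NumberField F] (hw : w ∈ F) (hF : F ≤ LS S) :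
    ∃ f g : ℕ, 0 < f ∧ (above F b).Finite ∧ (above F b).ncard = g ∧
      (∀ v ∈ above F b, Nat.card (𝓞 F ⧸ v.asIdeal) = b.norm.natAbs ^ f) ∧
      ∀ u : ℂ, ∏ X ∈ chF S F, (1 - Xt S X b * u) = (1 - u ^ f) ^ g := by
  obtain ⟨φ, hφ, hdec⟩ := decomp S hS b hb hbp
  obtain ⟨f, g, hf, hfin, hg, hcard, hpow, hidx⟩ := hdec F hw hF
  refine ⟨f, g, hf, hfin, hg, hcard, fun u => ?_⟩
  have h1 := grp S hS ((fixer F).map (th S)) (Ib S b) φ f hf hpow (chF S F)
    (g5_mem_map S hS F) u
  rw [hidx, Nat.mul_div_cancel _ hf] at h1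
  rw [← h1]
  refine Finset.prod_congr rfl fun X _ => ?_
  by_cases hX : ∃ h : b ∈ S, X ⟨b, h⟩ ≠ 1
  · obtain ⟨hbS, hX⟩ := hX
    -- `Xt S X b = 0`
    have hne : Nontrivial (Eis ⧸ Ideal.span {b}) := by
      rw [Ideal.Quotient.nontrivial_iff]
      intro htop
      rw [Ideal.span_singleton_eq_top] at htop
      exact hbp.not_isUnit htop
    have hz : Xt S X b = 0 := by
      unfold Xt
      refine Finset.prod_eq_zero (Finset.mem_univ (⟨b, hbS⟩ : {x // x ∈ S})) ?_
      rw [if_neg hX]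
      have h0 : (Ideal.Quotient.mk (Ideal.span {((⟨b, hbS⟩ : {x // x ∈ S}) : Eis)})) b = 0 :=
        Ideal.Quotient.eq_zero_iff_mem.2 (Ideal.mem_span_singleton_self b)
      rw [h0]
      exact MulChar.map_nonunit _ (by
        change ¬ IsUnit (0 : Eis ⧸ Ideal.span {b})
        exact not_isUnit_zero)
    have hnot : ¬ ∀ a ∈ Ib S b, ev S X a = 1 := by
      intro hall
      apply hX
      refine MulChar.ext fun v => ?_
      rw [MulChar.one_apply_coe, ← g5_ev_single S X ⟨b, hbS⟩ v]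
      refine hall _ ?_
      intro b' hb'
      have hne' : b' ≠ (⟨b, hbS⟩ : {x // x ∈ S}) := fun h => hb' (congrArg Subtype.val h)
      exact Pi.mulSingle_eq_of_ne
        (M := fun c : {x // x ∈ S} => (Eis ⧸ Ideal.span {(c : Eis)})ˣ) hne' v
    rw [if_neg hnot, hz, zero_mul, sub_zero]
  · have hX' : ∀ b' : {x // x ∈ S}, (b' : Eis) = b → X b' = 1 := by
      rintro ⟨c, hc⟩ h
      subst h
      by_contra hcon
      exact hX ⟨hc, hcon⟩
    have hall : ∀ a ∈ Ib S b, ev S X a = 1 := by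
      intro a ha
      unfold ev
      refine Finset.prod_eq_one fun b' _ => ?_
      by_cases h : (b' : Eis) = b
      · rw [hX' b' h, MulChar.one_apply_coe]
      · rw [ha b' h, Units.val_one, map_one]
    have hev : Xt S X b = ev S X φ := by
      unfold Xt ev
      refine Finset.prod_congr rfl fun b' _ => ?_
      by_cases h : X b' = 1
      · rw [if_pos h, h, MulChar.one_apply_coe]
      · rw [if_neg h, hφ b' (fun h' => h (hX' b' h'))]
    rw [if_pos hall, hev]

theorem g5_index (S : Finset Eis) (hS : ∀ b ∈ S, NEis b) (F : IntermediateField ℚ ℂ)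
    (hF : F ≤ LS S) : ((fixer F).map (th S)).index = (fixer F).index := by
  rw [Subgroup.index_map]
  have h1 : (th S).range = ⊤ := MonoidHom.range_eq_top.2 (th_surjective S hS)
  have h2 : (th S).ker ≤ fixer F := by
    intro σ hσ
    rw [MonoidHom.mem_ker, th_eq_one_iff S hS] at hσ
    intro x hx
    exact hσ x (hF hx)
  rw [h1, Subgroup.index_top, mul_one, sup_eq_left.2 h2]

theorem card_chF (S : Finset Eis) (hS : ∀ b ∈ S, NEis b) (F : IntermediateField ℚ ℂ)
    [NumberField F] (hw : w ∈ F) (hF : F ≤ LS S) :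
    2 * (chF S F).card = Module.finrank ℚ F := by
  rw [card_chars S hS _ _ (g5_mem_map S hS F), g5_index S hS F hF, index_fixer F hw]

/-- if `[F : ℚ(ω)] = N` then the components of the characters of `F` have order dividing `N` -/
theorem pow_chF (S : Finset Eis) (hS : ∀ b ∈ S, NEis b) (F : IntermediateField ℚ ℂ)
    [NumberField F] (hw : w ∈ F) (hF : F ≤ LS S) (N : ℕ) (h : Module.finrank ℚ F = 2 * N)
    (X : XX S) (hX : X ∈ chF S F) (b : {x // x ∈ S}) : X b ^ N = 1 := by
  have hidx : ((fixer F).map (th S)).index = N := by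
    have h1 := index_fixer F hw
    rw [h, ← g5_index S hS F hF] at h1
    exact Nat.eq_of_mul_eq_mul_left two_pos h1
  rw [g5_mem_map S hS] at hX
  refine MulChar.ext fun v => ?_
  rw [MulChar.one_apply_coe, MulChar.pow_apply_coe, ← g5_ev_single S X b v, ← g5_ev_pow]
  refine hX _ ?_
  rw [← hidx]
  have hn : ((fixer F).map (th S)).Normal := ⟨fun a ha g => by
    have e : g * a * g⁻¹ = a := by
      funext c
      simp only [Pi.mul_apply, Pi.inv_apply]
      rw [mul_comm (g c) (a c), mul_assoc, mul_inv_cancel, mul_one]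
    rw [e]
    exact ha⟩
  exact Subgroup.pow_index_mem _ _

end RF
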