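import Pool.Agent.MP_ae0bd0_nt.RF.Defs
import Pool.Agent.MP_9ab903_nt.CF.D2
import Pool.Agent.MP_ae0bd0_nt.RF.A1
import Pool.Agent.MP_9ab903_nt.CF.G4

set_option autoImplicit false

open NumberField IsDedekindDomain
open CM27 CMT
open scoped ComplexConjugate Classical

namespace RF

open CM27 CMT CF

/-- `F` is stable under the automorphisms of `ℂ` over `ℚ(ω)` -/
theorem d2_stable (S : Finset Eis) (hS : ∀ b ∈ S, NEis b) (F : IntermediateField ℚ ℂ)
    [NumberField F] (hw : w ∈ F) (hF : F ≤ LS S) (σ : AutK) (x : ℂ) (hx : x ∈ F) :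
    (σ : ℂ ≃+* ℂ) x ∈ F := by
  set y : ℂ := (σ : ℂ ≃+* ℂ) x with hy
  have hxi : IsIntegral ℚ x := by
    have h1 : IsIntegral ℚ (⟨x, hx⟩ : F) := Algebra.IsIntegral.isIntegral _
    exact h1.map F.val
  have hyi : IsIntegral ℚ y := by
    have h1 := hxi.map (RingHom.toRatAlgHom (σ : ℂ ≃+* ℂ).toRingHom)
    exact h1
  have hfd : FiniteDimensional ℚ F := inferInstance
  have hfd' : FiniteDimensional ℚ (IntermediateField.adjoin ℚ {y}) :=
    IntermediateField.adjoin.finiteDimensional hyi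
  have hfd2 : FiniteDimensional ℚ ↥(F ⊔ IntermediateField.adjoin ℚ {y}) :=
    IntermediateField.finiteDimensional_sup F _
  have hnf : NumberField ↥(F ⊔ IntermediateField.adjoin ℚ {y}) :=
    { to_charZero := inferInstance, to_finiteDimensional := hfd2 }
  have hwF : w ∈ F ⊔ IntermediateField.adjoin ℚ {y} := (le_sup_left : F ≤ _) hw
  have hfix : fixer (F ⊔ IntermediateField.adjoin ℚ {y}) = fixer F := by
    apply le_antisymm
    · intro τ hτ
      rw [d2_mem_fixer] at hτ ⊢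
      exact le_sup_left.trans hτ
    · intro τ hτ
      rw [d2_mem_fixer] at hτ ⊢
      refine sup_le hτ ?_
      rw [IntermediateField.adjoin_le_iff, Set.singleton_subset_iff]
      change (τ : ℂ ≃+* ℂ) y = y
      rw [hy, LS_comm S hS τ σ x (hF hx), show (τ : ℂ ≃+* ℂ) x = x from hτ hx]
  have h1 := index_fixer F hw
  have h2 := index_fixer (F ⊔ IntermediateField.adjoin ℚ {y}) hwF
  rw [hfix, h1] at h2
  have h3 : F = F ⊔ IntermediateField.adjoin ℚ {y} :=
    IntermediateField.eq_of_le_of_finrank_eq le_sup_left h2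
  rw [h3]
  exact (le_sup_right : _ ≤ F ⊔ IntermediateField.adjoin ℚ {y})
    (IntermediateField.mem_adjoin_simple_self ℚ y)

/-- the restriction of `σ` to `F` -/
noncomputable def d2_res (S : Finset Eis) (hS : ∀ b ∈ S, NEis b) (F : IntermediateField ℚ ℂ)
    [NumberField F] (hw : w ∈ F) (hF : F ≤ LS S) (σ : AutK) :
    letI := algK F hw; F ≃ₐ[KK] F :=
  letI := algK F hw
  haveI := d2_finite F hw
  AlgEquiv.ofBijective
    ({ toFun := fun x => ⟨(σ : ℂ ≃+* ℂ) x, d2_stable S hS F hw hF σ x x.2⟩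
       map_one' := Subtype.ext (map_one (σ : ℂ ≃+* ℂ))
       map_mul' := fun x y => Subtype.ext (map_mul (σ : ℂ ≃+* ℂ) _ _)
       map_zero' := Subtype.ext (map_zero (σ : ℂ ≃+* ℂ))
       map_add' := fun x y => Subtype.ext (map_add (σ : ℂ ≃+* ℂ) _ _)
       commutes' := fun c => Subtype.ext (d2_AutK_fix σ c c.2) } : F →ₐ[KK] F)
    (AlgHom.bijective _)

theorem d2_res_apply (S : Finset Eis) (hS : ∀ b ∈ S, NEis b) (F : IntermediateField ℚ ℂ)
    [NumberField F] (hw : w ∈ F) (hF : F ≤ LS S) (σ : AutK) (x : F) :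
    ((d2_res S hS F hw hF σ x : F) : ℂ) = (σ : ℂ ≃+* ℂ) x := rfl

theorem d2_galois (S : Finset Eis) (hS : ∀ b ∈ S, NEis b) (F : IntermediateField ℚ ℂ)
    [NumberField F] (hw : w ∈ F) (hF : F ≤ LS S) :
    letI := algK F hw; IsGalois KK F := by
  letI := algK F hw
  haveI := d2_finite F hw
  have hfr : Module.finrank KK F = (fixer F).index := by
    have h1 := index_fixer F hw
    have h2 := d2_finrank F hw
    have h3 : 2 * (fixer F).index = 2 * Module.finrank KK F := by rw [h1]; exact h2.symm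
    omega
  apply IsGalois.of_card_aut_eq_finrank
  apply le_antisymm
  · rw [Nat.card_eq_fintype_card]
    exact AlgEquiv.card_le
  · rw [hfr, Subgroup.index]
    have hfin : Finite (F ≃ₐ[KK] F) := inferInstance
    refine Nat.card_le_card_of_injective
      (fun q : AutK ⧸ fixer F => d2_res S hS F hw hF q.out) ?_
    intro q q' h
    have h1 : ∀ x ∈ F, ((q.out : AutK) : ℂ ≃+* ℂ) x = ((q'.out : AutK) : ℂ ≃+* ℂ) x := by
      intro x hx
      have h2 := congrArg (fun τ : F ≃ₐ[KK] F => ((τ ⟨x, hx⟩ : F) : ℂ)) h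
      exact h2
    have h3 : (q.out : AutK)⁻¹ * q'.out ∈ fixer F := by
      intro x hx
      change ((q.out : AutK) : ℂ ≃+* ℂ).symm (((q'.out : AutK) : ℂ ≃+* ℂ) x) = x
      rw [← h1 x hx, RingEquiv.symm_apply_apply]
    have h4 := QuotientGroup.eq.2 h3
    rwa [QuotientGroup.out_eq', QuotientGroup.out_eq'] at h4

/-- Galois: `LS_stable`, `extend_aut`. -/
theorem galois_F (S : Finset Eis) (hS : ∀ b ∈ S, NEis b) (F : IntermediateField ℚ ℂ)
    [NumberField F] (hw : w ∈ F) (hF : F ≤ LS S) (N : ℕ) (h : Module.finrank ℚ F = 2 * N) :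
    letI := algK F hw; IsGalois KK F ∧ Module.finrank KK F = N := by
  letI := algK F hw
  refine ⟨d2_galois S hS F hw hF, ?_⟩
  have h1 := d2_finrank F hw
  rw [h] at h1
  exact Nat.eq_of_mul_eq_mul_left two_pos h1

/-- Unramified outside of `3` and `S`: `decomp` for the primary prime `b` below `P`, `b ∉ S`, so
`Ib S b` is trivial: the number `g` of the places of `F` above `b` and the residue degree `f` satisfy
`g f = [F : ℚ(ω)]` (`index_fixer`, `th_eq_one_iff`, `th_surjective`), so `∑ e_v f_v = [F : ℚ(ω)]`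
forces all `e_v = 1`. -/
theorem unram_F (S : Finset Eis) (hS : ∀ b ∈ S, NEis b) (F : IntermediateField ℚ ℂ)
    [NumberField F] (hw : w ∈ F) (hF : F ≤ LS S) :
    letI := algK F hw
    ∀ (v : HeightOneSpectrum (𝓞 KK)) (P : HeightOneSpectrum (𝓞 F)),
      P.asIdeal.LiesOver v.asIdeal → (3 : 𝓞 KK) ∉ v.asIdeal →
      (∀ b ∈ S, ∀ x : 𝓞 KK, ((x : KK) : ℂ) = emb b → x ∉ v.asIdeal) →
      P.asIdeal.ramificationIdx (𝓞 KK) = 1 := by
  letI := algK F hw
  intro v P hPv h3 hSv
  haveI := d2_finite F hw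
  haveI := d2_galois S hS F hw hF
  obtain ⟨φ, hφ⟩ := exists_KK
  obtain ⟨b, hb, hbp, hbv⟩ := d2_gen φ v h3
  have hbS : b ∉ S := fun hbS => hSv b hbS (φ b) (hφ b) ((hbv b).2 dvd_rfl)
  obtain ⟨ϕ, -, hdec⟩ := decomp S hS b hb hbp
  have hIb : Ib S b = ⊥ := by
    rw [eq_bot_iff]
    intro a ha
    rw [Subgroup.mem_bot]
    funext b'
    exact ha b' (fun h => hbS (h ▸ b'.2))
  -- the residue field of `ℚ(ω)`
  have hq : Nat.card (𝓞 KK ⧸ v.asIdeal) = b.norm.natAbs := by
    obtain ⟨f, g, hf, -, -, hc, -, hidx⟩ := hdec KK d2_w_mem (KK_le _ (w_mem_LS S))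
    have h1 : (fixer KK).map (th S) ⊔ Ib S b = ⊤ := by
      rw [eq_top_iff]
      intro a _
      obtain ⟨σ, rfl⟩ := th_surjective S hS a
      exact Subgroup.mem_sup_left ⟨σ, fun x hx => d2_AutK_fix σ x hx, rfl⟩
    rw [h1, Subgroup.index_top] at hidx
    have hf1 : f = 1 := Nat.eq_one_of_mul_eq_one_left hidx.symm
    have := hc v ⟨φ b, (hbv b).2 dvd_rfl, hφ b⟩
    rwa [hf1, pow_one] at this
  obtain ⟨f, g, hf, hfin, hg, hc, -, hidx⟩ := hdec F hw hF
  have habove : ∀ Q : HeightOneSpectrum (𝓞 F), Q ∈ above F b ↔ Q.asIdeal.LiesOver v.asIdeal := by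
    intro Q
    have hcoe : ∀ a : Eis, (((algebraMap (𝓞 KK) (𝓞 F) (φ a) : 𝓞 F) : F) : ℂ) = emb a := by
      intro a
      rw [← hφ a]
      rfl
    constructor
    · rintro ⟨x, hx, hxb⟩
      have hx' : x = algebraMap (𝓞 KK) (𝓞 F) (φ b) := by
        apply RingOfIntegers.ext
        apply Subtype.ext
        rw [hxb, hcoe]
      rw [hx'] at hx
      have hle : v.asIdeal ≤ Q.asIdeal.under (𝓞 KK) := by
        intro y hy
        have h1 : b ∣ φ.symm y := by
          rw [← hbv, φ.apply_symm_apply]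
          exact hy
        obtain ⟨c, hc⟩ := h1
        have h2 : y = φ b * φ c := by rw [← map_mul, ← hc, φ.apply_symm_apply]
        rw [h2]
        exact Ideal.mul_mem_right _ _ hx
      have hmax : v.asIdeal.IsMaximal := v.isMaximal
      exact ⟨hmax.eq_of_le (Ideal.IsPrime.ne_top inferInstance) hle⟩
    · intro hQ
      refine ⟨algebraMap (𝓞 KK) (𝓞 F) (φ b), ?_, hcoe b⟩
      have h1 : φ b ∈ v.asIdeal := (hbv b).2 dvd_rfl
      rw [Ideal.over_def Q.asIdeal v.asIdeal] at h1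
      exact h1
  have hPa : P ∈ above F b := (habove P).2 hPv
  have hncard : (v.asIdeal.primesOver (𝓞 F)).ncard = g := by
    rw [← hg]
    have hbij : Set.BijOn HeightOneSpectrum.asIdeal (above F b) (v.asIdeal.primesOver (𝓞 F)) := by
      refine ⟨fun v hv => ⟨v.isPrime, (habove v).1 hv⟩,
        fun _ _ _ _ h => HeightOneSpectrum.ext h, ?_⟩
      intro Q hQ
      have hQ0 : Q ≠ ⊥ := Ideal.ne_bot_of_mem_primesOver v.ne_bot hQ
      exact ⟨⟨Q, hQ.1, hQ0⟩, (habove _).2 hQ.2, rfl⟩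
    exact hbij.ncard_eq.symm
  have hgf : g * f = Module.finrank KK F := by
    rw [← hidx, hIb, sup_bot_eq, Subgroup.index_map_eq _ (th_surjective S hS)]
    · have h1 := index_fixer F hw
      have h2 := d2_finrank F hw
      have h3 : 2 * (fixer F).index = 2 * Module.finrank KK F := by rw [h1]; exact h2.symm
      omega
    · intro σ hσ
      have h1 := (th_eq_one_iff S hS σ).1 hσ
      intro x hx
      exact h1 x (hF hx)
  exact d2_aux KK F v P hPv _ f g hq (hc P hPa) hncard hgf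

end RF
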