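import Pool.Agent.MP_ae0bd0_nt.RF.Defs
import Pool.Agent.MP_9ab903_nt.CF.T1
import Pool.Agent.MP_ae0bd0_nt.RF.D2
import Pool.Agent.MP_9ab903_nt.CF.TFDefs
import Pool.Agent.MP_9ab903_nt.CF.G3
import Pool.Agent.MP_dfae13_nt.T.TF1
import Pool.Agent.MP_dfae13_nt.T.TE2
import Pool.Agent.MP_ae0bd0_nt.CM.I4
import Pool.Agent.MP_ae0bd0_nt.CM.A2

set_option autoImplicit false

open NumberField IsDedekindDomain
open CM27 CMT
open scoped ComplexConjugate Classical

namespace RF

open CM27 CMT CF

theorem t1_good_of_dvd {m : ℕ} (hm : NLevel m) {d : Eis} (hd : d ∣ (m : Eis)) (p : ℕ)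
    (hp : p.Prime) (h : (p : ℤ) ∣ d.norm) : NP7 p := by
  apply hm.2 p hp
  have h1 : (p : ℤ) ∣ (m : ℤ) ^ 2 := by
    rw [← i4_norm_natCast m]
    exact h.trans (a2_norm_dvd hd)
  exact_mod_cast (Nat.prime_iff_prime_int.1 hp).dvd_of_dvd_pow h1

theorem t1_squarefree (m : ℕ) (hm : NLevel m) : Squarefree (m : Eis) := by
  intro x hx
  by_contra hxu
  have := eis_isDomain
  have := eis_pid
  have hm0 : m ≠ 0 := hm.1.ne_zero
  have hm0' := t1_cast_ne_zero hm0
  have hx0 : x ≠ 0 := by
    rintro rfl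
    rw [zero_mul, zero_dvd_iff] at hx
    exact hm0' hx
  obtain ⟨q, hq, hqx⟩ := WfDvdMonoid.exists_irreducible_factor hxu hx0
  have hqp : Prime q := hq.prime
  have hqm : q * q ∣ (m : Eis) := (mul_dvd_mul hqx hqx).trans hx
  obtain ⟨v, b, hv, hb, hqb⟩ := f1_prime hqp
    (t1_good_of_dvd hm ((dvd_mul_right q q).trans hqm))
  obtain ⟨hbP, p, hpg, hbn⟩ := hb
  have hbp : Prime b := a3_prime_of_norm p hpg.1 b hbn
  have hbq : b ∣ q := ⟨v, by rw [hqb]; ring⟩
  have hbb : b * b ∣ (m : Eis) := (mul_dvd_mul hbq hbq).trans hqm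
  have hbn2 : b * star b = ((p : ℕ) : Eis) := by
    rw [a3_mul_star, hbn]; push_cast; rfl
  have hpm : p ∣ m := by
    have h1 : (p : ℤ) ∣ (m : ℤ) ^ 2 := by
      rw [← i4_norm_natCast m, ← hbn]
      exact a2_norm_dvd ((dvd_mul_right b b).trans hbb)
    exact_mod_cast (Nat.prime_iff_prime_int.1 hpg.1).dvd_of_dvd_pow h1
  obtain ⟨k, hk⟩ := hpm
  have h2 : b * b ∣ b * (star b * (k : Eis)) := by
    have h3 : b * (star b * (k : Eis)) = (m : Eis) := by
      rw [← mul_assoc, hbn2, hk]; push_cast; ring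
    rw [h3]; exact hbb
  have h4 : b ∣ star b * (k : Eis) := (mul_dvd_mul_iff_left hbp.ne_zero).1 h2
  rcases hbp.dvd_or_dvd h4 with h | h
  · exact not_dvd_star p hpg.1 hpg.2.1 b hbn h
  · have h5 : (p : ℤ) ∣ (k : ℤ) ^ 2 := by
      rw [← i4_norm_natCast k, ← hbn]
      exact a2_norm_dvd h
    have h6 : p ∣ k := by
      exact_mod_cast (Nat.prime_iff_prime_int.1 hpg.1).dvd_of_dvd_pow h5
    have h7 : p * p ∣ m := by
      rw [hk]; exact mul_dvd_mul_left p h6
    have h8 := hm.1 p h7
    exact hpg.1.one_lt.ne' (Nat.isUnit_iff.1 h8)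

/-- the primary prime elements which divide `m` -/
theorem exists_S_level (m : ℕ) (hm : NLevel m) : ∃ S : Finset Eis, (∀ b ∈ S, NEis b) ∧
    (∀ b : Eis, b ∈ S ↔ Primary b ∧ Prime b ∧ b ∣ (m : Eis)) ∧
    ∃ u : Eis, IsUnit u ∧ (m : Eis) = u * gS S := by
  have := eis_isDomain
  obtain ⟨S, u, hS, hu, hmu⟩ := RF.exists_S (m : Eis) (t1_squarefree m hm)
    (t1_cast_ne_zero hm.1.ne_zero) (fun p hp h => t1_good_of_dvd hm dvd_rfl p hp h)
  refine ⟨S, hS, ?_, u, hu, hmu⟩
  intro b
  constructor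
  · intro hb
    refine ⟨(hS b hb).1, (hS b hb).prime, ?_⟩
    rw [hmu]
    exact (Finset.dvd_prod_of_mem (fun b => b) hb).trans (Dvd.intro_left u rfl)
  · rintro ⟨hP, hp, hd⟩
    rw [hmu] at hd
    rcases hp.dvd_or_dvd hd with h | h
    · exact absurd (isUnit_of_dvd_unit h hu) hp.not_unit
    · exact gS_dvd hS hP hp h

theorem t1_all_rat (S : Finset Eis) (hS : ∀ b ∈ S, NEis b) (T : Finset Eis) (hT : T ⊆ S)
    (a : Eis) : T1Rat (LS S) (emb a / emb (gS T)) := by
  have := eis_isDomain
  induction T using Finset.induction_on generalizing a with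
  | empty =>
    have : gS (∅ : Finset Eis) = 1 := by simp [gS]
    rw [this, map_one, div_one]
    exact T1Rat.emb _ a
  | insert b T hbT ih =>
    have hbS : b ∈ S := hT (Finset.mem_insert_self b T)
    have hTS : T ⊆ S := (Finset.subset_insert b T).trans hT
    have hg : gS (insert b T) = b * gS T := by
      unfold gS; rw [Finset.prod_insert hbT]
    have hbp : Prime b := (hS b hbS).prime
    have hcop : IsCoprime b (gS T) := by
      have := eis_pid
      rw [hbp.irreducible.coprime_iff_not_dvd]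
      intro hd
      exact hbT (gS_dvd (fun x hx => hS x (hTS hx)) (hS b hbS).1 hbp hd)
    obtain ⟨s, t, hst⟩ := hcop
    have hb0 : emb b ≠ 0 := by
      intro h; exact hbp.ne_zero (emb_injective (by rw [h, map_zero]))
    have hg0' : gS T ≠ 0 := by
      unfold gS
      rw [Finset.prod_ne_zero_iff]
      intro c hc
      exact (hS c (hTS hc)).prime.ne_zero
    have hg0 : emb (gS T) ≠ 0 := by
      intro h; exact hg0' (emb_injective (by rw [h, map_zero]))
    have key : emb a / emb (gS (insert b T)) = emb (a * s) / emb (gS T) + emb (a * t) / emb b := by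
      have h1 : emb s * emb b + emb t * emb (gS T) = 1 := by
        rw [← map_mul, ← map_mul, ← map_add, hst, map_one]
      rw [hg, map_mul, map_mul, map_mul]
      field_simp
      linear_combination (-emb a) * h1
    rw [key]
    exact (ih hTS (a * s)).add (t1_prime_rat S b hbS hbp.ne_zero (a * t))

/-- Sketch: a point with `m P = 0` is `pt z` (AN: `pt` is surjective, see AN/A7-A9) with `m z ∈ ℤ[ω]`,
`m = u ∏ b`, so `pt z = ∑ pt (c_b / b)` (Bezout) is fixed by all `σ ∈ fixer (LS S)` (all points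
`pt (c/b)` have coordinates in `LS S`); an algebraic number fixed by all automorphisms in
`fixer (LS S)` is in `LS S` (extension of embeddings to `ℂ`, see AN/A8 and H2). (Or: the group law
has coefficients in `ℚ`, so the points with coordinates in `LS S` are a subgroup.) -/
theorem torsionField_le (m : ℕ) (hm : NLevel m) (S : Finset Eis) (hS : ∀ b ∈ S, NEis b)
    (hSm : ∃ u : Eis, IsUnit u ∧ (m : Eis) = u * gS S) :
    torsionField (E ℂ) m ≤ LS S := by
  have hw : w ∈ LS S := IntermediateField.subset_adjoin ℚ _ (Or.inl rfl)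
  unfold torsionField
  rw [IntermediateField.adjoin_le_iff]
  rintro c (hc | ⟨x, y, h, hP, hc⟩)
  · have h1 : (c - w) * (c - (-1 - w)) = 0 := by
      linear_combination hc + (-1 : ℂ) * w_sq
    rcases mul_eq_zero.1 h1 with h2 | h2
    · rw [sub_eq_zero.1 h2]; exact hw
    · rw [sub_eq_zero.1 h2]
      exact (LS S).sub_mem ((LS S).neg_mem (LS S).one_mem) hw
  · obtain ⟨z, hz⟩ := pt_surj (WeierstrassCurve.Affine.Point.some x y h)
    obtain ⟨u, hu, hmu⟩ := hSm
    have hm0 : m ≠ 0 := hm.1.ne_zero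
    have hm0' : (m : ℂ) ≠ 0 := by exact_mod_cast hm0
    have h1 : pt ((m : ℤ) * z) = 0 := by
      have h2 := a7_pt_zsmul (m : ℤ) z
      rw [h2, hz, natCast_zsmul]
      exact hP
    rw [pt_eq_zero_iff] at h1
    obtain ⟨a, ha⟩ := h1
    obtain ⟨v, hv⟩ := hu.exists_right_inv
    have huv : emb u * emb v = 1 := by rw [← map_mul, hv, map_one]
    have hme : (m : ℂ) = emb u * emb (gS S) := by
      rw [← map_mul, ← hmu, map_natCast]
    have hg0 : emb (gS S) ≠ 0 := by
      intro h0
      rw [h0, mul_zero] at hme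
      exact hm0' hme
    have hze : z = emb (a * v) / emb (gS S) := by
      rw [eq_div_iff hg0, map_mul, ha]
      push_cast
      rw [hme]
      linear_combination (-(z * emb (gS S))) * huv
    have hrat := t1_all_rat S hS S (Finset.Subset.refl S) (a * v)
    rw [← hze] at hrat
    obtain ⟨h3, h4⟩ := hrat.mem hz
    rcases hc with rfl | rfl
    · exact h3
    · exact h4

end RF
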