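import Pool.Agent.MP_ae0bd0_nt.RF.R1
import Pool.Agent.MP_ae0bd0_nt.B3.Z8
import Pool.Agent.MP_ae0bd0_nt.CM.C3

set_option autoImplicit false

open CM27 NumberField IsDedekindDomain BS3

namespace RF

/-! ## [RF-E2] the Euler factors at the bad primes (file E2.lean) -/

section

open scoped Classical

theorem e2_irred (K : Type) [Field K] [NumberField K] (v : HeightOneSpectrum (𝓞 K)) (r : 𝓞 K)
    (hr : v.intValuation r = WithZero.exp (-1 : ℤ)) :
    Irreducible (algebraMap (𝓞 K) (v.adicCompletionIntegers K) r) := by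
  have hv := c3_val K v r
  have hlt : ∀ x : WithZero (Multiplicative ℤ), x < 1 → x ≤ WithZero.exp (-1 : ℤ) := by
    intro x hx
    rcases eq_or_ne x 0 with h0 | h0
    · rw [h0]; exact zero_le
    · rw [← WithZero.exp_zero] at hx
      rw [← WithZero.log_le_iff_le_exp h0]
      have h1 := (WithZero.log_lt_iff_lt_exp h0).2 hx
      omega
  refine ⟨?_, ?_⟩
  · rw [HeightOneSpectrum.adicCompletionIntegers.isUnit_iff_valued_eq_one, hv, hr,
      ← WithZero.exp_zero, WithZero.exp_inj]
    norm_num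
  · intro a b hab
    by_contra hcon
    push Not at hcon
    obtain ⟨ha, hb⟩ := hcon
    rw [← mem_nonunits_iff, ← IsLocalRing.mem_maximalIdeal, c3_mem_max] at ha hb
    have h4 : Valued.v ((a * b : v.adicCompletionIntegers K) : v.adicCompletion K) =
        Valued.v (a : v.adicCompletion K) * Valued.v (b : v.adicCompletion K) := by
      rw [← map_mul]; rfl
    have h5 : Valued.v ((a * b : v.adicCompletionIntegers K) : v.adicCompletion K) ≤
        WithZero.exp (-1 : ℤ) * WithZero.exp (-1 : ℤ) := by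
      rw [h4]
      exact mul_le_mul' (hlt _ ha) (hlt _ hb)
    rw [← hab, hv, hr, ← WithZero.exp_add, WithZero.exp_le_exp] at h5
    norm_num at h5

theorem e2_comp (K : Type) [Field K] [NumberField K] (v : HeightOneSpectrum (𝓞 K)) (k : ℕ)
    (h : v.intValuation (3 : 𝓞 K) = WithZero.exp (-(k : ℤ))) :
    ∃ (ϖ u : v.adicCompletionIntegers K), Irreducible ϖ ∧ IsUnit u ∧
      (3 : v.adicCompletionIntegers K) = u * ϖ ^ k := by
  obtain ⟨π, hπ⟩ := v.intValuation_exists_uniformizer
  set ϖ : v.adicCompletionIntegers K := algebraMap (𝓞 K) (v.adicCompletionIntegers K) π with hϖ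
  have h3 : (3 : v.adicCompletionIntegers K) =
      algebraMap (𝓞 K) (v.adicCompletionIntegers K) (3 : 𝓞 K) := by
    rw [map_ofNat]
  have hϖv : Valued.v (ϖ : v.adicCompletion K) = WithZero.exp (-1 : ℤ) := by
    rw [hϖ, c3_val, hπ]
  have h3v : Valued.v ((3 : v.adicCompletionIntegers K) : v.adicCompletion K) =
      WithZero.exp (-(k : ℤ)) := by
    rw [h3, c3_val, h]
  have hϖ0 : (ϖ : v.adicCompletion K) ≠ 0 := by
    intro h0
    rw [h0, map_zero] at hϖv
    exact WithZero.exp_ne_zero hϖv.symm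
  have hkv : Valued.v ((ϖ : v.adicCompletion K) ^ k) = WithZero.exp (-(k : ℤ)) := by
    rw [map_pow, hϖv, ← WithZero.exp_nsmul]
    congr 1
    simp
  have huv : Valued.v (((3 : v.adicCompletionIntegers K) : v.adicCompletion K) *
      ((ϖ : v.adicCompletion K) ^ k)⁻¹) = 1 := by
    rw [map_mul, map_inv₀, h3v, hkv]
    exact mul_inv_cancel₀ WithZero.exp_ne_zero
  let u : v.adicCompletionIntegers K := ⟨((3 : v.adicCompletionIntegers K) : v.adicCompletion K) *
      ((ϖ : v.adicCompletion K) ^ k)⁻¹, huv.le⟩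
  refine ⟨ϖ, u, e2_irred K v π hπ, ?_, ?_⟩
  · rw [HeightOneSpectrum.adicCompletionIntegers.isUnit_iff_valued_eq_one]
    exact huv
  · apply Subtype.ext
    change ((3 : v.adicCompletionIntegers K) : v.adicCompletion K) =
      ((3 : v.adicCompletionIntegers K) : v.adicCompletion K) *
        ((ϖ : v.adicCompletion K) ^ k)⁻¹ * (ϖ : v.adicCompletion K) ^ k
    rw [mul_assoc, inv_mul_cancel₀ (pow_ne_zero k hϖ0), mul_one]

/-- `bad_r` (B3/Z7.lean) at one place -/
theorem e2_bad_r (r : ℕ) (hr : Adm r) (K : Type) [Field K] [NumberField K] (p : ℕ) (hp : p.Prime)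
    (hpr : (p : ℤ) ∣ 6 * (-(r : ℤ) ^ 2)) (v : HeightOneSpectrum (𝓞 K))
    (hv : (p : 𝓞 K) ∈ v.asIdeal) (hun : (p : 𝓞 K) ∉ v.asIdeal ^ 2) :
    fw (-(r : ℤ) ^ 2) K v = 1 := by
  have hirr : Irreducible (p : v.adicCompletionIntegers K) :=
    irreducible_completion K v p hv hun
  have := p5_charZero K v
  apply z7_fw
  obtain ⟨hr9, hcf, hpf⟩ := hr
  have hr0 : r ≠ 0 := by
    rintro rfl
    simp at hr9
  -- `p = 2`, `p = 3` or `p ∣ r`
  have hcase : p = 3 ∨ p = 2 ∨ (p % 12 = 7 ∧ p ∣ r) := by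
    have hpZ : Prime (p : ℤ) := Nat.prime_iff_prime_int.1 hp
    rcases hpZ.dvd_or_dvd hpr with h | h
    · have h1 : p ∣ 6 := by exact_mod_cast h
      have h2 : p ≤ 6 := Nat.le_of_dvd (by norm_num) h1
      interval_cases p <;> first | (left; rfl) | (right; left; rfl) | (exfalso; revert hp h1; decide)
    · rw [dvd_neg] at h
      have h1 : (p : ℤ) ∣ (r : ℤ) := hpZ.dvd_of_dvd_pow h
      have h2 : p ∣ r := by exact_mod_cast h1
      rcases hpf p hp h2 with h3 | h3
      · exact Or.inr (Or.inl h3)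
      · exact Or.inr (Or.inr ⟨h3, h2⟩)
  -- `r = p ^ e * r'`
  obtain ⟨e, r', hr', hre⟩ := Nat.exists_eq_pow_mul_and_not_dvd hr0 p hp.ne_one
  have he : e ≤ 2 := by
    by_contra hcon
    push Not at hcon
    apply hcf p hp
    rw [hre]
    exact Dvd.dvd.mul_right (pow_dvd_pow p hcon) _
  have hr'u : IsUnit ((r' : ℤ) : v.adicCompletionIntegers K) :=
    z7_cop K v p hp hv r' (by intro h; exact hr' (by exact_mod_cast h))
  rcases hcase with rfl | rfl | ⟨h7, hdvd⟩
  · have h3 : ¬ 3 ∣ r := by omega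
    have he0 : e = 0 := by
      by_contra hcon
      exact h3 (by rw [hre]; exact Dvd.dvd.mul_right (dvd_pow_self 3 hcon) _)
    rw [he0, pow_zero, one_mul] at hre
    rw [← hre] at hr'u
    have h2 : IsUnit ((2 : ℤ) : v.adicCompletionIntegers K) :=
      z7_cop K v 3 hp hv 2 (by norm_num)
    refine localPoly_add (v.adicCompletionIntegers K) (v.adicCompletion K) (-(r : ℤ) ^ 2)
      ((3 : ℕ) : v.adicCompletionIntegers K) hirr 3 (by norm_num) (by norm_num)
      (((2 : ℤ) : v.adicCompletionIntegers K) ^ 4 * ((r : ℤ) : v.adicCompletionIntegers K) ^ 4)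
      ((h2.pow 4).mul (hr'u.pow 4)) ?_
    push_cast
    ring
  · have h3 : IsUnit ((3 : ℤ) : v.adicCompletionIntegers K) :=
      z7_cop K v 2 hp hv 3 (by norm_num)
    interval_cases e
    · rw [pow_zero, one_mul] at hre
      rw [← hre] at hr'u
      refine localPoly_add (v.adicCompletionIntegers K) (v.adicCompletion K) (-(r : ℤ) ^ 2)
        ((2 : ℕ) : v.adicCompletionIntegers K) hirr 4 (by norm_num) (by norm_num)
        (((3 : ℤ) : v.adicCompletionIntegers K) ^ 3 * ((r : ℤ) : v.adicCompletionIntegers K) ^ 4)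
        ((h3.pow 3).mul (hr'u.pow 4)) ?_
      push_cast
      ring
    · refine localPoly_add (v.adicCompletionIntegers K) (v.adicCompletion K) (-(r : ℤ) ^ 2)
        ((2 : ℕ) : v.adicCompletionIntegers K) hirr 8 (by norm_num) (by norm_num)
        (((3 : ℤ) : v.adicCompletionIntegers K) ^ 3 * ((r' : ℤ) : v.adicCompletionIntegers K) ^ 4)
        ((h3.pow 3).mul (hr'u.pow 4)) ?_
      rw [hre]
      push_cast
      ring
    · have h4 : -(r : ℤ) ^ 2 = -16 * (r' : ℤ) ^ 2 := by
        rw [hre]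
        push_cast
        ring
      rw [h4]
      refine localPoly_two (v.adicCompletionIntegers K) (v.adicCompletion K) (r' : ℤ) ?_ ?_
      · rw [Int.odd_coe_nat, ← Nat.not_even_iff_odd, even_iff_two_dvd]
        exact hr'
      · exact_mod_cast hirr
  · have h2 : IsUnit ((2 : ℤ) : v.adicCompletionIntegers K) := by
      apply z7_cop K v p hp hv
      intro h
      have := Int.le_of_dvd (by norm_num) h
      omega
    have h3 : IsUnit ((3 : ℤ) : v.adicCompletionIntegers K) := by
      apply z7_cop K v p hp hv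
      intro h
      have := Int.le_of_dvd (by norm_num) h
      omega
    interval_cases e
    · exact absurd (by rw [pow_zero, one_mul] at hre; rw [← hre]; exact hdvd) hr'
    · refine localPoly_add (v.adicCompletionIntegers K) (v.adicCompletion K) (-(r : ℤ) ^ 2)
        ((p : ℕ) : v.adicCompletionIntegers K) hirr 4 (by norm_num) (by norm_num)
        (((2 : ℤ) : v.adicCompletionIntegers K) ^ 4 * ((3 : ℤ) : v.adicCompletionIntegers K) ^ 3 *
          ((r' : ℤ) : v.adicCompletionIntegers K) ^ 4)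
        (((h2.pow 4).mul (h3.pow 3)).mul (hr'u.pow 4)) ?_
      rw [hre]
      push_cast
      ring
    · refine localPoly_add (v.adicCompletionIntegers K) (v.adicCompletion K) (-(r : ℤ) ^ 2)
        ((p : ℕ) : v.adicCompletionIntegers K) hirr 8 (by norm_num) (by norm_num)
        (((2 : ℤ) : v.adicCompletionIntegers K) ^ 4 * ((3 : ℤ) : v.adicCompletionIntegers K) ^ 3 *
          ((r' : ℤ) : v.adicCompletionIntegers K) ^ 4)
        (((h2.pow 4).mul (h3.pow 3)).mul (hr'u.pow 4)) ?_
      rw [hre]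
      push_cast
      ring


end

/-- If `v(3) = 2` then `432 k² = 432 r⁴` (`k = - r²`) has valuation `6` at `v` (`432 = 16 · 27`), so with `ϖ` a
uniformizer of the completion `432 k² = u ϖ⁶`, and `BS3.localPoly_add` (B3/P3.lean) with `j = 6` gives
`localPolynomial = 1`; see `bad_r` (B3/Z7.lean) and `eulerFactor_bad`, `eulerFactor_dvd` (B3/P5.lean) for the
passage from the local polynomial to `fw`. -/
theorem bad_three (r : ℕ) (hr : ¬ 3 ∣ r) (K : Type) [Field K] [NumberField K]
    (v : HeightOneSpectrum (𝓞 K)) (hv : v.valuation K (3 : K) = WithZero.exp (-2 : ℤ)) :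
    fw (-(r : ℤ) ^ 2) K v = 1 := by
  classical
  have h3 : (3 : K) = algebraMap (𝓞 K) K (3 : 𝓞 K) := by rw [map_ofNat]
  have hv' : v.intValuation (3 : 𝓞 K) = WithZero.exp (-2 : ℤ) := by
    rw [← hv, h3, HeightOneSpectrum.valuation_of_algebraMap]
  have hmem : (3 : 𝓞 K) ∈ v.asIdeal := by
    rw [← v.intValuation_lt_one_iff_mem, hv', ← WithZero.exp_zero, WithZero.exp_lt_exp]
    norm_num
  have hmem' : ((3 : ℕ) : 𝓞 K) ∈ v.asIdeal := by exact_mod_cast hmem
  obtain ⟨ϖ, u, h1, h2, h3⟩ := e2_comp K v 2 hv'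
  have := p5_charZero K v
  apply z7_fw
  have h2u : IsUnit ((2 : ℤ) : v.adicCompletionIntegers K) :=
    z7_cop K v 3 Nat.prime_three hmem' 2 (by norm_num)
  have hru : IsUnit ((r : ℤ) : v.adicCompletionIntegers K) :=
    z7_cop K v 3 Nat.prime_three hmem' r (by intro h; exact hr (by exact_mod_cast h))
  refine localPoly_add (v.adicCompletionIntegers K) (v.adicCompletion K) (-(r : ℤ) ^ 2)
    ϖ h1 6 (by norm_num) (by norm_num)
    (((2 : ℤ) : v.adicCompletionIntegers K) ^ 4 * u ^ 3 *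
      ((r : ℤ) : v.adicCompletionIntegers K) ^ 4)
    (((h2u.pow 4).mul (h2.pow 3)).mul (hru.pow 4)) ?_
  push_cast
  have h4 : (432 : v.adicCompletionIntegers K) = 2 ^ 4 * 3 ^ 3 := by norm_num
  rw [h4, h3]
  ring

/-- The other cases are `bad_r` (B3/Z7.lean; its hypothesis `Unram p K` is only used at the place `v`: if it is
not applicable as stated, copy its proof with the hypothesis `(p : 𝓞 K) ∉ v.asIdeal ^ 2` at `v`). -/
theorem bad_all {r : ℕ} (hr : Adm r) (K : Type) [Field K] [NumberField K]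
    (h : ∀ p : ℕ, p.Prime → p ∣ 6 * r → Mild p K) :
    ∀ p : ℕ, p.Prime → (p : ℤ) ∣ 6 * (-(r : ℤ) ^ 2) → ∀ v : HeightOneSpectrum (𝓞 K),
      (p : 𝓞 K) ∈ v.asIdeal → fw (-(r : ℤ) ^ 2) K v = 1 := by
  intro p hp hpd v hv
  have hpd' : p ∣ 6 * r := by
    have hpZ : Prime (p : ℤ) := Nat.prime_iff_prime_int.1 hp
    rcases hpZ.dvd_or_dvd hpd with h1 | h1
    · exact Dvd.dvd.mul_right (by exact_mod_cast h1) _
    · rw [dvd_neg] at h1
      have h2 : (p : ℤ) ∣ (r : ℤ) := hpZ.dvd_of_dvd_pow h1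
      exact Dvd.dvd.mul_left (by exact_mod_cast h2) _
  rcases h p hp hpd' v hv with h1 | ⟨rfl, h1⟩
  · refine e2_bad_r r hr K p hp hpd v hv ?_
    intro hmem
    have h2 : v.intValuation (p : 𝓞 K) ≤ WithZero.exp (-((2 : ℕ) : ℤ)) :=
      (v.intValuation_le_pow_iff_mem _ _).2 hmem
    have h3 : (p : K) = algebraMap (𝓞 K) K (p : 𝓞 K) := by rw [map_natCast]
    rw [h3, HeightOneSpectrum.valuation_of_algebraMap] at h1
    rw [h1, WithZero.exp_le_exp] at h2
    norm_num at h2
  · refine bad_three r ?_ K v (by exact_mod_cast h1)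
    have := hr.1
    omega

end RF
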