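import Pool.Agent.MP_ae0bd0_nt.RF.G5
import Pool.Agent.MP_ae0bd0_nt.RF.D2
import Pool.Agent.MP_ae0bd0_nt.RF.T1
import Pool.Agent.MP_ae0bd0_nt.B3.X0

set_option autoImplicit false

open NumberField IsDedekindDomain
open CM27 CMT CF
open scoped ComplexConjugate Classical

namespace RF

/-! ## [RF-U1] the ray class field and the characters which are trivial on the units (file U1.lean) -/

/-- The characters of `AS S` which are trivial on the units. -/
def UTriv (S : Finset Eis) (X : XX S) : Prop :=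
  ∀ u : Eis, IsUnit u → ∏ b : {x // x ∈ S}, X b (Ideal.Quotient.mk _ u) = 1

/-- `σ` acts on `E[∏ b]` as multiplication by a unit -/
def ActsBy (S : Finset Eis) (σ : AutK) (u : Eis) : Prop :=
  ∀ b : {x // x ∈ S}, (th S σ b : Eis ⧸ Ideal.span {(b : Eis)}) = Ideal.Quotient.mk _ u

theorem u1_XX (z : ℂ) : BS3.XX z = xw z ^ 3 := by
  unfold BS3.XX xw
  rw [div_pow, ← pow_mul, OmC_pow, div_neg, neg_div]

theorem rayField_le (m : ℕ) (hm : NLevel m) (S : Finset Eis) (hS : ∀ b ∈ S, NEis b)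
    (hSm : ∃ u : Eis, IsUnit u ∧ (m : Eis) = u * gS S) : rayField (E ℂ) m ≤ LS S := by
  refine le_trans ?_ (torsionField_le m hm S hS hSm)
  unfold rayField
  rw [IntermediateField.adjoin_le_iff]
  rintro c (hc | ⟨x, y, h, hP, rfl⟩)
  · exact IntermediateField.subset_adjoin ℚ _ (Or.inl hc)
  · exact (torsionField (E ℂ) m).pow_mem
      (IntermediateField.subset_adjoin ℚ _ (Or.inr ⟨x, y, h, hP, Or.inl rfl⟩)) 3

theorem u1_ne (S : Finset Eis) (hS : ∀ b ∈ S, NEis b) (T : Finset Eis) (hT : T ⊆ S) :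
    emb (gS T) ≠ 0 := by
  have := eis_isDomain
  intro h
  have h1 : gS T = 0 := emb_injective (by rw [h, map_zero])
  unfold gS at h1
  rw [Finset.prod_eq_zero_iff] at h1
  obtain ⟨c, hc, h2⟩ := h1
  exact (hS c (hT hc)).prime.ne_zero h2

/-- the action of `σ` on the points of order `∏ b` -/
theorem u1_act (S : Finset Eis) (hS : ∀ b ∈ S, NEis b) (σ : AutK) (u : Eis)
    (hσ : ActsBy S σ u) (T : Finset Eis) (hT : T ⊆ S) (a : Eis) :
    ptMap ((σ : ℂ ≃+* ℂ) : ℂ →+* ℂ) (pt (emb a / emb (gS T))) =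
      pt (emb (a * u) / emb (gS T)) := by
  have := eis_isDomain
  induction T using Finset.induction_on generalizing a with
  | empty =>
    have : gS (∅ : Finset Eis) = 1 := by simp [gS]
    rw [this, map_one, div_one, div_one, pt_emb, pt_emb]
    rfl
  | insert b T hbT ih =>
    have hbS : b ∈ S := hT (Finset.mem_insert_self b T)
    have hTS : T ⊆ S := (Finset.subset_insert b T).trans hT
    have hg : gS (insert b T) = b * gS T := by
      unfold gS; rw [Finset.prod_insert hbT]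
    have hbp : Prime b := (hS b hbS).prime
    have hcop : IsCoprime b (gS T) := by
      have := eis_pid
      rw [hbp.irreducible.coprime_iff_not_dvd]
      intro hd
      exact hbT (gS_dvd (fun x hx => hS x (hTS hx)) (hS b hbS).1 hbp hd)
    obtain ⟨s, t, hst⟩ := hcop
    have hb0 : emb b ≠ 0 := by
      intro h; exact hbp.ne_zero (emb_injective (by rw [h, map_zero]))
    have hg0 : emb (gS T) ≠ 0 := u1_ne S hS T hTS
    have key : ∀ a : Eis, emb a / emb (gS (insert b T)) =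
        emb (a * s) / emb (gS T) + emb (a * t) / emb b := by
      intro a
      have h1 : emb s * emb b + emb t * emb (gS T) = 1 := by
        rw [← map_mul, ← map_mul, ← map_add, hst, map_one]
      rw [hg, map_mul, map_mul, map_mul]
      field_simp
      linear_combination (-emb a) * h1
    rw [key a, key (a * u), pt_add, pt_add, ptMap_add, ih hTS (a * s),
      th_spec S hS σ ⟨b, hbS⟩ u (hσ ⟨b, hbS⟩) (a * t)]
    congr 3
    · congr 1
      ring
    · congr 1
      ring

/-- the points of order `m` -/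
theorem u1_tors (m : ℕ) (hm : NLevel m) (S : Finset Eis) (hS : ∀ b ∈ S, NEis b)
    (hSm : ∃ u : Eis, IsUnit u ∧ (m : Eis) = u * gS S) (P : (E ℂ).toAffine.Point)
    (hP : m • P = 0) : ∃ a : Eis, pt (emb a / emb (gS S)) = P := by
  obtain ⟨z, hz⟩ := pt_surj P
  obtain ⟨u, hu, hmu⟩ := hSm
  have hm0 : m ≠ 0 := hm.1.ne_zero
  have hm0' : (m : ℂ) ≠ 0 := by exact_mod_cast hm0
  have h1 : pt ((m : ℤ) * z) = 0 := by
    have h2 := a7_pt_zsmul (m : ℤ) z
    rw [h2, hz, natCast_zsmul]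
    exact hP
  rw [pt_eq_zero_iff] at h1
  obtain ⟨a, ha⟩ := h1
  obtain ⟨v, hv⟩ := hu.exists_right_inv
  have huv : emb u * emb v = 1 := by rw [← map_mul, hv, map_one]
  have hme : (m : ℂ) = emb u * emb (gS S) := by
    rw [← map_mul, ← hmu, map_natCast]
  have hg0 : emb (gS S) ≠ 0 := u1_ne S hS S (Finset.Subset.refl S)
  refine ⟨a * v, ?_⟩
  rw [← hz]
  congr 1
  rw [div_eq_iff hg0, map_mul, ha]
  push_cast
  rw [hme]
  linear_combination (z * emb (gS S)) * huv

theorem unit_fix (m : ℕ) (hm : NLevel m) (S : Finset Eis) (hS : ∀ b ∈ S, NEis b)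
    (hSm : ∃ u : Eis, IsUnit u ∧ (m : Eis) = u * gS S) (σ : AutK) (u : Eis) (hu : IsUnit u)
    (hσ : ActsBy S σ u) (x : ℂ) (hx : x ∈ rayField (E ℂ) m) : (σ : ℂ ≃+* ℂ) x = x := by
  suffices h : rayField (E ℂ) m ≤ d2_fix (σ : ℂ ≃+* ℂ) from h hx
  unfold rayField
  rw [IntermediateField.adjoin_le_iff]
  have hw : (σ : ℂ ≃+* ℂ) w = w := σ.2
  rintro c (hc | ⟨x, y, h, hP, rfl⟩)
  · change (σ : ℂ ≃+* ℂ) c = c
    have h1 : (c - w) * (c - (-1 - w)) = 0 := by
      linear_combination hc + (-1 : ℂ) * w_sq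
    rcases mul_eq_zero.1 h1 with h2 | h2
    · rw [sub_eq_zero.1 h2, hw]
    · rw [sub_eq_zero.1 h2, map_sub, map_neg, map_one, hw]
  · change (σ : ℂ ≃+* ℂ) (x ^ 3) = x ^ 3
    obtain ⟨a, ha⟩ := u1_tors m hm S hS hSm _ hP
    set z := emb a / emb (gS S) with hz
    have hz0 : z ∉ Set.range emb := by
      intro h0
      rw [(pt_eq_zero_iff z).2 h0] at ha
      exact absurd ha (by intro h'; cases h')
    have hact := u1_act S hS σ u hσ S (Finset.Subset.refl S) a
    rw [← hz] at hact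
    have huz : emb (a * u) / emb (gS S) = emb u * z := by
      rw [hz, map_mul]; ring
    rw [huz] at hact
    have huz0 : emb u * z ∉ Set.range emb := by
      rintro ⟨c, hc⟩
      obtain ⟨v, hv⟩ := hu.exists_left_inv
      apply hz0
      refine ⟨v * c, ?_⟩
      rw [map_mul, hc, ← mul_assoc, ← map_mul, hv, map_one, one_mul]
    obtain ⟨h1, e1⟩ := pt_of_not_mem z hz0
    obtain ⟨h2, e2⟩ := pt_of_not_mem _ huz0
    rw [ha, e2] at hact
    simp only [ptMap, WeierstrassCurve.Affine.Point.some.injEq] at hact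
    rw [e1] at ha
    simp only [WeierstrassCurve.Affine.Point.some.injEq] at ha
    have h3 : (σ : ℂ ≃+* ℂ) x = xw (emb u * z) := hact.1
    rw [map_pow, h3, ← u1_XX, BS3.XX_unit z u hu, u1_XX, ha.1]

/-- the element of `AS S` given by a unit -/
theorem u1_exists (S : Finset Eis) (hS : ∀ b ∈ S, NEis b) (u : Eis) (hu : IsUnit u) :
    ∃ σ : AutK, ActsBy S σ u := by
  obtain ⟨σ, hσ⟩ := th_surjective S hS (fun b => (hu.map (Ideal.Quotient.mk _)).unit)
  refine ⟨σ, fun b => ?_⟩
  rw [hσ]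
  rfl

theorem unit_triv (m : ℕ) (hm : NLevel m) (S : Finset Eis) (hS : ∀ b ∈ S, NEis b)
    (hSm : ∃ u : Eis, IsUnit u ∧ (m : Eis) = u * gS S) (F : IntermediateField ℚ ℂ)
    (hF : F ≤ rayField (E ℂ) m) (X : XX S) (hX : X ∈ chF S F) : UTriv S X := by
  intro u hu
  obtain ⟨σ, hσ⟩ := u1_exists S hS u hu
  rw [mem_chF S hS] at hX
  have h1 := hX σ (fun x hx => unit_fix m hm S hS hSm σ u hu hσ x (hF hx))
  rw [← h1]
  unfold ev
  exact Finset.prod_congr rfl fun b _ => by rw [hσ b]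

end RF
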