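import Pool.Agent.MP_ae0bd0_nt.RF.I3
import Pool.Agent.MP_ae0bd0_nt.RF.U1

set_option autoImplicit false

open NumberField IsDedekindDomain
open CM27 CMT CF BS3
open scoped Classical

namespace RF

/-! ## [RF-I4] inertia at `3` acts by units (file I4.lean; uses I3, U1) -/

/-- chinese remainder theorem: `σ` acts as multiplication by some `a` -/
theorem i4_acts (S : Finset Eis) (hS : ∀ b ∈ S, NEis b) (σ : AutK) : ∃ a : Eis, ActsBy S σ a := by
  have hdom := eis_isDomain
  have hpid := eis_pid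
  have hco : Pairwise (Function.onFun IsCoprime
      (fun i : {x // x ∈ S} => Ideal.span {(i : Eis)})) := by
    intro i j hij
    have hip : Prime (i : Eis) := (hS i i.2).prime
    have hc : IsCoprime (i : Eis) (j : Eis) := by
      rw [hip.irreducible.coprime_iff_not_dvd]
      intro hd
      apply hij
      apply Subtype.ext
      exact primary_eq_of_dvd (hS i i.2).1 hip (hS j j.2).1 (hS j j.2).prime hd
    exact (Ideal.isCoprime_span_singleton_iff _ _).2 hc
  obtain ⟨a, ha⟩ := Ideal.pi_quotient_surjective hco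
    (fun b => ((CF.th S σ b : (Eis ⧸ Ideal.span {(b : Eis)})ˣ) : Eis ⧸ Ideal.span {(b : Eis)}))
  exact ⟨a, fun b => (ha b).symm⟩

theorem i4_norm (S : Finset Eis) (hS : ∀ b ∈ S, NEis b) : (gS S).norm % 3 = 1 := by
  induction S using Finset.induction_on with
  | empty =>
    have : gS (∅ : Finset Eis) = 1 := by simp [gS]
    rw [this, map_one]
    rfl
  | insert b T hbT ih =>
    have hg : gS (insert b T) = b * gS T := by
      unfold gS; rw [Finset.prod_insert hbT]
    have h1 := ih (fun x hx => hS x (Finset.mem_insert_of_mem hx))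
    obtain ⟨-, p, hp, hn⟩ := hS b (Finset.mem_insert_self b T)
    rw [hg, map_mul, hn, Int.mul_emod, h1]
    have h2 := hp.2.1
    have h3 : ((p : ℤ) % 3) = 1 := by omega
    rw [h3]
    rfl

/-- If `S = ∅` take `u = 1`. Let `g = gS S` (not a unit), `z = 1 / emb g`; `pt z` has its coordinates in `LS S`
(`t1_all_rat`). `σ (pt z) = pt (a / g)` where `a ∈ ℤ[ω]` is congruent to `θ(σ)_b` modulo `b` for all `b ∈ S`
(existence of `a` and this formula: `gal_fix`/A7 for `N = g.norm`, or CRT and additivity as in `t1_all_rat`, or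
U1.lean: helper lemmas there). `SS z ∈ LS S` (`SS_eq`, `√-3 ∈ LS S`) is integral (`SS_val`), and `σ (SS z) = SS (a/g)`, so
`|SS (a / g) - SS (1 / g)| < 1` and `unit3` (with `N = g.norm`, prime to `3`) gives a unit `u` with
`a / g - u / g ∈ ℤ[ω]`, so `a ≡ u mod g`, hence modulo all `b ∈ S`. -/
theorem inertia3 (S : Finset Eis) (hS : ∀ b ∈ S, NEis b) (A : ValuationSubring ℂ)
    (h3 : A.valuation 3 < 1) (σ : AutK)
    (hσ : ∀ x ∈ LS S, A.valuation x ≤ 1 → A.valuation ((σ : ℂ ≃+* ℂ) x - x) < 1) :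
    ∃ u : Eis, IsUnit u ∧ ActsBy S σ u := by
  have hdom := eis_isDomain
  rcases S.eq_empty_or_nonempty with rfl | ⟨b0, hb0⟩
  · exact ⟨1, isUnit_one, fun b => absurd b.2 (Finset.notMem_empty _)⟩
  obtain ⟨a, ha⟩ := i4_acts S hS σ
  set g := gS S with hg
  have hg0 : emb g ≠ 0 := u1_ne S hS S (Finset.Subset.refl S)
  have hgne : g ≠ 0 := fun h => hg0 (by rw [h, map_zero])
  have hdvd : ∀ b ∈ S, b ∣ g := fun b hb => Finset.dvd_prod_of_mem (fun b => b) hb
  have hgu : ¬ IsUnit g := fun h => (hS b0 hb0).prime.not_isUnit (isUnit_of_dvd_unit (hdvd b0 hb0) h)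
  set z : ℂ := emb 1 / emb g with hz
  have hz0 : z ∉ Set.range emb := by
    rintro ⟨c, hc⟩
    apply hgu
    have h1 : g * c = 1 := by
      apply emb_injective
      rw [map_mul, hc, hz, mul_div_cancel₀ _ hg0]
    exact IsUnit.of_mul_eq_one c h1
  have hact := u1_act S hS σ a ha S (Finset.Subset.refl S) 1
  rw [← hg, ← hz, one_mul] at hact
  set v : ℂ := emb a / emb g with hv
  obtain ⟨n1, e1⟩ := pt_of_not_mem z hz0
  have hv0 : v ∉ Set.range emb := by
    intro h
    rw [(pt_eq_zero_iff v).2 h, e1] at hact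
    exact absurd hact (by intro h'; cases h')
  obtain ⟨n2, e2⟩ := pt_of_not_mem v hv0
  have hyw : (σ : ℂ ≃+* ℂ) (yw z) = yw v := by
    rw [e1, e2] at hact
    simp only [ptMap, WeierstrassCurve.Affine.Point.some.injEq] at hact
    have h7 : (σ : ℂ ≃+* ℂ) ((yw z - 1) / 2) = (yw v - 1) / 2 := hact.2
    have h8 : (σ : ℂ ≃+* ℂ) ((yw z - 1) / 2) = ((σ : ℂ ≃+* ℂ) (yw z) - 1) / 2 := by
      rw [map_div₀, map_sub, map_one, map_ofNat]
    rw [h8] at h7
    linear_combination 2 * h7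
  have hth : (σ : ℂ ≃+* ℂ) (emb BS3.th) = emb BS3.th := d2_AutK_fix σ _ (d2_emb_mem _)
  have hSSσ : (σ : ℂ ≃+* ℂ) (SS z) = SS v := by
    rw [SS_eq z hz0, SS_eq v hv0, map_div₀, map_pow, map_mul, hyw, hth, map_ofNat]
  -- `SS z ∈ LS S`
  have hSSm : SS z ∈ LS S := by
    have hrat := t1_all_rat S hS S (Finset.Subset.refl S) 1
    rw [← hg, ← hz] at hrat
    obtain ⟨-, h4⟩ := hrat.mem e1
    have hy : yw z ∈ LS S := by
      have h5 : yw z = 2 * ((yw z - 1) / 2) + 1 := by ring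
      rw [h5]
      refine (LS S).add_mem ((LS S).mul_mem ?_ h4) (LS S).one_mem
      exact_mod_cast (LS S).natCast_mem 2
    have hthm : emb BS3.th ∈ LS S := KK_le _ (w_mem_LS S) (d2_emb_mem _)
    rw [SS_eq z hz0]
    refine (LS S).div_mem ((LS S).pow_mem hy 2) ((LS S).mul_mem ?_ hthm)
    exact_mod_cast (LS S).natCast_mem 3
  -- the order
  set N := g.norm.natAbs with hN
  have hN3 : ¬ 3 ∣ N := by
    intro h
    have h1 := i4_norm S hS
    rw [← hg] at h1
    have h2 : (3 : ℤ) ∣ g.norm := Int.natCast_dvd.2 h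
    omega
  have hNg : (N : ℂ) = emb g * emb (star g) := by
    rw [← map_mul, a3_mul_star, map_intCast]
    have h1 : ((N : ℕ) : ℤ) = g.norm := Int.natAbs_of_nonneg (norm_nonneg' g)
    rw [← h1]
    simp
  have hNz : ∀ c : Eis, (N : ℂ) * (emb c / emb g) ∈ Set.range emb := by
    intro c
    refine ⟨star g * c, ?_⟩
    rw [hNg, map_mul]
    field_simp
  have hval := hσ (SS z) hSSm (SS_val A h3 N hN3 z (hNz 1) hz0)
  rw [hSSσ, A.valuation.map_sub_swap] at hval
  obtain ⟨u, hu, c, hc⟩ := unit3 A h3 N hN3 z v (hNz 1) (hNz a) hz0 hv0 hval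
  refine ⟨u, hu, fun b => ?_⟩
  rw [ha b, Ideal.Quotient.eq, Ideal.mem_span_singleton]
  have h1 : a - u = g * c := by
    apply emb_injective
    rw [map_sub, map_mul, hc, hz, hv, map_one]
    field_simp
  rw [h1]
  exact (hdvd b b.2).mul_right c

theorem i4_th_sq : (BS3.th * BS3.th : Eis) = -3 := by
  have h3e : (3 : Eis) = ⟨3, 0⟩ := by
    have h := QuadraticAlgebra.algebraMap_eq (R := ℤ) (a := -1) (b := -1) 3
    rw [← h]
    exact (map_ofNat (algebraMap ℤ Eis) 3).symm
  rw [h3e, BS3.th]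
  ext <;> simp

theorem i4_th_prime : Prime BS3.th := by
  apply a3_prime_of_norm 3 Nat.prime_three
  simp [QuadraticAlgebra.norm, BS3.th]

/-- the prime of `ℚ(ω)` above `3` -/
theorem i4_gen (φ : Eis ≃+* 𝓞 KK) (v : HeightOneSpectrum (𝓞 KK)) (h3 : (3 : 𝓞 KK) ∈ v.asIdeal) :
    ∀ a : Eis, φ a ∈ v.asIdeal ↔ BS3.th ∣ a := by
  haveI := eis_isDomain
  haveI := eis_pid
  set I : Ideal Eis := v.asIdeal.comap φ.toRingHom with hI
  have hIp : I.IsPrime := Ideal.IsPrime.comap _
  have hth : BS3.th ∈ I := by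
    have h1 : (3 : Eis) ∈ I := by
      rw [hI, Ideal.mem_comap]
      change φ 3 ∈ v.asIdeal
      rwa [map_ofNat]
    have h2 : BS3.th * BS3.th ∈ I := by
      rw [i4_th_sq]
      exact I.neg_mem h1
    rcases hIp.mem_or_mem h2 with h | h <;> exact h
  have hmax : (Ideal.span {BS3.th} : Ideal Eis).IsMaximal :=
    PrincipalIdealRing.isMaximal_of_irreducible i4_th_prime.irreducible
  have hle : (Ideal.span {BS3.th} : Ideal Eis) ≤ I := by
    rw [Ideal.span_le, Set.singleton_subset_iff]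
    exact hth
  have heq : (Ideal.span {BS3.th} : Ideal Eis) = I := hmax.eq_of_le hIp.ne_top hle
  intro a
  rw [← Ideal.mem_span_singleton, heq, hI, Ideal.mem_comap]
  rfl

/-- `F ≤ rayField m` is unramified above `3`: `hilbert_C` (CF/H3.lean) for `L = LS S` and the prime `b = √-3`
(`LS_finite`, `LS_stable`, `LS_comm` in RF/G3.lean); by `inertia3` and `unit_fix` the elements of `J` fix `F`, so
`fixer F ⊔ J = fixer F` has index `g f = [F : ℚ(ω)]` (`index_fixer`), so `e = 1` as in `unram_F` (D2.lean, use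
`d2_aux`). -/
theorem unram3 (m : ℕ) (hm : NLevel m) (S : Finset Eis) (hS : ∀ b ∈ S, NEis b)
    (hSm : ∃ u : Eis, IsUnit u ∧ (m : Eis) = u * gS S) (F : IntermediateField ℚ ℂ) [NumberField F]
    (hw : w ∈ F) (hF : F ≤ rayField (E ℂ) m) :
    letI := algK F hw
    ∀ (v : HeightOneSpectrum (𝓞 KK)) (P : HeightOneSpectrum (𝓞 F)),
      P.asIdeal.LiesOver v.asIdeal → (3 : 𝓞 KK) ∈ v.asIdeal →
      P.asIdeal.ramificationIdx (𝓞 KK) = 1 := by
  letI := algK F hw
  intro v P hPv h3
  haveI := d2_finite F hw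
  have hFL : F ≤ LS S := hF.trans (rayField_le m hm S hS hSm)
  haveI := d2_galois S hS F hw hFL
  haveI : NumberField (LS S) :=
    { to_charZero := inferInstance, to_finiteDimensional := LS_finite S hS }
  obtain ⟨φ, hφ⟩ := exists_KK
  have hthp : Prime BS3.th := i4_th_prime
  have hbv := i4_gen φ v h3
  obtain ⟨A, ϕ, J, hA, -, hJ, -, -, hdec⟩ := hilbert_C (LS S) (w_mem_LS S)
    (LS_stable S hS) (LS_comm S hS) BS3.th hthp
  have hA3 : A.valuation 3 < 1 := by
    have h1 : (3 : ℂ) = -(emb BS3.th * emb BS3.th) := by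
      rw [← map_mul, i4_th_sq, map_neg, map_ofNat, neg_neg]
    rw [h1, Valuation.map_neg, map_mul]
    exact mul_lt_one' hA hA
  have hJF : ∀ F' : IntermediateField ℚ ℂ, F' ≤ rayField (E ℂ) m → fixer F' ⊔ J = fixer F' := by
    intro F' hF'
    apply sup_eq_left.2
    intro σ hσ
    obtain ⟨u, hu, hσu⟩ := inertia3 S hS A hA3 σ (hJ σ hσ)
    intro x hx
    exact unit_fix m hm S hS hSm σ u hu hσu x (hF' hx)
  -- the residue field of `ℚ(ω)`
  have hq : Nat.card (𝓞 KK ⧸ v.asIdeal) = BS3.th.norm.natAbs := by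
    obtain ⟨f, g, hf, -, -, hc, -, hidx⟩ := hdec KK d2_w_mem (KK_le _ (w_mem_LS S))
    have h1 : fixer KK ⊔ J = ⊤ := by
      rw [eq_top_iff]
      intro σ _
      exact Subgroup.mem_sup_left (fun x hx => d2_AutK_fix σ x hx)
    rw [h1, Subgroup.index_top] at hidx
    have hf1 : f = 1 := Nat.eq_one_of_mul_eq_one_left hidx.symm
    have := hc v ⟨φ BS3.th, (hbv _).2 dvd_rfl, hφ _⟩
    rwa [hf1, pow_one] at this
  obtain ⟨f, g, hf, hfin, hg, hc, -, hidx⟩ := hdec F hw hFL
  rw [hJF F hF] at hidx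
  have habove : ∀ Q : HeightOneSpectrum (𝓞 F), Q ∈ above F BS3.th ↔
      Q.asIdeal.LiesOver v.asIdeal := by
    intro Q
    have hcoe : ∀ a : Eis, (((algebraMap (𝓞 KK) (𝓞 F) (φ a) : 𝓞 F) : F) : ℂ) = emb a := by
      intro a
      rw [← hφ a]
      rfl
    constructor
    · rintro ⟨x, hx, hxb⟩
      have hx' : x = algebraMap (𝓞 KK) (𝓞 F) (φ BS3.th) := by
        apply RingOfIntegers.ext
        apply Subtype.ext
        rw [hxb, hcoe]
      rw [hx'] at hx
      have hle : v.asIdeal ≤ Q.asIdeal.under (𝓞 KK) := by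
        intro y hy
        have h1 : BS3.th ∣ φ.symm y := by
          rw [← hbv, φ.apply_symm_apply]
          exact hy
        obtain ⟨c, hc⟩ := h1
        have h2 : y = φ BS3.th * φ c := by rw [← map_mul, ← hc, φ.apply_symm_apply]
        rw [h2]
        exact Ideal.mul_mem_right _ _ hx
      have hmax : v.asIdeal.IsMaximal := v.isMaximal
      exact ⟨hmax.eq_of_le (Ideal.IsPrime.ne_top inferInstance) hle⟩
    · intro hQ
      refine ⟨algebraMap (𝓞 KK) (𝓞 F) (φ BS3.th), ?_, hcoe _⟩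
      have h1 : φ BS3.th ∈ v.asIdeal := (hbv _).2 dvd_rfl
      rw [Ideal.over_def Q.asIdeal v.asIdeal] at h1
      exact h1
  have hPa : P ∈ above F BS3.th := (habove P).2 hPv
  have hncard : (v.asIdeal.primesOver (𝓞 F)).ncard = g := by
    rw [← hg]
    have hbij : Set.BijOn HeightOneSpectrum.asIdeal (above F BS3.th)
        (v.asIdeal.primesOver (𝓞 F)) := by
      refine ⟨fun v hv => ⟨v.isPrime, (habove v).1 hv⟩,
        fun _ _ _ _ h => HeightOneSpectrum.ext h, ?_⟩
      intro Q hQ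
      have hQ0 : Q ≠ ⊥ := Ideal.ne_bot_of_mem_primesOver v.ne_bot hQ
      exact ⟨⟨Q, hQ.1, hQ0⟩, (habove _).2 hQ.2, rfl⟩
    exact hbij.ncard_eq.symm
  have hgf : g * f = Module.finrank KK F := by
    rw [← hidx]
    have h1 := index_fixer F hw
    have h2 := d2_finrank F hw
    have h3 : 2 * (fixer F).index = 2 * Module.finrank KK F := by rw [h1]; exact h2.symm
    omega
  exact d2_aux KK F v P hPv _ f g hq (hc P hPa) hncard hgf

end RF
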