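import Pool.Agent.MP_ae0bd0_nt.RF.Defs

set_option autoImplicit false

open CM27 NumberField IsDedekindDomain CF

namespace RF

/-! ## [RF-N1] adjoining `ω` to a field of odd degree (file N1.lean) -/

open Polynomial in
theorem n1_irr {k : Type} [Field k] (h : ∀ x : k, x ^ 2 + x + 1 ≠ 0) :
    Irreducible (X ^ 2 + X + 1 : k[X]) := by
  have hm : (X ^ 2 + X + 1 : k[X]).Monic := by monicity!
  have hd : (X ^ 2 + X + 1 : k[X]).natDegree = 2 := by compute_degree!
  rw [hm.irreducible_iff_roots_eq_zero_of_degree_le_three (by rw [hd]) (by rw [hd]; norm_num)]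
  rw [Multiset.eq_zero_iff_forall_notMem]
  intro x hx
  rw [mem_roots hm.ne_zero, IsRoot.def] at hx
  apply h x
  simpa using hx

open Polynomial in
theorem n1_noroot (F₀ : IntermediateField ℚ ℂ) [NumberField F₀] (n : ℕ)
    (h : Module.finrank ℚ F₀ = 3 ^ n) (x : F₀) : x ^ 2 + x + 1 ≠ 0 := by
  intro hx
  have hirr : Irreducible (X ^ 2 + X + 1 : ℚ[X]) := by
    refine n1_irr fun x h => ?_
    nlinarith [sq_nonneg (2 * x + 1)]
  have hm : (X ^ 2 + X + 1 : ℚ[X]).Monic := by monicity!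
  have hd : (X ^ 2 + X + 1 : ℚ[X]).natDegree = 2 := by compute_degree!
  have h1 : minpoly ℚ x = X ^ 2 + X + 1 := by
    symm
    refine minpoly.eq_of_irreducible_of_monic hirr ?_ hm
    simpa using hx
  have h2 : (minpoly ℚ x).natDegree ∣ Module.finrank ℚ F₀ :=
    minpoly.degree_dvd (Algebra.IsIntegral.isIntegral x)
  rw [h1, hd, h] at h2
  have := Nat.prime_two.dvd_of_dvd_pow h2
  omega

open Polynomial in
theorem n1_aut {k L : Type} [Field k] [Field L] [Algebra k L] (pb : PowerBasis k L)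
    (h : minpoly k pb.gen = X ^ 2 + X + 1) : ∃ t : L ≃ₐ[k] L, t pb.gen = -1 - pb.gen := by
  have h0 : pb.gen ^ 2 + pb.gen + 1 = 0 := by
    have := minpoly.aeval k pb.gen
    rw [h] at this
    simpa using this
  have hroot : aeval (-1 - pb.gen) (minpoly k pb.gen) = 0 := by
    rw [h]
    simp only [map_add, map_pow, aeval_X, map_one]
    linear_combination h0
  have := pb.finite
  refine ⟨AlgEquiv.ofBijective (pb.lift (-1 - pb.gen) hroot) (AlgHom.bijective _), ?_⟩
  exact pb.lift_gen _ hroot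

open Polynomial in
/-- `F = F₀ ⊔ ℚ(ω)`; `[F : F₀] = 2` since `ω ∉ F₀` (`[F₀ : ℚ]` is odd and `[ℚ(ω) : ℚ] = 2`). The automorphism
`τ` of `F` over `F₀` maps `ω` to `ω² = -1 - ω`. -/
theorem sup_K (F₀ : IntermediateField ℚ ℂ) [NumberField F₀] (n : ℕ)
    (h : Module.finrank ℚ F₀ = 3 ^ n) :
    ∃ (F : IntermediateField ℚ ℂ) (_ : NumberField F) (hle : F₀ ≤ F) (hw : w ∈ F),
      (∀ G : IntermediateField ℚ ℂ, F₀ ≤ G → w ∈ G → F ≤ G) ∧
      Module.finrank ℚ F = 2 * 3 ^ n ∧
      (letI := (IntermediateField.inclusion hle).toRingHom.toAlgebra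
       Module.finrank F₀ F = 2) ∧
      (∀ x : F₀, x ^ 2 + x + 1 ≠ 0) ∧
      ∃ τ : F ≃+* F, (τ ⟨w, hw⟩ : ℂ) = -1 - w ∧ ∀ x : F₀, (τ ⟨x, hle x.2⟩ : ℂ) = x := by
  have h0 := n1_noroot F₀ n h
  have hirr : Irreducible (X ^ 2 + X + 1 : F₀[X]) := n1_irr h0
  have hm : (X ^ 2 + X + 1 : F₀[X]).Monic := by monicity!
  have hd : (X ^ 2 + X + 1 : F₀[X]).natDegree = 2 := by compute_degree!
  have hww : w ^ 2 + w + 1 = 0 := by
    have := w_sq
    linear_combination this
  have hmin : minpoly F₀ w = X ^ 2 + X + 1 := by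
    symm
    refine minpoly.eq_of_irreducible_of_monic hirr ?_ hm
    simpa using hww
  have hint : IsIntegral F₀ w := ⟨_, hm, by simpa using hww⟩
  set E := IntermediateField.adjoin F₀ {w} with hE
  have hfin2 : Module.finrank F₀ E = 2 := by
    rw [hE, IntermediateField.adjoin.finrank hint, hmin, hd]
  have hFD : FiniteDimensional F₀ E := Module.finite_of_finrank_pos (by rw [hfin2]; norm_num)
  have hFD2 : FiniteDimensional ℚ E := Module.Finite.trans F₀ E
  have hfin : Module.finrank ℚ E = 2 * 3 ^ n := by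
    rw [← Module.finrank_mul_finrank ℚ F₀ E, h, hfin2, mul_comm]
  have hwE : w ∈ E := IntermediateField.mem_adjoin_simple_self F₀ w
  have hle : F₀ ≤ E.restrictScalars ℚ := by
    intro x hx
    have := E.algebraMap_mem ⟨x, hx⟩
    exact this
  have hNF : NumberField (E.restrictScalars ℚ) := by
    refine @NumberField.mk _ _ _ ?_
    exact hFD2
  refine ⟨E.restrictScalars ℚ, hNF, hle, hwE, ?_, hfin, ?_, h0, ?_⟩
  · intro G hG hwG x hx
    have h1 : E ≤ IntermediateField.extendScalars hG := by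
      rw [hE, IntermediateField.adjoin_le_iff]
      rintro _ rfl
      exact hwG
    exact h1 hx
  · letI := (IntermediateField.inclusion hle).toRingHom.toAlgebra
    rw [← hfin2]
    refine Algebra.finrank_eq_of_equiv_equiv (RingEquiv.refl F₀)
      (RingEquiv.refl E : (E.restrictScalars ℚ) ≃+* E) ?_
    ext x
    rfl
  · have hgen : (IntermediateField.adjoin.powerBasis hint).gen = ⟨w, hwE⟩ := by
      rw [IntermediateField.adjoin.powerBasis_gen]
      rfl
    have h1 : minpoly F₀ (IntermediateField.adjoin.powerBasis hint).gen = X ^ 2 + X + 1 := by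
      rw [hgen, ← hmin]
      exact (minpoly.algebraMap_eq (algebraMap E ℂ).injective (⟨w, hwE⟩ : E)).symm
    obtain ⟨t, ht⟩ := n1_aut (IntermediateField.adjoin.powerBasis hint) h1
    rw [hgen] at ht
    refine ⟨t.toRingEquiv, ?_, ?_⟩
    · change ((t ⟨w, hwE⟩ : E) : ℂ) = _
      rw [ht]
      rfl
    · intro x
      change ((t (algebraMap F₀ E x) : E) : ℂ) = _
      rw [t.commutes]
      rfl

end RF
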