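import Pool.Agent.MP_ae0bd0_nt.RF.N2
import Pool.Agent.MP_ae0bd0_nt.B3.Z8

set_option autoImplicit false

open CM27 NumberField IsDedekindDomain BS3 ArithmeticFunction

namespace RF

/-! ## [RF-N3] the `L`-function over `F₀(ω)` is the square of the `L`-function over `F₀` (file N3.lean) -/

theorem n3_card {K : Type} [Field K] [NumberField K] (v : HeightOneSpectrum (𝓞 K)) {p : ℕ}
    (hp : p.Prime) (hv : (p : 𝓞 K) ∈ v.asIdeal) :
    ∃ f, 0 < f ∧ Nat.card (𝓞 K ⧸ v.asIdeal) = p ^ f := by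
  have := v.isMaximal
  obtain ⟨q, n, hn, hq, hqp, h⟩ := Ideal.exists_prime_and_absNorm_eq_pow v.asIdeal
  have hpq : q = p := by
    by_contra hne
    have h1 : (q : 𝓞 K) ∉ v.asIdeal := by
      have := int_not_mem v hp hv (q : ℤ) (by
        intro h2
        exact hne ((Nat.prime_dvd_prime_iff_eq hp hqp).1 (by exact_mod_cast h2)).symm)
      exact_mod_cast this
    exact h1 hq
  subst hpq
  refine ⟨n, hn, ?_⟩
  rw [← h, Ideal.absNorm_apply, Submodule.cardQuot_apply]

theorem n3_fin {K : Type} [Field K] [NumberField K] {p : ℕ} (hp : p.Prime) :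
    {v : HeightOneSpectrum (𝓞 K) | (p : 𝓞 K) ∈ v.asIdeal}.Finite := by
  have h30 : Ideal.span {(p : 𝓞 K)} ≠ 0 := by
    rw [Ne, Ideal.zero_eq_bot, Ideal.span_singleton_eq_bot]
    exact_mod_cast hp.ne_zero
  refine (Ideal.finite_factors h30).subset ?_
  intro v hv
  exact Ideal.dvd_span_singleton.2 hv

/-- `loc p` of both sides for all primes `p` (`loc_mul`, `loc_LW`, `loc_LFunction`, `isMultiplicative_LW`,
`ArithmeticFunction.IsMultiplicative.eq_iff_eq_on_prime_powers`; see `LW_eq` in B3/P6.lean). The places of `F`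
above `p` are partitioned according to the place `v₀` of `F₀` below them. Bad `p`: both sides are `1`
(`hbad₀`, `hbad`). Good `p` (so `p ≠ 2, 3`): `(locDataR hr).good p` gives `α, β`, and by `loc_fw` the factor of a
place with residue field of order `p^f` is the inverse of `(1 - (αX)^f)(1 - (βX)^f)`. If the residue field of `v₀`
has `q ≡ 1 mod 3` elements, there are two places with the same `f`. If `q ≡ 2 mod 3` then `p ≡ 2 mod 3` and `f` is
odd, there is one place with `2 f`; `α + β = cr r p = 0` (`primSet p` is empty for `p ≡ 2 mod 3`), `β = - α`, so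
`(1 - (αX)^f)(1 - (βX)^f) = 1 - (αX)^(2f)` and its square is `(1 - (αX)^(2f))(1 - (βX)^(2f))`. -/
theorem LW_sq {r : ℕ} (hr : Adm r) {F₀ F : Type} [Field F₀] [NumberField F₀] [Field F]
    [NumberField F] [Algebra F₀ F] (h2 : Module.finrank F₀ F = 2) (om : F)
    (hom : om ^ 2 + om + 1 = 0) (h0 : ∀ x : F₀, x ^ 2 + x + 1 ≠ 0)
    (hbad₀ : ∀ p : ℕ, p.Prime → (p : ℤ) ∣ 6 * (-(r : ℤ) ^ 2) → ∀ v : HeightOneSpectrum (𝓞 F₀),
      (p : 𝓞 F₀) ∈ v.asIdeal → fw (-(r : ℤ) ^ 2) F₀ v = 1)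
    (hbad : ∀ p : ℕ, p.Prime → (p : ℤ) ∣ 6 * (-(r : ℤ) ^ 2) → ∀ v : HeightOneSpectrum (𝓞 F),
      (p : 𝓞 F) ∈ v.asIdeal → fw (-(r : ℤ) ^ 2) F v = 1) :
    LW (-(r : ℤ) ^ 2) F = LW (-(r : ℤ) ^ 2) F₀ * LW (-(r : ℤ) ^ 2) F₀ := by
  classical
  rw [ArithmeticFunction.IsMultiplicative.eq_iff_eq_on_prime_powers _ (isMultiplicative_LW _ _) _
    ((isMultiplicative_LW _ _).mul (isMultiplicative_LW _ _))]
  intro p i hp
  rw [← coeff_loc, ← coeff_loc]
  congr 1
  rw [loc_mul hp, loc_LW, loc_LW]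
  have hfin₀ := n3_fin (K := F₀) hp
  have hfin := n3_fin (K := F) hp
  rw [loc_LFunction _ F₀ hp hfin₀.toFinset (fun v hv => by simpa using hv),
    loc_LFunction _ F hp hfin.toFinset (fun v hv => by simpa using hv), map_prod, map_prod]
  have hmaps : ∀ v ∈ hfin.toFinset, HeightOneSpectrum.under (𝓞 F₀) v ∈ hfin₀.toFinset := by
    intro v hv
    rw [Set.Finite.mem_toFinset] at hv ⊢
    show (p : 𝓞 F₀) ∈ Ideal.comap (algebraMap (𝓞 F₀) (𝓞 F)) v.asIdeal
    rw [Ideal.mem_comap, map_natCast]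
    exact hv
  rw [← Finset.prod_fiberwise_of_maps_to hmaps, ← Finset.prod_mul_distrib]
  refine Finset.prod_congr rfl fun v₀ hv₀ => ?_
  have hv₀' : (p : 𝓞 F₀) ∈ v₀.asIdeal := by simpa using hv₀
  have hund : ∀ u : HeightOneSpectrum (𝓞 F), u.asIdeal.LiesOver v₀.asIdeal ↔
      HeightOneSpectrum.under (𝓞 F₀) u = v₀ := by
    intro u
    constructor
    · intro h
      apply HeightOneSpectrum.ext
      exact h.over.symm
    · intro h
      refine ⟨?_⟩
      rw [← h]
      rfl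
  have hmem : ∀ u : HeightOneSpectrum (𝓞 F), u.asIdeal.LiesOver v₀.asIdeal →
      (p : 𝓞 F) ∈ u.asIdeal := by
    intro u h
    have h1 : (p : 𝓞 F₀) ∈ Ideal.comap (algebraMap (𝓞 F₀) (𝓞 F)) u.asIdeal := by
      have h3 := h.over
      have h4 : v₀.asIdeal = Ideal.comap (algebraMap (𝓞 F₀) (𝓞 F)) u.asIdeal := h3
      rw [← h4]
      exact hv₀'
    rw [Ideal.mem_comap, map_natCast] at h1
    exact h1
  have hmemf : ∀ u : HeightOneSpectrum (𝓞 F), u ∈ hfin.toFinset.filter
      (fun u => HeightOneSpectrum.under (𝓞 F₀) u = v₀) ↔ u.asIdeal.LiesOver v₀.asIdeal := by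
    intro u
    rw [Finset.mem_filter, ← hund u]
    refine ⟨fun h => h.2, fun h => ⟨?_, h⟩⟩
    rw [Set.Finite.mem_toFinset]
    exact hmem u h
  by_cases h6 : (p : ℤ) ∣ 6 * (-(r : ℤ) ^ 2)
  · rw [hbad₀ p hp h6 v₀ hv₀', loc_one hp, map_one, mul_one]
    refine Finset.prod_eq_one fun u hu => ?_
    rw [hmemf] at hu
    rw [hbad p hp h6 u (hmem u hu), loc_one hp, map_one]
  · obtain ⟨α, β, hαβ, hpsi, hpts⟩ := (locDataR hr).good p hp h6
    have hpi : Prime (p : ℤ) := Nat.prime_iff_prime_int.1 hp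
    have hp3 : p ≠ 3 := by
      rintro rfl
      exact h6 ⟨-2 * r ^ 2, by push_cast; ring⟩
    obtain ⟨f, hf, hcard⟩ := n3_card v₀ hp hv₀'
    have hA₀ := loc_fw (-(r : ℤ) ^ 2) F₀ v₀ hp hf (int_not_mem v₀ hp hv₀' _ h6) hcard α β hαβ
      (fun κ _ _ hk => hpts f κ hf hk)
    set A₀ := PowerSeries.map (Int.castRingHom ℂ) (loc p (fw (-(r : ℤ) ^ 2) F₀ v₀)) with hA₀def
    have h33 : (3 : 𝓞 F₀) ∉ v₀.asIdeal := by
      have := int_not_mem v₀ hp hv₀' (3 : ℤ) (by
        intro h2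
        exact hp3 ((Nat.prime_dvd_prime_iff_eq hp Nat.prime_three).1 (by exact_mod_cast h2)))
      exact_mod_cast this
    obtain ⟨hs1, hs2⟩ := split_om h2 om hom h0 v₀ h33
    have hp30 : p % 3 ≠ 0 := by
      intro h
      exact hp3 ((Nat.prime_dvd_prime_iff_eq Nat.prime_three hp).1
        (Nat.dvd_of_mod_eq_zero h)).symm
    have hq : p ^ f % 3 = 1 ∨ p ^ f % 3 = 2 := by
      have h1 : ¬ 3 ∣ p ^ f := by
        intro h
        exact hp30 (Nat.mod_eq_zero_of_dvd (Nat.prime_three.dvd_of_dvd_pow h))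
      omega
    rw [hcard] at hs1 hs2
    rcases hq with hq | hq
    · obtain ⟨v, v', hne, hiff, c1, c2⟩ := hs1 hq
      have hset : hfin.toFinset.filter (fun u => HeightOneSpectrum.under (𝓞 F₀) u = v₀) =
          {v, v'} := by
        ext u
        rw [hmemf, hiff, Finset.mem_insert, Finset.mem_singleton]
      rw [hset, Finset.prod_pair hne]
      have hvp : (p : 𝓞 F) ∈ v.asIdeal := hmem v ((hiff v).2 (Or.inl rfl))
      have hvp' : (p : 𝓞 F) ∈ v'.asIdeal := hmem v' ((hiff v').2 (Or.inr rfl))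
      have e1 := loc_fw (-(r : ℤ) ^ 2) F v hp hf (int_not_mem v hp hvp _ h6) c1 α β hαβ
        (fun κ _ _ hk => hpts f κ hf hk)
      have e2 := loc_fw (-(r : ℤ) ^ 2) F v' hp hf (int_not_mem v' hp hvp' _ h6) c2 α β hαβ
        (fun κ _ _ hk => hpts f κ hf hk)
      set D := (1 - (PowerSeries.C α * PowerSeries.X) ^ f) *
        (1 - (PowerSeries.C β * PowerSeries.X) ^ f) with hD
      set A := PowerSeries.map (Int.castRingHom ℂ) (loc p (fw (-(r : ℤ) ^ 2) F v))
      set A' := PowerSeries.map (Int.castRingHom ℂ) (loc p (fw (-(r : ℤ) ^ 2) F v'))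
      have g1 : A = A₀ := by linear_combination A₀ * e1 - A * hA₀
      have g2 : A' = A₀ := by linear_combination A₀ * e2 - A' * hA₀
      rw [g1, g2]
    · obtain ⟨v, hiff, c1⟩ := hs2 hq
      have hset : hfin.toFinset.filter (fun u => HeightOneSpectrum.under (𝓞 F₀) u = v₀) =
          {v} := by
        ext u
        rw [hmemf, hiff, Finset.mem_singleton]
      rw [hset, Finset.prod_singleton]
      have hvp : (p : 𝓞 F) ∈ v.asIdeal := hmem v ((hiff v).2 rfl)
      rw [← pow_mul] at c1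
      have e1 := loc_fw (-(r : ℤ) ^ 2) F v hp (f := f * 2) (by omega)
        (int_not_mem v hp hvp _ h6) c1 α β hαβ
        (fun κ _ _ hk => hpts (f * 2) κ (by omega) hk)
      -- `p = 2 mod 3`, `f` odd
      have hp2 : p % 3 = 2 := by
        have h1 : p % 3 = 1 ∨ p % 3 = 2 := by omega
        rcases h1 with h1 | h1
        · rw [Nat.pow_mod, h1, one_pow] at hq
          norm_num at hq
        · exact h1
      have hodd : Odd f := by
        rw [← Nat.not_even_iff_odd]
        rintro ⟨g, rfl⟩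
        have h1 : p ^ (g + g) % 3 = 1 := by
          have h3 : p ^ 2 % 3 = 1 := by
            rw [Nat.pow_mod, hp2]
          rw [← two_mul, pow_mul, Nat.pow_mod, h3, one_pow, Nat.one_mod]
        omega
      have hsum : α + β = 0 := by
        have h1 := hpsi 1
        rw [cr_apply, cf, sum_primSet_inert p hp hp2] at h1
        rw [Finset.sum_range_succ, Finset.sum_range_succ, Finset.sum_range_zero] at h1
        norm_num at h1
        linear_combination -h1
      have hβ : β = -α := by linear_combination hsum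
      have g1 : (PowerSeries.C β * PowerSeries.X) ^ f =
          -((PowerSeries.C α * PowerSeries.X) ^ f) := by
        rw [hβ, map_neg, neg_mul, hodd.neg_pow]
      have g2 : (PowerSeries.C β * PowerSeries.X) ^ (f * 2) =
          (PowerSeries.C α * PowerSeries.X) ^ (f * 2) := by
        rw [pow_mul, pow_mul, g1, neg_sq]
      rw [g1] at hA₀
      rw [g2, pow_mul] at e1
      set y := (PowerSeries.C α * PowerSeries.X) ^ f
      set A := PowerSeries.map (Int.castRingHom ℂ) (loc p (fw (-(r : ℤ) ^ 2) F v))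
      have e3 : (A₀ * A₀) * ((1 - y ^ 2) * (1 - y ^ 2)) = 1 := by
        calc (A₀ * A₀) * ((1 - y ^ 2) * (1 - y ^ 2)) =
            (A₀ * ((1 - y) * (1 - -y))) * (A₀ * ((1 - y) * (1 - -y))) := by ring
          _ = 1 := by rw [hA₀, one_mul]
      linear_combination (A₀ * A₀) * e1 - A * e3

end RF
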