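import Pool.Agent.MP_ae0bd0_nt.RF.E1
import Pool.Agent.MP_ae0bd0_nt.B3.P7

set_option autoImplicit false

open NumberField IsDedekindDomain ArithmeticFunction
open CM27 CMT CF BS3
open scoped ComplexConjugate Classical

namespace RF

/-! ## [RF-N4] symmetry of the product over the characters (file N4.lean) -/

theorem n4_prime_star {b : Eis} (hb : Prime b) : Prime (star b) := by
  exact (MulEquiv.prime_iff (starRingAut (R := Eis)).toMulEquiv (p := b)).2 hb

theorem n4_two_le {b : Eis} (hb : Prime b) : 1 < b.norm.natAbs := by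
  have := eis_isDomain
  have h1 : b.norm ≠ 1 := fun h => hb.not_isUnit ((eis_isUnit_iff b).2 h)
  have h2 := a1_norm_pos hb.ne_zero
  omega

theorem n4_split (S : Finset Eis) (hS : ∀ b ∈ S, NEis b) (F : IntermediateField ℚ ℂ)
    [NumberField F] (hw : w ∈ F) (hF : F ≤ LS S) (τ : F ≃+* F) (hτ : (τ ⟨w, hw⟩ : ℂ) = -1 - w)
    (b : Eis) (hb : Primary b) (hbp : Prime b) :
    ∃ f g : ℕ, (∀ t : ℂ, ∏ X ∈ chF S F, (1 - Xt S X b * t) = (1 - t ^ f) ^ g) ∧
      ∀ t : ℂ, ∏ X ∈ chF S F, (1 - Xt S X (star b) * t) = (1 - t ^ f) ^ g := by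
  obtain ⟨f, g, hf, hfin, hc, hr, hX⟩ := split_LS S hS b hb hbp F hw hF
  obtain ⟨f', g', hf', hfin', hc', hr', hX'⟩ :=
    split_LS S hS (star b) hb.star (n4_prime_star hbp) F hw hF
  refine ⟨f, g, hX, ?_⟩
  set φ : 𝓞 F ≃+* 𝓞 F := RingOfIntegers.mapRingEquiv τ with hφ
  have hφb : φ (eF F hw b) = eF F hw (star b) := by
    apply RingOfIntegers.ext
    apply Subtype.ext
    have h1 : ((φ (eF F hw b) : 𝓞 F) : F) = τ ((eF F hw b : 𝓞 F) : F) := rfl
    rw [h1]
    have h2 : ((eF F hw b : 𝓞 F) : F) = (b.re : F) + (b.im : F) * ⟨w, hw⟩ := by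
      apply Subtype.ext
      rw [eF_apply, emb_apply]
      push_cast
      rfl
    rw [h2, map_add, map_mul, map_intCast, map_intCast, eF_apply]
    push_cast
    rw [hτ, emb_apply]
    have h3 : (star b).re = b.re - b.im := by
      rw [QuadraticAlgebra.re_star]
      ring
    have h4 : (star b).im = - b.im := QuadraticAlgebra.im_star b
    rw [h3, h4]
    push_cast
    ring
  have hset : above F b = p7_comap φ '' above F (star b) := by
    ext v
    constructor
    · intro hv
      refine ⟨p7_comap φ.symm v, ?_, p7_comap_comap φ v⟩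
      rw [mem_above F hw] at hv ⊢
      rw [p7_mem, ← hφb, φ.symm_apply_apply]
      exact hv
    · rintro ⟨u, hu, rfl⟩
      rw [mem_above F hw] at hu ⊢
      rw [p7_mem, hφb]
      exact hu
  have hg : g' = g := by
    rw [← hc, ← hc', hset, Set.ncard_image_of_injective _ (p7_inj φ)]
  by_cases hg0 : g = 0
  · intro t
    rw [hX' t, hg, hg0, pow_zero, pow_zero]
  · have hne : (above F (star b)).Nonempty := by
      rw [Set.nonempty_iff_ne_empty]
      intro h
      rw [h, Set.ncard_empty] at hc'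
      exact hg0 (by omega)
    obtain ⟨v, hv⟩ := hne
    have h1 := hr' v hv
    have h2 := hr (p7_comap φ v) (by rw [hset]; exact ⟨v, hv, rfl⟩)
    rw [p7_card, h1, QuadraticAlgebra.norm_star] at h2
    have h3 : f' = f := Nat.pow_right_injective (n4_two_le hbp) h2
    intro t
    rw [hX' t, hg, h3]

/-- `τ` maps the places above `b` to the places above `star b` (`τ (emb a) = emb (star a)` on `ℤ[ω] ⊆ F`), with
the same residue fields (`BS3.p7_comap`, `p7_card` in B3/P7.lean for the automorphism of `𝓞 F` induced by `τ`),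
so in `split_LS` (G5.lean) for `b` and for `star b` the numbers `f`, `g` are the same. If there is a place above
`b` the number `f` is determined by the residue field; `g = ncard`, and there is always a place above `b`. -/
theorem split_star (S : Finset Eis) (hS : ∀ b ∈ S, NEis b) (F : IntermediateField ℚ ℂ)
    [NumberField F] (hw : w ∈ F) (hF : F ≤ LS S) (τ : F ≃+* F) (hτ : (τ ⟨w, hw⟩ : ℂ) = -1 - w)
    (b : Eis) (hb : Primary b) (hbp : Prime b) (t : ℂ) :
    ∏ X ∈ chF S F, (1 - Xt S X b * t) = ∏ X ∈ chF S F, (1 - Xt S X (star b) * t) := by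
  obtain ⟨f, g, h1, h2⟩ := n4_split S hS F hw hF τ hτ b hb hbp
  rw [h1, h2]

theorem n4_hx_one {r : ℕ} (hr : Adm r) (S : Finset Eis) (X : XX S) : hx r S X 1 = 1 := by
  rw [hx, phr_one hr, v3_one, map_one, map_one, one_mul, one_mul]

theorem n4_hy_one {r : ℕ} (hr : Adm r) (S : Finset Eis) (X : XX S) : hy r S X 1 = 1 := by
  rw [hy, star_one, phr_one hr, v3_one, map_one, one_mul, one_mul]

theorem n4_hx_mul {r : ℕ} (hr : Adm r) (S : Finset Eis) (X : XX S) (a b : Eis) :
    hx r S X (a * b) = hx r S X a * hx r S X b := by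
  rw [hx, hx, hx, phr_mul hr, v3_mul, map_mul, map_mul]
  ring

theorem n4_hy_mul {r : ℕ} (hr : Adm r) (S : Finset Eis) (X : XX S) (a b : Eis) :
    hy r S X (a * b) = hy r S X a * hy r S X b := by
  rw [hy, hy, hy, star_mul, phr_mul hr, v3_mul, map_mul]
  ring

theorem n4_loc {r : ℕ} (hr : Adm r) (S : Finset Eis) (hS : ∀ b ∈ S, NEis b)
    (F : IntermediateField ℚ ℂ) [NumberField F] (hw : w ∈ F) (hF : F ≤ LS S) (τ : F ≃+* F)
    (hτ : (τ ⟨w, hw⟩ : ℂ) = -1 - w) {p : ℕ} (hp : p.Prime) :
    ∏ X ∈ chF S F, loc p (Dg (hx r S X)) = ∏ X ∈ chF S F, loc p (Dg (hy r S X)) := by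
  have h3 : p % 3 = 0 ∨ p % 3 = 1 ∨ p % 3 = 2 := by omega
  rcases h3 with h3 | h3 | h3
  · have hp3 : p = 3 := ((Nat.prime_dvd_prime_iff_eq Nat.prime_three hp).1
      (Nat.dvd_of_mod_eq_zero h3)).symm
    subst hp3
    refine Finset.prod_congr rfl fun X _ => ?_
    rw [loc_Dg_three _ (n4_hx_one hr S X), loc_Dg_three _ (n4_hy_one hr S X)]
  · obtain ⟨a, ha, hn⟩ := exists_primary_prime p hp h3
    have hpa := a3_prime_of_norm p hp a hn
    obtain ⟨f, g, h1, h2⟩ := n4_split S hS F hw hF τ hτ a ha hpa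
    obtain ⟨α, hα⟩ : ∃ α : ℂ, α = phr r a * conj (emb a) := ⟨_, rfl⟩
    obtain ⟨β, hβ⟩ : ∃ β : ℂ, β = phr r (star a) * emb a := ⟨_, rfl⟩
    set A := ∏ X ∈ chF S F, loc p (Dg (hx r S X)) with hA
    set B := ∏ X ∈ chF S F, loc p (Dg (hy r S X)) with hB
    set D := (1 - (PowerSeries.C α * PowerSeries.X) ^ f) ^ g *
      (1 - (PowerSeries.C β * PowerSeries.X) ^ f) ^ g with hD
    have e1 : A * D = 1 := by
      rw [hA, hD, ← prod_subst (chF S F) (fun X => Xt S X a) f g h1 (PowerSeries.C α * _),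
        ← prod_subst (chF S F) (fun X => Xt S X (star a)) f g h2 (PowerSeries.C β * _), ← Finset.prod_mul_distrib,
        ← Finset.prod_mul_distrib]
      apply Finset.prod_eq_one
      intro X _
      have t1 := loc_Dg_split (hx r S X) (n4_hx_one hr S X) (n4_hx_mul hr S X) p hp h3 a ha hn
      have u1 : hx r S X a = Xt S X a * α := by rw [hx, hα]; ring
      have u2 : hx r S X (star a) = Xt S X (star a) * β := by
        rw [hx, hβ, CM27.emb_star, Complex.conj_conj]; ring
      rw [u1, u2, map_mul, map_mul] at t1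
      refine Eq.trans ?_ t1
      ring
    have e2 : B * D = 1 := by
      have hD' : D = (1 - (PowerSeries.C β * PowerSeries.X) ^ f) ^ g *
          (1 - (PowerSeries.C α * PowerSeries.X) ^ f) ^ g := by rw [hD, mul_comm]
      rw [hB, hD', ← prod_subst (chF S F) (fun X => Xt S X a) f g h1 (PowerSeries.C β * _),
        ← prod_subst (chF S F) (fun X => Xt S X (star a)) f g h2 (PowerSeries.C α * _), ← Finset.prod_mul_distrib,
        ← Finset.prod_mul_distrib]
      apply Finset.prod_eq_one
      intro X _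
      have t1 := loc_Dg_split (hy r S X) (n4_hy_one hr S X) (n4_hy_mul hr S X) p hp h3 a ha hn
      have u1 : hy r S X a = Xt S X a * β := by rw [hy, hβ]; ring
      have u2 : hy r S X (star a) = Xt S X (star a) * α := by
        rw [hy, hα, CM27.emb_star, star_star]; ring
      rw [u1, u2, map_mul, map_mul] at t1
      refine Eq.trans ?_ t1
      ring
    calc A = A * (B * D) := by rw [e2, mul_one]
      _ = B * (A * D) := by ring
      _ = B := by rw [e1, mul_one]
  · refine Finset.prod_congr rfl fun X _ => ?_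
    have t1 := loc_Dg_inert (hx r S X) (n4_hx_one hr S X) (n4_hx_mul hr S X) p hp h3
    have t2 := loc_Dg_inert (hy r S X) (n4_hy_one hr S X) (n4_hy_mul hr S X) p hp h3
    have hs : star (-(p : Eis)) = -(p : Eis) := by rw [star_neg, star_natCast]
    have e : hx r S X (-(p : Eis)) = hy r S X (-(p : Eis)) := by
      rw [hx, hy, hs, map_neg, map_natCast, map_neg, Complex.conj_natCast]
    rw [e] at t1
    set D := 1 - PowerSeries.C (hy r S X (-(p : Eis))) * PowerSeries.X ^ 2
    calc loc p (Dg (hx r S X)) = loc p (Dg (hx r S X)) * (loc p (Dg (hy r S X)) * D) := by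
          rw [t2, mul_one]
      _ = loc p (Dg (hy r S X)) * (loc p (Dg (hx r S X)) * D) := by ring
      _ = _ := by rw [t1, mul_one]

/-- Compare `loc p` for all primes `p` (see `loc_LF` in CF/L2.lean for the computation of `loc p (Dg ..)`:
`loc_Dg_split`, `loc_Dg_inert`, `loc_Dg_three`, and `prod_subst` to pass from `split_star`-like identities in
`ℂ` to power series; or first prove the identity of polynomials/power series from `split_star`). At
`p = a ā`: `hx r S X a = X(a) α`, `hx r S X ā = X(ā) ᾱ`, `hy r S X a = X(a) ᾱ`, `hy r S X ā = X(ā) α`,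
`α = phr r a * conj (emb a)`. -/
theorem prod_hx_hy {r : ℕ} (hr : Adm r) (S : Finset Eis) (hS : ∀ b ∈ S, NEis b)
    (F : IntermediateField ℚ ℂ) [NumberField F] (hw : w ∈ F) (hF : F ≤ LS S) (τ : F ≃+* F)
    (hτ : (τ ⟨w, hw⟩ : ℂ) = -1 - w) :
    ∏ X ∈ chF S F, Dg (hx r S X) = ∏ X ∈ chF S F, Dg (hy r S X) := by
  rw [ArithmeticFunction.IsMultiplicative.eq_iff_eq_on_prime_powers _
    (isMultiplicative_finsetProd _ _ fun X _ => isMultiplicative_Dg _ (n4_hx_one hr S X)
      (n4_hx_mul hr S X)) _
    (isMultiplicative_finsetProd _ _ fun X _ => isMultiplicative_Dg _ (n4_hy_one hr S X)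
      (n4_hy_mul hr S X))]
  intro p i hp
  rw [← coeff_loc, ← coeff_loc, loc_prod hp, loc_prod hp, n4_loc hr S hS F hw hF τ hτ hp]

/-- Arithmetic functions whose squares (Dirichlet convolution) agree and which are multiplicative are equal:
`loc p` of both are power series with constant coefficient `1` and equal squares. -/
theorem sq_inj (A B : ArithmeticFunction ℂ) (hA : A.IsMultiplicative) (hB : B.IsMultiplicative)
    (h : A * A = B * B) : A = B := by
  rw [ArithmeticFunction.IsMultiplicative.eq_iff_eq_on_prime_powers _ hA _ hB]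
  intro p i hp
  rw [← coeff_loc, ← coeff_loc]
  congr 1
  have h1 : loc p A * loc p A = loc p B * loc p B := by rw [← loc_mul hp, h, loc_mul hp]
  have h2 : (loc p A - loc p B) * (loc p A + loc p B) = 0 := by linear_combination h1
  rcases mul_eq_zero.1 h2 with h3 | h3
  · exact sub_eq_zero.1 h3
  · exfalso
    have h4 := congrArg (PowerSeries.coeff 0) h3
    rw [map_add, coeff_loc, coeff_loc, pow_zero, hA.1, hB.1, _root_.map_zero] at h4
    norm_num at h4

end RF
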