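import Pool.Agent.MP_ae0bd0_nt.RF.E1
import Pool.Agent.MP_ae0bd0_nt.RF.E2
import Pool.Agent.MP_ae0bd0_nt.RF.I4
import Pool.Agent.MP_ae0bd0_nt.RF.N1
import Pool.Agent.MP_ae0bd0_nt.RF.N3
import Pool.Agent.MP_ae0bd0_nt.RF.N4

set_option autoImplicit false

open NumberField IsDedekindDomain ArithmeticFunction
open CM27 CMT CF BS3
open scoped ComplexConjugate Classical

namespace RF

/-! ## [RF-E3] assembly (file E3.lean) -/

theorem e3_level {m : ℕ} (hm : NLevel m) : ¬ 3 ∣ m := by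
  intro h
  have := (hm.2 3 Nat.prime_three h).2.1
  norm_num at this

/-- if no prime factor of `m ≠ 0` is in the prime ideal `v` then `m` is not in `v` -/
theorem e3_not_mem {K : Type} [Field K] [NumberField K] (v : HeightOneSpectrum (𝓞 K)) (m : ℕ)
    (hm0 : m ≠ 0) (h : ∀ p : ℕ, p.Prime → p ∣ m → (p : 𝓞 K) ∉ v.asIdeal) :
    (m : 𝓞 K) ∉ v.asIdeal := by
  intro hmv
  obtain ⟨p, hp, hd, hv⟩ := exists_prime_of_mem v (m : ℤ) (by exact_mod_cast hm0)
    (by rwa [Int.cast_natCast])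
  exact h p hp (by exact_mod_cast hd) hv

/-- `F / ℚ(ω)` is unramified outside of `m`. -/
theorem unr_ray (m : ℕ) (hm : NLevel m) (F : IntermediateField ℚ ℂ) [NumberField F]
    (hw : w ∈ F) (hF : F ≤ rayField (E ℂ) m) : letI := algK F hw; Unr m KK F := by
  letI := algK F hw
  obtain ⟨S, hS, hSd, hSm⟩ := exists_S_level m hm
  intro v P hPv hv
  by_cases h3 : (3 : 𝓞 KK) ∈ v.asIdeal
  · exact unram3 m hm S hS hSm F hw hF v P hPv h3
  · refine unram_F S hS F hw (hF.trans (rayField_le m hm S hS hSm)) v P hPv h3 ?_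
    intro b hb x hx hxv
    apply e3_not_mem v m hm.1.ne_zero hv
    obtain ⟨φ, hφ⟩ := exists_KK
    have h1 : x = φ b := by
      ext
      rw [hφ, hx]
    obtain ⟨c, hc⟩ := ((hSd b).1 hb).2.2
    have h2 : (m : 𝓞 KK) = φ b * φ c := by
      rw [← map_mul, ← hc, map_natCast]
    rw [h2, ← h1]
    exact Ideal.mul_mem_right _ _ hxv

section
variable {r : ℕ} (hr : Adm r) (m : ℕ) (hm : NLevel m)
  (hrm : ∀ p, p.Prime → p ∣ r → ¬ p ∣ m)
include hr hm hrm

/-- the primes dividing `6 r` are mildly ramified -/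
theorem e3_mild (F : IntermediateField ℚ ℂ) [NumberField F] (hw : w ∈ F)
    (hF : F ≤ rayField (E ℂ) m) (p : ℕ) (hp : p.Prime) (h : p ∣ 6 * r) : Mild p F := by
  letI := algK F hw
  refine mild_F (K := KK) m (unr_ray m hm F hw hF) p hp ?_
  intro hpm
  have h7 := hm.2 p hp hpm
  rcases (Nat.Prime.dvd_mul hp).1 h with h1 | h1
  · have h2 : p ∣ 2 * 3 := h1
    rcases (Nat.Prime.dvd_mul hp).1 h2 with h3 | h3
    · have := (Nat.prime_dvd_prime_iff_eq hp Nat.prime_two).1 h3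
      have h8 := h7.2.2
      omega
    · have := (Nat.prime_dvd_prime_iff_eq hp Nat.prime_three).1 h3
      have h8 := h7.2.1
      omega
  · exact hrm p hp h1 hpm

/-- the values for all characters of `F` -/
theorem e3_values (S : Finset Eis) (hS : ∀ b ∈ S, NEis b)
    (hSd : ∀ b ∈ S, b ∣ (m : Eis)) (hSm : ∃ u : Eis, IsUnit u ∧ (m : Eis) = u * gS S)
    (F : IntermediateField ℚ ℂ) [NumberField F] (hw : w ∈ F)
    (hF : F ≤ rayField (E ℂ) m) (n : ℕ) (h : Module.finrank ℚ F = 2 * 3 ^ n) (X : XX S)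
    (hX : X ∈ chF S F) :
    ∃ Φ₁ Φ₂ : ℂ → ℂ, Differentiable ℂ Φ₁ ∧ Differentiable ℂ Φ₂ ∧
      (∀ s : ℂ, 3 / 2 < s.re → LSeriesSummable (fun k => Dg (hx r S X) k) s ∧
        Φ₁ s = LSeries (fun k => Dg (hx r S X) k) s) ∧
      (∀ s : ℂ, 3 / 2 < s.re → LSeriesSummable (fun k => Dg (hy r S X) k) s ∧
        Φ₂ s = LSeries (fun k => Dg (hy r S X) k) s) ∧
      Φ₁ 1 ≠ 0 ∧ Φ₂ 1 ≠ 0 :=
  value_X hr m hm hrm S hS hSd X (unit_triv m hm S hS hSm F hF X hX) n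
    (fun b => pow_chF S hS F hw (hF.trans (rayField_le m hm S hS hSm)) (3 ^ n) h X hX b)

/-- the case `ω ∈ F` -/
theorem analytic_F (F : IntermediateField ℚ ℂ) [NumberField F] (hw : w ∈ F)
    (hF : F ≤ rayField (E ℂ) m) (n : ℕ) (h : Module.finrank ℚ F = 2 * 3 ^ n) :
    ∃ L : ℂ → ℂ, Differentiable ℂ L ∧
      (∀ s : ℂ, 3 / 2 < s.re →
        LSeriesSummable (fun k => ((W (-(r : ℤ) ^ 2) F).LFunction k : ℂ)) s ∧
        L s = (W (-(r : ℤ) ^ 2) F).LSeries s) ∧ L 1 ≠ 0 := by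
  obtain ⟨S, hS, hSd, hSm⟩ := exists_S_level m hm
  have hSd' : ∀ b ∈ S, b ∣ (m : Eis) := fun b hb => ((hSd b).1 hb).2.2
  have key : ∀ X ∈ chF S F, ∃ Φ : ℂ → ℂ, Differentiable ℂ Φ ∧
      (∀ s : ℂ, 3 / 2 < s.re →
        LSeriesSummable (fun k => (Dg (hx r S X) * Dg (hy r S X)) k) s ∧
        Φ s = LSeries (fun k => (Dg (hx r S X) * Dg (hy r S X)) k) s) ∧ Φ 1 ≠ 0 := by
    intro X hX
    obtain ⟨Φ₁, Φ₂, d1, d2, s1, s2, v1, v2⟩ :=
      e3_values hr m hm hrm S hS hSd' hSm F hw hF n h X hX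
    refine ⟨fun s => Φ₁ s * Φ₂ s, d1.mul d2, ?_, mul_ne_zero v1 v2⟩
    intro s hs
    refine ⟨ArithmeticFunction.LSeriesSummable_mul (s1 s hs).1 (s2 s hs).1, ?_⟩
    rw [ArithmeticFunction.LSeries_mul' (s1 s hs).1 (s2 s hs).1, ← (s1 s hs).2, ← (s2 s hs).2]
  choose! Φ hΦ1 hΦ2 hΦ3 using key
  have hLC : (fun k => ((W (-(r : ℤ) ^ 2) F).LFunction k : ℂ)) = fun k => (∏ X ∈ chF S F,
      (Dg (hx r S X) * Dg (hy r S X))) k := by
    funext k
    rw [← LW_apply, LW_prod hr S hS F hw (hF.trans (rayField_le m hm S hS hSm))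
      (bad_all hr F (e3_mild hr m hm hrm F hw hF))]
  refine ⟨fun s => ∏ X ∈ chF S F, Φ X s, Differentiable.fun_finsetProd hΦ1, ?_,
    Finset.prod_ne_zero_iff.2 hΦ3⟩
  intro s hs
  obtain ⟨h1, h2⟩ := LSeries_prod (chF S F) (fun X => Dg (hx r S X) * Dg (hy r S X)) s
    (fun X hX => (hΦ2 X hX s hs).1)
  rw [hLC]
  refine ⟨h1, ?_⟩
  have h3 : (W (-(r : ℤ) ^ 2) F).LSeries s =
    LSeries (fun k => ((W (-(r : ℤ) ^ 2) F).LFunction k : ℂ)) s := rfl
  rw [h3, hLC, h2]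
  exact Finset.prod_congr rfl fun X hX => (hΦ2 X hX s hs).2

theorem points_F (F : IntermediateField ℚ ℂ) [NumberField F] (hw : w ∈ F)
    (hF : F ≤ rayField (E ℂ) m) (n : ℕ) (h : Module.finrank ℚ F = 2 * 3 ^ n) (x y : F) :
    y ^ 2 ≠ x ^ 3 - (r : F) ^ 2 := by
  letI := algK F hw
  obtain ⟨S, hS, hSd, hSm⟩ := exists_S_level m hm
  obtain ⟨hG, hd⟩ := galois_F S hS F hw (hF.trans (rayField_le m hm S hS hSm)) (3 ^ n) h
  haveI := hG
  exact no_affine_gal (K := KK) n hd m ((nlevel_iff m).1 hm) (unr_ray m hm F hw hF) r hr x y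

/-- the case `[F : ℚ] = 3 ^ n` -/
theorem analytic_F0 (F₀ : IntermediateField ℚ ℂ) [NumberField F₀]
    (hF₀ : F₀ ≤ rayField (E ℂ) m) (n : ℕ) (h : Module.finrank ℚ F₀ = 3 ^ n) :
    (∃ L : ℂ → ℂ, Differentiable ℂ L ∧
      (∀ s : ℂ, 3 / 2 < s.re →
        LSeriesSummable (fun k => ((W (-(r : ℤ) ^ 2) F₀).LFunction k : ℂ)) s ∧
        L s = (W (-(r : ℤ) ^ 2) F₀).LSeries s) ∧ L 1 ≠ 0) ∧
    ∀ x y : F₀, y ^ 2 ≠ x ^ 3 - (r : F₀) ^ 2 := by
  obtain ⟨F, _, hle, hw, hmin, hF2, hd, h0, τ, hτ, -⟩ := sup_K F₀ n h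
  have hwray : w ∈ rayField (E ℂ) m := by
    refine IntermediateField.subset_adjoin ℚ _ (Or.inl ?_)
    have := w_sq
    linear_combination this
  have hF : F ≤ rayField (E ℂ) m := hmin _ hF₀ hwray
  obtain ⟨S, hS, hSd, hSm⟩ := exists_S_level m hm
  have hSd' : ∀ b ∈ S, b ∣ (m : Eis) := fun b hb => ((hSd b).1 hb).2.2
  have hFL := hF.trans (rayField_le m hm S hS hSm)
  constructor
  · letI : Algebra F₀ F := (IntermediateField.inclusion hle).toRingHom.toAlgebra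
    have hmild := e3_mild hr m hm hrm F hw hF
    have hbad := bad_all hr F hmild
    have hbad₀ := bad_all hr F₀ (fun p hp hd => (hmild p hp hd).sub p hp)
    have hom : (⟨w, hw⟩ : F) ^ 2 + ⟨w, hw⟩ + 1 = 0 := by
      apply Subtype.ext
      change w ^ 2 + w + 1 = 0
      have := w_sq
      linear_combination this
    have e1 := LW_sq hr hd (⟨w, hw⟩ : F) hom h0 hbad₀ hbad
    have e2 := LW_prod hr S hS F hw hFL hbad
    rw [Finset.prod_mul_distrib, ← prod_hx_hy hr S hS F hw hFL τ hτ, e1] at e2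
    have hmulx : ∀ (X : XX S) (a b : Eis), hx r S X (a * b) = hx r S X a * hx r S X b := by
      intro X a b
      rw [hx, hx, hx, phr_mul hr, map_mul, map_mul]
      have : Xt S X (a * b) = Xt S X a * Xt S X b := by
        unfold Xt
        rw [← Finset.prod_mul_distrib]
        refine Finset.prod_congr rfl fun c _ => ?_
        split_ifs
        · rw [mul_one]
        · rw [map_mul, map_mul]
      rw [this]
      ring
    have honex : ∀ X : XX S, hx r S X 1 = 1 := by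
      intro X
      have : Xt S X 1 = 1 := by
        unfold Xt
        refine Finset.prod_eq_one fun c _ => ?_
        split_ifs
        · rfl
        · rw [map_one, map_one]
      rw [hx, this, phr_one hr, map_one, map_one]
      norm_num
    have hLW : LW (-(r : ℤ) ^ 2) F₀ = ∏ X ∈ chF S F, Dg (hx r S X) := by
      refine sq_inj _ _ (isMultiplicative_LW _ _) ?_ e2
      exact isMultiplicative_finsetProd _ _ fun X _ => isMultiplicative_Dg _ (honex X) (hmulx X)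
    have key : ∀ X ∈ chF S F, ∃ Φ : ℂ → ℂ, Differentiable ℂ Φ ∧
        (∀ s : ℂ, 3 / 2 < s.re → LSeriesSummable (fun k => Dg (hx r S X) k) s ∧
          Φ s = LSeries (fun k => Dg (hx r S X) k) s) ∧ Φ 1 ≠ 0 := by
      intro X hX
      obtain ⟨Φ₁, Φ₂, d1, d2, s1, s2, v1, v2⟩ :=
        e3_values hr m hm hrm S hS hSd' hSm F hw hF n hF2 X hX
      exact ⟨Φ₁, d1, s1, v1⟩
    choose! Φ hΦ1 hΦ2 hΦ3 using key
    have hLC : (fun k => ((W (-(r : ℤ) ^ 2) F₀).LFunction k : ℂ)) = fun k => (∏ X ∈ chF S F,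
        Dg (hx r S X)) k := by
      funext k
      rw [← LW_apply, hLW]
    refine ⟨fun s => ∏ X ∈ chF S F, Φ X s, Differentiable.fun_finsetProd hΦ1, ?_,
      Finset.prod_ne_zero_iff.2 hΦ3⟩
    intro s hs
    obtain ⟨h1, h2⟩ := LSeries_prod (chF S F) (fun X => Dg (hx r S X)) s
      (fun X hX => (hΦ2 X hX s hs).1)
    rw [hLC]
    refine ⟨h1, ?_⟩
    have h3 : (W (-(r : ℤ) ^ 2) F₀).LSeries s =
      LSeries (fun k => ((W (-(r : ℤ) ^ 2) F₀).LFunction k : ℂ)) s := rfl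
    rw [h3, hLC, h2]
    exact Finset.prod_congr rfl fun X hX => (hΦ2 X hX s hs).2
  · intro x y hxy
    refine points_F hr m hm hrm F hw hF n hF2 (IntermediateField.inclusion hle x)
      (IntermediateField.inclusion hle y) ?_
    rw [← map_pow, hxy, map_sub, map_pow, map_pow, map_natCast]

theorem main_ray (F : IntermediateField ℚ ℂ) [NumberField F]
    (hF : F ≤ rayField (E ℂ) m) (n : ℕ)
    (h : Module.finrank ℚ F = 3 ^ n ∨ (w ∈ F ∧ Module.finrank ℚ F = 2 * 3 ^ n)) :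
    (∃ L : ℂ → ℂ, Differentiable ℂ L ∧
      (∀ s : ℂ, 3 / 2 < s.re →
        LSeriesSummable (fun k => ((W (-(r : ℤ) ^ 2) F).LFunction k : ℂ)) s ∧
        L s = (W (-(r : ℤ) ^ 2) F).LSeries s) ∧ L 1 ≠ 0) ∧
    ∀ x y : F, y ^ 2 ≠ x ^ 3 - (r : F) ^ 2 := by
  rcases h with h | ⟨hw, h⟩
  · exact analytic_F0 hr m hm hrm F hF n h
  · exact ⟨analytic_F hr m hm hrm F hw hF n h, points_F hr m hm hrm F hw hF n h⟩

end

end RF
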