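import Pool.Agent.MP_ae0bd0_nt.RF.A0
import Pool.Agent.MP_ae0bd0_nt.B3.Q6

set_option autoImplicit false

open CM27 NumberField IsDedekindDomain BS3

namespace RF

/-! ## [RF-B2] the descended class has valuations divisible by `3` outside of the bad primes
(file B2.lean) -/

/-- from `g ^ e` a cube, `e = 1` or `2` -/
theorem b2_cube (u : WithZero (Multiplicative ℤ)) (e : ℕ) (he : e = 1 ∨ e = 2)
    (h : ∃ g, u ^ e = g ^ 3) : ∃ g, u = g ^ 3 := by
  obtain ⟨g, hg⟩ := h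
  rcases he with rfl | rfl
  · exact ⟨g, by rw [← hg, pow_one]⟩
  · rcases eq_or_ne u 0 with h0 | h0
    · exact ⟨0, by rw [h0]; simp⟩
    · refine ⟨u / g, ?_⟩
      rw [div_pow, ← hg]
      field_simp

/-- the prime below -/
theorem b2_under {K L : Type} [Field K] [NumberField K] [Field L] [NumberField L] [Algebra K L]
    (w : HeightOneSpectrum (𝓞 L)) :
    ∃ v : HeightOneSpectrum (𝓞 K), w.asIdeal.LiesOver v.asIdeal := by
  have h1 : w.asIdeal.LiesOver (w.asIdeal.under (𝓞 K)) := ⟨rfl⟩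
  refine ⟨⟨w.asIdeal.under (𝓞 K), inferInstance, ?_⟩, h1⟩
  intro h0
  exact w.ne_bot (Ideal.eq_bot_of_comap_eq_bot h0)

/-- Let `w` be a place of `K(i)` which does not divide `2 c`, above the place `v` of `K`, and let `F/K` be
unramified above `v`. Give `F(i) = Q2 (-1) F` the structure of a `K(i)`-algebra by `mapQ (algebraMap K F)`
and choose a place `w'` of `F(i)` above `w`, and let `P` be its restriction to `F`. Then
`e(w'/w) e(w/v) = e(w'/P) e(P/v) = e(w'/P) ≤ 2`, so `e = e(w'/w)` is prime to `3`, and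
`w'(z0) = w(z0)^e`. As `w' ∤ 2c` the numbers `y - c i`, `y + c i` have product `x³` and difference `2 c i`, so
`w'(y - c i)` is a cube (`q6_cube_val` in B3/Q6.lean), hence `w'(z0)`, so `w(z0)^e` and so `w(z0)` is a cube. -/
theorem cube_unram' {K F : Type} [Field K] [NumberField K] [Field F] [NumberField F] [Algebra K F]
    [Fact (NonSq (-1) K)] [Fact (NonSq (-1) F)] [NumberField (Q2 (-1) K)] (c : ℤ) (x y : F)
    (hxy : y ^ 2 = x ^ 3 - (c : F) ^ 2) (z0 : Q2 (-1) K) (t : Q2 (-1) F) (ht : t ≠ 0)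
    (h : mapQ (algebraMap K F) z0 = (⟨y, -(c : F)⟩ : Q2 (-1) F) * t ^ 3)
    (w : HeightOneSpectrum (𝓞 (Q2 (-1) K))) (hw : ((2 * c : ℤ) : 𝓞 (Q2 (-1) K)) ∉ w.asIdeal)
    (hu : ∀ (v : HeightOneSpectrum (𝓞 K)) (P : HeightOneSpectrum (𝓞 F)),
      w.asIdeal.LiesOver v.asIdeal → P.asIdeal.LiesOver v.asIdeal →
      P.asIdeal.ramificationIdx (𝓞 K) = 1) :
    ∃ g, w.valuation (Q2 (-1) K) z0 = g ^ 3 := by
  have _ := ht
  have := numberField_Q2 F
  let : Algebra (Q2 (-1) K) (Q2 (-1) F) := (mapQ (algebraMap K F)).toAlgebra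
  have hmap : ∀ z : Q2 (-1) K, algebraMap (Q2 (-1) K) (Q2 (-1) F) z = mapQ (algebraMap K F) z :=
    fun z => rfl
  have : IsScalarTower K (Q2 (-1) K) (Q2 (-1) F) := by
    refine IsScalarTower.of_algebraMap_eq fun k => ?_
    rw [hmap]
    ext
    · rfl
    · change _ = algebraMap K F 0
      rw [map_zero]
      rfl
  have : IsScalarTower K F (Q2 (-1) F) := by
    refine IsScalarTower.of_algebraMap_eq fun k => ?_
    rfl
  have hw2 : ((2 : ℤ) : 𝓞 (Q2 (-1) K)) ∉ w.asIdeal := fun h1 => hw (by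
    rw [mul_comm, Int.cast_mul]
    exact Ideal.mul_mem_left _ _ h1)
  have hwc : ((c : ℤ) : 𝓞 (Q2 (-1) K)) ∉ w.asIdeal := fun h1 => hw (by
    rw [Int.cast_mul]
    exact Ideal.mul_mem_left _ _ h1)
  obtain ⟨v, hwv⟩ := b2_under (K := K) w
  have := w.isMaximal
  obtain ⟨Q, hQm, hQ⟩ := Ideal.exists_maximal_ideal_liesOver_of_isIntegral
    (S := 𝓞 (Q2 (-1) F)) w.asIdeal
  have hQ0 : Q ≠ ⊥ := Ideal.ne_bot_of_liesOver_of_ne_bot w.ne_bot Q
  let w' : HeightOneSpectrum (𝓞 (Q2 (-1) F)) := ⟨Q, hQm.isPrime, hQ0⟩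
  have hw' : w'.asIdeal.LiesOver w.asIdeal := hQ
  obtain ⟨P, hP⟩ := b2_under (K := F) w'
  have hw'v : w'.asIdeal.LiesOver v.asIdeal := Ideal.LiesOver.trans w'.asIdeal w.asIdeal v.asIdeal
  have hPv : P.asIdeal.LiesOver v.asIdeal := Ideal.LiesOver.tower_bot w'.asIdeal P.asIdeal v.asIdeal
  have h1 := hu v P hwv hPv
  have h2 : v.asIdeal.ramificationIdx' P.asIdeal = 1 := by
    rw [Ideal.ramificationIdx'_eq_ramificationIdx v.asIdeal P.asIdeal v.ne_bot, h1]
  have h3 := Ideal.ramificationIdx'_algebra_tower' v.asIdeal P.asIdeal w'.asIdeal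
  have h4 := Ideal.ramificationIdx'_algebra_tower' v.asIdeal w.asIdeal w'.asIdeal
  rw [h2, one_mul] at h3
  have h5 : P.asIdeal.ramificationIdx' w'.asIdeal ≤ 2 := by
    have hPm := P.isMaximal
    have hnz : NoZeroSMulDivisors (𝓞 F) (𝓞 (Q2 (-1) F)) := ⟨fun {a b} hab => by
      rw [Algebra.smul_def, mul_eq_zero] at hab
      rcases hab with h | h
      · left
        exact (FaithfulSMul.algebraMap_eq_zero_iff (𝓞 F) (𝓞 (Q2 (-1) F))).1 h
      · right; exact h⟩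
    refine (Ideal.ramificationIdx_le_finrank (𝓞 (Q2 (-1) F)) F (Q2 (-1) F)
      (p := P.asIdeal) w'.asIdeal).trans ?_
    exact (QuadraticAlgebra.finrank_eq_two (R := F) _ _).le
  have hvm := v.isMaximal
  have h6 : v.asIdeal.ramificationIdx' w.asIdeal ≠ 0 :=
    Ideal.IsDedekindDomain.ramificationIdx'_ne_zero_of_liesOver _ v.ne_bot
  have h7 : w.asIdeal.ramificationIdx' w'.asIdeal ≠ 0 :=
    Ideal.IsDedekindDomain.ramificationIdx'_ne_zero_of_liesOver _ w.ne_bot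
  have he : w.asIdeal.ramificationIdx' w'.asIdeal = 1 ∨
      w.asIdeal.ramificationIdx' w'.asIdeal = 2 := by
    rw [← h3, h4] at h5
    have h8 : w.asIdeal.ramificationIdx' w'.asIdeal ≤ 2 :=
      (Nat.le_mul_of_pos_left _ (Nat.pos_of_ne_zero h6)).trans h5
    omega
  refine b2_cube _ _ he ?_
  have hval := HeightOneSpectrum.valuation_liesOver (K := Q2 (-1) K) (Q2 (-1) F) w w' z0
  rw [hval, hmap, h, map_mul, map_pow]
  have hnot : ∀ n : ℤ, (n : 𝓞 (Q2 (-1) K)) ∉ w.asIdeal → (n : 𝓞 (Q2 (-1) F)) ∉ w'.asIdeal := by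
    intro n hn h1
    apply hn
    rw [hw'.over, Ideal.mem_comap, map_intCast]
    exact h1
  have hv2 : w'.valuation (Q2 (-1) F) ((2 : ℤ) : Q2 (-1) F) = 1 :=
    q6_val_intCast w' 2 (hnot 2 hw2)
  have hvc : w'.valuation (Q2 (-1) F) (c : Q2 (-1) F) = 1 := q6_val_intCast w' c (hnot c hwc)
  have hii : (⟨0, 1⟩ : Q2 (-1) F) * ⟨0, 1⟩ = -1 := by
    ext <;> simp [QuadraticAlgebra.re_one, QuadraticAlgebra.im_one]
  have hvi : w'.valuation (Q2 (-1) F) (⟨0, 1⟩ : Q2 (-1) F) = 1 := by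
    have h1 := congrArg (w'.valuation (Q2 (-1) F)) hii
    rw [map_mul, Valuation.map_neg, map_one, ← sq] at h1
    exact (pow_eq_one_iff_of_nonneg zero_le (by norm_num)).1 h1
  obtain ⟨g, hg⟩ := q6_cube_val (w'.valuation (Q2 (-1) F)) (⟨y, -(c : F)⟩ : Q2 (-1) F)
    (⟨y, (c : F)⟩ : Q2 (-1) F) (⟨x, 0⟩ : Q2 (-1) F) (by
      rw [show (⟨y, (c : F)⟩ : Q2 (-1) F) - (⟨y, -(c : F)⟩ : Q2 (-1) F) =
        ((2 : ℤ) : Q2 (-1) F) * c * (⟨0, 1⟩ : Q2 (-1) F) by
          ext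
          · simp [QuadraticAlgebra.im_ofNat]
          · simp [QuadraticAlgebra.re_ofNat]
            ring, map_mul,
        map_mul, hv2, hvc, hvi]
      simp) (by
      ext
      · simp [pow_succ]
        linear_combination hxy
      · simp [pow_succ]
        ring)
  exact ⟨g * w'.valuation (Q2 (-1) F) t, by rw [hg, mul_pow]⟩

end RF
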