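import Pool.Agent.MP_ae0bd0_nt.B3.Q13
import Pool.Agent.MP_ae0bd0_nt.CM.A3

set_option autoImplicit false

open CM27 NumberField IsDedekindDomain BS3

namespace RF

/-! ## [RF-A0] the fields `K(i)` and `F(i)` (file A0.lean) -/

/-- `-1` is not a square in `ℚ(ω)`. -/
theorem nonSq_K (K : Type) [Field K] [NumberField K] [IsCyclotomicExtension {3} ℚ K] :
    NonSq (-1) K := by
  rw [nonSq_iff]
  intro r hr
  have hz := IsCyclotomicExtension.zeta_spec 3 ℚ K
  have hq : (IsCyclotomicExtension.zeta 3 ℚ K) ^ 2 + IsCyclotomicExtension.zeta 3 ℚ K + 1 = 0 := by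
    have h1 := hz.isRoot_cyclotomic (by norm_num)
    rw [Polynomial.IsRoot.def, Polynomial.cyclotomic_three] at h1
    simpa using h1
  have hdim : (hz.powerBasis ℚ).dim = 2 := by
    rw [IsPrimitiveRoot.powerBasis_dim, ← Polynomial.cyclotomic_eq_minpoly_rat hz (by norm_num),
      Polynomial.natDegree_cyclotomic]
    rfl
  obtain ⟨f, hf, hfr⟩ := (hz.powerBasis ℚ).exists_eq_aeval r
  rw [IsPrimitiveRoot.powerBasis_gen] at hfr
  rw [hdim] at hf
  set om := IsCyclotomicExtension.zeta 3 ℚ K with hom
  obtain ⟨a, b, hab⟩ : ∃ a b : ℚ, r = (a : K) + b * om := by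
    refine ⟨f.coeff 0, f.coeff 1, ?_⟩
    rw [hfr, Polynomial.aeval_eq_sum_range' hf]
    simp [Finset.sum_range_succ, Algebra.smul_def]
  have hlin : ∀ A B : ℚ, (A : K) + B * om = 0 → A = 0 ∧ B = 0 := by
    intro A B h
    by_cases hB : B = 0
    · rw [hB] at h
      refine ⟨?_, hB⟩
      have : (A : K) = 0 := by simpa using h
      exact_mod_cast this
    · exfalso
      have hBK : (B : K) ≠ 0 := by exact_mod_cast hB
      have h1 : om = ((-A / B : ℚ) : K) := by
        push_cast
        field_simp
        linear_combination h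
      rw [h1] at hq
      have h2 : (-A / B : ℚ) ^ 2 + (-A / B) + 1 = 0 := by exact_mod_cast hq
      nlinarith [sq_nonneg (2 * (-A / B : ℚ) + 1)]
  have h1 : ((a ^ 2 - b ^ 2 + 1 : ℚ) : K) + ((2 * a * b - b ^ 2 : ℚ) : K) * om = 0 := by
    push_cast at hr ⊢
    rw [hab] at hr
    linear_combination hr - (b : K) ^ 2 * hq
  obtain ⟨h2, h3⟩ := hlin _ _ h1
  have h4 : b * (2 * a - b) = 0 := by linear_combination h3
  rcases mul_eq_zero.1 h4 with h5 | h5
  · rw [h5] at h2
    nlinarith [sq_nonneg a]
  · have h6 : b = 2 * a := by linear_combination -h5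
    rw [h6] at h2
    have h7 : (3 * a) ^ 2 = 3 := by linear_combination -3 * h2
    exact q5_nsq_three (3 * a) h7

/-- `-1` is not a square in `F` if `[F : K]` is odd: `K(√-1) ≤ F` would have degree `2` over `K`. (Or: `F`
odd degree over `K`, minimal polynomial of a root over `K` has degree dividing `3 ^ n` and is at most `2`,
see `BS3.not_sq` in B3/Q5.lean.) -/
theorem nonSq_F (K F : Type) [Field K] [NumberField K] [IsCyclotomicExtension {3} ℚ K] [Field F]
    [NumberField F] [Algebra K F] (n : ℕ) (hn : Module.finrank K F = 3 ^ n) : NonSq (-1) F := by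
  rw [nonSq_iff]
  intro x hx
  have hK := (nonSq_iff (-1) K).1 (nonSq_K K)
  have : FiniteDimensional K F := by
    apply Module.finite_of_finrank_pos
    rw [hn]; positivity
  have hint : IsIntegral K x := Algebra.IsIntegral.isIntegral x
  have hirr : Irreducible (Polynomial.X ^ 2 - Polynomial.C (-1) : Polynomial K) := by
    apply X_pow_sub_C_irreducible_of_prime Nat.prime_two
    intro q hq
    apply hK q
    rw [hq]; norm_num
  have hmin : minpoly K x = Polynomial.X ^ 2 - Polynomial.C (-1) := by
    symm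
    apply minpoly.eq_of_irreducible_of_monic hirr
    · simp [hx]
    · exact Polynomial.monic_X_pow_sub_C (-1) two_ne_zero
  have hdeg : (minpoly K x).natDegree = 2 := by
    rw [hmin]
    exact Polynomial.natDegree_X_pow_sub_C
  have hdvd : (minpoly K x).natDegree ∣ Module.finrank K F := minpoly.degree_dvd hint
  rw [hdeg, hn] at hdvd
  have := Nat.Prime.dvd_of_dvd_pow Nat.prime_two hdvd
  omega

/-- `K(i)` is a number field -/
theorem numberField_Q2 (K : Type) [Field K] [NumberField K] [Fact (NonSq (-1) K)] :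
    NumberField (Q2 (-1) K) where
  to_charZero := charZeroQ2
  to_finiteDimensional := Module.Finite.trans (R := ℚ) K (Q2 (-1) K)

end RF
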