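import Pool.Agent.MP_ae0bd0_nt.RF.A0

set_option autoImplicit false

open CM27 NumberField IsDedekindDomain BS3

namespace RF

/-! ## [RF-B1] Galois descent of a fixed class of norm a cube (file B1.lean) -/

theorem b1_ne {F : Type} [Field F] [CharZero F] (om : F) (hom : om ^ 2 + om + 1 = 0) : om ≠ 1 := by
  rintro rfl
  norm_num at hom

theorem b1_cube {F : Type} [Field F] (om : F) (hom : om ^ 2 + om + 1 = 0) : om ^ 3 = 1 := by
  linear_combination (om - 1) * hom

/-- cube roots of unity in a domain -/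
theorem b1_roots {R : Type} [CommRing R] [IsDomain R] (om ζ : R) (hom : om ^ 2 + om + 1 = 0)
    (h : ζ ^ 3 = 1) : ζ = 1 ∨ ζ = om ∨ ζ = om ^ 2 := by
  have h1 : (ζ - 1) * ((ζ - om) * (ζ - om ^ 2)) = 0 := by
    linear_combination h - ((ζ - 1) * ζ + (1 - ζ) * (om - 1) ) * hom
  rcases mul_eq_zero.1 h1 with h2 | h2
  · exact Or.inl (sub_eq_zero.1 h2)
  · rcases mul_eq_zero.1 h2 with h3 | h3
    · exact Or.inr (Or.inl (sub_eq_zero.1 h3))
    · exact Or.inr (Or.inr (sub_eq_zero.1 h3))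

theorem b1_norm_mk {F : Type} [Field F] (a : F) : (⟨a, 0⟩ : Q2 (-1) F).norm = a ^ 2 := by
  rw [QuadraticAlgebra.norm_def]
  ring

/-- In a field `F` with `-1` not a square, the cube roots of unity of `F(i)` which have norm `1` are `1`,
provided `ω ∈ F`. (`ζ³ = 1`, `ζ ∈ F(i)`: `(ζ - 1)(ζ - ω)(ζ - ω²) = 0`, so `ζ ∈ F` and the norm is
`ζ² ≠ 1` if `ζ ≠ 1`.) -/
theorem root_one {F : Type} [Field F] [CharZero F] [Fact (NonSq (-1) F)] (om : F)
    (hom : om ^ 2 + om + 1 = 0) (ζ : Q2 (-1) F) (h : ζ ^ 3 = 1) (hN : ζ.norm = 1) : ζ = 1 := by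
  have h3 := b1_cube om hom
  have h1 : (⟨om, 0⟩ : Q2 (-1) F) ^ 2 + ⟨om, 0⟩ + 1 = 0 := by
    rw [sq]
    ext
    · simp only [QuadraticAlgebra.re_add, QuadraticAlgebra.re_mul, QuadraticAlgebra.re_one,
        QuadraticAlgebra.re_zero]
      linear_combination hom
    · simp only [QuadraticAlgebra.im_add, QuadraticAlgebra.im_mul, QuadraticAlgebra.im_one,
        QuadraticAlgebra.im_zero]
      ring
  rcases b1_roots (⟨om, 0⟩ : Q2 (-1) F) ζ h1 h with h2 | h2 | h2
  · exact h2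
  · exfalso
    rw [h2, b1_norm_mk] at hN
    exact b1_ne om hom (by linear_combination h3 - om * hN)
  · exfalso
    rw [h2, map_pow, b1_norm_mk] at hN
    exact b1_ne om hom (by linear_combination hN - om * h3)

theorem b1_norm_map {K L : Type} [Field K] [Field L] (f : K →+* L) (z : Q2 (-1) K) :
    (mapQ f z).norm = f z.norm := by
  rw [QuadraticAlgebra.norm_def, QuadraticAlgebra.norm_def, mapQ_apply]
  simp only [map_add, map_sub, map_mul, map_zero, map_neg, map_one, Int.cast_neg, Int.cast_one]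

/-- `x ≠ 0` since `z ≠ 0` and the norm of `z` is `x³`. For `σ ∈ G = Gal(F/K)` let `σ z = z u³`. The norm of
`u` is `σ(x) / x` times a cube root of unity `ω^j`; replacing `u` by `ω^j u` (the norm of `ω^j` is
`ω^{2j}`, and `ω^{2j} ω^j = 1`) we may assume that the norm of `u` is `σ(x)/x`: then `u = u_σ` is unique
(`root_one`) and `u_{στ} = σ(u_τ) u_σ`. Hilbert 90 for `F(i)/K(i)` (group `G` acting on the coordinates):
choose `c ∈ F(i)` such that `t := ∑_τ τ(c) u_τ^{-1}`-like sum is nonzero (Dedekind independence, see the proof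
of `descend_cube` in B3/Q4.lean), then `z t³` (or its analogue) is fixed by `G`, hence in `K(i)` (coordinates
fixed by `G` are in `K`). `s = x N(t)` is fixed by `G`, so it is in `K`, and the norm of `z0` is `s³`. -/
theorem descend {K F : Type} [Field K] [NumberField K] [Field F] [NumberField F] [Algebra K F]
    [IsGalois K F] [Fact (NonSq (-1) F)] (om : K) (hom : om ^ 2 + om + 1 = 0) (z : Q2 (-1) F)
    (hz : z ≠ 0) (x : F) (hN : z.norm = x ^ 3)
    (hinv : ∀ σ : F ≃ₐ[K] F, ∃ u : Q2 (-1) F, mapQ (σ : F →+* F) z = z * u ^ 3) :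
    ∃ t : Q2 (-1) F, t ≠ 0 ∧ ∃ z0 : Q2 (-1) K,
      mapQ (algebraMap K F) z0 = z * t ^ 3 ∧ ∃ s : K, z0.norm = s ^ 3 := by
  have hfd : FiniteDimensional K F := Module.Finite.of_restrictScalars_finite ℚ K F
  have hft : Fintype (F ≃ₐ[K] F) := Fintype.ofFinite _
  have hom' : (algebraMap K F om) ^ 2 + algebraMap K F om + 1 = 0 := by
    rw [← map_pow, ← map_add, ← map_one (algebraMap K F), ← map_add, hom, map_zero]
  set ω := algebraMap K F om with hω
  have hω3 := b1_cube ω hom'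
  have hzN : z.norm ≠ 0 := fun h => hz (QuadraticAlgebra.norm_eq_zero_iff_eq_zero.1 h)
  have hx : x ≠ 0 := by
    rintro rfl
    exact hzN (by rw [hN]; ring)
  have hcomp : ∀ (σ τ : F ≃ₐ[K] F) (y : Q2 (-1) F), mapQ (σ : F →+* F) (mapQ (τ : F →+* F) y) =
      mapQ ((σ * τ : F ≃ₐ[K] F) : F →+* F) y := by
    intro σ τ y
    rfl
  have hex : ∀ σ : F ≃ₐ[K] F, ∃ u : Q2 (-1) F, mapQ (σ : F →+* F) z = z * u ^ 3 ∧
      u.norm * x = σ x := by
    intro σ
    obtain ⟨u, hu⟩ := hinv σ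
    have hσx : σ x ≠ 0 := (map_ne_zero σ).2 hx
    have h1 : (σ x) ^ 3 = x ^ 3 * u.norm ^ 3 := by
      have h2 := congrArg QuadraticAlgebra.norm hu
      rw [b1_norm_map, hN, map_mul, map_pow, hN, map_pow] at h2
      exact h2
    have h2 : (u.norm * x / σ x) ^ 3 = 1 := by
      rw [div_pow, mul_pow, h1, mul_comm, div_self]
      rw [← h1]
      exact pow_ne_zero 3 hσx
    have h3 : ∀ a : F, a ^ 3 = 1 → a * (u.norm * x / σ x) * a = 1 →
        ∃ u : Q2 (-1) F, mapQ (σ : F →+* F) z = z * u ^ 3 ∧ u.norm * x = σ x := by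
      intro a ha hau
      refine ⟨⟨a, 0⟩ * u, ?_, ?_⟩
      · have h5 : (⟨a, 0⟩ : Q2 (-1) F) ^ 3 = 1 := by
          have h6 : (⟨a, 0⟩ : Q2 (-1) F) = algebraMap F (Q2 (-1) F) a := rfl
          rw [h6, ← map_pow, ha, map_one]
        rw [mul_pow, h5, one_mul, hu]
      · rw [map_mul, b1_norm_mk]
        field_simp at hau
        linear_combination hau
    rcases b1_roots ω _ hom' h2 with h4 | h4 | h4
    · exact h3 1 (one_pow 3) (by rw [h4]; ring)
    · exact h3 ω hω3 (by rw [h4]; linear_combination hω3)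
    · refine h3 (ω ^ 2) (by rw [← pow_mul, mul_comm, pow_mul, hω3, one_pow]) ?_
      rw [h4]
      linear_combination (ω ^ 3 + 1) * hω3
  choose u hu1 hu2 using hex
  have hune : ∀ σ, u σ ≠ 0 := by
    intro σ h
    have h1 := hu1 σ
    rw [h] at h1
    have h2 : mapQ (D := -1) (σ : F →+* F) z = 0 := by
      rw [h1]; ring
    rw [map_eq_zero_iff _ (mapQ (D := -1) (σ : F →+* F)).injective] at h2
    exact hz h2
  -- the cocycle condition
  have hcoc : ∀ σ τ, u (σ * τ) = u σ * mapQ (σ : F →+* F) (u τ) := by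
    intro σ τ
    have hv : u σ * mapQ (σ : F →+* F) (u τ) ≠ 0 := by
      refine mul_ne_zero (hune σ) ?_
      rw [Ne, map_eq_zero_iff _ (mapQ (D := -1) (σ : F →+* F)).injective]
      exact hune τ
    have h1 := hu1 (σ * τ)
    rw [← hcomp, hu1 τ, map_mul, map_pow, hu1 σ] at h1
    have h2 : z * (u (σ * τ) ^ 3) = z * (u σ * mapQ (σ : F →+* F) (u τ)) ^ 3 := by
      rw [← h1]
      ring
    have h3 := mul_left_cancel₀ hz h2
    have h4 : (u (σ * τ) / (u σ * mapQ (σ : F →+* F) (u τ))) ^ 3 = 1 := by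
      rw [div_pow, h3, div_self (pow_ne_zero 3 hv)]
    have h5 : (u σ * mapQ (σ : F →+* F) (u τ)).norm = (u (σ * τ)).norm := by
      apply mul_right_cancel₀ hx
      rw [hu2 (σ * τ), map_mul, b1_norm_map]
      have e1 : (u σ).norm * σ (u τ).norm * x = σ ((u τ).norm * x) := by
        rw [map_mul, ← hu2 σ]
        ring
      have e2 : ((σ : F →+* F) (u τ).norm) = σ (u τ).norm := rfl
      rw [e2, e1, hu2 τ]
      rfl
    have h6 : (u (σ * τ) / (u σ * mapQ (σ : F →+* F) (u τ))).norm = 1 := by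
      have h7 : (u (σ * τ) / (u σ * mapQ (σ : F →+* F) (u τ))).norm *
          (u σ * mapQ (σ : F →+* F) (u τ)).norm = (u (σ * τ)).norm := by
        rw [← map_mul, div_mul_cancel₀ _ hv]
      rw [h5] at h7
      have h8 : (u (σ * τ)).norm ≠ 0 :=
        fun h => hune _ (QuadraticAlgebra.norm_eq_zero_iff_eq_zero.1 h)
      exact mul_right_cancel₀ h8 (by rw [h7, one_mul])
    have h9 := root_one ω hom' _ h4 h6
    rwa [div_eq_one_iff_eq hv] at h9
  -- linear independence of the automorphisms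
  have hinj : Function.Injective (fun σ : F ≃ₐ[K] F =>
      ((mapQ (σ : F →+* F) : Q2 (-1) F →+* Q2 (-1) F) : Q2 (-1) F →* Q2 (-1) F)) := by
    intro σ τ h
    apply AlgEquiv.ext
    intro a
    have h1 := DFunLike.congr_fun h (⟨a, 0⟩ : Q2 (-1) F)
    change mapQ (σ : F →+* F) (⟨a, 0⟩ : Q2 (-1) F) = mapQ (τ : F →+* F) (⟨a, 0⟩ : Q2 (-1) F) at h1
    rw [mapQ_apply, mapQ_apply] at h1
    exact congrArg QuadraticAlgebra.re h1
  have hli := (linearIndependent_monoidHom (Q2 (-1) F) (Q2 (-1) F)).comp _ hinj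
  obtain ⟨c, hc⟩ : ∃ c : Q2 (-1) F, ∑ τ : F ≃ₐ[K] F, u τ * mapQ (τ : F →+* F) c ≠ 0 := by
    by_contra hcon
    push Not at hcon
    refine hune 1 (Fintype.linearIndependent_iff.mp hli u ?_ 1)
    funext c
    rw [Finset.sum_apply]
    exact hcon c
  set θ := ∑ τ : F ≃ₐ[K] F, u τ * mapQ (τ : F →+* F) c with hθ
  have hσθ : ∀ σ : F ≃ₐ[K] F, u σ * mapQ (σ : F →+* F) θ = θ := by
    intro σ
    rw [hθ, map_sum, Finset.mul_sum]
    rw [← Equiv.sum_comp (Equiv.mulLeft σ) (fun τ : F ≃ₐ[K] F => u τ * mapQ (τ : F →+* F) c)]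
    refine Finset.sum_congr rfl fun τ _ => ?_
    rw [map_mul, hcomp, Equiv.coe_mulLeft, hcoc]
    ring
  have hfix : ∀ σ : F ≃ₐ[K] F, mapQ (σ : F →+* F) (z * θ ^ 3) = z * θ ^ 3 := by
    intro σ
    rw [map_mul, map_pow, hu1]
    have h1 := hσθ σ
    calc z * u σ ^ 3 * mapQ (σ : F →+* F) θ ^ 3 = z * (u σ * mapQ (σ : F →+* F) θ) ^ 3 := by ring
      _ = z * θ ^ 3 := by rw [h1]
  refine ⟨θ, hc, ?_⟩
  have hrat : ∀ y : F, (∀ σ : F ≃ₐ[K] F, σ y = y) → ∃ q : K, algebraMap K F q = y := by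
    intro y hy
    exact (IsGalois.mem_range_algebraMap_iff_fixed y).mpr hy
  obtain ⟨a0, ha0⟩ := hrat (z * θ ^ 3).re fun σ => congrArg QuadraticAlgebra.re (hfix σ)
  obtain ⟨b0, hb0⟩ := hrat (z * θ ^ 3).im fun σ => congrArg QuadraticAlgebra.im (hfix σ)
  obtain ⟨s, hs⟩ := hrat (x * θ.norm) fun σ => by
    have h1 := congrArg QuadraticAlgebra.norm (hσθ σ)
    rw [map_mul, b1_norm_map] at h1
    have e2 : ((σ : F →+* F) θ.norm) = σ θ.norm := rfl
    rw [e2] at h1
    calc σ (x * θ.norm) = σ x * σ θ.norm := map_mul _ _ _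
      _ = x * ((u σ).norm * σ θ.norm) := by rw [← hu2 σ]; ring
      _ = x * θ.norm := by rw [h1]
  have hz0 : mapQ (algebraMap K F) (⟨a0, b0⟩ : Q2 (-1) K) = z * θ ^ 3 := by
    rw [mapQ_apply]
    ext
    · exact ha0
    · exact hb0
  refine ⟨⟨a0, b0⟩, hz0, s, ?_⟩
  apply (algebraMap K F).injective
  rw [← b1_norm_map, hz0, map_mul, map_pow, hN, map_pow, hs]
  ring

end RF
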