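import Pool.Agent.MP_ae0bd0_nt.RF.A0

set_option autoImplicit false

open CM27 NumberField IsDedekindDomain BS3

namespace RF

/-! ## [RF-B3] places of `K(i)` above `2`, `3` and the primes `≡ 7 mod 12` (file B3.lean) -/

/-- the cube root of unity in the ring of integers -/
theorem b3_om (K : Type) [Field K] [NumberField K] [IsCyclotomicExtension {3} ℚ K] :
    ∃ om : 𝓞 K, om ^ 2 + om + 1 = 0 ∧ ∀ a : 𝓞 K, ∃ m n : ℤ, a = m + n * om := by
  have hζ : IsPrimitiveRoot (IsCyclotomicExtension.zeta 3 ℚ K) 3 :=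
    IsCyclotomicExtension.zeta_spec 3 ℚ K
  have h1 := hζ.toInteger_isPrimitiveRoot
  have h2 : hζ.toInteger ^ 2 + hζ.toInteger + 1 = 0 := by
    have h3 : (hζ.toInteger - 1) * (hζ.toInteger ^ 2 + hζ.toInteger + 1) = 0 := by
      have h4 := h1.pow_eq_one
      linear_combination h4
    rcases mul_eq_zero.1 h3 with h | h
    · exact absurd (sub_eq_zero.1 h) (h1.ne_one (by norm_num))
    · exact h
  refine ⟨hζ.toInteger, h2, fun a => ?_⟩
  have ha : a ∈ Algebra.adjoin ℤ {hζ.toInteger} := by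
    rw [IsCyclotomicExtension.Rat.adjoin_singleton_eq_top hζ]
    trivial
  induction ha using Algebra.adjoin_induction with
  | mem x hx =>
    rw [Set.mem_singleton_iff] at hx
    exact ⟨0, 1, by rw [hx]; push_cast; ring⟩
  | algebraMap r => exact ⟨r, 0, by simp⟩
  | add x y _ _ hx hy =>
    obtain ⟨m, n, rfl⟩ := hx
    obtain ⟨m', n', rfl⟩ := hy
    exact ⟨m + m', n + n', by push_cast; ring⟩
  | mul x y _ _ hx hy =>
    obtain ⟨m, n, rfl⟩ := hx
    obtain ⟨m', n', rfl⟩ := hy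
    refine ⟨m * m' - n * n', m * n' + n * m' - n * n', ?_⟩
    push_cast
    linear_combination (n * n' : 𝓞 K) * h2

theorem b3_dvd {K : Type} [Field K] [NumberField K] (v : HeightOneSpectrum (𝓞 K)) (p : ℕ)
    (hp : p.Prime) (hv : (p : 𝓞 K) ∈ v.asIdeal) (n : ℤ) (hn : (n : 𝓞 K) ∈ v.asIdeal) :
    (p : ℤ) ∣ n := by
  by_contra h
  have h1 : IsCoprime (p : ℤ) n := (Nat.prime_iff_prime_int.1 hp).coprime_iff_not_dvd.2 h
  obtain ⟨a, b, hab⟩ := h1
  have h2 : (1 : 𝓞 K) ∈ v.asIdeal := by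
    have h3 : (1 : 𝓞 K) = a * p + b * n := by
      have := congrArg (fun z : ℤ => (z : 𝓞 K)) hab
      push_cast at this
      exact this.symm
    rw [h3]
    exact Ideal.add_mem _ (Ideal.mul_mem_left _ _ hv) (Ideal.mul_mem_left _ _ hn)
  exact v.isPrime.ne_top ((Ideal.eq_top_iff_one _).2 h2)

/-- integers represent all classes modulo `v` -/
theorem b3_int {K : Type} [Field K] [NumberField K] [IsCyclotomicExtension {3} ℚ K]
    (v : HeightOneSpectrum (𝓞 K)) (p : ℕ) (hp : p.Prime) (h : p = 3 ∨ p % 12 = 7)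
    (hv : (p : 𝓞 K) ∈ v.asIdeal) (a : 𝓞 K) : ∃ n : ℤ, a - n ∈ v.asIdeal := by
  obtain ⟨om, hom, hbas⟩ := b3_om K
  have hk : ∃ k : ℤ, om - k ∈ v.asIdeal := by
    rcases h with rfl | h
    · refine ⟨1, ?_⟩
      have h1 : (om - 1) ^ 2 ∈ v.asIdeal := by
        have : (om - 1) ^ 2 = -om * ((3 : ℕ) : 𝓞 K) := by
          push_cast
          linear_combination hom
        rw [this]
        exact Ideal.mul_mem_left _ _ hv
      have := v.isPrime.mem_of_pow_mem _ h1
      simpa using this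
    · have : Fact p.Prime := ⟨hp⟩
      have h3 : Fact (Nat.Prime 3) := ⟨Nat.prime_three⟩
      have hcard : 3 ∣ Nat.card (ZMod p)ˣ := by
        rw [Nat.card_eq_fintype_card, ZMod.card_units_eq_totient, Nat.totient_prime hp]
        omega
      obtain ⟨x, hx⟩ := exists_prime_orderOf_dvd_card' 3 hcard
      have hx3 : x ^ 3 = 1 := by rw [← hx]; exact pow_orderOf_eq_one x
      have hx1 : x ≠ 1 := by
        intro h
        rw [h, orderOf_one] at hx
        omega
      have hy : (x : ZMod p) ^ 2 + x + 1 = 0 := by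
        have h4 : ((x : ZMod p) - 1) * ((x : ZMod p) ^ 2 + x + 1) = 0 := by
          have h5 := congrArg (fun u : (ZMod p)ˣ => (u : ZMod p)) hx3
          simp only [Units.val_pow_eq_pow_val, Units.val_one] at h5
          linear_combination h5
        rcases mul_eq_zero.1 h4 with h | h
        · exact absurd (Units.ext (by simpa using sub_eq_zero.1 h)) hx1
        · exact h
      obtain ⟨k, hk⟩ := ZMod.intCast_surjective (x : ZMod p)
      rw [← hk] at hy
      have h6 : (p : ℤ) ∣ k ^ 2 + k + 1 := by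
        rw [← ZMod.intCast_zmod_eq_zero_iff_dvd]
        push_cast
        exact hy
      obtain ⟨c, hc⟩ := h6
      have h7 : (om - k) * (om + k + 1) ∈ v.asIdeal := by
        have : (om - k) * (om + k + 1) = -c * (p : 𝓞 K) := by
          have h8 := congrArg (fun z : ℤ => (z : 𝓞 K)) hc
          push_cast at h8
          linear_combination hom - h8
        rw [this]
        exact Ideal.mul_mem_left _ _ hv
      rcases v.isPrime.mem_or_mem h7 with h | h
      · exact ⟨k, h⟩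
      · refine ⟨-k - 1, ?_⟩
        have h9 : om - ((-k - 1 : ℤ) : 𝓞 K) = om + k + 1 := by push_cast; ring
        rw [h9]
        exact h
  obtain ⟨k, hk⟩ := hk
  obtain ⟨m, n, rfl⟩ := hbas a
  refine ⟨m + n * k, ?_⟩
  have : (m + n * om : 𝓞 K) - ((m + n * k : ℤ) : 𝓞 K) = n * (om - k) := by push_cast; ring
  rw [this]
  exact Ideal.mul_mem_left _ _ hk

theorem b3_under {K L : Type} [Field K] [NumberField K] [Field L] [NumberField L] [Algebra K L]
    (w : HeightOneSpectrum (𝓞 L)) :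
    ∃ v : HeightOneSpectrum (𝓞 K), w.asIdeal.LiesOver v.asIdeal ∧
      (∀ n : ℕ, (n : 𝓞 L) ∈ w.asIdeal → (n : 𝓞 K) ∈ v.asIdeal) ∧
      ∃ e : ℕ, e ≠ 0 ∧ ∀ x : K, w.valuation L (algebraMap K L x) = v.valuation K x ^ e := by
  have h1 : w.asIdeal.LiesOver (w.asIdeal.under (𝓞 K)) := ⟨rfl⟩
  let v : HeightOneSpectrum (𝓞 K) := ⟨w.asIdeal.under (𝓞 K), inferInstance, fun h0 =>
    w.ne_bot (Ideal.eq_bot_of_comap_eq_bot h0)⟩
  have h2 : w.asIdeal.LiesOver v.asIdeal := h1
  have := v.isMaximal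
  refine ⟨v, h2, ?_, v.asIdeal.ramificationIdx' w.asIdeal, ?_, ?_⟩
  · intro n hn
    rw [h2.over, Ideal.mem_comap, map_natCast]
    exact hn
  · exact Ideal.IsDedekindDomain.ramificationIdx'_ne_zero_of_liesOver _ v.ne_bot
  · intro x
    exact (HeightOneSpectrum.valuation_liesOver (K := K) L v w x).symm

/-- `-1` is not a square in the residue field -/
theorem b3_odd {K : Type} [Field K] [NumberField K] [IsCyclotomicExtension {3} ℚ K]
    (v : HeightOneSpectrum (𝓞 K)) (p : ℕ) (hp : p.Prime) (h : p = 3 ∨ p % 12 = 7)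
    (hv : (p : 𝓞 K) ∈ v.asIdeal) (t : K) (ht : v.valuation K t ≤ 1) :
    v.valuation K (t ^ 2 + 1) = 1 := by
  have hle : v.valuation K (t ^ 2 + 1) ≤ 1 := by
    refine (Valuation.map_add _ _ _).trans (max_le ?_ (by rw [map_one]))
    rw [map_pow]
    exact pow_le_one₀ zero_le ht
  by_contra hne
  have hlt : v.valuation K (t ^ 2 + 1) < 1 := lt_of_le_of_ne hle hne
  obtain ⟨a, ha⟩ := HeightOneSpectrum.exists_valuation_sub_lt_of_integer (v := v) ht 1
  rw [Units.val_one] at ha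
  have h1 : v.valuation K (algebraMap (𝓞 K) K (a ^ 2 + 1)) < 1 := by
    have h2 : algebraMap (𝓞 K) K (a ^ 2 + 1) = (t ^ 2 + 1) + (algebraMap (𝓞 K) K a - t) *
        (algebraMap (𝓞 K) K a + t) := by
      simp only [map_add, map_pow, map_one]
      ring
    rw [h2]
    refine Valuation.map_add_lt _ hlt ?_
    rw [map_mul]
    refine mul_lt_one_of_lt_of_le ha ?_
    exact (Valuation.map_add _ _ _).trans (max_le (HeightOneSpectrum.valuation_le_one v a) ht)
  rw [HeightOneSpectrum.valuation_lt_one_iff_mem] at h1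
  obtain ⟨n, hn⟩ := b3_int v p hp h hv a
  have h3 : ((n ^ 2 + 1 : ℤ) : 𝓞 K) ∈ v.asIdeal := by
    have : ((n ^ 2 + 1 : ℤ) : 𝓞 K) = (a ^ 2 + 1) - (a + n) * (a - n) := by push_cast; ring
    rw [this]
    exact Ideal.sub_mem _ h1 (Ideal.mul_mem_left _ _ hn)
  have h4 := b3_dvd v p hp hv _ h3
  have : Fact p.Prime := ⟨hp⟩
  have h5 : ((n : ZMod p)) ^ 2 = -1 := by
    rw [← ZMod.intCast_zmod_eq_zero_iff_dvd] at h4
    push_cast at h4
    linear_combination h4
  have h6 := ZMod.mod_four_ne_three_of_sq_eq_neg_one h5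
  rcases h with rfl | h
  · exact h6 (by norm_num)
  · omega

/-- reduction to units -/
theorem b3_red {K : Type} [Field K] [Fact (NonSq (-1) K)]
    (u : Valuation (Q2 (-1) K) (WithZero (Multiplicative ℤ)))
    (H : ∀ t : K, u (algebraMap K (Q2 (-1) K) t) = 1 → u ⟨t, -1⟩ = u ⟨t, 1⟩) (z : Q2 (-1) K) :
    u (star z) = u z := by
  have hii : (⟨0, 1⟩ : Q2 (-1) K) * ⟨0, 1⟩ = -1 := by
    ext <;> simp [QuadraticAlgebra.re_one, QuadraticAlgebra.im_one]
  have hvi : u (⟨0, 1⟩ : Q2 (-1) K) = 1 := by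
    have h1 := congrArg u hii
    rw [map_mul, Valuation.map_neg, map_one, ← sq] at h1
    exact (pow_eq_one_iff_of_nonneg zero_le (by norm_num)).1 h1
  have h1 : z = algebraMap K (Q2 (-1) K) z.re + algebraMap K (Q2 (-1) K) z.im * ⟨0, 1⟩ := by
    ext <;> simp
  have h2 : star z = algebraMap K (Q2 (-1) K) z.re +
      -(algebraMap K (Q2 (-1) K) z.im * ⟨0, 1⟩) := by
    ext <;> simp
  have h3 : u (algebraMap K (Q2 (-1) K) z.im * ⟨0, 1⟩) = u (algebraMap K (Q2 (-1) K) z.im) := by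
    rw [map_mul, hvi, mul_one]
  rcases lt_trichotomy (u (algebraMap K (Q2 (-1) K) z.re)) (u (algebraMap K (Q2 (-1) K) z.im))
    with h | h | h
  · rw [h2]
    conv_rhs => rw [h1]
    rw [Valuation.map_add_eq_of_lt_right _ (by rw [Valuation.map_neg, h3]; exact h),
      Valuation.map_add_eq_of_lt_right _ (by rw [h3]; exact h), Valuation.map_neg]
  · rcases eq_or_ne z.im 0 with h0 | h0
    · rw [h2, h0, map_zero, zero_mul, neg_zero, add_zero]
      conv_rhs => rw [h1]
      rw [h0, map_zero, zero_mul, add_zero]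
    · have h4 : algebraMap K (Q2 (-1) K) z.im ≠ 0 := by
        rw [Ne, FaithfulSMul.algebraMap_eq_zero_iff]
        exact h0
      have h5 : u (algebraMap K (Q2 (-1) K) (z.re / z.im)) = 1 := by
        rw [map_div₀, map_div₀, h, div_self]
        rwa [Ne, map_eq_zero]
      have h6 := H _ h5
      have h7 : z = algebraMap K (Q2 (-1) K) z.im * ⟨z.re / z.im, 1⟩ := by
        ext <;> simp
        field_simp
      have h8 : star z = algebraMap K (Q2 (-1) K) z.im * ⟨z.re / z.im, -1⟩ := by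
        ext <;> simp
        field_simp
      rw [h8]
      conv_rhs => rw [h7]
      rw [map_mul, map_mul, h6]
  · rw [h2]
    conv_rhs => rw [h1]
    rw [Valuation.map_add_eq_of_lt_left _ (by rw [Valuation.map_neg, h3]; exact h),
      Valuation.map_add_eq_of_lt_left _ (by rw [h3]; exact h)]

theorem b3_unit_odd {K : Type} [Field K] [Fact (NonSq (-1) K)]
    (u : Valuation (Q2 (-1) K) (WithZero (Multiplicative ℤ))) (t : K)
    (ht : u (algebraMap K (Q2 (-1) K) t) = 1)
    (h : u (algebraMap K (Q2 (-1) K) (t ^ 2 + 1)) = 1) : u ⟨t, -1⟩ = 1 ∧ u ⟨t, 1⟩ = 1 := by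
  have hii : (⟨0, 1⟩ : Q2 (-1) K) * ⟨0, 1⟩ = -1 := by
    ext <;> simp [QuadraticAlgebra.re_one, QuadraticAlgebra.im_one]
  have hvi : u (⟨0, 1⟩ : Q2 (-1) K) = 1 := by
    have h1 := congrArg u hii
    rw [map_mul, Valuation.map_neg, map_one, ← sq] at h1
    exact (pow_eq_one_iff_of_nonneg zero_le (by norm_num)).1 h1
  have h1 : (⟨t, -1⟩ : Q2 (-1) K) = algebraMap K (Q2 (-1) K) t + -⟨0, 1⟩ := by
    ext <;> simp
  have h2 : (⟨t, 1⟩ : Q2 (-1) K) = algebraMap K (Q2 (-1) K) t + ⟨0, 1⟩ := by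
    ext <;> simp
  have h3 : u (⟨t, -1⟩ : Q2 (-1) K) ≤ 1 := by
    rw [h1]
    refine (Valuation.map_add _ _ _).trans (max_le ht.le ?_)
    rw [Valuation.map_neg, hvi]
  have h4 : u (⟨t, 1⟩ : Q2 (-1) K) ≤ 1 := by
    rw [h2]
    exact (Valuation.map_add _ _ _).trans (max_le ht.le hvi.le)
  have h5 : u (⟨t, -1⟩ : Q2 (-1) K) * u (⟨t, 1⟩ : Q2 (-1) K) = 1 := by
    rw [← map_mul, ← h]
    congr 1
    ext
    · simp only [QuadraticAlgebra.re_mul, QuadraticAlgebra.algebraMap_re]
      push_cast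
      ring
    · simp only [QuadraticAlgebra.im_mul, QuadraticAlgebra.algebraMap_im]
      ring
  constructor
  · exact eq_one_of_one_le_mul_left h3 h4 h5.ge
  · exact eq_one_of_one_le_mul_right h3 h4 h5.ge

/-- `w` a place of `K(i)`, `K = ℚ(ω)`, above `p ≡ 3 mod 4` where `p = 3` or `p ≡ 1 mod 3`, so that the residue
field of `K` at the place `v` below `w` is `𝔽_p` and `-1` is not a square in it. For `z = a + b i`:
if `w(a) ≠ w(b)` then `w(z) = max = w(z̄)`; if `w(a) = w(b) ≠ 0` then `z = b (t + i)`, `t = a / b ∈ K` a `v`-unit, and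
`w(t + i) < 1` would give `w(t² + 1) < 1`, i.e. `-1` is a square in `𝓞 K / v` (`t` is congruent to an element of
`𝓞 K`; every element of `𝓞 K` is congruent to a rational integer modulo `v`: `ω ≡ n`). So
`w(t + i) = w(t - i) = 1`. -/
theorem conj_val_odd {K : Type} [Field K] [NumberField K] [IsCyclotomicExtension {3} ℚ K]
    [Fact (NonSq (-1) K)] [NumberField (Q2 (-1) K)] (p : ℕ) (hp : p.Prime)
    (h : p = 3 ∨ p % 12 = 7) (w : HeightOneSpectrum (𝓞 (Q2 (-1) K)))
    (hw : (p : 𝓞 (Q2 (-1) K)) ∈ w.asIdeal) (z : Q2 (-1) K) :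
    w.valuation (Q2 (-1) K) (star z) = w.valuation (Q2 (-1) K) z := by
  obtain ⟨v, hwv, hn, e, he, hval⟩ := b3_under (K := K) w
  refine b3_red (w.valuation (Q2 (-1) K)) (fun t ht => ?_) z
  have h1 : v.valuation K t = 1 := by
    rw [hval] at ht
    exact (pow_eq_one_iff_of_nonneg zero_le he).1 ht
  have h2 := b3_odd v p hp h (hn p hw) t h1.le
  have h3 := b3_unit_odd (w.valuation (Q2 (-1) K)) t ht (by rw [hval, h2, one_pow])
  rw [h3.1, h3.2]

/-- `2` is a prime element -/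
theorem b3_two {K : Type} [Field K] [NumberField K] [IsCyclotomicExtension {3} ℚ K]
    (v : HeightOneSpectrum (𝓞 K)) (hv : (2 : 𝓞 K) ∈ v.asIdeal) (x : K)
    (hx : v.valuation K x < 1) : v.valuation K x ≤ v.valuation K 2 := by
  obtain ⟨om, hom, hbas⟩ := b3_om K
  have hspan : v.asIdeal = Ideal.span {(2 : 𝓞 K)} := by
    refine le_antisymm ?_ ((Ideal.span_singleton_le_iff_mem _).2 hv)
    intro a ha
    obtain ⟨m, n, rfl⟩ := hbas a
    have h1 : ((m ^ 2 - m * n + n ^ 2 : ℤ) : 𝓞 K) ∈ v.asIdeal := by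
      have : ((m ^ 2 - m * n + n ^ 2 : ℤ) : 𝓞 K) = (m - n - n * om) * (m + n * om) := by
        push_cast
        linear_combination (n ^ 2 : 𝓞 K) * hom
      rw [this]
      exact Ideal.mul_mem_left _ _ ha
    have h2 := b3_dvd v 2 Nat.prime_two (by exact_mod_cast hv) _ h1
    have h3 : Even m ∧ Even n := by
      have h4 : Even (m ^ 2 - m * n + n ^ 2) := even_iff_two_dvd.2 h2
      by_contra hcon
      rcases Int.even_or_odd m with hm | hm <;> rcases Int.even_or_odd n with hn | hn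
      · exact hcon ⟨hm, hn⟩
      · rw [← Int.not_odd_iff_even] at h4
        apply h4
        have : Even (m ^ 2 - m * n) := (hm.pow_of_ne_zero two_ne_zero).sub (hm.mul_right n)
        exact this.add_odd hn.pow
      · rw [← Int.not_odd_iff_even] at h4
        apply h4
        have : Odd (m ^ 2 - m * n) := (hm.pow).sub_even (hn.mul_left m)
        exact this.add_even (hn.pow_of_ne_zero two_ne_zero)
      · rw [← Int.not_odd_iff_even] at h4
        apply h4
        have : Even (m ^ 2 - m * n) := (hm.pow).sub_odd (hm.mul hn)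
        exact this.add_odd hn.pow
    obtain ⟨⟨a, rfl⟩, ⟨b, rfl⟩⟩ := h3
    rw [Ideal.mem_span_singleton]
    exact ⟨a + b * om, by push_cast; ring⟩
  have h2 : v.valuation K 2 = WithZero.exp (-1 : ℤ) := by
    have h3 := HeightOneSpectrum.intValuation_singleton v (r := (2 : 𝓞 K)) two_ne_zero hspan
    rw [← HeightOneSpectrum.valuation_of_algebraMap (K := K)] at h3
    have h4 : algebraMap (𝓞 K) K 2 = 2 := map_ofNat _ 2
    exact (congrArg (v.valuation K) h4).symm.trans h3
  rw [h2]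
  rcases eq_or_ne (v.valuation K x) 0 with h0 | h0
  · rw [h0]; exact zero_le
  · rw [← WithZero.exp_log h0] at hx ⊢
    rw [← WithZero.exp_zero, WithZero.exp_lt_exp] at hx
    rw [WithZero.exp_le_exp]
    omega

/-- The place above `2`: `2` is a prime element of `𝓞 K` (`K = ℚ(ω)`), `𝓞 K / 2 = 𝔽₄` and `(1 + i)² = 2 i`, so
`w(2) = w(1 + i)²`. As above, `z = b (t + i)` with `t` a `v`-unit. If `w(t + i) = 1` then also `w(t - i) = 1`
(`2 i` is small). If `w(t + i) < 1` then `w(t² + 1) < 1` so `w(t - 1)² < 1` (`2` is small), `w(t - 1) < 1`, so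
`w(t - 1) ≤ w(2)` (`2` is a uniformizer of `v`), and `t ± i = (t - 1) + (1 ± i)`, `w(1 ± i) > w(2)`, so
`w(t ± i) = w(1 + i)`. -/
theorem conj_val_two {K : Type} [Field K] [NumberField K] [IsCyclotomicExtension {3} ℚ K]
    [Fact (NonSq (-1) K)] [NumberField (Q2 (-1) K)] (w : HeightOneSpectrum (𝓞 (Q2 (-1) K)))
    (hw : (2 : 𝓞 (Q2 (-1) K)) ∈ w.asIdeal) (z : Q2 (-1) K) :
    w.valuation (Q2 (-1) K) (star z) = w.valuation (Q2 (-1) K) z := by
  obtain ⟨v, hwv, hn, e, he, hval⟩ := b3_under (K := K) w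
  have h2v : (2 : 𝓞 K) ∈ v.asIdeal := by
    have := hn 2 (by exact_mod_cast hw)
    exact_mod_cast this
  have h2lt : v.valuation K 2 < 1 := by
    have := (HeightOneSpectrum.valuation_lt_one_iff_mem (K := K) v 2).2 h2v
    have h4 : algebraMap (𝓞 K) K 2 = 2 := map_ofNat _ 2
    exact lt_of_eq_of_lt (congrArg (v.valuation K) h4).symm this
  refine b3_red (w.valuation (Q2 (-1) K)) (fun t ht => ?_) z
  have h1 : v.valuation K t = 1 := by
    rw [hval] at ht
    exact (pow_eq_one_iff_of_nonneg zero_le he).1 ht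
  have hle : v.valuation K (t ^ 2 + 1) ≤ 1 := by
    refine (Valuation.map_add _ _ _).trans (max_le ?_ (by rw [map_one]))
    rw [map_pow]
    exact pow_le_one₀ zero_le h1.le
  rcases hle.eq_or_lt with h2 | h2
  · have h3 := b3_unit_odd (w.valuation (Q2 (-1) K)) t ht (by rw [hval, h2, one_pow])
    rw [h3.1, h3.2]
  · have h3 : v.valuation K (t - 1) < 1 := by
      have h4 : v.valuation K ((t - 1) ^ 2) < 1 := by
        have : (t - 1) ^ 2 = (t ^ 2 + 1) + -(2 * t) := by ring
        rw [this]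
        refine Valuation.map_add_lt _ h2 ?_
        rw [Valuation.map_neg, map_mul, h1, mul_one]
        exact h2lt
      rw [map_pow] at h4
      exact (pow_lt_one_iff_of_nonneg zero_le two_ne_zero).1 h4
    have h4 := b3_two v h2v _ h3
    have h5 : w.valuation (Q2 (-1) K) (algebraMap K (Q2 (-1) K) (t - 1)) ≤
        w.valuation (Q2 (-1) K) (algebraMap K (Q2 (-1) K) 2) := by
      rw [hval, hval]
      exact pow_le_pow_left₀ zero_le h4 _
    have h6 : w.valuation (Q2 (-1) K) (algebraMap K (Q2 (-1) K) 2) < 1 := by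
      rw [hval]
      exact pow_lt_one₀ zero_le h2lt he
    have hii : (⟨0, 1⟩ : Q2 (-1) K) * ⟨0, 1⟩ = -1 := by
      ext <;> simp [QuadraticAlgebra.re_one, QuadraticAlgebra.im_one]
    have hvi : w.valuation (Q2 (-1) K) (⟨0, 1⟩ : Q2 (-1) K) = 1 := by
      have h1 := congrArg (w.valuation (Q2 (-1) K)) hii
      rw [map_mul, Valuation.map_neg, map_one, ← sq] at h1
      exact (pow_eq_one_iff_of_nonneg zero_le (by norm_num)).1 h1
    have h7 : w.valuation (Q2 (-1) K) (⟨1, -1⟩ : Q2 (-1) K) =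
        w.valuation (Q2 (-1) K) (⟨1, 1⟩ : Q2 (-1) K) := by
      have : (⟨1, -1⟩ : Q2 (-1) K) = -(⟨0, 1⟩ * ⟨1, 1⟩) := by
        ext <;> simp
      rw [this, Valuation.map_neg, map_mul, hvi, one_mul]
    have h8 : w.valuation (Q2 (-1) K) (⟨1, 1⟩ : Q2 (-1) K) ^ 2 =
        w.valuation (Q2 (-1) K) (algebraMap K (Q2 (-1) K) 2) := by
      have : (⟨1, 1⟩ : Q2 (-1) K) ^ 2 = algebraMap K (Q2 (-1) K) 2 * ⟨0, 1⟩ := by
        rw [sq]
        ext
        · simp only [QuadraticAlgebra.re_mul, QuadraticAlgebra.algebraMap_re,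
            QuadraticAlgebra.algebraMap_im]
          push_cast
          ring
        · simp only [QuadraticAlgebra.im_mul, QuadraticAlgebra.algebraMap_re,
            QuadraticAlgebra.algebraMap_im]
          ring
      rw [← map_pow, this, map_mul, hvi, mul_one]
    have h9 : w.valuation (Q2 (-1) K) (algebraMap K (Q2 (-1) K) 2) <
        w.valuation (Q2 (-1) K) (⟨1, 1⟩ : Q2 (-1) K) := by
      rw [← h8] at h6 ⊢
      have h10 : w.valuation (Q2 (-1) K) (⟨1, 1⟩ : Q2 (-1) K) < 1 :=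
        (pow_lt_one_iff_of_nonneg zero_le two_ne_zero).1 h6
      have h11 : w.valuation (Q2 (-1) K) (⟨1, 1⟩ : Q2 (-1) K) ≠ 0 := by
        rw [Ne, map_eq_zero]
        intro h
        have := congrArg QuadraticAlgebra.im h
        simp at this
      rw [sq]
      exact mul_lt_of_lt_one_left (zero_lt_iff.2 h11) h10
    have h10 : (⟨t, -1⟩ : Q2 (-1) K) = algebraMap K (Q2 (-1) K) (t - 1) + ⟨1, -1⟩ := by
      ext <;> simp [QuadraticAlgebra.re_one, QuadraticAlgebra.im_one]
    have h11 : (⟨t, 1⟩ : Q2 (-1) K) = algebraMap K (Q2 (-1) K) (t - 1) + ⟨1, 1⟩ := by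
      ext <;> simp [QuadraticAlgebra.re_one, QuadraticAlgebra.im_one]
    rw [h10, h11, Valuation.map_add_eq_of_lt_right _ (by rw [h7]; exact lt_of_le_of_lt h5 h9),
      Valuation.map_add_eq_of_lt_right _ (lt_of_le_of_lt h5 h9), h7]

/-- `z z̄ = s³` and `w(z̄) = w(z)` give `w(z)² = w(s)³`, so `w(z)` is a cube. -/
theorem cube_nonsplit' {K : Type} [Field K] [NumberField K] [IsCyclotomicExtension {3} ℚ K]
    [Fact (NonSq (-1) K)] [NumberField (Q2 (-1) K)] (z : Q2 (-1) K) (hz : z ≠ 0) (s : K)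
    (hN : z.norm = s ^ 3) (p : ℕ) (hp : p.Prime) (h : p = 2 ∨ p = 3 ∨ p % 12 = 7)
    (w : HeightOneSpectrum (𝓞 (Q2 (-1) K))) (hw : (p : 𝓞 (Q2 (-1) K)) ∈ w.asIdeal) :
    ∃ g, w.valuation (Q2 (-1) K) z = g ^ 3 := by
  have h1 : w.valuation (Q2 (-1) K) (star z) = w.valuation (Q2 (-1) K) z := by
    rcases h with rfl | h
    · exact conj_val_two w (by exact_mod_cast hw) z
    · exact conj_val_odd p hp h w hw z
  have h2 := congrArg (algebraMap K (Q2 (-1) K)) hN
  rw [QuadraticAlgebra.algebraMap_norm_eq_mul_star, map_pow] at h2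
  have h3 := congrArg (w.valuation (Q2 (-1) K)) h2
  rw [map_mul, h1, map_pow] at h3
  have h4 : w.valuation (Q2 (-1) K) z ≠ 0 := by rwa [Ne, map_eq_zero]
  refine ⟨w.valuation (Q2 (-1) K) z / w.valuation (Q2 (-1) K) (algebraMap K (Q2 (-1) K) s), ?_⟩
  rw [div_pow, ← h3]
  field_simp

end RF
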