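import Pool.Agent.MP_ae0bd0_nt.RF.A0
import Pool.Agent.MP_ae0bd0_nt.B3.Q8a

set_option autoImplicit false

open CM27 NumberField IsDedekindDomain BS3

namespace RF

/-! ## [RF-B4] `ℚ(ζ₁₂)` has class number one (file B4.lean) -/

open scoped Classical in
open Polynomial in
/-- The discriminant of a family of integral elements is a square times the discriminant. -/
theorem b4_discr (L : Type) [Field L] [NumberField L] {n : ℕ} (b0 : Fin n → L)
    (hn : Module.finrank ℚ L = n) (hint : ∀ j, IsIntegral ℤ (b0 j)) :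
    ∃ q : ℤ, Algebra.discr ℚ b0 = (q : ℚ) ^ 2 * discr L := by
  set b := integralBasis L with hb
  have hcard : Fintype.card (Module.Free.ChooseBasisIndex ℤ (𝓞 L)) = Fintype.card (Fin n) := by
    rw [← Module.finrank_eq_card_basis b, hn, Fintype.card_fin]
  set e := Fintype.equivOfCardEq hcard with he
  set b' := b.reindex e with hb'
  have h1 : Algebra.discr ℚ b0 = (b'.toMatrix b0).det ^ 2 * Algebra.discr ℚ b' := by
    rw [← Algebra.discr_of_matrix_vecMul, Module.Basis.toMatrix_map_vecMul]
  have h2' : Algebra.discr ℚ b' = (discr L : ℚ) := by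
    rw [coe_discr, hb', Module.Basis.coe_reindex, Algebra.discr_reindex]
  have h3 : ∃ Q : Matrix (Fin n) (Fin n) ℤ,
      b'.toMatrix b0 = Q.map (Int.castRingHom ℚ) := by
    have hint' : ∀ j, ∃ x : 𝓞 L, algebraMap (𝓞 L) L x = b0 j := fun j =>
      ⟨⟨b0 j, hint j⟩, rfl⟩
    choose x hx using hint'
    refine ⟨Matrix.of fun i j => (RingOfIntegers.basis L).repr (x j) (e.symm i), ?_⟩
    ext i j
    rw [Module.Basis.toMatrix_apply, Matrix.map_apply, Matrix.of_apply, hb',
      Module.Basis.repr_reindex_apply, ← hx j]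
    exact integralBasis_repr_apply L (x j) (e.symm i)
  obtain ⟨Q, hQ⟩ := h3
  refine ⟨Q.det, ?_⟩
  rw [h1, h2', hQ, show (Q.map (Int.castRingHom ℚ)).det = ((Q.det : ℤ) : ℚ) from
    (RingHom.map_det (Int.castRingHom ℚ) Q).symm]

/-- The trace of `ω`. -/
theorem b4_trace_om (K : Type) [Field K] [NumberField K] [IsCyclotomicExtension {3} ℚ K] :
    ∃ om : K, om ^ 2 + om + 1 = 0 ∧ Algebra.trace ℚ K om = -1 ∧ Module.finrank ℚ K = 2 := by
  have hz := IsCyclotomicExtension.zeta_spec 3 ℚ K
  have hirr : Irreducible (Polynomial.cyclotomic 3 ℚ) :=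
    Polynomial.cyclotomic.irreducible_rat (by norm_num)
  have hfin : Module.finrank ℚ K = 2 := by
    rw [IsCyclotomicExtension.finrank K hirr]
    rfl
  have hq : (IsCyclotomicExtension.zeta 3 ℚ K) ^ 2 + IsCyclotomicExtension.zeta 3 ℚ K + 1 = 0 := by
    have h1 := hz.isRoot_cyclotomic (by norm_num)
    rw [Polynomial.IsRoot.def, Polynomial.cyclotomic_three] at h1
    simpa using h1
  refine ⟨IsCyclotomicExtension.zeta 3 ℚ K, hq, ?_, hfin⟩
  have h1 := PowerBasis.trace_gen_eq_nextCoeff_minpoly (hz.powerBasis ℚ)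
  rw [IsPrimitiveRoot.powerBasis_gen] at h1
  rw [h1, ← Polynomial.cyclotomic_eq_minpoly_rat hz (by norm_num), Polynomial.cyclotomic_three]
  have hdeg : (Polynomial.X ^ 2 + Polynomial.X + 1 : Polynomial ℚ).natDegree = 2 := by
    compute_degree!
  rw [Polynomial.nextCoeff_of_natDegree_pos (by rw [hdeg]; norm_num), hdeg]
  simp [Polynomial.coeff_one, Polynomial.coeff_X]

theorem b4_core (K L : Type) [Field K] [NumberField K] [IsCyclotomicExtension {3} ℚ K]
    [Field L] [NumberField L] [Algebra K L] (i : L) (hi : i ^ 2 = -1)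
    (h2 : Module.finrank K L = 2) (htr : Algebra.trace K L i = 0) :
    IsPrincipalIdealRing (𝓞 L) := by
  obtain ⟨om, hom, htom, hK2⟩ := b4_trace_om K
  have hL4 : Module.finrank ℚ L = 4 := by
    rw [← Module.finrank_mul_finrank ℚ K L, hK2, h2]
  have hdisc : |discr L| ≤ 144 := by
    set w : L := algebraMap K L om with hw
    have hw2 : w ^ 2 + w + 1 = 0 := by
      rw [hw, ← map_pow, ← map_add, ← map_one (algebraMap K L), ← map_add, hom, map_zero]
    have htt : ∀ x : L, Algebra.trace ℚ L x = Algebra.trace ℚ K (Algebra.trace K L x) := by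
      intro x
      exact (Algebra.trace_trace x).symm
    have hta : ∀ x : K, Algebra.trace ℚ L (algebraMap K L x) = 2 * Algebra.trace ℚ K x := by
      intro x
      rw [htt, Algebra.trace_algebraMap, h2, map_nsmul]
      simp
    have hti : ∀ x : K, Algebra.trace ℚ L (algebraMap K L x * i) = 0 := by
      intro x
      rw [htt, ← Algebra.smul_def, map_smul, htr]
      simp
    have t1K : Algebra.trace ℚ K 1 = 2 := by
      have := Algebra.trace_algebraMap (R := ℚ) (S := K) 1
      rw [map_one, hK2] at this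
      rw [this]; norm_num
    have t1 : Algebra.trace ℚ L 1 = 4 := by
      have := hta 1
      rw [map_one, t1K] at this
      rw [this]; norm_num
    have tw : Algebra.trace ℚ L w = -2 := by
      rw [hw, hta, htom]; norm_num
    have ti : Algebra.trace ℚ L i = 0 := by
      have := hti 1
      rwa [map_one, one_mul] at this
    have twi : Algebra.trace ℚ L (w * i) = 0 := hti om
    have tww : Algebra.trace ℚ L (w * w) = -2 := by
      have : w * w = -w - 1 := by linear_combination hw2
      rw [this, map_sub, map_neg, tw, t1]; norm_num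
    have tii : Algebra.trace ℚ L (i * i) = -4 := by
      have : i * i = -1 := by rw [← sq, hi]
      rw [this, map_neg, t1]
    have twwi : Algebra.trace ℚ L (w * (w * i)) = 0 := by
      have : w * (w * i) = -(w * i) - i := by linear_combination i * hw2
      rw [this, map_sub, map_neg, twi, ti]; norm_num
    have tiwi : Algebra.trace ℚ L (i * (w * i)) = 2 := by
      have : i * (w * i) = -w := by linear_combination w * hi
      rw [this, map_neg, tw]; norm_num
    have twiwi : Algebra.trace ℚ L (w * i * (w * i)) = 2 := by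
      have : w * i * (w * i) = -(w * w) := by linear_combination w ^ 2 * hi
      rw [this, map_neg, tww]; norm_num
    have twiw : Algebra.trace ℚ L (w * i * w) = 0 := by
      rw [mul_comm]; exact twwi
    have twii : Algebra.trace ℚ L (w * i * i) = 2 := by
      rw [mul_comm]; exact tiwi
    set b0 : Fin 4 → L := ![1, w, i, w * i] with hb0
    have hwi : IsIntegral ℤ w := by
      refine ⟨Polynomial.X ^ 2 + Polynomial.X + 1, by monicity!, ?_⟩
      simp only [Polynomial.eval₂_add, Polynomial.eval₂_pow, Polynomial.eval₂_X,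
        Polynomial.eval₂_one]
      exact hw2
    have hii : IsIntegral ℤ i := by
      refine ⟨Polynomial.X ^ 2 + 1, by monicity!, ?_⟩
      simp only [Polynomial.eval₂_add, Polynomial.eval₂_pow, Polynomial.eval₂_X,
        Polynomial.eval₂_one]
      rw [hi]; ring
    obtain ⟨q, hq⟩ := b4_discr L b0 hL4 (by
      intro j
      fin_cases j
      · exact isIntegral_one
      · exact hwi
      · exact hii
      · exact hwi.mul hii)
    have hd : Algebra.discr ℚ b0 = 144 := by
      rw [Algebra.discr_def]
      have hm : Algebra.traceMatrix ℚ b0 = !![4, -2, 0, 0; -2, -2, 0, 0; 0, 0, -4, 2; 0, 0, 2, 2] := by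
        ext a b
        rw [Algebra.traceMatrix_apply, Algebra.traceForm_apply]
        fin_cases a <;> fin_cases b <;>
          simp [hb0, t1, tw, ti, twi, tww, tii, twwi, tiwi, twiwi, twiw, twii, mul_comm i w]
      rw [hm]
      simp [Matrix.det_succ_row_zero, Fin.sum_univ_succ, Fin.succAbove]
      norm_num
    rw [hd] at hq
    have h4 : (144 : ℤ) = q ^ 2 * discr L := by exact_mod_cast hq
    have h5 : q ≠ 0 := by
      intro h0
      rw [h0] at h4
      norm_num at h4
    have h6 : 1 ≤ q ^ 2 := by
      have := sq_pos_of_pos (abs_pos.2 h5)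
      rw [sq_abs] at this
      omega
    have h7 : (144 : ℤ) = q ^ 2 * |discr L| := by
      have := congrArg abs h4
      rw [abs_mul (q ^ 2), abs_of_nonneg (sq_nonneg q)] at this
      simpa using this
    nlinarith [abs_nonneg (discr L)]
  apply RingOfIntegers.isPrincipalIdealRing_of_abs_discr_lt
  have hpi := Real.pi_gt_three
  have hpi4 := Real.pi_lt_four
  have h1 : InfinitePlace.nrComplexPlaces L ≤ 2 := by
    have := InfinitePlace.card_add_two_mul_card_eq_rank L
    rw [hL4] at this
    omega
  have h3 : (Real.pi / 4) ^ 2 ≤ (Real.pi / 4) ^ InfinitePlace.nrComplexPlaces L := by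
    apply pow_le_pow_of_le_one (by positivity) (by linarith) h1
  have h5 : ((|discr L| : ℤ) : ℝ) ≤ 144 := by exact_mod_cast hdisc
  refine lt_of_le_of_lt h5 ?_
  rw [hL4]
  have h6 : (9 / 16 : ℝ) < (Real.pi / 4) ^ InfinitePlace.nrComplexPlaces L := by
    refine lt_of_lt_of_le ?_ h3
    nlinarith
  generalize (Real.pi / 4) ^ InfinitePlace.nrComplexPlaces L = P at *
  norm_num [Nat.factorial]
  nlinarith

/-- `Q2 (-1) K = K(i)`, `K = ℚ(ω)`, has degree `4` over `ℚ`, signature `(0, 2)` (it contains `ω`), and
`|discr| ≤ 144`: the order spanned by `1, ω, i, ω i` has discriminant `(-3)² (-4)² = 144` and the discriminant of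
the field divides it by a square (see `q8a_abs_discr`, B3/Q8a.lean: trace form / `Algebra.discr` of an integral
basis; the matrix of traces of `1, ω, i, ωi` is a Kronecker product). Minkowski:
`NumberField.isPrincipalIdealRing_of_abs_discr_lt`: `144 < (2 (π/4)² 4⁴/4!)² = 173.2..`. Alternative: `K(i)` is a
12th cyclotomic field and Mathlib may know its discriminant. -/
theorem pid_k (K : Type) [Field K] [NumberField K] [IsCyclotomicExtension {3} ℚ K]
    [Fact (NonSq (-1) K)] [NumberField (Q2 (-1) K)] : IsPrincipalIdealRing (𝓞 (Q2 (-1) K)) := by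
  refine b4_core K (Q2 (-1) K) (⟨0, 1⟩ : Q2 (-1) K) ?_ ?_ ?_
  · ext
    · simp [sq, QuadraticAlgebra.re_one]
    · simp [sq, QuadraticAlgebra.im_one]
  · exact QuadraticAlgebra.finrank_eq_two (R := K) ((-1 : ℤ) : K) 0
  · set e : Q2 (-1) K ≃ₐ[K] Q2 (-1) K := AlgEquiv.ofRingEquiv (f := starRingAut) (fun q => by
      change star (algebraMap K (Q2 (-1) K) q) = algebraMap K (Q2 (-1) K) q
      ext <;> simp) with he
    have h1 := Algebra.trace_eq_of_algEquiv e (⟨0, 1⟩ : Q2 (-1) K)
    have h3 : e (⟨0, 1⟩ : Q2 (-1) K) = -(⟨0, 1⟩ : Q2 (-1) K) := by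
      change star (⟨0, 1⟩ : Q2 (-1) K) = _
      ext <;> simp
    rw [h3, map_neg] at h1
    have h4 : (2 : K) * Algebra.trace K (Q2 (-1) K) (⟨0, 1⟩ : Q2 (-1) K) = 0 := by
      linear_combination -h1
    exact (mul_eq_zero.1 h4).resolve_left two_ne_zero

end RF
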