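import Pool.Agent.MP_ae0bd0_nt.RF.A0
import Pool.Agent.MP_ae0bd0_nt.B3.Q9

set_option autoImplicit false

open CM27 NumberField IsDedekindDomain BS3

namespace RF

/-! ## [RF-B5] units of `ℚ(ζ₁₂)` (file B5.lean) -/

/-- `ε = 2 + √-3 i` up to sign: `⟨2, e (2 ω + 1)⟩` with `e = ± 1`; `((2 ω + 1) i)² = 3`. -/
noncomputable def eps {K : Type} [Field K] (om : K) : Q2 (-1) K := ⟨2, 2 * om + 1⟩

/-- The non-trivial automorphism of `K`. -/
theorem b5_exists_aut {K : Type} [Field K] [NumberField K] [IsCyclotomicExtension {3} ℚ K] :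
    ∃ σ : K ≃ₐ[ℚ] K, (∀ x, σ (σ x) = x) ∧
      ∀ x : K, σ x = x → ∃ q : ℚ, (q : K) = x := by
  have hG : IsGalois ℚ K := IsCyclotomicExtension.isGalois {3} ℚ K
  have hfin : Module.finrank ℚ K = 2 := by
    rw [IsCyclotomicExtension.Rat.finrank 3 K]
    rfl
  have hcard : Nat.card (K ≃ₐ[ℚ] K) = 2 := by
    rw [IsGalois.card_aut_eq_finrank, hfin]
  obtain ⟨σ, hσ⟩ : ∃ σ : K ≃ₐ[ℚ] K, σ ≠ 1 := by
    by_contra hcon
    push Not at hcon
    have : Subsingleton (K ≃ₐ[ℚ] K) := ⟨fun a b => by rw [hcon a, hcon b]⟩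
    have h1 : Nat.card (K ≃ₐ[ℚ] K) ≤ 1 := Finite.card_le_one_iff_subsingleton.2 this
    omega
  refine ⟨σ, ?_, ?_⟩
  · intro x
    have h2 : σ ^ 2 = 1 := by
      rw [← hcard]
      exact pow_card_eq_one'
    have h3 := DFunLike.congr_fun h2 x
    rw [sq] at h3
    exact h3
  intro x hx
  have : x ∈ Set.range (algebraMap ℚ K) := by
    rw [IsGalois.mem_range_algebraMap_iff_fixed]
    intro f
    by_cases hf : f = 1
    · rw [hf]; rfl
    · have hfσ : f = σ := by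
        have h2 := Nat.card_eq_two_iff' (1 : K ≃ₐ[ℚ] K)
        obtain ⟨y, hy, huniq⟩ := h2.1 hcard
        rw [huniq f hf, huniq σ hσ]
      rw [hfσ]; exact hx
  obtain ⟨q, hq⟩ := this
  exact ⟨q, by rw [← hq]; rfl⟩

theorem b5_aut_om {K : Type} [Field K] [NumberField K] (om : K) (hom : om ^ 2 + om + 1 = 0)
    (σ : K ≃ₐ[ℚ] K) (hσ : ∀ x : K, σ x = x → ∃ q : ℚ, (q : K) = x) :
    σ (2 * om + 1) = - (2 * om + 1) := by
  have h1 : (σ om) ^ 2 + σ om + 1 = 0 := by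
    have := congrArg σ hom
    simpa using this
  have h2 : (σ om - om) * (σ om + om + 1) = 0 := by linear_combination h1 - hom
  rcases mul_eq_zero.1 h2 with h3 | h3
  · exfalso
    obtain ⟨q, hq⟩ := hσ om (sub_eq_zero.1 h3)
    rw [← hq] at hom
    have h5 : q ^ 2 + q + 1 = 0 := by exact_mod_cast hom
    nlinarith [sq_nonneg (2 * q + 1)]
  · have h4 : σ om = - om - 1 := by linear_combination h3
    rw [map_add, map_mul, h4, map_one, map_ofNat]
    ring

/-- The embedding of `ℚ(√3)`. -/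
noncomputable def b5_phi {K : Type} [Field K] [NumberField K] (om : K)
    (hom : om ^ 2 + om + 1 = 0) : Q2 3 ℚ →+* Q2 (-1) K where
  toFun z := ⟨(z.re : K), (z.im : K) * (2 * om + 1)⟩
  map_one' := by ext <;> simp [QuadraticAlgebra.re_one, QuadraticAlgebra.im_one]
  map_mul' a b := by
    ext
    · simp
      linear_combination (4 * (a.im : K) * (b.im : K)) * hom
    · simp
      ring
  map_zero' := by ext <;> simp
  map_add' a b := by
    ext
    · simp
    · simp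
      ring

/-- Units descend to subfields. -/
theorem b5_unit_descend {M L : Type} [Field M] [NumberField M] [Field L] [NumberField L]
    (φ : M →+* L) (x y : L) (m' : M) (hx : IsIntegral ℤ x) (hy : IsIntegral ℤ y)
    (hxy : x * y = 1) (h : φ m' = x) : ∃ v : (𝓞 M)ˣ, ((v : 𝓞 M) : M) = m' := by
  have hx0 : x ≠ 0 := left_ne_zero_of_mul_eq_one hxy
  have hm0 : m' ≠ 0 := by
    rintro rfl
    rw [map_zero] at h
    exact hx0 h.symm
  have h1 : IsIntegral ℤ m' := by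
    rw [← isIntegral_algHom_iff φ.toIntAlgHom φ.injective]
    change IsIntegral ℤ (φ m')
    rw [h]; exact hx
  have h2 : IsIntegral ℤ m'⁻¹ := by
    rw [← isIntegral_algHom_iff φ.toIntAlgHom φ.injective]
    change IsIntegral ℤ (φ m'⁻¹)
    rw [map_inv₀, h, inv_eq_of_mul_eq_one_right hxy]; exact hy
  refine ⟨⟨⟨m', h1⟩, ⟨m'⁻¹, h2⟩, ?_, ?_⟩, rfl⟩
  · apply RingOfIntegers.ext
    exact mul_inv_cancel₀ hm0
  · apply RingOfIntegers.ext
    exact inv_mul_cancel₀ hm0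

theorem b5_eps_mul {K : Type} [Field K] [Fact (NonSq (-1) K)] (om : K)
    (hom : om ^ 2 + om + 1 = 0) : eps om * star (eps om) = 1 := by
  ext
  · simp [eps, QuadraticAlgebra.re_one]
    linear_combination (4 : K) * hom
  · simp [eps, QuadraticAlgebra.im_one]
    ring

theorem b5_core {K : Type} [Field K] [NumberField K] [IsCyclotomicExtension {3} ℚ K]
    [Fact (NonSq (-1) K)] [NumberField (Q2 (-1) K)] (om : K) (hom : om ^ 2 + om + 1 = 0)
    (x y : Q2 (-1) K) (hxi : IsIntegral ℤ x) (hyi : IsIntegral ℤ y) (hxy : x * y = 1)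
    (s : K) (hN : x.norm = s ^ 3) :
    ∃ t : Q2 (-1) K, x = t ^ 3 ∨ x = eps om * t ^ 3 ∨ x = star (eps om) * t ^ 3 := by
  obtain ⟨σ, hσσ, hσ⟩ := b5_exists_aut (K := K)
  have hθ := b5_aut_om om hom σ hσ
  have hθ0 : (2 * om + 1 : K) ≠ 0 := by
    intro h0
    have h1 : (2 * om + 1) ^ 2 = (-3 : K) := by linear_combination (4 : K) * hom
    rw [h0] at h1
    norm_num at h1
  have hee := b5_eps_mul om hom
  have hx0 : x ≠ 0 := left_ne_zero_of_mul_eq_one hxy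
  -- the automorphisms
  set τ : Q2 (-1) K →+* Q2 (-1) K := mapQ (σ : K →+* K) with hτ
  set c : Q2 (-1) K →+* Q2 (-1) K := starRingEnd (Q2 (-1) K) with hc
  have hcap : ∀ z : Q2 (-1) K, c z = ⟨z.re, -z.im⟩ := by
    intro z
    change star z = _
    ext
    · simp
    · simp
  have hτap : ∀ z : Q2 (-1) K, τ z = ⟨σ z.re, σ z.im⟩ := fun z => rfl
  have hττ : ∀ z, τ (τ z) = z := by
    intro z
    rw [hτap, hτap]
    ext
    · exact hσσ _
    · exact hσσ _
  have hcc : ∀ z, c (c z) = z := fun z => star_star z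
  have hcτ : ∀ z, c (τ z) = τ (c z) := by
    intro z
    rw [hτap, hτap, hcap, hcap]
    ext
    · rfl
    · simp
  -- the three products
  have hP1 : x * c x = (algebraMap K (Q2 (-1) K) s) ^ 3 := by
    rw [← map_pow, ← hN, QuadraticAlgebra.algebraMap_norm_eq_mul_star]
    rfl
  have hP2 : ∃ t : Q2 (-1) K, x * c (τ x) = t ^ 3 ∨ x * c (τ x) = eps om * t ^ 3 ∨
      x * c (τ x) = star (eps om) * t ^ 3 := by
    have hfix : c (τ (x * c (τ x))) = x * c (τ x) := by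
      rw [map_mul, map_mul, hcτ x, hττ, hcc, ← hcτ x, mul_comm]
    set A := x * c (τ x) with hA
    have hAi : IsIntegral ℤ A := hxi.mul (map_isIntegral_int c (map_isIntegral_int τ hxi))
    have hAj : IsIntegral ℤ (y * c (τ y)) :=
      hyi.mul (map_isIntegral_int c (map_isIntegral_int τ hyi))
    have hAA : A * (y * c (τ y)) = 1 := by
      rw [hA]
      have : x * c (τ x) * (y * c (τ y)) = (x * y) * c (τ (x * y)) := by
        rw [map_mul, map_mul]; ring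
      rw [this, hxy, map_one, map_one, one_mul]
    rw [hτap, hcap] at hfix
    have h1 := congrArg QuadraticAlgebra.re hfix
    have h2 := congrArg QuadraticAlgebra.im hfix
    simp only at h1 h2
    obtain ⟨p, hp⟩ := hσ _ h1
    obtain ⟨q, hq⟩ := hσ (A.im / (2 * om + 1)) (by
      rw [map_div₀, hθ, div_neg, ← neg_div, h2])
    have hAφ : b5_phi om hom ⟨p, q⟩ = A := by
      change (⟨_, _⟩ : Q2 (-1) K) = _
      ext
      · exact hp
      · change (q : K) * (2 * om + 1) = _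
        rw [hq, div_mul_cancel₀ _ hθ0]
    obtain ⟨v, hv⟩ := b5_unit_descend (b5_phi om hom) A _ ⟨p, q⟩ hAi hAj hAA hAφ
    have he1 : b5_phi om hom ⟨2, 1⟩ = eps om := by
      change (⟨_, _⟩ : Q2 (-1) K) = _
      ext <;> simp [eps]
    have he2 : b5_phi om hom ⟨2, -1⟩ = star (eps om) := by
      change (⟨_, _⟩ : Q2 (-1) K) = _
      ext
      · simp [eps]
      · simp [eps]
    obtain ⟨t, ht⟩ := units_three v
    refine ⟨b5_phi om hom t, ?_⟩
    rw [← he2, ← he1, ← hAφ, ← hv]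
    rcases ht with ht | ht | ht
    · left; rw [ht, map_pow]
    · right; left; rw [ht, map_mul, map_pow]
    · right; right; rw [ht, map_mul, map_pow]
  have hP3 : ∃ w : Q2 (-1) K, x * τ x = w ^ 3 := by
    have hfix : τ (x * τ x) = x * τ x := by
      rw [map_mul, hττ, mul_comm]
    set A := x * τ x with hA
    have hAi : IsIntegral ℤ A := hxi.mul (map_isIntegral_int τ hxi)
    have hAj : IsIntegral ℤ (y * τ y) := hyi.mul (map_isIntegral_int τ hyi)
    have hAA : A * (y * τ y) = 1 := by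
      rw [hA]
      have : x * τ x * (y * τ y) = (x * y) * τ (x * y) := by
        rw [map_mul]; ring
      rw [this, hxy, map_one, one_mul]
    rw [hτap] at hfix
    have h1 := congrArg QuadraticAlgebra.re hfix
    have h2 := congrArg QuadraticAlgebra.im hfix
    simp only at h1 h2
    obtain ⟨p, hp⟩ := hσ _ h1
    obtain ⟨q, hq⟩ := hσ _ h2
    have hAφ : (mapQ (algebraMap ℚ K) : Q2 (-1) ℚ →+* Q2 (-1) K) ⟨p, q⟩ = A := by
      change (⟨_, _⟩ : Q2 (-1) K) = _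
      ext
      · exact hp
      · exact hq
    obtain ⟨v, hv⟩ := b5_unit_descend (mapQ (algebraMap ℚ K) : Q2 (-1) ℚ →+* Q2 (-1) K) A _
      ⟨p, q⟩ hAi hAj hAA hAφ
    obtain ⟨w, hw⟩ := units_neg_one v
    refine ⟨(mapQ (algebraMap ℚ K) : Q2 (-1) ℚ →+* Q2 (-1) K) w, ?_⟩
    rw [← hAφ, ← hv, hw, map_pow]
  obtain ⟨w, hw⟩ := hP3
  obtain ⟨t, ht⟩ := hP2
  set S := algebraMap K (Q2 (-1) K) s with hS
  have hcw : c (x * τ x) ≠ 0 := by
    rw [Ne, map_eq_zero, mul_eq_zero, map_eq_zero]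
    tauto
  have hcw0 : c w ≠ 0 := by
    intro h0
    apply hcw
    rw [hw, map_pow, h0]
    norm_num
  have hx2 : x ^ 2 = (S / c w) ^ 3 * (x * c (τ x)) := by
    rw [div_pow, ← hP1, ← map_pow, ← hw, div_mul_eq_mul_div, eq_div_iff hcw, map_mul]
    ring
  have key : ∀ e f : Q2 (-1) K, e * f = 1 → x * c (τ x) = e * t ^ 3 →
      ∃ r : Q2 (-1) K, x = f * r ^ 3 := by
    intro e f hef h
    refine ⟨e * (S / c w * t) ^ 2 * x⁻¹, ?_⟩
    have h4 : x ^ 4 = e ^ 2 * ((S / c w * t) ^ 2) ^ 3 := by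
      have : x ^ 4 = (x ^ 2) ^ 2 := by ring
      rw [this, hx2, h]
      ring
    have h5 : x = x ^ 4 * x⁻¹ ^ 3 := by
      field_simp
    calc x = x ^ 4 * x⁻¹ ^ 3 := h5
      _ = e ^ 2 * ((S / c w * t) ^ 2) ^ 3 * x⁻¹ ^ 3 := by rw [h4]
      _ = (e * f) * (e ^ 2 * ((S / c w * t) ^ 2) ^ 3 * x⁻¹ ^ 3) := by rw [hef, one_mul]
      _ = f * (e * (S / c w * t) ^ 2 * x⁻¹) ^ 3 := by ring
  rcases ht with ht | ht | ht
  · obtain ⟨r, hr⟩ := key 1 1 (one_mul 1) (by rw [ht, one_mul])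
    exact ⟨r, Or.inl (by rw [hr, one_mul])⟩
  · obtain ⟨r, hr⟩ := key _ _ hee ht
    exact ⟨r, Or.inr (Or.inr hr)⟩
  · obtain ⟨r, hr⟩ := key _ _ ((mul_comm _ _).trans hee) ht
    exact ⟨r, Or.inr (Or.inl hr)⟩

/-- `k = K(i)`, `G = {1, c, τ, cτ}` over `ℚ` with `c` fixing `K`, `τ` fixing `i` (`τ(ω) = ω²`; there is an
automorphism of `K` with this property) and `J = cτ` fixing `√3 = (2 ω + 1) i`. For a unit `u`:
`u² = (u · c u) (u · J u) / c(u · τ u)`: indeed `c(u τu) = (c u)(c τ u) = (c u)(J u)`. Here `u · c u` is the norm to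
`K`, which is a cube by assumption; `u · J u` is a unit in the fixed field `ℚ(√3)` of `J` (so `± ε^n` up to
cubes, `BS3.units_three` in B3/Q8b.lean, transport along the embedding `Q2 3 ℚ → Q2 (-1) K`,
`⟨a, b⟩ ↦ ⟨a, b (2 ω + 1)⟩`); `u · τ u` is a unit in the fixed field `ℚ(i)` of `τ`, so a cube
(`BS3.units_neg_one`). So `u² = ε^j s³` and `u = (u²)² u⁻³ = ε^{2j} s'³`. Note `eps⁻¹ = star eps`. -/
theorem units_k {K : Type} [Field K] [NumberField K] [IsCyclotomicExtension {3} ℚ K]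
    [Fact (NonSq (-1) K)] [NumberField (Q2 (-1) K)] (om : K) (hom : om ^ 2 + om + 1 = 0)
    (u : (𝓞 (Q2 (-1) K))ˣ) (s : K) (hN : ((u : 𝓞 (Q2 (-1) K)) : Q2 (-1) K).norm = s ^ 3) :
    ∃ t : Q2 (-1) K, ((u : 𝓞 (Q2 (-1) K)) : Q2 (-1) K) = t ^ 3 ∨
      ((u : 𝓞 (Q2 (-1) K)) : Q2 (-1) K) = eps om * t ^ 3 ∨
      ((u : 𝓞 (Q2 (-1) K)) : Q2 (-1) K) = star (eps om) * t ^ 3 := by
  have hxy : ((u : 𝓞 (Q2 (-1) K)) : Q2 (-1) K) *
      (((u⁻¹ : (𝓞 (Q2 (-1) K))ˣ) : 𝓞 (Q2 (-1) K)) : Q2 (-1) K) = 1 := by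
    have h3 : ((u : 𝓞 (Q2 (-1) K))) * ((u⁻¹ : (𝓞 (Q2 (-1) K))ˣ) : 𝓞 (Q2 (-1) K)) = 1 := by
      rw [← Units.val_mul, mul_inv_cancel, Units.val_one]
    have h4 := congrArg (algebraMap (𝓞 (Q2 (-1) K)) (Q2 (-1) K)) h3
    rw [map_mul, map_one] at h4
    exact h4
  exact b5_core om hom _ _ (RingOfIntegers.isIntegral_coe _) (RingOfIntegers.isIntegral_coe _)
    hxy s hN

/-- Elements of `K(i)` with cube norm and all valuations divisible by `3` (`pid_k` is in B4.lean; here it is an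
assumption): `BS3.unit_mul_cube` in B3/Q9.lean and `units_k`. (`z = u s³`, the norm of `u` is a cube as the norm
of `z` is.) -/
theorem class_k {K : Type} [Field K] [NumberField K] [IsCyclotomicExtension {3} ℚ K]
    [Fact (NonSq (-1) K)] [NumberField (Q2 (-1) K)] [IsPrincipalIdealRing (𝓞 (Q2 (-1) K))]
    (om : K) (hom : om ^ 2 + om + 1 = 0) (z : Q2 (-1) K) (hz : z ≠ 0) (s : K)
    (hN : z.norm = s ^ 3)
    (h : ∀ w : HeightOneSpectrum (𝓞 (Q2 (-1) K)), ∃ g, w.valuation (Q2 (-1) K) z = g ^ 3) :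
    ∃ t : Q2 (-1) K, z = t ^ 3 ∨ z = eps om * t ^ 3 ∨ z = star (eps om) * t ^ 3 := by
  obtain ⟨u, r, hr0, hr⟩ := unit_mul_cube z hz h
  have hnr : r.norm ≠ 0 := by
    intro h0
    exact hr0 (QuadraticAlgebra.norm_eq_zero_iff_eq_zero.1 h0)
  have hNu : ((u : 𝓞 (Q2 (-1) K)) : Q2 (-1) K).norm = (s / r.norm) ^ 3 := by
    rw [div_pow, eq_div_iff (pow_ne_zero 3 hnr), ← hN, hr, map_mul, map_pow]
  obtain ⟨t, ht | ht | ht⟩ := units_k om hom u _ hNu
  · exact ⟨t * r, Or.inl (by rw [hr, ht, mul_pow])⟩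
  · exact ⟨t * r, Or.inr (Or.inl (by rw [hr, ht, mul_pow, mul_assoc]))⟩
  · exact ⟨t * r, Or.inr (Or.inr (by rw [hr, ht, mul_pow, mul_assoc]))⟩

end RF
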