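import Pool.Agent.MP_ae0bd0_nt.RF.A0
import Pool.Agent.MP_ae0bd0_nt.B3.Q12

set_option autoImplicit false

open CM27 NumberField IsDedekindDomain BS3

namespace RF

/-! ## [RF-B7] division by `√-3` and absence of points (file B7.lean) -/

/-- `y - c i = (a + b i)³`, `c ≠ 0`: comparing norms, `x³ = (a² + b²)³`, so after multiplying `a + b i` with a
cube root of unity in `F` we have `x = a² + b²`, `y = a³ - 3 a b²`, `c = b³ - 3 a² b`, `b ≠ 0`. Take `x₁ = c / b`,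
`y₁ = (2 ω + 1) c a / b` (`(2 ω + 1)² = -3`). -/
theorem exists_back' {F : Type} [Field F] [CharZero F] (om : F) (hom : om ^ 2 + om + 1 = 0) (c : F)
    (hc : c ≠ 0) (x y : F) (hxy : y ^ 2 = x ^ 3 - c ^ 2) (s : Q2 (-1) F)
    (hs : (⟨y, -c⟩ : Q2 (-1) F) = s ^ 3) :
    ∃ x₁ y₁ : F, y₁ ^ 2 = x₁ ^ 3 - c ^ 2 ∧ x₁ ≠ 0 ∧ 3 * x₁ ^ 2 * x = 4 * c ^ 2 - x₁ ^ 3 := by
  have hom3 : om ^ 3 = 1 := by linear_combination (om - 1) * hom
  obtain ⟨a, b⟩ := s
  have h1 := congrArg QuadraticAlgebra.re hs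
  have h2 := congrArg QuadraticAlgebra.im hs
  simp only [pow_succ, pow_zero, one_mul, QuadraticAlgebra.im_mul,
    QuadraticAlgebra.re_mul] at h1 h2
  push_cast at h1 h2
  have hy : y = a ^ 3 - 3 * a * b ^ 2 := by linear_combination h1
  have hcc : c = b ^ 3 - 3 * a ^ 2 * b := by linear_combination (-1 : F) * h2
  have hx : x ^ 3 = (a ^ 2 + b ^ 2) ^ 3 := by
    have h3 : x ^ 3 = y ^ 2 + c ^ 2 := by rw [hxy]; ring
    rw [h3, hy, hcc]; ring
  -- the case `x = a² + b²`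
  have key : ∀ a b : F, c = b ^ 3 - 3 * a ^ 2 * b → x = a ^ 2 + b ^ 2 →
      ∃ x₁ y₁ : F, y₁ ^ 2 = x₁ ^ 3 - c ^ 2 ∧ x₁ ≠ 0 ∧ 3 * x₁ ^ 2 * x = 4 * c ^ 2 - x₁ ^ 3 := by
    intro a b hcc hx
    refine ⟨b ^ 2 - 3 * a ^ 2, (2 * om + 1) * a * (b ^ 2 - 3 * a ^ 2), ?_, ?_, ?_⟩
    · rw [hcc]
      linear_combination (4 * a ^ 2 * (b ^ 2 - 3 * a ^ 2) ^ 2) * hom
    · intro h0
      apply hc
      rw [hcc]
      linear_combination b * h0
    · rw [hcc, hx]; ring
  have hfac : (x - (a ^ 2 + b ^ 2)) * ((x - om * (a ^ 2 + b ^ 2)) *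
      (x - om ^ 2 * (a ^ 2 + b ^ 2))) = 0 := by
    have e1 : (x - (a ^ 2 + b ^ 2)) * ((x - om * (a ^ 2 + b ^ 2)) *
      (x - om ^ 2 * (a ^ 2 + b ^ 2))) = x ^ 3 - (a ^ 2 + b ^ 2) ^ 3 := by
      linear_combination (-(x ^ 2 * (a ^ 2 + b ^ 2)) + om * x * (a ^ 2 + b ^ 2) ^ 2
        - (om - 1) * (a ^ 2 + b ^ 2) ^ 3) * hom
    rw [e1, hx, sub_self]
  rcases mul_eq_zero.1 hfac with h | h
  · exact key a b hcc (by linear_combination h)
  rcases mul_eq_zero.1 h with h | h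
  · -- `x = ω N`, multiply by `ω²`
    refine key (om ^ 2 * a) (om ^ 2 * b) ?_ ?_
    · rw [hcc]
      linear_combination (-(om ^ 3 + 1) * (b ^ 3 - 3 * a ^ 2 * b)) * hom3
    · linear_combination h - om * (a ^ 2 + b ^ 2) * hom3
  · -- `x = ω² N`, multiply by `ω`
    refine key (om * a) (om * b) ?_ ?_
    · rw [hcc]
      linear_combination (-(b ^ 3 - 3 * a ^ 2 * b)) * hom3
    · linear_combination h

section
open WithZero

variable {F : Type} [Field F] {w : Valuation F ℤᵐ⁰}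

theorem b7_int_unit (h3 : q12_ge w (3 : F) 1) (k : ℤ) (hk : ¬ 3 ∣ k) : q12_eq w (k : F) 0 := by
  obtain ⟨a, b, hab⟩ : ∃ a b : ℤ, k * a + 3 * b = 1 := by
    have hc : IsCoprime k 3 := by
      rw [isCoprime_comm]
      exact (Prime.coprime_iff_not_dvd Int.prime_three).2 hk
    obtain ⟨a, b, hab⟩ := hc
    exact ⟨a, b, by linarith⟩
  have h2 : (k : F) * (a : F) + (3 : F) * (b : F) = 1 := by
    have h2 : ((k * a + 3 * b : ℤ) : F) = 1 := by rw [hab]; simp
    push_cast at h2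
    exact h2
  have h4 : q12_ge w ((3 : F) * (b : F)) 1 := (h3.mul (q12_int w b)).mono (by omega)
  have hk0 : (k : F) ≠ 0 := by
    intro h0
    rw [h0, zero_mul, zero_add] at h2
    rw [h2] at h4
    have := q12_one.le h4
    omega
  obtain ⟨n, hn⟩ := q12_exists (w := w) hk0
  have h1 := hn.le (q12_int w k)
  rcases lt_or_ge n 1 with h | h
  · have : n = 0 := by omega
    rw [← this]; exact hn
  · exfalso
    have h3' : q12_ge w ((k : F) * (a : F)) 1 := ((hn.ge.mul (q12_int w a))).mono (by omega)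
    have h5 := h3'.add h4
    rw [h2] at h5
    have := q12_one.le h5
    omega

/-- integers are dense in the local ring, modulo the maximal ideal -/
theorem b7_approx {F : Type} [Field F] [NumberField F] (v : HeightOneSpectrum (𝓞 F)) (y : F)
    (hy : q12_ge (v.valuation F) y 0) :
    ∃ t : 𝓞 F, q12_ge (v.valuation F) (y - algebraMap (𝓞 F) F t) 1 := by
  obtain ⟨n, d, hd, rfl⟩ := IsFractionRing.div_surjective (A := 𝓞 F) y
  have hd0 : d ≠ 0 := nonZeroDivisors.ne_zero hd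
  have hd0' : algebraMap (𝓞 F) F d ≠ 0 := by
    rw [Ne, map_eq_zero_iff _ (IsFractionRing.injective (𝓞 F) F)]; exact hd0
  obtain ⟨m, hm⟩ := q12_exists (w := v.valuation F) hd0'
  have hm0 : 0 ≤ m := by
    have h1 := v.valuation_le_one (K := F) d
    unfold q12_eq at hm
    rw [hm, ← exp_zero, exp_le_exp] at h1
    omega
  obtain ⟨k, rfl⟩ := Int.eq_ofNat_of_zero_le hm0
  have hval : ∀ (a : 𝓞 F) (j : ℕ), a ∈ v.asIdeal ^ j ↔
      q12_ge (v.valuation F) (algebraMap (𝓞 F) F a) j := by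
    intro a j
    unfold q12_ge
    rw [HeightOneSpectrum.valuation_of_algebraMap, HeightOneSpectrum.intValuation_le_pow_iff_mem]
  have hn : q12_ge (v.valuation F) (algebraMap (𝓞 F) F n) k := by
    have h1 := hy.mul hm.ge
    rw [div_mul_cancel₀ _ hd0', zero_add] at h1
    exact h1
  obtain ⟨t, e, he, hte⟩ := Ideal.exists_mul_add_mem_pow_succ (P := v.asIdeal) v.ne_bot d n
    ((hval d k).2 hm.ge) (fun h => by
      have := hm.le ((hval d (k + 1)).1 h)
      omega) ((hval n k).2 hn)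
  refine ⟨t, ?_⟩
  have he' := (hval e (k + 1)).1 he
  have e1 : (algebraMap (𝓞 F) F n / algebraMap (𝓞 F) F d - algebraMap (𝓞 F) F t) *
      algebraMap (𝓞 F) F d = algebraMap (𝓞 F) F e := by
    rw [sub_mul, div_mul_cancel₀ _ hd0', ← hte, map_add, map_mul]; ring
  by_cases h0 : algebraMap (𝓞 F) F n / algebraMap (𝓞 F) F d - algebraMap (𝓞 F) F t = 0
  · rw [h0]; exact q12_ge_zero
  · obtain ⟨m', hm'⟩ := q12_exists (w := v.valuation F) h0
    have h2 := hm'.mul hm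
    rw [e1] at h2
    have h3 := h2.le he'
    exact hm'.ge.mono (by push_cast at h3; omega)

end

/-- `v` a place of `F` above `3` with `v(2 ω + 1) = exp(-1)` (so `v(3) = exp(-2)`) in whose residue field `-1` is
not a square, `r ≡ ± 4 mod 9`. If all points are divisible (as in `hback`) there are no points: let `(x, y)` be
a point and `(x₁, y₁)` as in `hback`, `(x₂, y₂)` for `(x₁, y₁)`. Claim: `v(x) > 1` (i.e. `x` is not integral) and
`v(x₁) > 1 → v(x) = v(x₁) exp 2`: If `x` is integral then so is `x₁` (else `v(x) = v(x₁)/v(3)`, > 1), and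
`3 x₁² x = 4 r² - x₁³` gives `x₁³ ≡ 4 r² ≡ 1 mod π`, `x₁ = 1 + π t`, `x₁³ ∈ 1 + π³ O`, `4 r² ∈ 1 + 9 ℤ`, so
`4 r² - x₁³ ∈ π³ O`, `x₁` a unit, `v(3) = exp(-2)`: `x ∈ π O`, so `y² ≡ - r² mod π`, `-1` is a square in the
residue field; contradiction. Hence for every point `x` is not integral, and `x = x₀, x₁, x₂, …` have valuations
`v(x_{n+1}) = v(x_n) exp(-2)` for all `n`: contradiction. See `no_points` in B3/Q12.lean (same argument). -/
theorem no_points' {F : Type} [Field F] [NumberField F] (om : F) (hom : om ^ 2 + om + 1 = 0)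
    (v : HeightOneSpectrum (𝓞 F)) (hv : v.valuation F (2 * om + 1) = WithZero.exp (-1 : ℤ))
    (hsq : ∀ t : 𝓞 F, t ^ 2 + 1 ∉ v.asIdeal) (r : ℤ) (hr : r % 9 = 4 ∨ r % 9 = 5)
    (hback : ∀ x y : F, y ^ 2 = x ^ 3 - (r : F) ^ 2 → ∃ x₁ y₁ : F,
      y₁ ^ 2 = x₁ ^ 3 - (r : F) ^ 2 ∧ x₁ ≠ 0 ∧ 3 * x₁ ^ 2 * x = 4 * (r : F) ^ 2 - x₁ ^ 3)
    (x y : F) : y ^ 2 ≠ x ^ 3 - (r : F) ^ 2 := by
  set w := v.valuation F with hw
  have hpi : q12_eq w (2 * om + 1) 1 := hv
  have hpi2 : (2 * om + 1) * (2 * om + 1) = -3 := by linear_combination 4 * hom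
  have h3 : q12_eq w (3 : F) 2 := by
    have h1 := (hpi.mul hpi).neg
    rw [hpi2, neg_neg] at h1
    exact h1
  have hu : ∀ k : ℤ, ¬ 3 ∣ k → q12_eq w (k : F) 0 := b7_int_unit (h3.ge.mono (by omega))
  obtain ⟨m, hm⟩ : ∃ m : ℤ, r ^ 2 = 9 * m + 7 := by
    rcases hr with h | h
    · obtain ⟨k, hk⟩ : ∃ k : ℤ, r = 9 * k + 4 := ⟨r / 9, by omega⟩
      exact ⟨9 * k ^ 2 + 8 * k + 1, by rw [hk]; ring⟩
    · obtain ⟨k, hk⟩ : ∃ k : ℤ, r = 9 * k + 5 := ⟨r / 9, by omega⟩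
      exact ⟨9 * k ^ 2 + 10 * k + 2, by rw [hk]; ring⟩
  have hrF : (r : F) ^ 2 = 9 * m + 7 := by
    have h1 : ((r ^ 2 : ℤ) : F) = ((9 * m + 7 : ℤ) : F) := by rw [hm]
    push_cast at h1
    exact h1
  have h4r : q12_eq w (4 * (r : F) ^ 2) 0 := by
    have h1 := hu (4 * (9 * m + 7)) (by omega)
    have e1 : ((4 * (9 * m + 7) : ℤ) : F) = 4 * (r : F) ^ 2 := by rw [hrF]; push_cast; ring
    rwa [e1] at h1
  -- integral `x` in `π O` is impossible
  have hA : ∀ x y : F, y ^ 2 = x ^ 3 - (r : F) ^ 2 → ¬ q12_ge w x 1 := by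
    intro x y hxy hx
    have hy2 : q12_ge w (y ^ 2 + 1) 1 := by
      have e1 : y ^ 2 + 1 = x * x * x - 3 * (((3 * m + 2 : ℤ) : ℤ) : F) := by
        rw [hxy, hrF]; push_cast; ring
      rw [e1]
      refine (((hx.mul hx).mul hx).mono (by omega)).sub ?_
      exact (h3.ge.mul (q12_int w _)).mono (by omega)
    have hy0 : q12_ge w y 0 := by
      by_cases h0 : y = 0
      · rw [h0]; exact q12_ge_zero
      · obtain ⟨n, hn⟩ := q12_exists (w := w) h0
        have h1 := (hn.mul hn)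
        have h2 : q12_ge w (y * y) 0 := by
          have := (hy2.mono (m := 0) (by omega)).sub (q12_one.ge)
          have e1 : y ^ 2 + 1 - 1 = y * y := by ring
          rwa [e1] at this
        have h3 := h1.le h2
        exact hn.ge.mono (by omega)
    obtain ⟨t, ht⟩ := b7_approx v y hy0
    apply hsq t
    have ht' : q12_ge w (algebraMap (𝓞 F) F t) 0 := by
      have := hy0.sub (ht.mono (m := 0) (by omega))
      rwa [sub_sub_cancel] at this
    have h1 : q12_ge w (algebraMap (𝓞 F) F (t ^ 2 + 1)) 1 := by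
      have e1 : algebraMap (𝓞 F) F (t ^ 2 + 1) = (y ^ 2 + 1) -
          (y - algebraMap (𝓞 F) F t) * (y + algebraMap (𝓞 F) F t) := by
        rw [map_add, map_pow, map_one]; ring
      rw [e1]
      refine hy2.sub ?_
      exact (ht.mul (hy0.add ht')).mono (by omega)
    unfold q12_ge at h1
    rw [hw, HeightOneSpectrum.valuation_of_algebraMap] at h1
    have h2 : v.intValuation (t ^ 2 + 1) ≤ WithZero.exp (-((1 : ℕ) : ℤ)) := h1
    rw [HeightOneSpectrum.intValuation_le_pow_iff_mem, pow_one] at h2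
    exact h2
  -- the orders
  have hB : ∀ x y : F, y ^ 2 = x ^ 3 - (r : F) ^ 2 → ∀ x₁ y₁ : F,
      y₁ ^ 2 = x₁ ^ 3 - (r : F) ^ 2 → x₁ ≠ 0 → 3 * x₁ ^ 2 * x = 4 * (r : F) ^ 2 - x₁ ^ 3 →
      ∃ n n1 : ℤ, q12_eq w x n ∧ q12_eq w x₁ n1 ∧ n ≤ -1 ∧ (n1 < 0 → n = n1 - 2) := by
    intro x y hxy x₁ y₁ hp hx1 he
    have hx0 : x ≠ 0 := by
      rintro rfl
      exact hA 0 y hxy q12_ge_zero
    obtain ⟨n, hn⟩ := q12_exists (w := w) hx0
    obtain ⟨n1, hn1⟩ := q12_exists (w := w) hx1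
    have hL : q12_eq w (3 * x₁ ^ 2 * x) (2 + (n1 + n1) + n) := by
      have := (h3.mul (hn1.mul hn1)).mul hn
      have e1 : 3 * (x₁ * x₁) * x = 3 * x₁ ^ 2 * x := by ring
      rwa [e1] at this
    have hx13 : q12_eq w (x₁ ^ 3) (n1 + n1 + n1) := by
      have := (hn1.mul hn1).mul hn1
      have e1 : x₁ * x₁ * x₁ = x₁ ^ 3 := by ring
      rwa [e1] at this
    rcases lt_trichotomy n1 0 with hneg | hzero | hpos
    · have h1 : q12_eq w (-(x₁ ^ 3) + 4 * (r : F) ^ 2) (n1 + n1 + n1) :=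
        hx13.neg.add (h4r.ge.mono (by omega))
      have e1 : -(x₁ ^ 3) + 4 * (r : F) ^ 2 = 3 * x₁ ^ 2 * x := by rw [he]; ring
      rw [e1] at h1
      have h2 := h1.unique hL
      exact ⟨n, n1, hn, hn1, by omega, fun _ => by omega⟩
    · by_cases hn0 : n < 0
      · exact ⟨n, n1, hn, hn1, by omega, fun h => by omega⟩
      · exfalso
        subst hzero
        have hR : q12_ge w (4 * (r : F) ^ 2 - x₁ ^ 3) 2 := by
          rw [← he]; exact hL.ge.mono (by omega)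
        have h4r3 : q12_ge w (4 * (r : F) ^ 2 - 1) 3 := by
          have e1 : 4 * (r : F) ^ 2 - 1 = 3 * 3 * (((4 * m + 3 : ℤ) : ℤ) : F) := by
            rw [hrF]; push_cast; ring
          rw [e1]
          exact ((h3.ge.mul h3.ge).mul (q12_int w _)).mono (by omega)
        have hx1m : q12_ge w (x₁ - 1) 1 := by
          have h5 : q12_ge w ((x₁ - 1) * (x₁ - 1) * (x₁ - 1)) 1 := by
            have e1 : (x₁ - 1) * (x₁ - 1) * (x₁ - 1) = (4 * (r : F) ^ 2 - 1) -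
              (4 * (r : F) ^ 2 - x₁ ^ 3) - 3 * (x₁ * (x₁ - 1)) := by ring
            rw [e1]
            refine ((h4r3.mono (by omega)).sub (hR.mono (by omega))).sub ?_
            exact (h3.ge.mul (hn1.ge.mul (hn1.ge.sub q12_one.ge))).mono (by omega)
          by_cases h0 : x₁ - 1 = 0
          · rw [h0]; exact q12_ge_zero
          · obtain ⟨k, hk⟩ := q12_exists (w := w) h0
            have h6 := ((hk.mul hk).mul hk).le h5
            exact hk.ge.mono (by omega)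
        have hR3 : q12_ge w (4 * (r : F) ^ 2 - x₁ ^ 3) 3 := by
          have e1 : 4 * (r : F) ^ 2 - x₁ ^ 3 = (4 * (r : F) ^ 2 - 1) -
              ((x₁ - 1) * (x₁ - 1) * (x₁ - 1) + 3 * (x₁ * (x₁ - 1))) := by ring
          rw [e1]
          refine h4r3.sub (?_)
          refine (((hx1m.mul hx1m).mul hx1m).mono (by omega)).add ?_
          exact (h3.ge.mul (hn1.ge.mul hx1m)).mono (by omega)
        rw [← he] at hR3
        have h7 := hL.le hR3
        exact hA x y hxy (hn.ge.mono (by omega))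
    · have h1 : q12_eq w (4 * (r : F) ^ 2 + -(x₁ ^ 3)) 0 :=
        h4r.add (hx13.neg.ge.mono (by omega))
      have e1 : 4 * (r : F) ^ 2 + -(x₁ ^ 3) = 3 * x₁ ^ 2 * x := by rw [he]; ring
      rw [e1] at h1
      have h2 := h1.unique hL
      exact ⟨n, n1, hn, hn1, by omega, fun h => by omega⟩
  have key : ∀ k : ℕ, ∀ x y : F, y ^ 2 = x ^ 3 - (r : F) ^ 2 →
      ∃ n : ℤ, q12_eq w x n ∧ n ≤ -1 - 2 * (k : ℤ) := by
    intro k
    induction k with
    | zero =>
      intro x y hxy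
      obtain ⟨x1, y1, hp, hx1, he⟩ := hback x y hxy
      obtain ⟨n, n1, hn, -, hle, -⟩ := hB x y hxy x1 y1 hp hx1 he
      exact ⟨n, hn, by push_cast; omega⟩
    | succ k ih =>
      intro x y hxy
      obtain ⟨x1, y1, hp, hx1, he⟩ := hback x y hxy
      obtain ⟨n, n1, hn, hn1, hle, himp⟩ := hB x y hxy x1 y1 hp hx1 he
      obtain ⟨n1', hn1', hle'⟩ := ih x1 y1 hp
      have h := hn1.unique hn1'
      subst h
      have := himp (by omega)
      exact ⟨n, hn, by push_cast; omega⟩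
  intro hxy
  obtain ⟨n, hn, -⟩ := key 0 x y hxy
  obtain ⟨n', hn', hle⟩ := key n.natAbs x y hxy
  have := hn.unique hn'
  omega

end RF
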