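import Pool.Agent.MP_ae0bd0_nt.B3.ZDefs
import Pool.Agent.MP_ae0bd0_nt.RF.B1
import Pool.Agent.MP_ae0bd0_nt.RF.B2
import Pool.Agent.MP_ae0bd0_nt.RF.B3
import Pool.Agent.MP_ae0bd0_nt.RF.B4
import Pool.Agent.MP_ae0bd0_nt.RF.B5
import Pool.Agent.MP_ae0bd0_nt.RF.B6
import Pool.Agent.MP_ae0bd0_nt.RF.B7

set_option autoImplicit false

open CM27 NumberField IsDedekindDomain BS3

namespace RF

/-! ## [RF-B8] no points over `F` (file B8.lean; assembly of B1-B7) -/

/-- `F / K` is unramified outside of `m`. -/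
def Unr (m : ℕ) (K F : Type) [Field K] [Field F] [Algebra K F] : Prop :=
  ∀ (v : HeightOneSpectrum (𝓞 K)) (P : HeightOneSpectrum (𝓞 F)), P.asIdeal.LiesOver v.asIdeal →
    (∀ p : ℕ, p.Prime → p ∣ m → (p : 𝓞 K) ∉ v.asIdeal) → P.asIdeal.ramificationIdx (𝓞 K) = 1

/-- the place of `K = ℚ(ω)` above `3` -/
theorem b8_three (K : Type) [Field K] [NumberField K] [IsCyclotomicExtension {3} ℚ K] :
    ∃ v : HeightOneSpectrum (𝓞 K), (3 : 𝓞 K) ∈ v.asIdeal ∧
      Nat.card (𝓞 K ⧸ v.asIdeal) = 3 ∧ v.valuation K (3 : K) = WithZero.exp (-2 : ℤ) := by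
  have h30 : (3 : ℤ) ≠ 0 := by norm_num
  have hprime : (Ideal.span {(3 : ℤ)}).IsPrime := by
    rw [Ideal.span_singleton_prime h30]
    exact Int.prime_three
  have hne : (Ideal.span {(3 : ℤ)}) ≠ ⊥ := by
    simp
  have hmax : (Ideal.span {(3 : ℤ)}).IsMaximal := hprime.isMaximal hne
  obtain ⟨Q, hQm, hQ⟩ := Ideal.exists_maximal_ideal_liesOver_of_isIntegral
    (S := 𝓞 K) (Ideal.span {(3 : ℤ)})
  have hQ0 : Q ≠ ⊥ := Ideal.ne_bot_of_liesOver_of_ne_bot hne Q
  let w : HeightOneSpectrum (𝓞 K) := ⟨Q, hQm.isPrime, hQ0⟩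
  let v0 : HeightOneSpectrum ℤ := ⟨Ideal.span {(3 : ℤ)}, hprime, hne⟩
  haveI hw3 : w.asIdeal.LiesOver (Ideal.span {(3 : ℤ)}) := hQ
  haveI : w.asIdeal.LiesOver v0.asIdeal := hQ
  have hr0 := IsCyclotomicExtension.Rat.ramificationIdx_eq_of_prime 3 K w.asIdeal
  have hf0 := IsCyclotomicExtension.Rat.inertiaDeg_eq_of_prime 3 K w.asIdeal
  have hr0' : v0.asIdeal.ramificationIdx' w.asIdeal = 2 := by
    rw [Ideal.ramificationIdx'_eq_ramificationIdx _ _ v0.ne_bot]
    exact hr0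
  have hv0 : v0.intValuation (3 : ℤ) = WithZero.exp (-1 : ℤ) := v0.intValuation_singleton h30 rfl
  have hval1 := HeightOneSpectrum.intValuation_liesOver v0 w (3 : ℤ)
  rw [hr0', hv0] at hval1
  have e3 : algebraMap ℤ (𝓞 K) 3 = (3 : 𝓞 K) := by simp
  rw [e3] at hval1
  refine ⟨w, ?_, ?_, ?_⟩
  · change (3 : 𝓞 K) ∈ Q
    have h1 : (3 : ℤ) ∈ Q.under ℤ := by
      rw [← hQ.over]
      exact Ideal.mem_span_singleton_self 3
    rw [Ideal.under_def, Ideal.mem_comap] at h1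
    simpa using h1
  · have h1 := Ideal.pow_inertiaDeg 3 w.asIdeal
    rw [hf0, pow_one, Ideal.absNorm_apply, Submodule.cardQuot_apply] at h1
    exact h1.symm
  · have h1 : (3 : K) = algebraMap (𝓞 K) K (3 : 𝓞 K) := by rw [map_ofNat]
    rw [h1, HeightOneSpectrum.valuation_of_algebraMap, ← hval1, ← WithZero.exp_nsmul]
    congr 1

/-- `F/K` Galois of degree `3^n`, unramified above `√-3`: there is a place `v` of `F` above `3` with
`v(2 ω + 1) = exp(-1)` and `-1` is not a square in its residue field (which has `3^f` elements with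
`f ∣ 3^n` odd, so `3^f ≡ 3 mod 4`). -/
theorem exists_three {K F : Type} [Field K] [NumberField K] [IsCyclotomicExtension {3} ℚ K]
    [Field F] [NumberField F] [Algebra K F] [IsGalois K F] (n : ℕ)
    (hn : Module.finrank K F = 3 ^ n) (m : ℕ) (h3 : ¬ 3 ∣ m) (hu : Unr m K F) (om : K)
    (hom : om ^ 2 + om + 1 = 0) :
    ∃ v : HeightOneSpectrum (𝓞 F),
      v.valuation F (2 * algebraMap K F om + 1) = WithZero.exp (-1 : ℤ) ∧
      ∀ t : 𝓞 F, t ^ 2 + 1 ∉ v.asIdeal := by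
  obtain ⟨v, hv3, hvcard, hval⟩ := b8_three K
  have hvm := v.isMaximal
  obtain ⟨Q, hQm, hQ⟩ := Ideal.exists_maximal_ideal_liesOver_of_isIntegral
    (S := 𝓞 F) v.asIdeal
  have hQ0 : Q ≠ ⊥ := Ideal.ne_bot_of_liesOver_of_ne_bot v.ne_bot Q
  let P : HeightOneSpectrum (𝓞 F) := ⟨Q, hQm.isPrime, hQ0⟩
  haveI hP : P.asIdeal.LiesOver v.asIdeal := hQ
  have he : P.asIdeal.ramificationIdx (𝓞 K) = 1 := by
    refine hu v P hP fun p hp hpm hpv => ?_
    have hcop : Nat.Coprime p 3 := by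
      rw [Nat.coprime_primes hp Nat.prime_three]
      rintro rfl
      exact h3 hpm
    have h1 : IsCoprime (p : ℤ) (3 : ℤ) := by
      exact_mod_cast Nat.isCoprime_iff_coprime.2 hcop
    obtain ⟨a, b, hab⟩ := h1
    apply v.isPrime.ne_top
    rw [Ideal.eq_top_iff_one]
    have h2 : (1 : 𝓞 K) = (a : 𝓞 K) * (p : 𝓞 K) + (b : 𝓞 K) * 3 := by
      exact_mod_cast congrArg (Int.cast : ℤ → 𝓞 K) hab.symm
    rw [h2]
    exact v.asIdeal.add_mem (v.asIdeal.mul_mem_left _ hpv) (v.asIdeal.mul_mem_left _ hv3)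
  have hvalK : v.valuation K (2 * om + 1) = WithZero.exp (-1 : ℤ) := by
    have h1 : (2 * om + 1) ^ 2 = -(3 : K) := by linear_combination 4 * hom
    have h2 : v.valuation K (2 * om + 1) ^ 2 = WithZero.exp (-1 : ℤ) ^ 2 := by
      rw [← map_pow, h1, Valuation.map_neg, hval, ← WithZero.exp_nsmul]
      congr 1
    exact (pow_left_inj₀ zero_le' zero_le' two_ne_zero).1 h2
  have hPval := HeightOneSpectrum.valuation_liesOver (K := K) F v P (2 * om + 1)
  rw [Ideal.ramificationIdx'_eq_ramificationIdx v.asIdeal P.asIdeal v.ne_bot, he, pow_one,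
    hvalK] at hPval
  refine ⟨P, ?_, ?_⟩
  · rw [hPval]
    congr 1
    rw [map_add, map_mul, map_ofNat, map_one]
  · intro t ht
    have hPmax : P.asIdeal.IsMaximal := P.isMaximal
    have : Finite (𝓞 K ⧸ v.asIdeal) := Ring.HasFiniteQuotients.finiteQuotient v.ne_bot
    have : Finite (𝓞 F ⧸ P.asIdeal) := Ring.HasFiniteQuotients.finiteQuotient P.ne_bot
    have hmain := Ideal.ncard_primesOver_mul_ramificationIdxIn_mul_inertiaDegIn
        v.asIdeal (𝓞 F) Gal(F/K)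
    rw [IsGalois.card_aut_eq_finrank,
      Ideal.ramificationIdxIn_eq_ramificationIdx v.asIdeal P.asIdeal Gal(F/K),
      Ideal.inertiaDegIn_eq_inertiaDeg v.asIdeal P.asIdeal Gal(F/K), hn] at hmain
    have hfd : P.asIdeal.inertiaDeg (𝓞 K) ∣ 3 ^ n := by
      rw [← hmain]
      exact (dvd_mul_left _ _).mul_left _
    have hfodd : Odd (P.asIdeal.inertiaDeg (𝓞 K)) :=
      Odd.of_dvd_nat (Odd.pow (by decide)) hfd
    have hcard : Nat.card (𝓞 F ⧸ P.asIdeal) = 3 ^ (P.asIdeal.inertiaDeg (𝓞 K)) := by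
      rw [Ideal.inertiaDeg_eq_of_isMaximal v.asIdeal P.asIdeal, ← hvcard]
      let : Field (𝓞 K ⧸ v.asIdeal) := Ideal.Quotient.field v.asIdeal
      exact Module.natCard_eq_pow_finrank
    let _ : Field (𝓞 F ⧸ P.asIdeal) := Ideal.Quotient.field P.asIdeal
    let _ : Fintype (𝓞 F ⧸ P.asIdeal) := Fintype.ofFinite _
    have hsq : IsSquare (-1 : 𝓞 F ⧸ P.asIdeal) := by
      refine ⟨Ideal.Quotient.mk P.asIdeal t, ?_⟩
      have h1 : Ideal.Quotient.mk P.asIdeal (t ^ 2 + 1) = 0 := Ideal.Quotient.eq_zero_iff_mem.2 ht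
      rw [map_add, map_pow, map_one] at h1
      rw [← pow_two]
      exact (eq_neg_of_add_eq_zero_left h1).symm
    rw [FiniteField.isSquare_neg_one_iff] at hsq
    apply hsq
    rw [← Nat.card_eq_fintype_card, hcard]
    obtain ⟨k, hk⟩ := hfodd
    rw [hk, pow_succ, pow_mul]
    have : (3 ^ 2) ^ k % 4 = 1 := by
      rw [Nat.pow_mod]; norm_num
    omega

section

open scoped Classical

/-- action of `Gal(F/K)` on the points -/
noncomputable abbrev b8_act (k : ℤ) (K F : Type) [Field K] [Field F] [Algebra K F] :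
    DistribMulAction (F ≃ₐ[K] F) (W k F).toAffine.Point where
  smul σ P := ptW (σ : F →+* F) P
  one_smul P := ptW_id P
  mul_smul σ τ P := (ptW_comp (τ : F →+* F) (σ : F →+* F) P).symm
  smul_zero σ := rfl
  smul_add σ P Q := ptW_add (σ : F →+* F) P Q

theorem b8_zeta (K : Type) [Field K] [NumberField K] [IsCyclotomicExtension {3} ℚ K] :
    ∃ om : K, om ^ 2 + om + 1 = 0 := by
  have h1 := IsCyclotomicExtension.zeta_spec 3 ℚ K
  set ζ := IsCyclotomicExtension.zeta 3 ℚ K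
  have h2 : ζ ^ 3 = 1 := h1.pow_eq_one
  have h3 : ζ ≠ 1 := h1.ne_one (by norm_num)
  have h4 : (ζ - 1) * (ζ ^ 2 + ζ + 1) = 0 := by linear_combination h2
  exact ⟨ζ, (mul_eq_zero.1 h4).resolve_left (sub_ne_zero.2 h3)⟩

/-- the main step -/
theorem b8_main {K F : Type} [Field K] [NumberField K] [IsCyclotomicExtension {3} ℚ K]
    [Field F] [NumberField F] [Algebra K F] [IsGalois K F] (n : ℕ)
    (hn : Module.finrank K F = 3 ^ n) (m : ℕ) (hm : Good m) (hu : Unr m K F) (r : ℕ) (hr : Adm r)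
    [Fact (NonSq (-1) K)] [Fact (NonSq (-1) F)] [NumberField (Q2 (-1) K)]
    [IsPrincipalIdealRing (𝓞 (Q2 (-1) K))] (om : K) (hom : om ^ 2 + om + 1 = 0)
    (v : HeightOneSpectrum (𝓞 F))
    (hv : v.valuation F (2 * algebraMap K F om + 1) = WithZero.exp (-1 : ℤ))
    (k : ℤ) (hk : k = (-1) * (r : ℤ) ^ 2) (hc0 : (r : ℤ) ≠ 0)
    (P0 : (W k F).toAffine.Point) : P0 ∈ cubeSub hk hc0 F := by
  by_contra hP0
  let _ := b8_act k K F
  have hG : Nat.card (F ≃ₐ[K] F) = 3 ^ n := by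
    rw [← hn]
    exact IsGalois.card_aut_eq_finrank K F
  have hk0 : k ≠ 0 := by rw [hk]; exact mul_ne_zero (by norm_num) (pow_ne_zero 2 hc0)
  have hN3 : ∀ Q : (W k F).toAffine.Point, 3 • Q ∈ cubeSub hk hc0 F := by
    intro Q
    rw [mem_cubeSub]
    obtain ⟨u, _, hu⟩ := zq_add hk hc0 (Q + Q) Q
    obtain ⟨u', _, hu'⟩ := zq_add hk hc0 Q Q
    refine ⟨zq (-1) r Q * u' * u, ?_⟩
    have : (3 : ℕ) • Q = Q + Q + Q := by rw [succ_nsmul, two_nsmul]
    rw [this, hu, hu']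
    ring
  have hst : ∀ (σ : F ≃ₐ[K] F) (Q : (W k F).toAffine.Point), Q ∈ cubeSub hk hc0 F →
      σ • Q ∈ cubeSub hk hc0 F := by
    rintro σ Q ⟨s, hs⟩
    refine ⟨mapQ (σ : F →+* F) s, ?_⟩
    have : σ • Q = ptW (σ : F →+* F) Q := rfl
    rw [this, zq_ptW, hs, map_pow]
  obtain ⟨P, hP, hfix⟩ := exists_fixed_class (G := F ≃ₐ[K] F) n hG (cubeSub hk hc0 F) hN3 hst P0 hP0
  rcases P with _ | ⟨x, y, hxy⟩
  · exact absurd (zero_mem (cubeSub hk hc0 F)) hP
  set P : (W k F).toAffine.Point := .some x y hxy with hPdef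
  have hzP : zq (-1) (r : ℤ) P = (⟨y, -((r : ℤ) : F)⟩ : Q2 (-1) F) := rfl
  have hz : zq (-1) (r : ℤ) P ≠ 0 := zq_ne_zero hc0 P
  have hinv : ∀ σ : F ≃ₐ[K] F, ∃ u : Q2 (-1) F, mapQ (σ : F →+* F) (zq (-1) (r : ℤ) P) =
      zq (-1) (r : ℤ) P * u ^ 3 := by
    intro σ
    obtain ⟨s, hs⟩ := hfix σ
    obtain ⟨u, _, hu⟩ := zq_add hk hc0 P (σ • P - P)
    refine ⟨s * u, ?_⟩
    have h1 : P + (σ • P - P) = ptW (σ : F →+* F) P := add_sub_cancel _ _
    rw [h1, zq_ptW, hs] at hu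
    rw [hu]
    ring
  have heq : y ^ 2 = x ^ 3 + (k : F) := (W_nonsingular hk0 x y).1 hxy
  have heq' : y ^ 2 = x ^ 3 - ((r : ℤ) : F) ^ 2 := by
    rw [heq, hk]; push_cast; ring
  have hnorm : (zq (-1) (r : ℤ) P).norm = x ^ 3 := by
    rw [hzP, QuadraticAlgebra.norm_def (⟨y, -((r : ℤ) : F)⟩ : Q2 (-1) F)]
    push_cast
    push_cast at heq'
    linear_combination heq'
  obtain ⟨t, ht, z0, hz0, s, hs⟩ := descend om hom _ hz x hnorm hinv
  have hz0ne : z0 ≠ 0 := by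
    rintro rfl
    rw [map_zero] at hz0
    exact mul_ne_zero hz (pow_ne_zero 3 ht) hz0.symm
  have hval : ∀ w : HeightOneSpectrum (𝓞 (Q2 (-1) K)), ∃ g, w.valuation (Q2 (-1) K) z0 = g ^ 3 := by
    intro w
    by_cases hw : ((2 * (r : ℤ) * m : ℤ) : 𝓞 (Q2 (-1) K)) ∈ w.asIdeal
    · have hne : (2 * (r : ℤ) * m : ℤ) ≠ 0 := by
        refine mul_ne_zero (mul_ne_zero two_ne_zero hc0) ?_
        exact_mod_cast hm.1.ne_zero
      obtain ⟨p, hp, hpd, hpv⟩ := exists_prime_of_mem w _ hne hw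
      refine cube_nonsplit' z0 hz0ne s hs p hp ?_ w hpv
      have hpd' : p ∣ 2 * r * m := by exact_mod_cast hpd
      rcases hp.dvd_or_dvd hpd' with h4 | h4
      · rcases hp.dvd_or_dvd h4 with h5 | h5
        · exact Or.inl ((Nat.prime_dvd_prime_iff_eq hp Nat.prime_two).1 h5)
        · rcases hr.2.2 p hp h5 with h6 | h6
          · exact Or.inl h6
          · exact Or.inr (Or.inr h6)
      · exact Or.inr (Or.inr (hm.2 p hp h4))
    · have hw2 : ((2 * (r : ℤ) : ℤ) : 𝓞 (Q2 (-1) K)) ∉ w.asIdeal := by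
        intro h
        apply hw
        rw [Int.cast_mul]
        exact w.asIdeal.mul_mem_right _ h
      refine cube_unram' (r : ℤ) x y heq' z0 t ht (by rw [hz0, hzP]) w hw2 ?_
      intro v' P' hv' hP'
      refine hu v' P' hP' fun p hp hpm hpv => ?_
      apply hw
      have h1 : (p : 𝓞 (Q2 (-1) K)) ∈ w.asIdeal := by
        rw [hv'.over, Ideal.under_def, Ideal.mem_comap, map_natCast] at hpv
        exact hpv
      obtain ⟨q, hq⟩ := hpm
      have h2 : ((2 * (r : ℤ) * m : ℤ) : 𝓞 (Q2 (-1) K)) = (2 * r * q : ℕ) * (p : 𝓞 (Q2 (-1) K)) := by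
        rw [hq]; push_cast; ring
      rw [h2]
      exact w.asIdeal.mul_mem_left _ h1
  obtain ⟨c, hc⟩ := class_k om hom z0 hz0ne s hs hval
  have key : ∀ e : Q2 (-1) K, z0 = e * c ^ 3 →
      (⟨y, -((r : ℤ) : F)⟩ : Q2 (-1) F) = mapQ (algebraMap K F) e *
        (mapQ (algebraMap K F) c * t⁻¹) ^ 3 := by
    intro e he
    rw [mul_pow, ← map_pow, ← mul_assoc, ← map_mul, ← he, hz0, mul_assoc, ← mul_pow,
      mul_inv_cancel₀ ht, one_pow, mul_one, hzP]
  have e2 : algebraMap K F 2 = 2 := map_ofNat _ 2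
  have he1 : mapQ (algebraMap K F) (eps om) = eps (algebraMap K F om) := by
    rw [mapQ_apply]; simp [eps, e2]
  have he2 : mapQ (algebraMap K F) (star (eps om)) = star (eps (algebraMap K F om)) := by
    rw [mapQ_apply]; ext <;> simp [eps, e2]
  have homF : algebraMap K F om ^ 2 + algebraMap K F om + 1 = 0 := by
    rw [← map_pow, ← map_add, ← map_one (algebraMap K F), ← map_add, hom, map_zero]
  have hr9 : (r : ℤ) % 9 = 4 ∨ (r : ℤ) % 9 = 5 := by
    have := hr.1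
    omega
  rcases hc with hc | hc | hc
  · refine hP ⟨mapQ (algebraMap K F) c * t⁻¹, ?_⟩
    have := key 1 (by rw [one_mul]; exact hc)
    rw [map_one, one_mul] at this
    exact this
  · have h1 := key _ hc
    rw [he1] at h1
    exact (not_eps' (v.valuation F) _ homF hv (r : ℤ) hr9 y _).1 h1
  · have h1 := key _ hc
    rw [he2] at h1
    exact (not_eps' (v.valuation F) _ homF hv (r : ℤ) hr9 y _).2 h1

end

/-- Assembly, see `main_step`, `no_affine_aux` in B3/Q13.lean: by `no_points'` it suffices that `y - r i` is a cube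
in `F(i)` for every point (`exists_back'`). If not, let `N = cubeSub` (the subgroup of the points `P` with
`zq P` a cube, B3/Q13.lean with `D = -1`, `c = r`, `k = -r²`); `exists_fixed_class` (B3/Q3.lean) for
`G = Gal(F/K)` acting on the points by `ptW` (as in `main_step`) gives a point `P ∉ N` with
`σ P - P ∈ N`, so `σ(zq P) = zq P u³`. The norm of `zq P = y - r i` is `x³`. `descend` gives `z0`, `t`.
All valuations of `z0` are cubes: `cube_nonsplit'` at the places above `2, 3` and the primes dividing `r`, `m`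
(they are `2` or `≡ 7 mod 12`), `cube_unram'` at the others (`hu`). `class_k` (with `pid_k`) gives
`z0 = ε^j s³`; `j ≠ 0` contradicts `not_eps'` (with `v` from `exists_three`), `j = 0` contradicts `P ∉ N`. -/
theorem no_affine_gal {K F : Type} [Field K] [NumberField K] [IsCyclotomicExtension {3} ℚ K]
    [Field F] [NumberField F] [Algebra K F] [IsGalois K F] (n : ℕ)
    (hn : Module.finrank K F = 3 ^ n) (m : ℕ) (hm : Good m) (hu : Unr m K F) (r : ℕ) (hr : Adm r)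
    (x y : F) : y ^ 2 ≠ x ^ 3 - (r : F) ^ 2 := by
  classical
  have h9 := hr.1
  have hr0 : r ≠ 0 := by rintro rfl; norm_num at h9
  have hc0 : (r : ℤ) ≠ 0 := by exact_mod_cast hr0
  haveI fK : Fact (NonSq (-1) K) := ⟨nonSq_K K⟩
  haveI fF : Fact (NonSq (-1) F) := ⟨nonSq_F K F n hn⟩
  haveI : NumberField (Q2 (-1) K) := numberField_Q2 K
  haveI : IsPrincipalIdealRing (𝓞 (Q2 (-1) K)) := pid_k K
  obtain ⟨om, hom⟩ := b8_zeta K
  have homF : algebraMap K F om ^ 2 + algebraMap K F om + 1 = 0 := by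
    rw [← map_pow, ← map_add, ← map_one (algebraMap K F), ← map_add, hom, map_zero]
  have h3m : ¬ 3 ∣ m := fun h => by
    have := hm.2 3 Nat.prime_three h
    norm_num at this
  obtain ⟨v, hv, hsq⟩ := exists_three n hn m h3m hu om hom
  have hr9 : (r : ℤ) % 9 = 4 ∨ (r : ℤ) % 9 = 5 := by omega
  have key := no_points' (algebraMap K F om) homF v hv hsq (r : ℤ) hr9 ?_ x y
  · rw [Int.cast_natCast] at key
    exact key
  intro x y hxy
  have hk : -(r : ℤ) ^ 2 = (-1) * (r : ℤ) ^ 2 := by ring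
  have hk0 : -(r : ℤ) ^ 2 ≠ 0 := neg_ne_zero.2 (pow_ne_zero 2 hc0)
  have hns : (W (-(r : ℤ) ^ 2) F).toAffine.Nonsingular x y :=
    (W_nonsingular hk0 x y).2 (by rw [hxy]; push_cast; ring)
  obtain ⟨s, hs⟩ := b8_main n hn m hm hu r hr om hom v hv _ hk hc0 (.some x y hns)
  exact exists_back' _ homF ((r : ℤ) : F) (by exact_mod_cast hr0) x y hxy s hs

end RF
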