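import Pool.Agent.MP_ae0bd0_nt.RF.B8
import Pool.Agent.MP_ae0bd0_nt.B3.P7

set_option autoImplicit false

open CM27 NumberField IsDedekindDomain BS3

namespace RF

/-! ## [RF-R1] ramification in `F / ℚ` (file R1.lean) -/

/-- `p` is unramified in `K`, or `p = 3` and all places of `K` above `3` have absolute ramification index at
most `2`. -/
def Mild (p : ℕ) (K : Type) [Field K] [NumberField K] : Prop :=
  ∀ v : HeightOneSpectrum (𝓞 K), (p : 𝓞 K) ∈ v.asIdeal →
    v.valuation K (p : K) = WithZero.exp (-1 : ℤ) ∨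
      (p = 3 ∧ v.valuation K (p : K) = WithZero.exp (-2 : ℤ))

theorem r1_finrank (K : Type) [Field K] [NumberField K] [IsCyclotomicExtension {3} ℚ K] :
    Module.finrank ℚ K = 2 := by
  rw [IsCyclotomicExtension.finrank (n := 3) K (Polynomial.cyclotomic.irreducible_rat (by norm_num))]
  decide

theorem r1_om (K : Type) [Field K] [NumberField K] [IsCyclotomicExtension {3} ℚ K] :
    ∃ om : K, om ^ 2 + om + 1 = 0 := by
  have h := IsCyclotomicExtension.zeta_spec 3 ℚ K
  refine ⟨IsCyclotomicExtension.zeta 3 ℚ K, ?_⟩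
  have h2 := h.isRoot_cyclotomic (by norm_num)
  rw [Polynomial.cyclotomic_three, Polynomial.IsRoot.def] at h2
  simpa using h2

/-- there is a place below -/
theorem r1_below (K F : Type) [Field K] [NumberField K] [Field F] [NumberField F] [Algebra K F]
    (v : HeightOneSpectrum (𝓞 F)) :
    ∃ v₀ : HeightOneSpectrum (𝓞 K), v.asIdeal.LiesOver v₀.asIdeal := by
  refine ⟨⟨v.asIdeal.under (𝓞 K), inferInstance, ?_⟩, ⟨rfl⟩⟩
  exact Ideal.under_ne_bot (𝓞 K) v.ne_bot

theorem r1_above (K F : Type) [Field K] [NumberField K] [Field F] [NumberField F] [Algebra K F]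
    (v : HeightOneSpectrum (𝓞 K)) :
    ∃ w : HeightOneSpectrum (𝓞 F), w.asIdeal.LiesOver v.asIdeal := by
  have := v.isMaximal
  obtain ⟨Q, hQm, hQ⟩ := Ideal.exists_maximal_ideal_liesOver_of_isIntegral
    (S := 𝓞 F) v.asIdeal
  have hQ0 : Q ≠ ⊥ := Ideal.ne_bot_of_liesOver_of_ne_bot v.ne_bot Q
  exact ⟨⟨Q, hQm.isPrime, hQ0⟩, hQ⟩

theorem r1_mem {K F : Type} [Field K] [NumberField K] [Field F] [NumberField F] [Algebra K F]
    (v : HeightOneSpectrum (𝓞 K)) (w : HeightOneSpectrum (𝓞 F))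
    (h : w.asIdeal.LiesOver v.asIdeal) (p : ℕ) :
    (p : 𝓞 K) ∈ v.asIdeal ↔ (p : 𝓞 F) ∈ w.asIdeal := by
  rw [h.over, Ideal.under_def, Ideal.mem_comap, map_natCast]

theorem r1_not_mem {K : Type} [Field K] [NumberField K] (v : HeightOneSpectrum (𝓞 K))
    (p q : ℕ) (hp : p.Prime) (hq : q.Prime) (hpq : p ≠ q) (h : (p : 𝓞 K) ∈ v.asIdeal) :
    (q : 𝓞 K) ∉ v.asIdeal := by
  intro h'
  obtain ⟨a, b, hab⟩ : IsCoprime (p : ℤ) (q : ℤ) := by
    rw [Nat.isCoprime_iff_coprime]
    exact (Nat.coprime_primes hp hq).2 hpq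
  apply v.isPrime.ne_top
  rw [Ideal.eq_top_iff_one]
  have h5 : (a : 𝓞 K) * (p : 𝓞 K) + (b : 𝓞 K) * (q : 𝓞 K) = 1 := by
    exact_mod_cast congrArg (fun t : ℤ => (t : 𝓞 K)) hab
  rw [← h5]
  exact Ideal.add_mem _ (Ideal.mul_mem_left _ _ h) (Ideal.mul_mem_left _ _ h')

theorem r1_val {K : Type} [Field K] [NumberField K] (v : HeightOneSpectrum (𝓞 K)) (p : ℕ)
    (h2 : (p : 𝓞 K) ∈ v.asIdeal) (h4 : (p : 𝓞 K) ∉ v.asIdeal ^ 2) :
    v.valuation K (p : K) = WithZero.exp (-1) := by
  have hmap2 : algebraMap (𝓞 K) K (p : 𝓞 K) = (p : K) := map_natCast _ p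
  have hw2lt : v.valuation K (p : K) < 1 := by
    rw [← hmap2, v.valuation_lt_one_iff_mem]
    exact h2
  have h5 : ¬ v.valuation K (p : K) ≤ WithZero.exp (-((2 : ℕ) : ℤ)) := by
    rw [← hmap2, v.valuation_of_algebraMap, v.intValuation_le_pow_iff_mem]
    exact h4
  have h0 : v.valuation K (p : K) ≠ 0 := by
    intro h0
    rw [h0] at h5
    exact h5 zero_le
  have h6 : v.valuation K (p : K) = WithZero.exp (WithZero.log (v.valuation K (p : K))) :=
    (WithZero.exp_log h0).symm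
  rw [h6] at hw2lt h5 ⊢
  rw [← WithZero.exp_zero, WithZero.exp_lt_exp] at hw2lt
  rw [WithZero.exp_le_exp] at h5
  congr 1
  push Not at h5
  push_cast at h5
  omega

/-- valuation of `2 ω + 1` in `K` -/
theorem r1_three {K : Type} [Field K] [NumberField K] [IsCyclotomicExtension {3} ℚ K]
    (om : K) (hom : om ^ 2 + om + 1 = 0) (v : HeightOneSpectrum (𝓞 K))
    (hv : (3 : 𝓞 K) ∈ v.asIdeal) : v.valuation K (2 * om + 1) = WithZero.exp (-1 : ℤ) := by
  have hint : IsIntegral ℤ om := by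
    refine ⟨Polynomial.X ^ 2 + Polynomial.X + 1, by monicity!, ?_⟩
    simpa using hom
  let o : 𝓞 K := ⟨om, hint⟩
  have hoc : algebraMap (𝓞 K) K o = om := rfl
  have ho : o ^ 2 + o + 1 = 0 := by
    apply NumberField.RingOfIntegers.ext
    change algebraMap (𝓞 K) K (o ^ 2 + o + 1) = algebraMap (𝓞 K) K 0
    rw [map_add, map_add, map_pow, map_one, map_zero, hoc]
    exact hom
  have hsq : (2 * o + 1) ^ 2 = -3 := by linear_combination 4 * ho
  have hne : (2 * o + 1) ≠ 0 := by
    intro h0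
    rw [h0] at hsq
    have h3 : ((3 : ℕ) : 𝓞 K) = 0 := by
      push_cast
      linear_combination hsq
    rw [Nat.cast_eq_zero] at h3
    omega
  have hnorm : (Ideal.absNorm (Ideal.span {(2 * o + 1 : 𝓞 K)})) ^ 2 = 3 ^ 2 := by
    rw [← map_pow, Ideal.span_singleton_pow, hsq, Ideal.absNorm_span_singleton]
    have h3 : (-3 : 𝓞 K) = algebraMap ℤ (𝓞 K) (-3) := by simp
    rw [h3, Algebra.norm_algebraMap, RingOfIntegers.rank, r1_finrank K]
    norm_num
  have hnorm3 : Ideal.absNorm (Ideal.span {(2 * o + 1 : 𝓞 K)}) = 3 :=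
    Nat.pow_left_injective (n := 2) (by norm_num) hnorm
  have hprime : (Ideal.span {(2 * o + 1 : 𝓞 K)}).IsPrime :=
    Ideal.isPrime_of_irreducible_absNorm (by rw [hnorm3]; exact Nat.prime_three)
  have hmax : (Ideal.span {(2 * o + 1 : 𝓞 K)}).IsMaximal :=
    hprime.isMaximal (by rwa [Ne, Ideal.span_singleton_eq_bot])
  have hmem : (2 * o + 1 : 𝓞 K) ∈ v.asIdeal := by
    apply v.isPrime.mem_of_pow_mem 2
    rw [hsq]
    exact v.asIdeal.neg_mem hv
  have heq : v.asIdeal = Ideal.span {(2 * o + 1 : 𝓞 K)} :=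
    (hmax.eq_of_le v.isPrime.ne_top ((Ideal.span_singleton_le_iff_mem _).2 hmem)).symm
  have h1 := v.intValuation_singleton hne heq
  rw [← v.valuation_of_algebraMap (K := K)] at h1
  have h7 : algebraMap (𝓞 K) K (2 * o + 1) = 2 * om + 1 := by
    rw [map_add, map_mul, map_one, hoc, map_ofNat]
  change v.valuation K (algebraMap (𝓞 K) K (2 * o + 1)) = _ at h1
  rwa [h7] at h1

/-- `(2 ω + 1)² = -3`, so `2 ω + 1` generates the prime `v` of `K` above `3` (norm `3`), valuation `exp(-1)`, and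
`e(P/v) = 1` (`hu`, `3 ∤ m`). -/
theorem val_three {K F : Type} [Field K] [NumberField K] [IsCyclotomicExtension {3} ℚ K]
    [Field F] [NumberField F] [Algebra K F] (m : ℕ) (hu : Unr m K F)
    (h3m : ¬ 3 ∣ m) (om : K) (hom : om ^ 2 + om + 1 = 0)
    (v : HeightOneSpectrum (𝓞 F)) (hv : (3 : 𝓞 F) ∈ v.asIdeal) :
    v.valuation F (2 * algebraMap K F om + 1) = WithZero.exp (-1 : ℤ) := by
  obtain ⟨v₀, h⟩ := r1_below K F v
  have h3 : ((3 : ℕ) : 𝓞 K) ∈ v₀.asIdeal := (r1_mem v₀ v h 3).2 (by exact_mod_cast hv)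
  have he : v.asIdeal.ramificationIdx (𝓞 K) = 1 := by
    refine hu v₀ v h fun p hp hd => r1_not_mem v₀ 3 p Nat.prime_three hp ?_ h3
    rintro rfl
    exact h3m hd
  have he' : v₀.asIdeal.ramificationIdx' v.asIdeal = 1 := by
    rw [Ideal.ramificationIdx'_eq_ramificationIdx _ _ v₀.ne_bot, he]
  have h5 := HeightOneSpectrum.valuation_liesOver (K := K) F v₀ v (2 * om + 1)
  rw [he', pow_one, r1_three om hom v₀ (by exact_mod_cast h3)] at h5
  have h8 : algebraMap K F (2 * om + 1) = 2 * algebraMap K F om + 1 := by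
    rw [map_add, map_mul, map_one, map_ofNat]
  rw [h8] at h5
  exact h5.symm

/-- A prime `p ≠ 3` is unramified in `K = ℚ(ω)` (`p ∉ v²`: e.g. `CM27.unram` for the level `3`, see
`BS3.unram_of`), and `e(P/v) = 1`, so `P(p) = v(p)` (`HeightOneSpectrum.valuation_liesOver`). See
`sg_exists_two` in MP_9ab903_nt/CF/SG.lean. For `p = 3`: `val_three`. -/
theorem mild_F {K F : Type} [Field K] [NumberField K] [IsCyclotomicExtension {3} ℚ K]
    [Field F] [NumberField F] [Algebra K F] (m : ℕ) (hu : Unr m K F) (p : ℕ) (hp : p.Prime)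
    (hpm : ¬ p ∣ m) : Mild p F := by
  intro v hv
  obtain ⟨om, hom⟩ := r1_om K
  by_cases h3 : p = 3
  · subst h3
    right
    refine ⟨rfl, ?_⟩
    have h1 := val_three m hu hpm om hom v (by exact_mod_cast hv)
    have h2 : ((3 : ℕ) : F) = -(2 * algebraMap K F om + 1) ^ 2 := by
      have h6 := congrArg (algebraMap K F) hom
      simp only [map_add, map_pow, map_one, map_zero] at h6
      push_cast
      linear_combination 4 * h6
    rw [h2, Valuation.map_neg, map_pow, h1, ← WithZero.exp_nsmul]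
    norm_num
  · left
    obtain ⟨v₀, h⟩ := r1_below K F v
    have hp0 : (p : 𝓞 K) ∈ v₀.asIdeal := (r1_mem v₀ v h p).2 hv
    have he : v.asIdeal.ramificationIdx (𝓞 K) = 1 := by
      refine hu v₀ v h fun q hq hd => r1_not_mem v₀ p q hp hq ?_ hp0
      rintro rfl
      exact hpm hd
    have he' : v₀.asIdeal.ramificationIdx' v.asIdeal = 1 := by
      rw [Ideal.ramificationIdx'_eq_ramificationIdx _ _ v₀.ne_bot, he]
    have hun : Unram p K := by
      have h1 : Unram p (⊤ : IntermediateField ℚ K) := fun w hw =>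
        CM27.unram 3 K ⊤ p hp (fun hd => h3 ((Nat.prime_dvd_prime_iff_eq hp Nat.prime_three).1 hd))
          w hw
      exact Unram.of_equiv (h := h1) (IntermediateField.topEquiv (F := ℚ) (E := K)).toRingEquiv
    have h5 := HeightOneSpectrum.valuation_liesOver (K := K) F v₀ v (p : K)
    rw [he', pow_one, map_natCast (algebraMap K F) p, r1_val v₀ p hp0 (hun v₀ hp0)] at h5
    exact h5.symm

/-- `v.valuation (p) = v₀.valuation(p) ^ e` for a place `v` of `F` above the place `v₀` of `F₀`, so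
`v₀.valuation (p)` is `exp (-1)`, or `p = 3` and it is `exp (-1)` or `exp (-2)`. -/
theorem Mild.sub {F₀ F : Type} [Field F₀] [NumberField F₀] [Field F] [NumberField F]
    [Algebra F₀ F] (p : ℕ) (hp : p.Prime) (h : Mild p F) : Mild p F₀ := by
  intro v hv
  obtain ⟨w, hw⟩ := r1_above F₀ F v
  have h1 := h w ((r1_mem v w hw p).1 hv)
  have h5 := HeightOneSpectrum.valuation_liesOver (K := F₀) F v w (p : F₀)
  rw [map_natCast (algebraMap F₀ F) p] at h5
  have h0 : v.valuation F₀ (p : F₀) ≠ 0 := by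
    rw [Ne, map_eq_zero]
    exact_mod_cast hp.ne_zero
  have h6 : v.valuation F₀ (p : F₀) =
      WithZero.exp (WithZero.log (v.valuation F₀ (p : F₀))) := (WithZero.exp_log h0).symm
  rw [h6] at h5 ⊢
  rw [← WithZero.exp_nsmul] at h5
  set k := WithZero.log (v.valuation F₀ (p : F₀)) with hk
  set e := v.asIdeal.ramificationIdx' w.asIdeal with he
  rcases h1 with h1 | ⟨h3, h1⟩
  · rw [h1] at h5
    have h7 := WithZero.exp_injective h5
    rw [nsmul_eq_mul] at h7
    left
    congr 1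
    have h8 : (e : ℤ) ∣ 1 := ⟨-k, by linear_combination h7⟩
    have h9 : e = 1 := by
      have := Int.natAbs_dvd_natAbs.2 h8
      simpa using this
    rw [h9] at h7
    simpa using h7
  · rw [h1] at h5
    have h7 := WithZero.exp_injective h5
    rw [nsmul_eq_mul] at h7
    have h8 : (e : ℤ) ∣ 2 := ⟨-k, by linear_combination h7⟩
    have h9 : e ∣ 2 := by
      have := Int.natAbs_dvd_natAbs.2 h8
      simpa using this
    rcases (Nat.dvd_prime Nat.prime_two).1 h9 with h10 | h10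
    · right
      refine ⟨h3, ?_⟩
      congr 1
      rw [h10] at h7
      simpa using h7
    · left
      congr 1
      rw [h10] at h7
      push_cast at h7
      omega

end RF
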