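import Pool.Agent.MP_ae0bd0_nt.RF.V2
import Pool.Agent.MP_ae0bd0_nt.RF.A1
import Pool.Agent.MP_ae0bd0_nt.RF.U1
import Pool.Agent.MP_ae0bd0_nt.B3.Z9

set_option autoImplicit false

open scoped ComplexConjugate Classical
open Filter Topology CM27 CMT CF BS3

namespace RF

/-! ## [RF-V3] the characters `phr r · X` (file V3.lean) -/

/-- the coefficients `φ_r(a) X(a) ā` -/
noncomputable def hx (r : ℕ) (S : Finset Eis) (X : XX S) (a : Eis) : ℂ :=
  phr r a * Xt S X a * conj (emb a)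

/-- the coefficients `φ_r(ā) X(a) a` -/
noncomputable def hy (r : ℕ) (S : Finset Eis) (X : XX S) (a : Eis) : ℂ :=
  phr r (star a) * Xt S X a * emb a

theorem v3_mul (S : Finset Eis) (X : XX S) (a b : Eis) :
    Xt S X (a * b) = Xt S X a * Xt S X b := by
  unfold Xt
  rw [← Finset.prod_mul_distrib]
  refine Finset.prod_congr rfl fun c _ => ?_
  split_ifs
  · rw [mul_one]
  · rw [map_mul, map_mul]

theorem v3_one (S : Finset Eis) (X : XX S) : Xt S X 1 = 1 := by
  unfold Xt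
  refine Finset.prod_eq_one fun c _ => ?_
  split_ifs
  · rfl
  · rw [map_one, map_one]

theorem v3_unit (S : Finset Eis) (X : XX S) (hU : UTriv S X) (u : Eis) (hu : IsUnit u) :
    Xt S X u = 1 := by
  rw [← hU u hu]
  unfold Xt
  refine Finset.prod_congr rfl fun c _ => ?_
  split_ifs with h
  · rw [h]
    obtain ⟨v, hv⟩ := hu.map (Ideal.Quotient.mk (Ideal.span {(c : Eis)}))
    rw [← hv, MulChar.one_apply_coe]
  · rfl

theorem v3_per (S : Finset Eis) (X : XX S) (m : ℕ) (hSm : ∀ b ∈ S, b ∣ (m : Eis)) (a b : Eis) :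
    Xt S X (a + (m : Eis) * b) = Xt S X a := by
  unfold Xt
  refine Finset.prod_congr rfl fun c _ => ?_
  split_ifs with h
  · rfl
  · congr 1
    rw [Ideal.Quotient.eq, Ideal.mem_span_singleton]
    have h1 : a + (m : Eis) * b - a = (m : Eis) * b := by ring
    rw [h1]
    exact (hSm c c.2).mul_right b

theorem v3_comp (S : Finset Eis) (X : XX S) (n : ℕ) (hX : ∀ b, X b ^ 3 ^ n = 1)
    (c : {x // x ∈ S}) (a : Eis) :
    X c (Ideal.Quotient.mk _ a) = 0 ∨ X c (Ideal.Quotient.mk _ a) ^ 3 ^ n = 1 := by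
  by_cases h : IsUnit (Ideal.Quotient.mk (Ideal.span {(c : Eis)}) a)
  · right
    obtain ⟨v, hv⟩ := h
    rw [← hv]
    have h7 := congrArg (fun ψ : MulChar (Eis ⧸ Ideal.span {(c : Eis)}) ℂ =>
      ψ (v : Eis ⧸ Ideal.span {(c : Eis)})) (hX c)
    simp only [MulChar.pow_apply_coe, MulChar.one_apply_coe] at h7
    exact h7
  · left
    exact (X c).map_nonunit h

theorem v3_val (S : Finset Eis) (X : XX S) (n : ℕ) (hX : ∀ b, X b ^ 3 ^ n = 1) (a : Eis) :
    Xt S X a = 0 ∨ Xt S X a ^ 3 ^ n = 1 := by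
  by_cases h0 : Xt S X a = 0
  · exact Or.inl h0
  · right
    unfold Xt at h0 ⊢
    rw [← Finset.prod_pow]
    refine Finset.prod_eq_one fun c hc => ?_
    have h1 := (Finset.prod_ne_zero_iff.1 h0) c hc
    split_ifs with h
    · rw [one_pow]
    · rw [if_neg h] at h1
      rcases v3_comp S X n hX c a with h2 | h2
      · exact absurd h2 h1
      · exact h2

theorem v3_ne (S : Finset Eis) (X : XX S) (m : ℕ) (hSm : ∀ b ∈ S, b ∣ (m : Eis)) (a : Eis)
    (ha : IsCoprime a (m : Eis)) : Xt S X a ≠ 0 := by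
  unfold Xt
  refine Finset.prod_ne_zero_iff.2 fun c _ => ?_
  split_ifs
  · exact one_ne_zero
  · have h1 : IsCoprime a (c : Eis) := ha.of_isCoprime_of_dvd_right (hSm c c.2)
    obtain ⟨x, y, hxy⟩ := h1
    have h2 : IsUnit (Ideal.Quotient.mk (Ideal.span {(c : Eis)}) a) := by
      refine IsUnit.of_mul_eq_one (Ideal.Quotient.mk _ x) ?_
      rw [← map_mul, ← map_one (Ideal.Quotient.mk (Ideal.span {(c : Eis)})), Ideal.Quotient.eq,
        Ideal.mem_span_singleton]
      exact ⟨-y, by linear_combination hxy⟩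
    exact (h2.map (X c)).ne_zero

theorem v3_norm_le {z : ℂ} {k : ℕ} (hk : k ≠ 0) (h : z = 0 ∨ z ^ k = 1) : ‖z‖ ≤ 1 := by
  rcases h with h | h
  · rw [h, norm_zero]
    exact zero_le_one
  · have h1 := congrArg norm h
    rw [norm_pow, norm_one] at h1
    exact ((pow_eq_one_iff_of_nonneg (norm_nonneg z) hk).1 h1).le

theorem v3_isG {r : ℕ} (hr : Adm r) (m : ℕ) (ψ : Eis → ℂ) (h1 : ψ 1 = 1)
    (hmul : ∀ a b, ψ (a * b) = ψ a * ψ b) (hper : ∀ a b, ψ (a + (m : Eis) * b) = ψ a)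
    (hunit : ∀ u, IsUnit u → ψ u = 1) (n : ℕ) (hval : ∀ a, ψ a = 0 ∨ ψ a ^ 3 ^ n = 1)
    (hne : ∀ a, IsCoprime a (m : Eis) → ψ a ≠ 0) :
    IsG (4 * (oddrad r * m)) (fun a => phr r a * ψ a) ∧
    ∀ a, IsCoprime a ((4 * (oddrad r * m) : ℕ) : Eis) →
      (phr r a * ψ a * ch4 a) ^ 3 ^ (n + 1) = 1 := by
  have hcop : ∀ a : Eis, IsCoprime a ((4 * (oddrad r * m) : ℕ) : Eis) →
      IsCoprime a ((2 * r : ℕ) : Eis) := by
    intro a ha
    rw [coprime_iff] at ha ⊢
    exact int_coprime_of (fun p hp h => prime_dvd_level hr m p hp h) ha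
  have hch4 : ∀ a : Eis, ch4 a = 0 ∨ ch4 a ^ 2 = 1 := by
    intro a
    by_cases hodd : Odd a.norm
    · right
      rw [sq]
      exact n1_ch4_sq a hodd
    · left
      have h2 : (2 : ℤ) ∣ a.norm := by
        rw [← even_iff_two_dvd]
        exact Int.not_odd_iff_even.1 hodd
      unfold ch4
      have h3 : ¬ IsUnit ((a.norm : ℤ) : ZMod 4) := by
        intro hu
        have h6 := (ZMod.coe_int_isUnit_iff_isCoprime a.norm 4).1 hu
        have := h6.isUnit_of_dvd' (by norm_num) h2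
        norm_num [Int.isUnit_iff] at this
      rw [MulChar.map_nonunit _ h3, Int.cast_zero]
  refine ⟨⟨?_, ?_, ?_, ?_, ?_⟩, ?_⟩
  · show phr r 1 * ψ 1 = 1
    rw [phr_one hr, h1, mul_one]
  · intro a b
    show phr r (a * b) * ψ (a * b) = phr r a * ψ a * (phr r b * ψ b)
    rw [phr_mul hr, hmul]
    ring
  · intro a b
    show phr r _ * ψ _ = phr r a * ψ a
    have e1 : ψ (a + ((4 * (oddrad r * m) : ℕ) : Eis) * b) = ψ a := by
      have : a + ((4 * (oddrad r * m) : ℕ) : Eis) * b =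
          a + (m : Eis) * (4 * (oddrad r : Eis) * b) := by
        push_cast
        ring
      rw [this, hper]
    have e2 : ch4 (a + ((4 * (oddrad r * m) : ℕ) : Eis) * b) = ch4 a := by
      have : a + ((4 * (oddrad r * m) : ℕ) : Eis) * b =
          a + 4 * ((oddrad r * m : Eis) * b) := by
        push_cast
        ring
      rw [this, ch4_per]
    rw [e1, phr, phr, e2, kapn_per (2 * r) hr.not_three _ (prime_dvd_level hr m)]
  · intro u hu
    show phr r u * ψ u = 1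
    have h1 : (u.norm : ℤ) = 1 := (eis_isUnit_iff u).1 hu
    have h2 : ch4 u = 1 := by
      rw [ch4, h1]
      simp
    rw [phr, kapn_unit (2 * r) hr.nine u hu, h2, hunit u hu, mul_one, mul_one]
  · intro a
    show ‖phr r a * ψ a‖ ≤ 1
    rw [phr, norm_mul, norm_mul]
    have n1 : ‖ch4 a‖ ≤ 1 := v3_norm_le two_ne_zero (hch4 a)
    have n2 : ‖kapn (2 * r) a‖ ≤ 1 := by
      refine v3_norm_le three_ne_zero ?_
      by_cases h : IsCoprime a ((2 * r : ℕ) : Eis)
      · exact Or.inr (kapn_cube (2 * r) hr.not_three a h)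
      · exact Or.inl (kapn_zero _ (mul_ne_zero two_ne_zero hr.ne_zero) a h)
    have n3 : ‖ψ a‖ ≤ 1 := v3_norm_le (pow_ne_zero n three_ne_zero) (hval a)
    calc ‖ch4 a‖ * ‖kapn (2 * r) a‖ * ‖ψ a‖ ≤ 1 * 1 * 1 := by gcongr
      _ = 1 := by norm_num
  · intro a ha
    have ha' := ha
    rw [coprime_iff] at ha
    push_cast at ha
    have ha4 : IsCoprime a.norm (4 : ℤ) := ha.of_mul_right_left
    have ham : IsCoprime a (m : Eis) := by
      rw [coprime_iff]
      exact ha.of_mul_right_right.of_mul_right_right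
    have hodd : Odd a.norm := by
      rw [← Int.not_even_iff_odd, even_iff_two_dvd]
      intro h
      have := ha4.isUnit_of_dvd' h (by norm_num)
      norm_num [Int.isUnit_iff] at this
    have hsq : ch4 a * ch4 a = 1 := n1_ch4_sq a hodd
    have h6 : phr r a * ψ a * ch4 a = kapn (2 * r) a * ψ a := by
      rw [phr]
      linear_combination (kapn (2 * r) a * ψ a) * hsq
    rw [h6, mul_pow]
    have h8 : kapn (2 * r) a ^ 3 ^ (n + 1) = 1 := by
      rw [pow_succ', pow_mul, kapn_cube (2 * r) hr.not_three a (hcop a ha'), one_pow]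
    have h9 : ψ a ^ 3 ^ (n + 1) = 1 := by
      rcases hval a with h | h
      · exact absurd h (hne a ham)
      · rw [pow_succ, pow_mul, h, one_pow]
    rw [h8, h9, one_mul]

/-- `Xt` (`CF/Defs.lean`): product over the `b ∈ S` with `X b ≠ 1` of `X b (a mod b)`. `mul`, `one`: see
`CF/L2.lean` (`Xt_mul`, `Xt_one`). `per`: `b ∣ m`. `unit`: the components with `X b = 1` contribute `1` at the
units, so `UTriv` gives `Xt S X u = 1`. `norm`: values are `0` or roots of unity. `phr`: see B3/Z6, Z8, Z9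
(`phr_mul`, `kapn_per`, `kapn_unit`, `isCh_phc` is the analogous proof with a Dirichlet character instead of
`Xt`). For `a` prime to the level all components are nonzero, `(X b a)^(3^n) = 1`, `kapn^3 = 1`, `ch4^2 = 1`. -/
theorem isG_X {r : ℕ} (hr : Adm r) (m : ℕ) (hm : NLevel m) (S : Finset Eis)
    (hS : ∀ b ∈ S, NEis b) (hSm : ∀ b ∈ S, b ∣ (m : Eis)) (X : XX S) (hU : UTriv S X) (n : ℕ)
    (hX : ∀ b, X b ^ 3 ^ n = 1) :
    IsG (4 * (oddrad r * m)) (fun a => phr r a * Xt S X a) ∧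
    ∀ a, IsCoprime a ((4 * (oddrad r * m) : ℕ) : Eis) →
      (phr r a * Xt S X a * ch4 a) ^ 3 ^ (n + 1) = 1 :=
  v3_isG hr m (Xt S X) (v3_one S X) (v3_mul S X) (v3_per S X m hSm) (v3_unit S X hU) n
    (v3_val S X n hX) (v3_ne S X m hSm)

/-- the same for `a ↦ X(ā)` -/
theorem isG_X_star {r : ℕ} (hr : Adm r) (m : ℕ) (hm : NLevel m) (S : Finset Eis)
    (hS : ∀ b ∈ S, NEis b) (hSm : ∀ b ∈ S, b ∣ (m : Eis)) (X : XX S) (hU : UTriv S X) (n : ℕ)
    (hX : ∀ b, X b ^ 3 ^ n = 1) :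
    IsG (4 * (oddrad r * m)) (fun a => phr r a * Xt S X (star a)) ∧
    ∀ a, IsCoprime a ((4 * (oddrad r * m) : ℕ) : Eis) →
      (phr r a * Xt S X (star a) * ch4 a) ^ 3 ^ (n + 1) = 1 := by
  refine v3_isG hr m (fun a => Xt S X (star a)) ?_ ?_ ?_ ?_ n ?_ ?_
  · show Xt S X (star 1) = 1
    rw [star_one, v3_one]
  · intro a b
    show Xt S X (star (a * b)) = _
    rw [star_mul, v3_mul, mul_comm]
  · intro a b
    show Xt S X (star (a + (m : Eis) * b)) = _
    have : star (a + (m : Eis) * b) = star a + (m : Eis) * star b := by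
      rw [star_add, star_mul, star_natCast, mul_comm]
    rw [this, v3_per S X m hSm]
  · intro u hu
    exact v3_unit S X hU _ hu.star
  · intro a
    exact v3_val S X n hX _
  · intro a ha
    refine v3_ne S X m hSm _ ?_
    obtain ⟨x, y, hxy⟩ := ha
    refine ⟨star x, star y, ?_⟩
    have h1 := congrArg star hxy
    rw [star_add, star_mul, star_mul, star_natCast, star_one] at h1
    rw [← h1]
    ring

/-- The values for one character: `Dg (hx r S X) = cf (phr r · Xt S X)` (definition), and `Dg (hy r S X) =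
cf (a ↦ phr r a · Xt S X (star a))` (substitute `a = star c`; `star` permutes `primSet n`), then `value_ne_zero`
with the level `oddrad r * m` (`good_mul`, `good_oddrad`, `nlevel_iff`). -/
theorem value_X {r : ℕ} (hr : Adm r) (m : ℕ) (hm : NLevel m)
    (hrm : ∀ p, p.Prime → p ∣ r → ¬ p ∣ m) (S : Finset Eis)
    (hS : ∀ b ∈ S, NEis b) (hSm : ∀ b ∈ S, b ∣ (m : Eis)) (X : XX S) (hU : UTriv S X) (n : ℕ)
    (hX : ∀ b, X b ^ 3 ^ n = 1) :
    ∃ Φ₁ Φ₂ : ℂ → ℂ, Differentiable ℂ Φ₁ ∧ Differentiable ℂ Φ₂ ∧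
      (∀ s : ℂ, 3 / 2 < s.re → LSeriesSummable (fun k => Dg (hx r S X) k) s ∧
        Φ₁ s = LSeries (fun k => Dg (hx r S X) k) s) ∧
      (∀ s : ℂ, 3 / 2 < s.re → LSeriesSummable (fun k => Dg (hy r S X) k) s ∧
        Φ₂ s = LSeries (fun k => Dg (hy r S X) k) s) ∧
      Φ₁ 1 ≠ 0 ∧ Φ₂ 1 ≠ 0 := by
  have hgood : Good (oddrad r * m) := good_mul (good_oddrad hr) ((nlevel_iff m).1 hm)
    (fun p hp h => hrm p hp ((dvd_oddrad hr.ne_zero hp).1 h).1)
  obtain ⟨a1, a2⟩ := isG_X hr m hm S hS hSm X hU n hX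
  obtain ⟨b1, b2⟩ := isG_X_star hr m hm S hS hSm X hU n hX
  obtain ⟨Φ₁, c1, c2, c3⟩ := value_ne_zero _ hgood _ a1 (n + 1) a2
  obtain ⟨Φ₂, d1, d2, d3⟩ := value_ne_zero _ hgood _ b1 (n + 1) b2
  have e1 : (fun k => Dg (hx r S X) k) = cf (fun a => phr r a * Xt S X a) := by
    funext k
    rw [Dg_apply, cf]
    rfl
  have e2 : (fun k => Dg (hy r S X) k) = cf (fun a => phr r a * Xt S X (star a)) := by
    funext k
    rw [Dg_apply, cf, ← primSet_star]
    refine Finset.sum_congr rfl fun a _ => ?_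
    rw [hy, CM27.emb_star, star_star]
  rw [e1, e2]
  exact ⟨Φ₁, Φ₂, c1, d1, c2, d2, c3, d3⟩

end RF
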