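import Mathlib

/-!
# The ray class field of `ℚ(ω)` generated by the cubes of the `x`-coordinates of the `m`-torsion points
-/

set_option autoImplicit false

namespace RF

open Classical in
/-- The subfield of `ℂ` generated by the cube roots of unity and the cubes of the `x`-coordinates of the
points `P ∈ W(ℂ)` with `m P = 0` (for `W : y² + y = x³` this is the ray class field of `ℚ(ω)` of
conductor `m`). -/
noncomputable def rayField (W : WeierstrassCurve ℂ) (m : ℕ) : IntermediateField ℚ ℂ :=
  IntermediateField.adjoin ℚ {c | c ^ 2 + c + 1 = 0 ∨
    ∃ (x y : ℂ) (h : W.toAffine.Nonsingular x y),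
      m • (WeierstrassCurve.Affine.Point.some x y h : W.toAffine.Point) = 0 ∧ c = x ^ 3}

end RF
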