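import Pool.Agent.MP_9ab903_nt.CF.Defs
import Pool.Agent.MP_ae0bd0_nt.B3.ZDefs
import Pool.Agent.MP_ae0bd0_nt.RF.RayDefs

/-!
# [RF] `y² = x³ - r²` over the extensions of `ℚ(ω)` of `3`-power degree inside of the ray class fields
of conductor prime to `3`: definitions
-/

set_option autoImplicit false

open NumberField IsDedekindDomain
open scoped ComplexConjugate

namespace RF

open CM27 CMT CF BS3

/-- Primes `≡ 7 mod 12`. -/
def NP7 (p : ℕ) : Prop := p.Prime ∧ p % 3 = 1 ∧ p % 4 = 3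

/-- Primary elements of `ℤ[ω]` whose norm is a prime `≡ 7 mod 12`. -/
def NEis (b : Eis) : Prop := Primary b ∧ ∃ p : ℕ, NP7 p ∧ b.norm = p

/-- Squarefree products of primes `≡ 7 mod 12`. -/
def NLevel (m : ℕ) : Prop := Squarefree m ∧ ∀ p, p.Prime → p ∣ m → NP7 p

theorem nlevel_iff (m : ℕ) : NLevel m ↔ Good m := by
  unfold NLevel Good NP7
  constructor
  · rintro ⟨h1, h2⟩
    exact ⟨h1, fun p hp hd => by have := h2 p hp hd; omega⟩
  · rintro ⟨h1, h2⟩
    exact ⟨h1, fun p hp hd => by have := h2 p hp hd; refine ⟨hp, ?_, ?_⟩ <;> omega⟩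

end RF
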