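import Pool.Agent.MP_ae0bd0_nt.RF.V3
import Pool.Agent.MP_9ab903_nt.CF.L2

set_option autoImplicit false

open NumberField IsDedekindDomain ArithmeticFunction
open CM27 CMT CF BS3
open scoped ComplexConjugate Classical

namespace RF

/-! ## [RF-E1] the Euler product over `F` (file E1.lean) -/

theorem e1_Xt_mul (S : Finset Eis) (X : XX S) (a b : Eis) :
    Xt S X (a * b) = Xt S X a * Xt S X b := by
  unfold Xt
  rw [← Finset.prod_mul_distrib]
  refine Finset.prod_congr rfl fun c _ => ?_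
  split_ifs
  · rw [mul_one]
  · rw [map_mul, map_mul]

theorem e1_Xt_one (S : Finset Eis) (X : XX S) : Xt S X 1 = 1 := by
  unfold Xt
  refine Finset.prod_eq_one fun c _ => ?_
  split_ifs
  · rfl
  · rw [map_one, map_one]

section
variable {r : ℕ} (hr : Adm r) (S : Finset Eis) (X : XX S)
include hr

theorem e1_hx_one : hx r S X 1 = 1 := by
  rw [hx, phr_one hr, e1_Xt_one, map_one, map_one, mul_one, mul_one]

theorem e1_hy_one : hy r S X 1 = 1 := by
  rw [hy, star_one, phr_one hr, e1_Xt_one, map_one, mul_one, mul_one]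

theorem e1_hx_mul (a b : Eis) : hx r S X (a * b) = hx r S X a * hx r S X b := by
  rw [hx, hx, hx, phr_mul hr, e1_Xt_mul, map_mul, map_mul]; ring

theorem e1_hy_mul (a b : Eis) : hy r S X (a * b) = hy r S X a * hy r S X b := by
  rw [hy, hy, hy, star_mul', phr_mul hr, e1_Xt_mul, map_mul]; ring

end

/-- the coefficients `φ_r(a) ā` -/
noncomputable def e1g (r : ℕ) (a : Eis) : ℂ := phr r a * conj (emb a)

theorem e1g_one {r : ℕ} (hr : Adm r) : e1g r 1 = 1 := by
  rw [e1g, phr_one hr, map_one, map_one, mul_one]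

theorem e1g_mul {r : ℕ} (hr : Adm r) (a b : Eis) : e1g r (a * b) = e1g r a * e1g r b := by
  rw [e1g, e1g, e1g, phr_mul hr, map_mul, map_mul]; ring

theorem e1_cr (r n : ℕ) : cr r n = Dg (e1g r) n := rfl

/-- the number of points in the split case -/
theorem e1_split {r : ℕ} (hr : Adm r) (p : ℕ) (hp : p.Prime) (h1 : p % 3 = 1)
    (hpd : ¬ (p : ℤ) ∣ 6 * (-(r : ℤ) ^ 2)) (a : Eis) (ha : Primary a) (hn : a.norm = p) :
    (phr r a * conj (emb a)) * (phr r (star a) * emb a) = p ∧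
    ∀ (f : ℕ) (k : Type) [Field k] [Finite k], 0 < f → Nat.card k = p ^ f →
      (Nat.card (W (-(r : ℤ) ^ 2) k).toAffine.Point : ℂ) = p ^ f + 1 -
        ((phr r a * conj (emb a)) ^ f + (phr r (star a) * emb a) ^ f) := by
  obtain ⟨α, β, hαβ, hpsi, hpts⟩ := (locDataR hr).good p hp hpd
  have e1 : phr r a * conj (emb a) = e1g r a := rfl
  have e2 : phr r (star a) * emb a = e1g r (star a) := by
    rw [e1g, CM27.emb_star, Complex.conj_conj]
  rw [e1, e2]
  have k1 := hpsi 1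
  have k2 := hpsi 2
  rw [e1_cr, Dg_split _ (e1g_one hr) (e1g_mul hr) p hp h1 a ha hn] at k1 k2
  simp only [Finset.sum_range_succ, Finset.sum_range_zero, pow_zero, pow_one, zero_add, one_mul,
    mul_one, Nat.sub_self, Nat.sub_zero, Nat.add_one_sub_one] at k1 k2
  have h5 : α + β = e1g r a + e1g r (star a) := by linear_combination -k1
  have h6 : e1g r a * e1g r (star a) = α * β := by
    linear_combination (e1g r a + e1g r (star a) + α + β) * k1 - k2
  refine ⟨by rw [h6, hαβ], ?_⟩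
  intro f k _ _ hf hk
  rw [hpts f k hf hk]
  have h7 : (α - e1g r a) * (α - e1g r (star a)) = 0 := by
    linear_combination α * h5 + h6
  rcases mul_eq_zero.1 h7 with h8 | h8
  · have h9 : α = e1g r a := sub_eq_zero.1 h8
    have h10 : β = e1g r (star a) := by linear_combination h5 - h9
    rw [h9, h10]
  · have h9 : α = e1g r (star a) := sub_eq_zero.1 h8
    have h10 : β = e1g r a := by linear_combination h5 - h9
    rw [h9, h10, add_comm (e1g r (star a) ^ f)]

/-- the number of points in the inert case -/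
theorem e1_inert {r : ℕ} (hr : Adm r) (p : ℕ) (hp : p.Prime) (h2 : p % 3 = 2)
    (hpd : ¬ (p : ℤ) ∣ 6 * (-(r : ℤ) ^ 2)) :
    phr r (-(p : Eis)) = 1 ∧ ∃ α β : ℂ, α * β = p ∧ α ^ 2 = -(p : ℂ) ∧ β ^ 2 = -(p : ℂ) ∧
    ∀ (f : ℕ) (k : Type) [Field k] [Finite k], 0 < f → Nat.card k = p ^ f →
      (Nat.card (W (-(r : ℤ) ^ 2) k).toAffine.Point : ℂ) = p ^ f + 1 - (α ^ f + β ^ f) := by
  obtain ⟨α, β, hαβ, hpsi, hpts⟩ := (locDataR hr).good p hp hpd
  have k1 := hpsi 1
  have k2 := hpsi 2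
  rw [e1_cr, Dg_inert _ (e1g_one hr) (e1g_mul hr) p hp h2] at k1 k2
  rw [if_neg (by decide)] at k1
  rw [if_pos (by decide)] at k2
  simp only [Finset.sum_range_succ, Finset.sum_range_zero, pow_zero, pow_one, zero_add, one_mul,
    mul_one, Nat.sub_self, Nat.sub_zero, Nat.add_one_sub_one, Nat.reduceDiv]
    at k1 k2
  have h5 : β = -α := by linear_combination -k1
  have h6 : α ^ 2 = -(p : ℂ) := by
    rw [h5] at hαβ
    linear_combination -hαβ
  have h7 : β ^ 2 = -(p : ℂ) := by rw [h5, neg_sq, h6]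
  have hp0 : (p : ℂ) ≠ 0 := by exact_mod_cast hp.ne_zero
  have h8 : e1g r (-(p : Eis)) = -(p : ℂ) := by
    linear_combination k2 + h6 + h7 + hαβ
  have e4 : conj (emb (-(p : Eis))) = -(p : ℂ) := by
    rw [map_neg, map_natCast, map_neg, Complex.conj_natCast]
  rw [e1g, e4] at h8
  refine ⟨?_, α, β, hαβ, h6, h7, fun f k _ _ hf hk => hpts f k hf hk⟩
  have h9 : (phr r (-(p : Eis)) - 1) * (p : ℂ) = 0 := by linear_combination -h8
  rcases mul_eq_zero.1 h9 with h10 | h10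
  · exact sub_eq_zero.1 h10
  · exact absurd h10 hp0

/-- the local factors of the places above a prime `b` -/
theorem e1_above_factor (k : ℤ) (F : IntermediateField ℚ ℂ) [NumberField F] (p : ℕ)
    (hp : p.Prime) (f g : ℕ) (hf : 0 < f) (B : Set (HeightOneSpectrum (𝓞 F))) (hfin : B.Finite)
    (hcard : B.ncard = g) (hB : ∀ v ∈ B, (p : 𝓞 F) ∈ v.asIdeal) (h3 : ¬ (p : ℤ) ∣ 6 * k)
    (hres : ∀ v ∈ B, Nat.card (𝓞 F ⧸ v.asIdeal) = p ^ f) (α β : ℂ) (hαβ : α * β = p)
    (hpts : ∀ (κ : Type) [Field κ] [Finite κ], Nat.card κ = p ^ f →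
      (Nat.card (W k κ).toAffine.Point : ℂ) = p ^ f + 1 - (α ^ f + β ^ f)) :
    (∏ v ∈ hfin.toFinset, PowerSeries.map (Int.castRingHom ℂ) (loc p (fw k F v))) *
      ((1 - (PowerSeries.C α * PowerSeries.X) ^ f) *
        (1 - (PowerSeries.C β * PowerSeries.X) ^ f)) ^ g = 1 := by
  have hc : hfin.toFinset.card = g := by
    rw [← hcard, Set.ncard_eq_toFinset_card _ hfin]
  rw [← hc, ← Finset.prod_const, ← Finset.prod_mul_distrib]
  apply Finset.prod_eq_one
  intro v hv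
  have hv0 : v ∈ B := by simpa using hv
  exact loc_fw k F v hp hf (int_not_mem v hp (hB v hv0) _ h3) (hres v hv0) α β hαβ
    (fun κ _ _ hk => hpts κ hk)

/-- the local factor at a bad prime -/
theorem e1_loc_bad (g : Eis → ℂ) (h1 : g 1 = 1) (p : ℕ)
    (h : ∀ a : Eis, (p : ℤ) ∣ a.norm → g a = 0) : loc p (Dg g) = 1 := by
  ext k
  rw [coeff_loc, PowerSeries.coeff_one]
  by_cases hk : k = 0
  · rw [hk, pow_zero, Dg_one g h1, if_pos rfl]
  · rw [if_neg hk, Dg_apply]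
    apply Finset.sum_eq_zero
    intro a ha
    rw [mem_primSet] at ha
    exact h a (by rw [ha.1]; push_cast; exact dvd_pow_self _ hk)

theorem e1_phr_zero {r : ℕ} (hr : Adm r) (p : ℕ) (hp : p.Prime) (h2r : (p : ℤ) ∣ 2 * r) (a : Eis)
    (h : (p : ℤ) ∣ a.norm) : phr r a = 0 := by
  have hpi : Prime (p : ℤ) := Nat.prime_iff_prime_int.1 hp
  rw [phr_zero hr a]
  rw [coprime_iff]
  intro h2
  exact hpi.not_isUnit (h2.isUnit_of_dvd' h (by push_cast; exact h2r))

section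
variable {r : ℕ} (hr : Adm r) (S : Finset Eis) (hS : ∀ b ∈ S, NEis b)
    (F : IntermediateField ℚ ℂ) [NumberField F] (hw : w ∈ F) (hF : F ≤ LS S)
    (hbad : ∀ p : ℕ, p.Prime → (p : ℤ) ∣ 6 * (-(r : ℤ) ^ 2) → ∀ v : HeightOneSpectrum (𝓞 F),
      (p : 𝓞 F) ∈ v.asIdeal → fw (-(r : ℤ) ^ 2) F v = 1)
include hr

include hbad in
/-- the bad primes -/
theorem e1_loc_one {p : ℕ} (hp : p.Prime) (hpd : (p : ℤ) ∣ 6 * (-(r : ℤ) ^ 2)) :
    loc p (LW (-(r : ℤ) ^ 2) F) =
      loc p (∏ X ∈ chF S F, (Dg (hx r S X) * Dg (hy r S X))) := by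
  have hpi : Prime (p : ℤ) := Nat.prime_iff_prime_int.1 hp
  rw [loc_LW, loc_prod hp]
  simp only [loc_mul hp]
  have hfin : {v : HeightOneSpectrum (𝓞 F) | (p : 𝓞 F) ∈ v.asIdeal}.Finite := by
    have h30 : Ideal.span {(p : 𝓞 F)} ≠ 0 := by
      rw [Ne, Ideal.zero_eq_bot, Ideal.span_singleton_eq_bot]
      exact_mod_cast hp.ne_zero
    refine (Ideal.finite_factors h30).subset ?_
    intro v hv
    exact Ideal.dvd_span_singleton.2 hv
  rw [BS3.loc_LFunction (-(r : ℤ) ^ 2) F hp hfin.toFinset (fun v hv => by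
    rw [Set.Finite.mem_toFinset]; exact hv), map_prod, Finset.prod_eq_one,
    Finset.prod_eq_one]
  · intro X _
    by_cases h3 : p = 3
    · subst h3
      rw [loc_Dg_three _ (e1_hx_one hr S X), loc_Dg_three _ (e1_hy_one hr S X), mul_one]
    · have h1 : (p : ℤ) ∣ 2 * r := by
        have h2 : (p : ℤ) ∣ 3 * (2 * (r * r)) := by
          have : (6 * (-(r : ℤ) ^ 2)) = -(3 * (2 * (r * r))) := by ring
          rw [this] at hpd
          exact (dvd_neg).1 hpd
        rcases hpi.dvd_or_dvd h2 with h4 | h4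
        · exact absurd ((Nat.prime_dvd_prime_iff_eq hp Nat.prime_three).1 (by exact_mod_cast h4)) h3
        · rcases hpi.dvd_or_dvd h4 with h5 | h5
          · exact h5.mul_right _
          · rcases hpi.dvd_or_dvd h5 with h6 | h6 <;> exact h6.mul_left _
      rw [e1_loc_bad _ (e1_hx_one hr S X) p, e1_loc_bad _ (e1_hy_one hr S X) p, mul_one]
      · intro a ha
        rw [hy, e1_phr_zero hr p hp h1 (star a) (by rw [QuadraticAlgebra.norm_star]; exact ha),
          zero_mul, zero_mul]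
      · intro a ha
        rw [hx, e1_phr_zero hr p hp h1 a ha, zero_mul, zero_mul]
  · intro v hv
    rw [hbad p hp hpd v (by simpa using hv), loc_one hp, map_one]

include hS hw hF in
/-- the split primes -/
theorem e1_loc_split {p : ℕ} (hp : p.Prime) (h3 : p % 3 = 1)
    (hpd : ¬ (p : ℤ) ∣ 6 * (-(r : ℤ) ^ 2)) :
    loc p (LW (-(r : ℤ) ^ 2) F) =
      loc p (∏ X ∈ chF S F, (Dg (hx r S X) * Dg (hy r S X))) := by
  rw [loc_LW, loc_prod hp]
  simp only [loc_mul hp]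
  obtain ⟨a, ha, hn⟩ := exists_primary_prime p hp h3
  have hns : (star a).norm = p := by rw [QuadraticAlgebra.norm_star]; exact hn
  have hpa := a3_prime_of_norm p hp a hn
  have hps := a3_prime_of_norm p hp _ hns
  obtain ⟨f₁, g₁, hf₁, hfin₁, hc₁, hr₁, hX₁⟩ := RF.split_LS S hS a ha hpa F hw hF
  obtain ⟨f₂, g₂, hf₂, hfin₂, hc₂, hr₂, hX₂⟩ := RF.split_LS S hS (star a) ha.star hps F hw hF
  have hdis := above_disjoint F hw p hp h3 a ha hn
  obtain ⟨hαβ, hpts⟩ := e1_split hr p hp h3 hpd a ha hn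
  set α : ℂ := phr r a * conj (emb a) with hα
  set β : ℂ := phr r (star a) * emb a with hβ
  have e1 := e1_above_factor (-(r : ℤ) ^ 2) F p hp f₁ g₁ hf₁ (above F a) hfin₁ hc₁
    (fun v hv => (mem_above_split F hw p a hn v).2 (Or.inl hv)) hpd
    (fun v hv => by rw [hr₁ v hv, hn]; rfl) α β hαβ (fun κ _ _ hk => hpts f₁ κ hf₁ hk)
  have e2 := e1_above_factor (-(r : ℤ) ^ 2) F p hp f₂ g₂ hf₂ (above F (star a)) hfin₂ hc₂
    (fun v hv => (mem_above_split F hw p a hn v).2 (Or.inr hv)) hpd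
    (fun v hv => by rw [hr₂ v hv, hns]; rfl) α β hαβ (fun κ _ _ hk => hpts f₂ κ hf₂ hk)
  have hdf : Disjoint hfin₁.toFinset hfin₂.toFinset := by
    rw [Finset.disjoint_left]
    intro v h1 h2
    rw [Set.Finite.mem_toFinset] at h1 h2
    exact Set.disjoint_left.1 hdis h1 h2
  rw [BS3.loc_LFunction (-(r : ℤ) ^ 2) F hp (hfin₁.toFinset ∪ hfin₂.toFinset) (fun v hv => by
    rw [Finset.mem_union, Set.Finite.mem_toFinset, Set.Finite.mem_toFinset]
    exact (mem_above_split F hw p a hn v).1 hv), map_prod, Finset.prod_union hdf]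
  have e3 : (∏ X ∈ chF S F, (loc p (Dg (hx r S X)) * loc p (Dg (hy r S X)))) *
      ((((1 - (PowerSeries.C α * PowerSeries.X) ^ f₁) *
        (1 - (PowerSeries.C β * PowerSeries.X) ^ f₁)) ^ g₁) *
      ((1 - (PowerSeries.C α * PowerSeries.X) ^ f₂) *
        (1 - (PowerSeries.C β * PowerSeries.X) ^ f₂)) ^ g₂) = 1 := by
    rw [mul_pow (1 - (PowerSeries.C α * PowerSeries.X) ^ f₁),
      mul_pow (1 - (PowerSeries.C α * PowerSeries.X) ^ f₂),
      ← prod_subst (chF S F) (fun X => Xt S X a) f₁ g₁ hX₁,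
      ← prod_subst (chF S F) (fun X => Xt S X a) f₁ g₁ hX₁,
      ← prod_subst (chF S F) (fun X => Xt S X (star a)) f₂ g₂ hX₂,
      ← prod_subst (chF S F) (fun X => Xt S X (star a)) f₂ g₂ hX₂, ← Finset.prod_mul_distrib,
      ← Finset.prod_mul_distrib, ← Finset.prod_mul_distrib, ← Finset.prod_mul_distrib]
    apply Finset.prod_eq_one
    intro X _
    have t1 := loc_Dg_split (hx r S X) (e1_hx_one hr S X) (e1_hx_mul hr S X) p hp h3 a ha hn
    have t2 := loc_Dg_split (hy r S X) (e1_hy_one hr S X) (e1_hy_mul hr S X) p hp h3 a ha hn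
    have u1 : hx r S X a = Xt S X a * α := by rw [hx, hα]; ring
    have u2 : hx r S X (star a) = Xt S X (star a) * β := by
      rw [hx, hβ, CM27.emb_star, Complex.conj_conj]; ring
    have u3 : hy r S X a = Xt S X a * β := by rw [hy, hβ]; ring
    have u4 : hy r S X (star a) = Xt S X (star a) * α := by
      rw [hy, hα, CM27.emb_star, star_star]; ring
    rw [u1, u2] at t1
    rw [u3, u4] at t2
    simp only [map_mul] at t1 t2
    calc _ = (loc p (Dg (hx r S X)) * ((1 - PowerSeries.C (Xt S X a) * PowerSeries.C α *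
          PowerSeries.X) * (1 - PowerSeries.C (Xt S X (star a)) * PowerSeries.C β *
          PowerSeries.X))) * (loc p (Dg (hy r S X)) * ((1 - PowerSeries.C (Xt S X a) *
          PowerSeries.C β * PowerSeries.X) * (1 - PowerSeries.C (Xt S X (star a)) *
          PowerSeries.C α * PowerSeries.X))) := by ring
      _ = 1 := by rw [t1, t2, one_mul]
  set A₁ := ∏ v ∈ hfin₁.toFinset, PowerSeries.map (Int.castRingHom ℂ)
    (loc p (fw (-(r : ℤ) ^ 2) F v))
  set A₂ := ∏ v ∈ hfin₂.toFinset, PowerSeries.map (Int.castRingHom ℂ)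
    (loc p (fw (-(r : ℤ) ^ 2) F v))
  set D₁ := ((1 - (PowerSeries.C α * PowerSeries.X) ^ f₁) *
        (1 - (PowerSeries.C β * PowerSeries.X) ^ f₁)) ^ g₁
  set D₂ := ((1 - (PowerSeries.C α * PowerSeries.X) ^ f₂) *
        (1 - (PowerSeries.C β * PowerSeries.X) ^ f₂)) ^ g₂
  calc A₁ * A₂ = A₁ * A₂ * ((∏ X ∈ chF S F, (loc p (Dg (hx r S X)) * loc p (Dg (hy r S X)))) *
        (D₁ * D₂)) := by rw [e3, mul_one]
    _ = (A₁ * D₁) * (A₂ * D₂) *
        (∏ X ∈ chF S F, (loc p (Dg (hx r S X)) * loc p (Dg (hy r S X)))) := by ring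
    _ = _ := by rw [e1, e2, one_mul, one_mul]

include hS hw hF in
/-- the inert primes -/
theorem e1_loc_inert {p : ℕ} (hp : p.Prime) (h3 : p % 3 = 2)
    (hpd : ¬ (p : ℤ) ∣ 6 * (-(r : ℤ) ^ 2)) :
    loc p (LW (-(r : ℤ) ^ 2) F) =
      loc p (∏ X ∈ chF S F, (Dg (hx r S X) * Dg (hy r S X))) := by
  rw [loc_LW, loc_prod hp]
  simp only [loc_mul hp]
  have hprim := primary_neg_cast h3
  have hprime := (a3_prime_inert p hp h3).neg
  obtain ⟨f, g, hf, hfin, hc, hr', hX⟩ := RF.split_LS S hS (-(p : Eis)) hprim hprime F hw hF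
  have hnorm : (-(p : Eis)).norm.natAbs = p ^ 2 := by
    have h1 : (-(p : Eis)).norm = (p : ℤ) ^ 2 := by
      rw [norm_eq]
      simp
    rw [h1, Int.natAbs_pow, Int.natAbs_natCast]
  obtain ⟨hphi, α, β, hαβ, h6, h7, hpts⟩ := e1_inert hr p hp h3 hpd
  have e1 := e1_above_factor (-(r : ℤ) ^ 2) F p hp (2 * f) g (by omega) (above F (-(p : Eis)))
    hfin hc (fun v hv => (mem_above_neg F hw p v).1 hv) hpd
    (fun v hv => by rw [hr' v hv, hnorm, pow_mul]) α β hαβ
    (fun κ _ _ hk => hpts (2 * f) κ (by omega) hk)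
  rw [pow_mul, pow_mul, mul_pow (PowerSeries.C α), mul_pow (PowerSeries.C β), ← map_pow,
    ← map_pow, h6, h7] at e1
  rw [BS3.loc_LFunction (-(r : ℤ) ^ 2) F hp hfin.toFinset (fun v hv => by
    rw [Set.Finite.mem_toFinset]
    exact (mem_above_neg F hw p v).2 hv), map_prod]
  have e3 : (∏ X ∈ chF S F, (loc p (Dg (hx r S X)) * loc p (Dg (hy r S X)))) *
      ((1 - (PowerSeries.C (-(p : ℂ)) * PowerSeries.X ^ 2) ^ f) *
        (1 - (PowerSeries.C (-(p : ℂ)) * PowerSeries.X ^ 2) ^ f)) ^ g = 1 := by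
    rw [mul_pow (1 - (PowerSeries.C (-(p : ℂ)) * PowerSeries.X ^ 2) ^ f),
      ← prod_subst (chF S F) (fun X => Xt S X (-(p : Eis))) f g hX, ← Finset.prod_mul_distrib,
      ← Finset.prod_mul_distrib]
    apply Finset.prod_eq_one
    intro X _
    have t1 := loc_Dg_inert (hx r S X) (e1_hx_one hr S X) (e1_hx_mul hr S X) p hp h3
    have t2 := loc_Dg_inert (hy r S X) (e1_hy_one hr S X) (e1_hy_mul hr S X) p hp h3
    have e4 : emb (-(p : Eis)) = -(p : ℂ) := by rw [map_neg, map_natCast]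
    have e5 : conj (emb (-(p : Eis))) = -(p : ℂ) := by
      rw [e4, map_neg, Complex.conj_natCast]
    have e6 : star (-(p : Eis)) = -(p : Eis) := by rw [star_neg, star_natCast]
    rw [hx, e5, hphi, one_mul, map_mul] at t1
    rw [hy, e4, e6, hphi, one_mul, map_mul] at t2
    calc _ = (loc p (Dg (hx r S X)) * (1 - PowerSeries.C (Xt S X (-(p : Eis))) *
          PowerSeries.C (-(p : ℂ)) * PowerSeries.X ^ 2)) * (loc p (Dg (hy r S X)) *
          (1 - PowerSeries.C (Xt S X (-(p : Eis))) *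
          PowerSeries.C (-(p : ℂ)) * PowerSeries.X ^ 2)) := by ring
      _ = 1 := by rw [t1, t2, one_mul]
  set A₁ := ∏ v ∈ hfin.toFinset, PowerSeries.map (Int.castRingHom ℂ)
    (loc p (fw (-(r : ℤ) ^ 2) F v))
  set D₁ := ((1 - (PowerSeries.C (-(p : ℂ)) * PowerSeries.X ^ 2) ^ f) *
        (1 - (PowerSeries.C (-(p : ℂ)) * PowerSeries.X ^ 2) ^ f)) ^ g
  calc A₁ = A₁ * ((∏ X ∈ chF S F, (loc p (Dg (hx r S X)) * loc p (Dg (hy r S X)))) * D₁) := by
        rw [e3, mul_one]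
    _ = (A₁ * D₁) * (∏ X ∈ chF S F, (loc p (Dg (hx r S X)) * loc p (Dg (hy r S X)))) := by ring
    _ = _ := by rw [e1, one_mul]

end

/-- Adapt `loc_LF`, `LF_eq` of MP_9ab903_nt/CF/L2.lean (complete template) with `LC F`, `fv F v`, `gx`, `gy` replaced by
`LW k F`, `fw k F v`, `hx r`, `hy r` (`k = - r²`; B3/P6.lean has `loc_LW`, `loc_LFunction`, `loc_fw`,
`isMultiplicative_LW`, `int_not_mem`). Cases for the prime `p`:
(1) `p ∣ 6 k`: the left side is `1` by `hbad`; right side: `phr r a = 0` for `a` not prime to `2 r` (`phr_zero`), and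
`loc_Dg_three` for `p = 3`.
(2) `p ≡ 1 mod 3`, `p = a ā`: `(locDataR hr).good p` gives `α β = p`, `α + β = cr r p` (`j = 1`) where
`cr r p = cf (phr r) p = phr r a ā + conj(..)` (sum over `primSet p = {a, ā}`, `phr_star`) so
`{α, β} = {phr r a ā, conj(phr r a) a}` as in `pts_split`. Eigenvalue at `a`: `hx r S X a = X(a) α`,
`hy r S X a = X(a) ᾱ`, `hx r S X (star a) = X(ā) ᾱ`, `hy r S X (star a) = X(ā) α` with `α = phr r a * conj (emb a)`.
(3) `p ≡ 2 mod 3`: `cr r p = 0`, `α² = β² = - p`; `phr r (-p) = 1` (`z8_ch4_int`, `kapn_int`). -/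
theorem LW_prod {r : ℕ} (hr : Adm r) (S : Finset Eis) (hS : ∀ b ∈ S, NEis b)
    (F : IntermediateField ℚ ℂ) [NumberField F] (hw : w ∈ F) (hF : F ≤ LS S)
    (hbad : ∀ p : ℕ, p.Prime → (p : ℤ) ∣ 6 * (-(r : ℤ) ^ 2) → ∀ v : HeightOneSpectrum (𝓞 F),
      (p : 𝓞 F) ∈ v.asIdeal → fw (-(r : ℤ) ^ 2) F v = 1) :
    LW (-(r : ℤ) ^ 2) F = ∏ X ∈ chF S F, (Dg (hx r S X) * Dg (hy r S X)) := by
  rw [ArithmeticFunction.IsMultiplicative.eq_iff_eq_on_prime_powers _
    (isMultiplicative_LW (-(r : ℤ) ^ 2) F) _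
    (isMultiplicative_finsetProd _ _ fun X _ => (isMultiplicative_Dg _ (e1_hx_one hr S X)
        (e1_hx_mul hr S X)).mul (isMultiplicative_Dg _ (e1_hy_one hr S X) (e1_hy_mul hr S X)))]
  intro p i hp
  rw [← coeff_loc, ← coeff_loc]
  congr 1
  by_cases hpd : (p : ℤ) ∣ 6 * (-(r : ℤ) ^ 2)
  · exact e1_loc_one hr S F hbad hp hpd
  · have h3 : p % 3 = 0 ∨ p % 3 = 1 ∨ p % 3 = 2 := by omega
    rcases h3 with h3 | h3 | h3
    · have hp3 : p = 3 := ((Nat.prime_dvd_prime_iff_eq Nat.prime_three hp).1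
        (Nat.dvd_of_mod_eq_zero h3)).symm
      subst hp3
      exact absurd ⟨-2 * (r : ℤ) ^ 2, by push_cast; ring⟩ hpd
    · exact e1_loc_split hr S hS F hw hF hp h3 hpd
    · exact e1_loc_inert hr S hS F hw hF hp h3 hpd

end RF
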