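import Pool.Agent.MP_ae0bd0_nt.RF.Defs
import Pool.Agent.MP_9ab903_nt.AN.A4
import Pool.Agent.MP_ae0bd0_nt.B3.X3
import Pool.Agent.MP_ae0bd0_nt.B3.V1

set_option autoImplicit false

open CM27 CMT CF BS3

namespace RF

/-! ## [RF-I2] reduction at `3` is injective on the torsion prime to `3` (file I2.lean) -/

/-- `(x(z))³ = X(z)` (`XX z = -℘³/g₃`, `xw = ℘ / OmC²`, `OmC_pow : OmC^6 = -g₃`), so
`SS z = (4 XX z + 1)/(3 √-3) = yw z ^ 2 / (3 √-3)` (`weq`). -/
theorem XX_eq (z : ℂ) : XX z = xw z ^ 3 := by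
  have h : (OmC ^ 2) ^ 3 = - L0.g₃ := by rw [← pow_mul, OmC_pow]
  rw [BS3.XX, xw, div_pow, h, div_neg, neg_div]

theorem SS_eq (z : ℂ) (hz : z ∉ Set.range emb) : SS z = yw z ^ 2 / (3 * emb th) := by
  rw [SS, XX_eq, ← weq z hz]

section core

variable {Γ : Type} [LinearOrderedCommGroupWithZero Γ] (w : Valuation ℂ Γ)

theorem i2_core {s X Y X' Y' : ℂ} (hs : w s < 1) (h3 : w 3 < 1)
    (e : Y ^ 2 = X ^ 3 + s * X ^ 2 + X) (e' : Y' ^ 2 = X' ^ 3 + s * X' ^ 2 + X')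
    (hX : w X ≤ 1) (hX' : w X' ≤ 1) (hd : w (X - X') < 1) (hy : w (Y - Y') < 1) (hne : X ≠ X') :
    1 < w (((Y + Y') / (X - X')) ^ 2 - s - X - X') := by
  have hB : w (X ^ 2 + X * X' + X' ^ 2 + s * (X + X') + 1) = 1 := by
    have h1 : X ^ 2 + X * X' + X' ^ 2 + s * (X + X') + 1 =
        1 + ((3 * (X * X') + (X - X') * (X - X')) + s * (X + X')) := by ring
    rw [h1, Valuation.map_add_eq_of_lt_left, map_one]
    rw [map_one]
    refine (w.map_add _ _).trans_lt (max_lt ((w.map_add _ _).trans_lt (max_lt ?_ ?_)) ?_)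
    · rw [map_mul]
      refine mul_lt_one_of_lt_of_le h3 ?_
      rw [map_mul]
      exact mul_le_one' hX hX'
    · rw [map_mul]
      exact mul_lt_one_of_lt_of_le hd hd.le
    · rw [map_mul]
      exact mul_lt_one_of_lt_of_le hs ((w.map_add _ _).trans (max_le hX hX'))
  have hXX : X - X' ≠ 0 := sub_ne_zero.2 hne
  have hB0 : X ^ 2 + X * X' + X' ^ 2 + s * (X + X') + 1 ≠ 0 := by
    intro h
    rw [h, map_zero] at hB
    exact zero_ne_one hB
  have hprod : (Y - Y') * (Y + Y') =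
      (X - X') * (X ^ 2 + X * X' + X' ^ 2 + s * (X + X') + 1) := by
    linear_combination e - e'
  have hY0 : Y - Y' ≠ 0 := by
    intro h
    rw [h, zero_mul] at hprod
    exact mul_ne_zero hXX hB0 hprod.symm
  have hL : (Y + Y') / (X - X') = (X ^ 2 + X * X' + X' ^ 2 + s * (X + X') + 1) / (Y - Y') := by
    rw [div_eq_div_iff hXX hY0]
    linear_combination hprod
  have hvL : 1 < w ((Y + Y') / (X - X')) := by
    rw [hL, map_div₀, hB, one_div]
    exact (one_lt_inv₀ (zero_lt_iff.2 ((Valuation.ne_zero_iff w).2 hY0))).2 hy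
  have h5 : 1 < w (((Y + Y') / (X - X')) ^ 2) := by
    rw [map_pow]
    exact one_lt_pow₀ hvL two_ne_zero
  have h6 : ((Y + Y') / (X - X')) ^ 2 - s - X - X' =
      ((Y + Y') / (X - X')) ^ 2 + -(s + (X + X')) := by ring
  rw [h6, Valuation.map_add_eq_of_lt_left]
  · exact h5
  · rw [Valuation.map_neg]
    exact ((w.map_add _ _).trans (max_le hs.le ((w.map_add _ _).trans
      (max_le hX hX')))).trans_lt h5

theorem i2_dup {s X Y T : ℂ} (hs : w s < 1) (h3 : w 3 < 1) (h2 : w 2 = 1)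
    (hX : w X ≤ 1) (hY : w Y < 1)
    (hT : T * (4 * Y ^ 2) = (3 * X ^ 2 + 2 * s * X + 1) ^ 2 - (s + 2 * X) * (4 * Y ^ 2)) :
    1 < w T := by
  have h4 : w 4 = 1 := by
    have : (4 : ℂ) = 2 * 2 := by norm_num
    rw [this, map_mul, h2, mul_one]
  have hN : w (3 * X ^ 2 + 2 * s * X + 1) = 1 := by
    have h1 : 3 * X ^ 2 + 2 * s * X + 1 = 1 + (3 * X ^ 2 + 2 * s * X) := by ring
    rw [h1, Valuation.map_add_eq_of_lt_left, map_one]
    rw [map_one]
    refine (w.map_add _ _).trans_lt (max_lt ?_ ?_)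
    · rw [map_mul, map_pow]
      exact mul_lt_one_of_lt_of_le h3 (pow_le_one₀ zero_le hX)
    · rw [map_mul, map_mul, h2, one_mul]
      exact mul_lt_one_of_lt_of_le hs hX
  have hYY : w (4 * Y ^ 2) < 1 := by
    rw [map_mul, h4, one_mul, map_pow]
    exact pow_lt_one₀ zero_le hY two_ne_zero
  have hR : w ((3 * X ^ 2 + 2 * s * X + 1) ^ 2 - (s + 2 * X) * (4 * Y ^ 2)) = 1 := by
    rw [sub_eq_add_neg, Valuation.map_add_eq_of_lt_left, map_pow, hN, one_pow]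
    rw [Valuation.map_neg, map_pow, hN, one_pow, map_mul, mul_comm]
    refine mul_lt_one_of_lt_of_le hYY ((w.map_add _ _).trans (max_le hs.le ?_))
    rw [map_mul, h2, one_mul]
    exact hX
  have h5 := congrArg w hT
  rw [hR, map_mul] at h5
  by_contra hc
  push Not at hc
  have h6 : w T * w (4 * Y ^ 2) < 1 := by
    rw [mul_comm]
    exact mul_lt_one_of_lt_of_le hYY hc
  rw [h5] at h6
  exact lt_irrefl _ h6

theorem i2_int {s X Y : ℂ} (hs : w s < 1) (e : Y ^ 2 = X ^ 3 + s * X ^ 2 + X) (hY : w Y ≤ 1) :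
    w X ≤ 1 := by
  by_contra hc
  push Not at hc
  have h1 : w (X ^ 3 + s * X ^ 2 + X) = w X ^ 3 := by
    have h2 : X ^ 3 + s * X ^ 2 + X = X ^ 3 + (s * X ^ 2 + X) := by ring
    rw [h2, Valuation.map_add_eq_of_lt_left, map_pow]
    rw [map_pow]
    refine (w.map_add _ _).trans_lt (max_lt ?_ ?_)
    · rw [map_mul, map_pow]
      calc w s * w X ^ 2 ≤ 1 * w X ^ 2 := mul_le_mul_left hs.le _
        _ = w X ^ 2 := one_mul _
        _ < w X ^ 3 := pow_lt_pow_right₀ hc (by norm_num)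
    · calc w X = w X ^ 1 := (pow_one _).symm
        _ < w X ^ 3 := pow_lt_pow_right₀ hc (by norm_num)
  have h3 := congrArg w e
  rw [h1, map_pow] at h3
  have h4 : w Y ^ 2 ≤ 1 := pow_le_one₀ zero_le hY
  rw [h3] at h4
  exact absurd (one_lt_pow₀ hc (by norm_num : (3 : ℕ) ≠ 0)) (not_lt.2 h4)

end core

theorem i2_mem_sub {z v : ℂ} (hz : z ∈ Set.range emb) (hv : v ∈ Set.range emb) :
    z - v ∈ Set.range emb := by
  obtain ⟨a, rfl⟩ := hz
  obtain ⟨b, rfl⟩ := hv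
  exact ⟨a - b, map_sub _ _ _⟩

/-- The curve has good (supersingular) reduction at `3` over `ℂ`: choose `ρ, l, s ∈ ℂ` with `4 ρ³ = -1`, `s² = 3`,
`l² = s ρ` and put `X = (xw - ρ) / l²`, `Y = yw / (2 l³)`. From `yw² = 4 xw³ + 1` (`weq`):
`Y² = X³ + s X² + X`, and `SS = yw²/(3 √-3) = - (s / √-3) Y²` (`l⁶ = s³ ρ³ = -3 s / 4`), `|s / √-3| = 1`. So
by `SS_val` (B3/X3.lean) `|Y| ≤ 1` and `|X| ≤ 1` (monic equation) for all torsion points of order prime to `3`.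
`|l²|² = |3| = |√-3|²`, `|l²| = |√-3|`, `|l³|² = |√-3|³`. So the hypotheses say `|X(z) - X(v)| < 1`,
`|Y(z) - Y(v)| < 1`. Assume `t = z - v` is not a lattice point. Then `|X(t)| ≤ 1`.
(1) If `X(z) ≠ X(v)` the addition theorem (`add_x` in AN/A3.lean for `z` and `- v`, `yw_neg`) reads
`X(z - v) = L² - s - X(z) - X(v)`, `L = (Y(z) + Y(v))/(X(z) - X(v))`, and
`(Y(z) - Y(v)) (Y(z) + Y(v)) = (X(z) - X(v)) B`, `B = X(z)² + X(z) X(v) + X(v)² + s (X(z) + X(v)) + 1`, `|B| = 1`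
(`B ≡ 3 X(z)² + 1 ≡ 1`). So `Y(z) ≠ Y(v)` and `L = B / (Y(z) - Y(v))`, `|L| > 1`, `|X(t)| = |L|² > 1`, a
contradiction.
(2) If `X(z) = X(v)` then `xw z = xw v`, `yw z = ± yw v`, and (`xw_eq_iff` in AN/A4) `z + v` is a lattice point
(as `z - v` is not); `Y(v) = - Y(z)`, `|2 Y(z)| < 1`, so `|Y(z)| < 1`; `t = z - v = 2 z` up to the lattice and the
duplication formula has `L = (3 X² + 2 s X + 1)/(2 Y)`, `|L| > 1` (`Y ≠ 0` as `2 z` is not in the lattice:
`yw_eq_zero_iff`), again `|X(t)| > 1`. (`xw_two` in AN/A4: `xw(2z) yw(z)² = xw (xw³ - 2)`.) -/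
theorem inj3 (A : ValuationSubring ℂ) (h3 : A.valuation 3 < 1) (N : ℕ) (hN : ¬ 3 ∣ N) (z v : ℂ)
    (hz : (N : ℂ) * z ∈ Set.range emb) (hv : (N : ℂ) * v ∈ Set.range emb)
    (hz0 : z ∉ Set.range emb) (hv0 : v ∉ Set.range emb)
    (hx : A.valuation (xw z - xw v) < A.valuation (emb th))
    (hy : A.valuation (yw z - yw v) ^ 2 < A.valuation (emb th) ^ 3) :
    z - v ∈ Set.range emb := by
  by_contra ht0
  obtain ⟨ρ, hρ⟩ := IsAlgClosed.exists_pow_nat_eq (-1 / 4 : ℂ) (n := 3) (by norm_num)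
  obtain ⟨s, hs2⟩ := IsAlgClosed.exists_pow_nat_eq (3 : ℂ) (n := 2) (by norm_num)
  obtain ⟨l, hl⟩ := IsAlgClosed.exists_pow_nat_eq (s * ρ) (n := 2) (by norm_num)
  have hρ4 : 4 * ρ ^ 3 = -1 := by rw [hρ]; norm_num
  have hρ0 : ρ ≠ 0 := by
    rintro rfl
    norm_num at hρ4
  have hs0 : s ≠ 0 := by
    rintro rfl
    norm_num at hs2
  have hl0 : l ≠ 0 := by
    rintro rfl
    have : s * ρ = 0 := by rw [← hl]; norm_num
    exact mul_ne_zero hs0 hρ0 this
  set w := A.valuation with hw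
  -- valuations of the constants
  have hth : w (emb th) < 1 := x3_th_lt A h3
  have hth2 : w (emb th) ^ 2 = w 3 := val_th A
  have w4 : w 4 = 1 := by
    have : (4 : ℂ) = 1 + 3 := by norm_num
    rw [this, Valuation.map_add_eq_of_lt_left, map_one]
    rw [map_one]; exact h3
  have w2 : w 2 = 1 := by
    have h5 : w 2 ^ 2 = 1 ^ 2 := by
      rw [← map_pow, one_pow]
      have : (2 : ℂ) ^ 2 = 4 := by norm_num
      rw [this, w4]
    exact (pow_left_inj₀ zero_le zero_le two_ne_zero).1 h5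
  have wρ : w ρ = 1 := by
    have h5 : w ρ ^ 3 = 1 ^ 3 := by
      have h6 := congrArg w hρ4
      rw [map_mul, w4, one_mul, map_pow, Valuation.map_neg, map_one] at h6
      rw [h6, one_pow]
    exact (pow_left_inj₀ zero_le zero_le three_ne_zero).1 h5
  have ws : w s = w (emb th) := by
    apply (pow_left_inj₀ zero_le zero_le two_ne_zero).1
    rw [hth2, ← map_pow, hs2]
  have ws1 : w s < 1 := by rw [ws]; exact hth
  have wl2 : w (l ^ 2) = w (emb th) := by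
    rw [hl, map_mul, wρ, mul_one, ws]
  have wl3 : w (l ^ 3) ^ 2 = w (emb th) ^ 3 := by
    rw [← wl2, ← map_pow, ← map_pow, ← pow_mul, ← pow_mul]
  have w2l3 : w (2 * l ^ 3) = w (l ^ 3) := by rw [map_mul, w2, one_mul]
  have wl2pos : 0 < w (l ^ 2) := zero_lt_iff.2 ((Valuation.ne_zero_iff w).2 (pow_ne_zero 2 hl0))
  have wl3pos : 0 < w (l ^ 3) := zero_lt_iff.2 ((Valuation.ne_zero_iff w).2 (pow_ne_zero 3 hl0))
  -- the equation of the good model
  have heq : ∀ u : ℂ, u ∉ Set.range emb → (yw u / (2 * l ^ 3)) ^ 2 =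
      ((xw u - ρ) / l ^ 2) ^ 3 + s * ((xw u - ρ) / l ^ 2) ^ 2 + (xw u - ρ) / l ^ 2 := by
    intro u hu
    have h1 := weq u hu
    have h6 : l ^ 6 = s ^ 3 * ρ ^ 3 := by
      have : l ^ 6 = (l ^ 2) ^ 3 := by ring
      rw [this, hl]; ring
    have hl6 : l ^ 6 ≠ 0 := pow_ne_zero 6 hl0
    have e1 : (yw u / (2 * l ^ 3)) ^ 2 = yw u ^ 2 / 4 / l ^ 6 := by field_simp; ring
    have e2 : ((xw u - ρ) / l ^ 2) ^ 3 + s * ((xw u - ρ) / l ^ 2) ^ 2 + (xw u - ρ) / l ^ 2 =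
        ((xw u - ρ) ^ 3 + s * l ^ 2 * (xw u - ρ) ^ 2 + (l ^ 2) ^ 2 * (xw u - ρ)) / l ^ 6 := by
      field_simp
    rw [e1, e2, h1, hl]
    congr 1
    linear_combination (-(xw u - ρ) ^ 2 * ρ - ρ ^ 2 * (xw u - ρ)) * hs2 + (1 / 4 : ℂ) * hρ4
  -- integrality of `Y` at torsion points
  have hYint : ∀ u : ℂ, (N : ℂ) * u ∈ Set.range emb → u ∉ Set.range emb →
      w (yw u / (2 * l ^ 3)) ≤ 1 := by
    intro u hu hu0
    have h1 := SS_val A h3 N hN u hu hu0
    rw [SS_eq u hu0, map_div₀, map_mul, ← hth2, map_pow] at h1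
    have h2 : w (emb th) ^ 2 * w (emb th) = w (l ^ 3) ^ 2 := by
      rw [wl3]
      exact (pow_succ _ 2).symm
    rw [h2] at h1
    have h4 : w (yw u) ^ 2 ≤ w (l ^ 3) ^ 2 := by
      rwa [div_le_one₀ (pow_pos wl3pos 2)] at h1
    rw [map_div₀, w2l3, div_le_one₀ wl3pos]
    exact (pow_le_pow_iff_left₀ zero_le zero_le two_ne_zero).1 h4
  have hXint : ∀ u : ℂ, (N : ℂ) * u ∈ Set.range emb → u ∉ Set.range emb →
      w ((xw u - ρ) / l ^ 2) ≤ 1 := fun u hu hu0 => i2_int w ws1 (heq u hu0) (hYint u hu hu0)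
  have hXd : w ((xw z - ρ) / l ^ 2 - (xw v - ρ) / l ^ 2) < 1 := by
    have : (xw z - ρ) / l ^ 2 - (xw v - ρ) / l ^ 2 = (xw z - xw v) / l ^ 2 := by ring
    rw [this, map_div₀, div_lt_one₀ wl2pos, wl2]
    exact hx
  have hYd : w (yw z / (2 * l ^ 3) - yw v / (2 * l ^ 3)) < 1 := by
    rw [← sub_div, map_div₀, w2l3, div_lt_one₀ wl3pos]
    rw [← wl3] at hy
    exact (pow_lt_pow_iff_left₀ zero_le zero_le two_ne_zero).1 hy
  have htN : (N : ℂ) * (z - v) ∈ Set.range emb := by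
    rw [mul_sub]
    exact i2_mem_sub hz hv
  have hXt := hXint (z - v) htN ht0
  have hl2 : l ^ 2 ≠ 0 := pow_ne_zero 2 hl0
  by_cases hxx : xw z = xw v
  · rcases (xw_eq_iff z v hz0 hv0).1 hxx with h5 | ⟨a, ha⟩
    · exact ht0 h5
    · have hv' : v = -z + emb a := by rw [ha]; ring
      have hyv : yw v = - yw z := by rw [hv', yw_add, yw_neg]
      have ht' : 2 * z = (z - v) + emb a := by rw [hv']; ring
      have h2z : 2 * z ∉ Set.range emb := by
        rw [ht', a4_mem_add]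
        exact ht0
      have hy0 : yw z ≠ 0 := fun h => h2z ((yw_eq_zero_iff z hz0).1 h)
      have hxt : xw (z - v) = xw (2 * z) := by rw [ht', xw_add]
      have hY : w (yw z / (2 * l ^ 3)) < 1 := by
        have h6 : yw z / (2 * l ^ 3) - yw v / (2 * l ^ 3) = 2 * (yw z / (2 * l ^ 3)) := by
          rw [hyv]; ring
        rw [h6, map_mul, w2, one_mul] at hYd
        exact hYd
      have hY0 : yw z / (2 * l ^ 3) ≠ 0 :=
        div_ne_zero hy0 (mul_ne_zero two_ne_zero (pow_ne_zero 3 hl0))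
      have hdup := xw_two z h2z
      have key : (xw (z - v) - ρ) / l ^ 2 * (4 * (yw z / (2 * l ^ 3)) ^ 2) =
          (3 * ((xw z - ρ) / l ^ 2) ^ 2 + 2 * s * ((xw z - ρ) / l ^ 2) + 1) ^ 2 -
            (s + 2 * ((xw z - ρ) / l ^ 2)) * (4 * (yw z / (2 * l ^ 3)) ^ 2) := by
        rw [hxt]
        have hq := heq z hz0
        set X := (xw z - ρ) / l ^ 2 with hXdef
        have hxX : xw z = ρ + l ^ 2 * X := by rw [hXdef]; field_simp; ring
        rw [hq]
        have hl4 : l ^ 2 * l ^ 2 = 3 * ρ ^ 2 := by rw [hl]; linear_combination ρ ^ 2 * hs2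
        have h7 : 4 * xw z ^ 3 + 1 = 4 * l ^ 6 * (X ^ 3 + s * X ^ 2 + X) := by
          have h8 : (yw z / (2 * l ^ 3)) ^ 2 = yw z ^ 2 / (4 * l ^ 6) := by field_simp; ring
          rw [h8, weq z hz0, div_eq_iff (mul_ne_zero (by norm_num) (pow_ne_zero 6 hl0))] at hq
          rw [hq]; ring
        have h9 : (xw (2 * z) - ρ) * (4 * l ^ 6 * (X ^ 3 + s * X ^ 2 + X)) =
            (l ^ 2) ^ 4 * (X ^ 2 - 1) ^ 2 := by
          rw [sub_mul, ← h7, hdup]
          have h10 : (l ^ 2) ^ 4 * (X ^ 2 - 1) ^ 2 =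
              ((l ^ 2 * X) ^ 2 - l ^ 2 * l ^ 2) ^ 2 := by ring
          have h11 : l ^ 2 * X = xw z - ρ := by rw [hxX]; ring
          rw [h10, h11, hl4]
          linear_combination (-(2 * xw z) - ρ) * hρ4
        have h12 : (xw (2 * z) - ρ) / l ^ 2 * (4 * (X ^ 3 + s * X ^ 2 + X)) = (X ^ 2 - 1) ^ 2 := by
          have : (xw (2 * z) - ρ) / l ^ 2 * (4 * (X ^ 3 + s * X ^ 2 + X)) =
              (xw (2 * z) - ρ) * (4 * l ^ 6 * (X ^ 3 + s * X ^ 2 + X)) / (l ^ 2) ^ 4 := by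
            field_simp
          rw [this, h9, mul_div_cancel_left₀ _ (pow_ne_zero 4 hl2)]
        rw [h12]
        ring
      have := i2_dup w ws1 h3 w2 (hXint z hz hz0) hY key
      exact absurd hXt (not_le.2 this)
  · have hadd := add_x v (z - v) hv0 ht0 (by rwa [add_sub_cancel]) (by
      rw [add_sub_cancel]; exact hxx)
    rw [add_sub_cancel] at hadd
    have hXne : (xw z - ρ) / l ^ 2 ≠ (xw v - ρ) / l ^ 2 := by
      intro h
      rw [div_left_inj' hl2] at h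
      exact hxx (by linear_combination h)
    have hcore := i2_core w ws1 h3 (heq z hz0) (heq v hv0) (hXint z hz hz0) (hXint v hv hv0)
      hXd hYd hXne
    have hxz : xw z - xw v ≠ 0 := sub_ne_zero.2 hxx
    have hL : (yw z / (2 * l ^ 3) + yw v / (2 * l ^ 3)) /
        ((xw z - ρ) / l ^ 2 - (xw v - ρ) / l ^ 2) =
        (yw z + yw v) / (xw z - xw v) / (2 * l) := by
      have e1 : (xw z - ρ) / l ^ 2 - (xw v - ρ) / l ^ 2 = (xw z - xw v) / l ^ 2 := by ring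
      rw [e1]
      field_simp
    have key : ((yw z / (2 * l ^ 3) + yw v / (2 * l ^ 3)) /
        ((xw z - ρ) / l ^ 2 - (xw v - ρ) / l ^ 2)) ^ 2 - s - (xw z - ρ) / l ^ 2 -
        (xw v - ρ) / l ^ 2 = (xw (z - v) - ρ) / l ^ 2 := by
      rw [hL, ← hadd]
      have hsl : s * l ^ 2 = 3 * ρ := by rw [hl]; linear_combination ρ * hs2
      field_simp
      linear_combination (-16 * (xw z - xw v) ^ 2) * hsl
    rw [key] at hcore
    exact absurd hXt (not_le.2 hcore)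

end RF
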