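import Pool.Agent.MP_ae0bd0_nt.RF.I2

set_option autoImplicit false

open CM27 CMT CF BS3

namespace RF

/-! ## [RF-I3] points with the same `S` modulo `3` differ by a unit (file I3.lean; uses I2) -/

theorem i3_setup (A : ValuationSubring ℂ) (h3 : A.valuation 3 < 1) : ∃ ρ s l : ℂ,
    4 * ρ ^ 3 = -1 ∧ s ^ 2 = 3 ∧ l ^ 2 = s * ρ ∧ l ≠ 0 ∧ A.valuation s < 1 ∧
    A.valuation 2 = 1 ∧ A.valuation (l ^ 2) = A.valuation (emb th) ∧
    A.valuation (l ^ 3) ^ 2 = A.valuation (emb th) ^ 3 ∧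
    (∀ u : ℂ, u ∉ Set.range emb → (yw u / (2 * l ^ 3)) ^ 2 =
      ((xw u - ρ) / l ^ 2) ^ 3 + s * ((xw u - ρ) / l ^ 2) ^ 2 + (xw u - ρ) / l ^ 2) ∧
    (∀ (N : ℕ) (u : ℂ), ¬ 3 ∣ N → (N : ℂ) * u ∈ Set.range emb → u ∉ Set.range emb →
      A.valuation (yw u / (2 * l ^ 3)) ≤ 1) := by
  obtain ⟨ρ, hρ⟩ := IsAlgClosed.exists_pow_nat_eq (-1 / 4 : ℂ) (n := 3) (by norm_num)
  obtain ⟨s, hs2⟩ := IsAlgClosed.exists_pow_nat_eq (3 : ℂ) (n := 2) (by norm_num)
  obtain ⟨l, hl⟩ := IsAlgClosed.exists_pow_nat_eq (s * ρ) (n := 2) (by norm_num)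
  have hρ4 : 4 * ρ ^ 3 = -1 := by rw [hρ]; norm_num
  have hρ0 : ρ ≠ 0 := by
    rintro rfl
    norm_num at hρ4
  have hs0 : s ≠ 0 := by
    rintro rfl
    norm_num at hs2
  have hl0 : l ≠ 0 := by
    rintro rfl
    have : s * ρ = 0 := by rw [← hl]; norm_num
    exact mul_ne_zero hs0 hρ0 this
  have hth : A.valuation (emb th) < 1 := x3_th_lt A h3
  have hth2 : A.valuation (emb th) ^ 2 = A.valuation 3 := val_th A
  have w4 : A.valuation 4 = 1 := by
    have : (4 : ℂ) = 1 + 3 := by norm_num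
    rw [this, Valuation.map_add_eq_of_lt_left, map_one]
    rw [map_one]; exact h3
  have w2 : A.valuation 2 = 1 := by
    have h5 : A.valuation 2 ^ 2 = 1 ^ 2 := by
      rw [← map_pow, one_pow]
      have : (2 : ℂ) ^ 2 = 4 := by norm_num
      rw [this, w4]
    exact (pow_left_inj₀ zero_le zero_le two_ne_zero).1 h5
  have wρ : A.valuation ρ = 1 := by
    have h5 : A.valuation ρ ^ 3 = 1 ^ 3 := by
      have h6 := congrArg A.valuation hρ4
      rw [map_mul, w4, one_mul, map_pow, Valuation.map_neg, map_one] at h6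
      rw [h6, one_pow]
    exact (pow_left_inj₀ zero_le zero_le three_ne_zero).1 h5
  have ws : A.valuation s = A.valuation (emb th) := by
    apply (pow_left_inj₀ zero_le zero_le two_ne_zero).1
    rw [hth2, ← map_pow, hs2]
  have wl2 : A.valuation (l ^ 2) = A.valuation (emb th) := by
    rw [hl, map_mul, wρ, mul_one, ws]
  have wl3 : A.valuation (l ^ 3) ^ 2 = A.valuation (emb th) ^ 3 := by
    rw [← wl2, ← map_pow, ← map_pow, ← pow_mul, ← pow_mul]
  have w2l3 : A.valuation (2 * l ^ 3) = A.valuation (l ^ 3) := by rw [map_mul, w2, one_mul]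
  have wl3pos : 0 < A.valuation (l ^ 3) :=
    zero_lt_iff.2 ((Valuation.ne_zero_iff A.valuation).2 (pow_ne_zero 3 hl0))
  refine ⟨ρ, s, l, hρ4, hs2, hl, hl0, by rw [ws]; exact hth, w2, wl2, wl3, ?_, ?_⟩
  · intro u hu
    have h1 := weq u hu
    have e1 : (yw u / (2 * l ^ 3)) ^ 2 = yw u ^ 2 / 4 / l ^ 6 := by field_simp; ring
    have e2 : ((xw u - ρ) / l ^ 2) ^ 3 + s * ((xw u - ρ) / l ^ 2) ^ 2 + (xw u - ρ) / l ^ 2 =
        ((xw u - ρ) ^ 3 + s * l ^ 2 * (xw u - ρ) ^ 2 + (l ^ 2) ^ 2 * (xw u - ρ)) / l ^ 6 := by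
      field_simp
    rw [e1, e2, h1, hl]
    congr 1
    linear_combination (-(xw u - ρ) ^ 2 * ρ - ρ ^ 2 * (xw u - ρ)) * hs2 + (1 / 4 : ℂ) * hρ4
  · intro N u hN hu hu0
    have h1 := SS_val A h3 N hN u hu hu0
    rw [SS_eq u hu0, map_div₀, map_mul, ← hth2, map_pow] at h1
    have h2 : A.valuation (emb th) ^ 2 * A.valuation (emb th) = A.valuation (l ^ 3) ^ 2 := by
      rw [wl3]
      exact (pow_succ _ 2).symm
    rw [h2] at h1
    have h4 : A.valuation (yw u) ^ 2 ≤ A.valuation (l ^ 3) ^ 2 := by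
      rwa [div_le_one₀ (pow_pos wl3pos 2)] at h1
    rw [map_div₀, w2l3, div_le_one₀ wl3pos]
    exact (pow_le_pow_iff_left₀ zero_le zero_le two_ne_zero).1 h4

theorem i3_mul_mem (u : Eis) {z : ℂ} (hz : z ∈ Set.range emb) : emb u * z ∈ Set.range emb := by
  obtain ⟨a, rfl⟩ := hz
  exact ⟨u * a, map_mul _ _ _⟩

theorem i3_w_sq : w ^ 2 = -1 - w := by
  have h := w_sq
  linear_combination h

theorem i3_w3 : w ^ 3 = 1 := by
  have h := i3_w_sq
  linear_combination (w - 1) * h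

theorem i3_emb_w : emb ⟨0, 1⟩ = w := by simp [emb_apply]

theorem i3_emb_w2 : emb ⟨-1, -1⟩ = w * w := by
  rw [emb_apply]
  push_cast
  linear_combination -i3_w_sq

theorem i3_lt_or {Γ : Type} [LinearOrderedCommGroupWithZero Γ] (V : Valuation ℂ Γ) {a b : ℂ}
    (h : V (a * b) < 1) : V a < 1 ∨ V b < 1 := by
  by_contra hc
  push Not at hc
  rw [map_mul] at h
  exact absurd h (not_lt.2 (one_le_mul hc.1 hc.2))

/-- Notation as in `inj3` (I2.lean): `ρ, l, s`, `X = (xw - ρ) / l²`, `Y = yw / (2 l³)`, `Y² = X³ + s X² + X`,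
`|X|, |Y| ≤ 1`. `SS = - (s/√-3) Y²` so `|Y(z)² - Y(v)²| < 1` and `|Y(z) - Y(v)| < 1` or `|Y(z) + Y(v)| < 1`; replace `v` by
`- v` in the second case (`yw_neg`, `xw_neg`, `SS_unit`-like). Let `d = X(v) - X(z)`; then `d³ + d` is small (subtract
the equations, `|3|, |s| < 1`), so `|d| < 1` or `|d² + 1| < 1`. Let `c₀ = (ω - 1) ρ / l²`: `c₀² = (ω - 1)²/3 = - ω`, which is
congruent to `-1` (`|ω - 1| < 1`). As `xw (ω z) = ω xw z` and `yw (ω z) = yw z` (`xw_w`, `yw_w`):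
`X(ω z) = ω X(z) + c₀ ≡ X(z) + c₀` and `X(ω² z) = ω² X(z) + (ω + 1) c₀ ≡ X(z) + 2 c₀ ≡ X(z) - c₀`. In the case
`|d² + 1| < 1` we get `|d² - c₀²| < 1`, so `d ≡ ± c₀`. In all cases `X(v) ≡ X(u z)`, `Y(v) ≡ Y(u z)` for some
`u ∈ {1, ω, ω²}` and `inj3` gives `v - u z ∈ ℤ[ω]`. -/
theorem unit3 (A : ValuationSubring ℂ) (h3 : A.valuation 3 < 1) (N : ℕ) (hN : ¬ 3 ∣ N) (z v : ℂ)
    (hz : (N : ℂ) * z ∈ Set.range emb) (hv : (N : ℂ) * v ∈ Set.range emb)
    (hz0 : z ∉ Set.range emb) (hv0 : v ∉ Set.range emb) (h : A.valuation (SS z - SS v) < 1) :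
    ∃ u : Eis, IsUnit u ∧ v - emb u * z ∈ Set.range emb := by
  obtain ⟨ρ, s, l, hρ4, hs2, hl, hl0, ws1, w2, wl2, wl3, heq, hYint'⟩ := i3_setup A h3
  have hYint := fun u => hYint' N u hN
  set V := A.valuation with hV
  have w2l3 : V (2 * l ^ 3) = V (l ^ 3) := by rw [map_mul, w2, one_mul]
  have wl2pos : 0 < V (l ^ 2) := zero_lt_iff.2 ((Valuation.ne_zero_iff V).2 (pow_ne_zero 2 hl0))
  have wl3pos : 0 < V (l ^ 3) := zero_lt_iff.2 ((Valuation.ne_zero_iff V).2 (pow_ne_zero 3 hl0))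
  have hXint : ∀ u : ℂ, (N : ℂ) * u ∈ Set.range emb → u ∉ Set.range emb →
      V ((xw u - ρ) / l ^ 2) ≤ 1 := fun u hu hu0 => i2_int V ws1 (heq u hu0) (hYint u hu hu0)
  have hω := val_root3 A h3 w 1 (by rw [pow_one]; exact i3_w3)
  rw [← hV] at hω
  obtain ⟨hω1, hωm⟩ := hω
  -- multiples of `z` by units
  have hmulN : ∀ u : Eis, (N : ℂ) * (emb u * z) ∈ Set.range emb := fun u => by
    have := i3_mul_mem u hz
    rwa [mul_left_comm] at this
  have hmul0 : ∀ u u' : Eis, u' * u = 1 → emb u * z ∉ Set.range emb := by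
    intro u u' huu hmem
    have := i3_mul_mem u' hmem
    rw [← mul_assoc, ← map_mul, huu, map_one, one_mul] at this
    exact hz0 this
  -- conclusion from congruences
  have fin : ∀ (v : ℂ) (u u' : Eis), u' * u = 1 → (N : ℂ) * v ∈ Set.range emb →
      v ∉ Set.range emb → yw (emb u * z) = yw z →
      V (yw z / (2 * l ^ 3) - yw v / (2 * l ^ 3)) < 1 →
      V ((xw v - ρ) / l ^ 2 - (xw (emb u * z) - ρ) / l ^ 2) < 1 →
      ∃ u : Eis, IsUnit u ∧ v - emb u * z ∈ Set.range emb := by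
    intro v u u' huu hv hv0 hyu hY hX
    refine ⟨u, IsUnit.of_mul_eq_one_right _ huu, ?_⟩
    apply inj3 A h3 N hN v (emb u * z) hv (hmulN u) hv0 (hmul0 u u' huu)
    · have : (xw v - ρ) / l ^ 2 - (xw (emb u * z) - ρ) / l ^ 2 = (xw v - xw (emb u * z)) / l ^ 2 := by
        ring
      rw [this, map_div₀, div_lt_one₀ wl2pos, wl2] at hX
      exact hX
    · rw [hyu, ← hV, ← wl3]
      rw [← sub_div, map_div₀, w2l3, div_lt_one₀ wl3pos, Valuation.map_sub_swap] at hY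
      exact pow_lt_pow_left₀ hY zero_le two_ne_zero
  -- the case `Y(z) ≡ Y(v)`
  have caseA : ∀ v : ℂ, (N : ℂ) * v ∈ Set.range emb → v ∉ Set.range emb →
      V (yw z / (2 * l ^ 3) - yw v / (2 * l ^ 3)) < 1 →
      ∃ u : Eis, IsUnit u ∧ v - emb u * z ∈ Set.range emb := by
    intro v hv hv0 hY
    have q1 := heq z hz0
    have q2 := heq v hv0
    have x1 := hXint z hz hz0
    have x2 := hXint v hv hv0
    have y1 := hYint z hz hz0
    have y2 := hYint v hv hv0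
    set X := (xw z - ρ) / l ^ 2 with hXd
    set X' := (xw v - ρ) / l ^ 2 with hXd'
    set Y := yw z / (2 * l ^ 3) with hYd
    set Y' := yw v / (2 * l ^ 3) with hYd'
    have hd : V ((X' - X) * ((X' - X) ^ 2 + 1)) < 1 := by
      have e : (X' - X) * ((X' - X) ^ 2 + 1) =
          -((Y - Y') * (Y + Y')) - (3 * (X * X' * (X' - X)) + s * (X' ^ 2 - X ^ 2)) := by
        linear_combination q1 - q2
      rw [e]
      refine (V.map_sub _ _).trans_lt (max_lt ?_ ((V.map_add _ _).trans_lt (max_lt ?_ ?_)))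
      · rw [Valuation.map_neg, map_mul]
        exact mul_lt_one_of_lt_of_le hY ((V.map_add _ _).trans (max_le y1 y2))
      · rw [map_mul, map_mul, map_mul]
        exact mul_lt_one_of_lt_of_le h3 (mul_le_one' (mul_le_one' x1 x2)
          ((V.map_sub _ _).trans (max_le x2 x1)))
      · rw [map_mul]
        refine mul_lt_one_of_lt_of_le ws1 ((V.map_sub _ _).trans (max_le ?_ ?_))
        · rw [map_pow]; exact pow_le_one₀ zero_le x2
        · rw [map_pow]; exact pow_le_one₀ zero_le x1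
    rcases i3_lt_or V hd with hd1 | hd1
    · refine fin v 1 1 (one_mul 1) hv hv0 (by rw [map_one, one_mul]) hY ?_
      rw [map_one, one_mul]
      exact hd1
    · set c := (w - 1) * ρ / l ^ 2 with hc
      have hl2 : l ^ 2 ≠ 0 := pow_ne_zero 2 hl0
      have hρ0 : ρ ≠ 0 := by
        rintro rfl
        norm_num at hρ4
      have hl4 : l ^ 2 * l ^ 2 = 3 * ρ ^ 2 := by rw [hl]; linear_combination ρ ^ 2 * hs2
      have hc2 : c ^ 2 = -w := by
        rw [hc, div_pow, div_eq_iff (pow_ne_zero 2 hl2)]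
        have hw2 := i3_w_sq
        linear_combination ρ ^ 2 * hw2 + w * hl4
      have hcV : V c ≤ 1 := by
        have h5 : V c ^ 2 ≤ 1 ^ 2 := by
          rw [← map_pow, hc2, Valuation.map_neg, hω1, one_pow]
        exact (pow_le_pow_iff_left₀ zero_le zero_le two_ne_zero).1 h5
      have hdc : V (((X' - X) - c) * ((X' - X) + c)) < 1 := by
        have e : ((X' - X) - c) * ((X' - X) + c) = ((X' - X) ^ 2 + 1) + (w - 1) := by
          linear_combination -hc2
        rw [e]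
        exact (V.map_add _ _).trans_lt (max_lt hd1 hωm)
      have hX1 : (xw (w * z) - ρ) / l ^ 2 = w * X + c := by
        rw [xw_w, hXd, hc]; ring
      have hX2 : (xw (w * (w * z)) - ρ) / l ^ 2 = w * w * X + (w + 1) * c := by
        rw [xw_w, xw_w, hXd, hc]; ring
      rcases i3_lt_or V hdc with h5 | h5
      · refine fin v ⟨0, 1⟩ ⟨-1, -1⟩ (by ext <;> decide) hv hv0 (by rw [i3_emb_w, yw_w]) hY ?_
        rw [i3_emb_w, hX1]
        have e : X' - (w * X + c) = ((X' - X) - c) - (w - 1) * X := by ring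
        rw [e]
        refine (V.map_sub _ _).trans_lt (max_lt h5 ?_)
        rw [map_mul]
        exact mul_lt_one_of_lt_of_le hωm x1
      · refine fin v ⟨-1, -1⟩ ⟨0, 1⟩ (by ext <;> decide) hv hv0
          (by rw [i3_emb_w2, mul_assoc, yw_w, yw_w]) hY ?_
        rw [i3_emb_w2, mul_assoc, hX2]
        have e : X' - (w * w * X + (w + 1) * c) =
            ((X' - X) + c) - ((w - 1) * ((w + 1) * X) + ((w - 1) * c + 3 * c)) := by ring
        rw [e]
        have hw1 : V (w + 1) ≤ 1 := (V.map_add _ _).trans (max_le hω1.le (by rw [map_one]))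
        refine (V.map_sub _ _).trans_lt (max_lt h5 ((V.map_add _ _).trans_lt (max_lt ?_
          ((V.map_add _ _).trans_lt (max_lt ?_ ?_)))))
        · rw [map_mul, map_mul]
          exact mul_lt_one_of_lt_of_le hωm (mul_le_one' hw1 x1)
        · rw [map_mul]
          exact mul_lt_one_of_lt_of_le hωm hcV
        · rw [map_mul]
          exact mul_lt_one_of_lt_of_le h3 hcV
  -- `|Y(z)² - Y(v)²| < 1`
  have hYY : V ((yw z / (2 * l ^ 3) - yw v / (2 * l ^ 3)) *
      (yw z / (2 * l ^ 3) + yw v / (2 * l ^ 3))) < 1 := by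
    rw [SS_eq z hz0, SS_eq v hv0, ← sub_div, map_div₀, map_mul, ← val_th A] at h
    have h2 : V (emb th) ^ 2 * V (emb th) = V (l ^ 3) ^ 2 := by
      rw [wl3]
      exact (pow_succ _ 2).symm
    rw [h2, div_lt_one₀ (pow_pos wl3pos 2)] at h
    have e : (yw z / (2 * l ^ 3) - yw v / (2 * l ^ 3)) *
      (yw z / (2 * l ^ 3) + yw v / (2 * l ^ 3)) = (yw z ^ 2 - yw v ^ 2) / (2 * l ^ 3) ^ 2 := by
      ring
    rw [e, map_div₀, map_pow, w2l3, div_lt_one₀ (pow_pos wl3pos 2)]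
    exact h
  rcases i3_lt_or V hYY with h5 | h5
  · exact caseA v hv hv0 h5
  · have hvn : (N : ℂ) * (-v) ∈ Set.range emb := by
      rw [mul_neg]
      exact (a4_mem_neg _).2 hv
    have hvn0 : -v ∉ Set.range emb := fun h => hv0 ((a4_mem_neg v).1 h)
    obtain ⟨u, hu, hu2⟩ := caseA (-v) hvn hvn0 (by
      rw [yw_neg, neg_div, sub_neg_eq_add]
      exact h5)
    refine ⟨-u, hu.neg, ?_⟩
    rw [← a4_mem_neg]
    have e : -(v - emb (-u) * z) = -v - emb u * z := by rw [map_neg]; ring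
    rw [e]
    exact hu2

end RF
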