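import Pool.Agent.MP_ae0bd0_nt.B3.Z6
import Pool.Agent.MP_ae0bd0_nt.B3.P7

set_option autoImplicit false

open CM27 NumberField IsDedekindDomain BS3

namespace RF

/-! ## [RF-N2] splitting of places in `F = F₀(ω)` (file N2.lean) -/

theorem n2_two {ι : Type*} [DecidableEq ι] (s : Finset ι) (g : ι → ℕ) (hg : ∀ i ∈ s, 0 < g i)
    (hs : ∑ i ∈ s, g i = 2) (i j : ι) (hi : i ∈ s) (hj : j ∈ s) (hij : i ≠ j) :
    s = {i, j} ∧ g i = 1 ∧ g j = 1 := by
  have h1 : ({i, j} : Finset ι) ⊆ s := by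
    intro x hx
    rw [Finset.mem_insert, Finset.mem_singleton] at hx
    rcases hx with rfl | rfl
    · exact hi
    · exact hj
  have h2 := Finset.sum_sdiff (f := g) h1
  rw [hs, Finset.sum_pair hij] at h2
  have h3 := hg i hi
  have h4 := hg j hj
  have h5 : ∑ x ∈ s \ {i, j}, g x = 0 := by omega
  refine ⟨?_, by omega, by omega⟩
  refine (Finset.Subset.antisymm h1 fun x hx => ?_).symm
  by_contra hx'
  have h6 := (Finset.sum_eq_zero_iff.1 h5) x (Finset.mem_sdiff.2 ⟨hx, hx'⟩)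
  have := hg x hx
  omega

theorem n2_one {ι : Type*} [DecidableEq ι] (s : Finset ι) (g : ι → ℕ) (hg : ∀ i ∈ s, 0 < g i)
    (hs : ∑ i ∈ s, g i = 2) (i : ι) (hi : i ∈ s) (h : 2 ≤ g i) : s = {i} ∧ g i = 2 := by
  have h1 : ({i} : Finset ι) ⊆ s := Finset.singleton_subset_iff.2 hi
  have h2 := Finset.sum_sdiff (f := g) h1
  rw [hs, Finset.sum_singleton] at h2
  have h5 : ∑ x ∈ s \ {i}, g x = 0 := by omega
  refine ⟨?_, by omega⟩
  refine (Finset.Subset.antisymm h1 fun x hx => ?_).symm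
  by_contra hx'
  have h6 := (Finset.sum_eq_zero_iff.1 h5) x (Finset.mem_sdiff.2 ⟨hx, hx'⟩)
  have := hg x hx
  omega

theorem n2_exists {k : Type*} [Field k] [Finite k] (h : Nat.card k % 3 = 1) :
    ∃ x : k, x ^ 2 + x + 1 = 0 := by
  have h3 : Fact (Nat.Prime 3) := ⟨Nat.prime_three⟩
  have hcard : 3 ∣ Nat.card kˣ := by
    rw [Nat.card_units]
    omega
  obtain ⟨x, hx⟩ := exists_prime_orderOf_dvd_card' 3 hcard
  have hx3 : x ^ 3 = 1 := by rw [← hx]; exact pow_orderOf_eq_one x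
  have hx1 : x ≠ 1 := by
    intro h
    rw [h, orderOf_one] at hx
    omega
  refine ⟨x, ?_⟩
  have h4 : ((x : k) - 1) * ((x : k) ^ 2 + x + 1) = 0 := by
    have h5 := congrArg (fun u : kˣ => (u : k)) hx3
    simp only [Units.val_pow_eq_pow_val, Units.val_one] at h5
    linear_combination h5
  rcases mul_eq_zero.1 h4 with h | h
  · exact absurd (Units.ext (by simpa using sub_eq_zero.1 h)) hx1
  · exact h

theorem n2_root {k : Type*} [Field k] [Finite k] (x : k) (hx : x ^ 2 + x + 1 = 0)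
    (h : Nat.card k % 3 = 2) : (3 : k) = 0 := by
  have := Fintype.ofFinite k
  have h1 := FiniteField.pow_card x
  rw [← Nat.card_eq_fintype_card] at h1
  have h2 : x ^ 3 = 1 := by linear_combination (x - 1) * hx
  have h3 : Nat.card k = 3 * (Nat.card k / 3) + 2 := by omega
  rw [h3, pow_add, pow_mul, h2, one_pow, one_mul] at h1
  linear_combination 4 * hx - (2 * x + 1) * (hx - h1)

/-- the conjugation -/
theorem n2_conj {F₀ F : Type} [Field F₀] [NumberField F₀] [Field F] [NumberField F]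
    [Algebra F₀ F] (h2 : Module.finrank F₀ F = 2) (om : F) (hom : om ^ 2 + om + 1 = 0)
    (h0 : ∀ x : F₀, x ^ 2 + x + 1 ≠ 0) : ∃ σ : F ≃ₐ[F₀] F, σ om = -1 - om := by
  have : Algebra.IsQuadraticExtension F₀ F := ⟨h2⟩
  have hmin : ∀ y : F, y ^ 2 + y + 1 = 0 →
      minpoly F₀ y = Polynomial.X ^ 2 + Polynomial.X + 1 := by
    intro y hy
    have hmon : (Polynomial.X ^ 2 + Polynomial.X + 1 : Polynomial F₀).Monic := by monicity!
    have hdeg : (Polynomial.X ^ 2 + Polynomial.X + 1 : Polynomial F₀).natDegree = 2 := by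
      compute_degree!
    refine (minpoly.eq_of_irreducible_of_monic ?_ ?_ hmon).symm
    · rw [hmon.irreducible_iff_roots_eq_zero_of_degree_le_three (by rw [hdeg]) (by rw [hdeg]; norm_num)]
      rw [Multiset.eq_zero_iff_forall_notMem]
      intro x hx
      rw [Polynomial.mem_roots', Polynomial.IsRoot.def] at hx
      apply h0 x
      simpa using hx.2
    · simpa using hy
  have h3 : minpoly F₀ (-1 - om) = minpoly F₀ om := by
    rw [hmin om hom, hmin (-1 - om) (by linear_combination hom)]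
  rw [Normal.minpoly_eq_iff_mem_orbit] at h3
  obtain ⟨σ, hσ⟩ := h3
  exact ⟨σ, hσ⟩

/-- `F/F₀` quadratic, generated by `ω`, `v₀ ∤ 3`, `q` the order of the residue field of `v₀`. It is unramified
above `v₀` (`X² + X + 1` has discriminant `-3`). If `q ≡ 1 mod 3` there is `n ∈ 𝓞 F₀` with `n² + n + 1 ∈ v₀`, so
`(ω - n)(ω + 1 + n) ∈ v` (up to `v₀`) for every `v ∣ v₀`; if `ω - n ∈ v` then for the automorphism `τ` of `F/F₀` also
`- 1 - ω - n ∈ τ v`, and `v = τ v` would give `1 + 2 n ∈ v`, `-3 ≡ (1 + 2n)² ∈ v`: contradiction. So there are two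
places, and `e f = 1` for both (`∑ e f = 2`). If `q ≡ 2 mod 3` then
`𝓞 F / v` contains a root of `X² + X + 1` (the image of `ω`) and `𝓞 F₀ / v₀` does not, so the residue degree is
`2` and `v` is unique. -/
theorem split_om {F₀ F : Type} [Field F₀] [NumberField F₀] [Field F] [NumberField F]
    [Algebra F₀ F] (h2 : Module.finrank F₀ F = 2) (om : F) (hom : om ^ 2 + om + 1 = 0)
    (h0 : ∀ x : F₀, x ^ 2 + x + 1 ≠ 0) (v₀ : HeightOneSpectrum (𝓞 F₀))
    (h3 : (3 : 𝓞 F₀) ∉ v₀.asIdeal) :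
    (Nat.card (𝓞 F₀ ⧸ v₀.asIdeal) % 3 = 1 → ∃ v v' : HeightOneSpectrum (𝓞 F), v ≠ v' ∧
      (∀ u : HeightOneSpectrum (𝓞 F), u.asIdeal.LiesOver v₀.asIdeal ↔ u = v ∨ u = v') ∧
      Nat.card (𝓞 F ⧸ v.asIdeal) = Nat.card (𝓞 F₀ ⧸ v₀.asIdeal) ∧
      Nat.card (𝓞 F ⧸ v'.asIdeal) = Nat.card (𝓞 F₀ ⧸ v₀.asIdeal)) ∧
    (Nat.card (𝓞 F₀ ⧸ v₀.asIdeal) % 3 = 2 → ∃ v : HeightOneSpectrum (𝓞 F),
      (∀ u : HeightOneSpectrum (𝓞 F), u.asIdeal.LiesOver v₀.asIdeal ↔ u = v) ∧
      Nat.card (𝓞 F ⧸ v.asIdeal) = Nat.card (𝓞 F₀ ⧸ v₀.asIdeal) ^ 2) := by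
  classical
  have hv₀m := v₀.isMaximal
  -- the element in the ring of integers
  have hint : IsIntegral ℤ om := by
    refine ⟨Polynomial.X ^ 2 + Polynomial.X + 1, by monicity!, ?_⟩
    simpa using hom
  obtain ⟨Om, hOm⟩ : ∃ Om : 𝓞 F, algebraMap (𝓞 F) F Om = om := ⟨⟨om, hint⟩, rfl⟩
  have hOm2 : Om ^ 2 + Om + 1 = 0 := by
    apply FaithfulSMul.algebraMap_injective (𝓞 F) F
    simp only [map_add, map_pow, map_one, map_zero, hOm, hom]
  -- the sum formula
  have hsum := Ideal.sum_ramification_inertia (𝓞 F) F₀ F (p := v₀.asIdeal) v₀.ne_bot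
  rw [h2] at hsum
  have hmem : ∀ P : Ideal (𝓞 F), P ∈ IsDedekindDomain.primesOverFinset v₀.asIdeal (𝓞 F) ↔
      P.IsPrime ∧ P.LiesOver v₀.asIdeal := fun P =>
    IsDedekindDomain.mem_primesOverFinset_iff v₀.ne_bot (𝓞 F)
  have hbot : ∀ P : Ideal (𝓞 F), P.LiesOver v₀.asIdeal → P ≠ ⊥ := fun P hP =>
    Ideal.ne_bot_of_liesOver_of_ne_bot v₀.ne_bot P
  have he : ∀ P ∈ IsDedekindDomain.primesOverFinset v₀.asIdeal (𝓞 F),
      0 < v₀.asIdeal.ramificationIdx' P := by
    intro P hP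
    have h4 := (hmem P).1 hP
    have := h4.1
    have := h4.2
    exact Nat.pos_of_ne_zero
      (Ideal.IsDedekindDomain.ramificationIdx'_ne_zero_of_liesOver _ v₀.ne_bot)
  have hf : ∀ P ∈ IsDedekindDomain.primesOverFinset v₀.asIdeal (𝓞 F),
      0 < v₀.asIdeal.inertiaDeg' P := by
    intro P hP
    have h4 := (hmem P).1 hP
    have := h4.1
    have := h4.2
    exact Nat.pos_of_ne_zero (Ideal.inertiaDeg'_ne_zero _ _)
  have hef : ∀ P ∈ IsDedekindDomain.primesOverFinset v₀.asIdeal (𝓞 F),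
      0 < v₀.asIdeal.ramificationIdx' P * v₀.asIdeal.inertiaDeg' P := fun P hP =>
    Nat.mul_pos (he P hP) (hf P hP)
  have hcard : ∀ P ∈ IsDedekindDomain.primesOverFinset v₀.asIdeal (𝓞 F),
      Nat.card (𝓞 F ⧸ P) = Nat.card (𝓞 F₀ ⧸ v₀.asIdeal) ^ v₀.asIdeal.inertiaDeg' P := by
    intro P hP
    have h4 := (hmem P).1 hP
    have := h4.1
    have := h4.2
    rw [Ideal.inertiaDeg'_algebraMap]
    let := Ideal.Quotient.field v₀.asIdeal
    exact Module.natCard_eq_pow_finrank (K := 𝓞 F₀ ⧸ v₀.asIdeal) (V := 𝓞 F ⧸ P)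
  have h3P : ∀ P ∈ IsDedekindDomain.primesOverFinset v₀.asIdeal (𝓞 F), (3 : 𝓞 F) ∉ P := by
    intro P hP h
    have h4 := (hmem P).1 hP
    apply h3
    rw [h4.2.over, Ideal.mem_comap, map_ofNat]
    exact h
  -- there is a prime above
  obtain ⟨P, hP⟩ : ∃ P, P ∈ IsDedekindDomain.primesOverFinset v₀.asIdeal (𝓞 F) := by
    by_contra hcon
    push Not at hcon
    rw [Finset.eq_empty_of_forall_notMem hcon, Finset.sum_empty] at hsum
    omega
  have hP4 := (hmem P).1 hP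
  have hPp := hP4.1
  have hPl := hP4.2
  let v : HeightOneSpectrum (𝓞 F) := ⟨P, hPp, hbot P hPl⟩
  constructor
  · intro hq
    have hfin : Finite (𝓞 F₀ ⧸ v₀.asIdeal) := Nat.finite_of_card_ne_zero (by omega)
    obtain ⟨n, hn⟩ : ∃ n : 𝓞 F₀, n ^ 2 + n + 1 ∈ v₀.asIdeal := by
      let := Ideal.Quotient.field v₀.asIdeal
      obtain ⟨x, hx⟩ := n2_exists hq
      obtain ⟨n, rfl⟩ := Ideal.Quotient.mk_surjective x
      refine ⟨n, ?_⟩
      rw [← Ideal.Quotient.eq_zero_iff_mem]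
      simpa using hx
    obtain ⟨σ, hσ⟩ := n2_conj h2 om hom h0
    let σ' : 𝓞 F ≃ₐ[𝓞 F₀] 𝓞 F := galRestrict (𝓞 F₀) F₀ F (𝓞 F) σ
    have hσ' : σ' Om = -1 - Om := by
      apply FaithfulSMul.algebraMap_injective (𝓞 F) F
      rw [algebraMap_galRestrict_apply, hOm, hσ, map_sub, map_neg, map_one, hOm]
    have hnP : algebraMap (𝓞 F₀) (𝓞 F) n ^ 2 + algebraMap (𝓞 F₀) (𝓞 F) n + 1 ∈ P := by
      have h4 := hn
      rw [hPl.over, Ideal.mem_comap] at h4
      simpa using h4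
    have hprod : (Om - algebraMap (𝓞 F₀) (𝓞 F) n) * (-1 - Om - algebraMap (𝓞 F₀) (𝓞 F) n) ∈ P := by
      have : (Om - algebraMap (𝓞 F₀) (𝓞 F) n) * (-1 - Om - algebraMap (𝓞 F₀) (𝓞 F) n) =
          algebraMap (𝓞 F₀) (𝓞 F) n ^ 2 + algebraMap (𝓞 F₀) (𝓞 F) n + 1 := by
        linear_combination -hOm2
      rw [this]
      exact hnP
    let P' : Ideal (𝓞 F) := P.comap σ'
    have hP' : P' ∈ IsDedekindDomain.primesOverFinset v₀.asIdeal (𝓞 F) := by
      rw [hmem]
      refine ⟨Ideal.comap_isPrime _ _, ⟨?_⟩⟩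
      rw [hPl.over]
      ext x
      rw [Ideal.mem_comap, Ideal.mem_comap, Ideal.mem_comap, AlgEquiv.commutes]
    have hne : P ≠ P' := by
      intro h
      have h4 : -1 - Om - Om ∈ P := by
        rcases hPp.mem_or_mem hprod with h5 | h5
        · have h6 : -1 - Om - algebraMap (𝓞 F₀) (𝓞 F) n ∈ P := by
            rw [h, Ideal.mem_comap]
            have h7 : σ' (-1 - Om - algebraMap (𝓞 F₀) (𝓞 F) n) =
                Om - algebraMap (𝓞 F₀) (𝓞 F) n := by
              rw [map_sub, map_sub, map_neg, map_one, hσ', AlgEquiv.commutes]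
              ring
            rw [h7]
            exact h5
          have h8 : -1 - Om - Om = (-1 - Om - algebraMap (𝓞 F₀) (𝓞 F) n) -
              (Om - algebraMap (𝓞 F₀) (𝓞 F) n) := by ring
          rw [h8]
          exact Ideal.sub_mem _ h6 h5
        · have h6 : Om - algebraMap (𝓞 F₀) (𝓞 F) n ∈ P := by
            rw [h, Ideal.mem_comap]
            have h7 : σ' (Om - algebraMap (𝓞 F₀) (𝓞 F) n) =
                -1 - Om - algebraMap (𝓞 F₀) (𝓞 F) n := by
              rw [map_sub, hσ', AlgEquiv.commutes]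
            rw [h7]
            exact h5
          have h8 : -1 - Om - Om = (-1 - Om - algebraMap (𝓞 F₀) (𝓞 F) n) -
              (Om - algebraMap (𝓞 F₀) (𝓞 F) n) := by ring
          rw [h8]
          exact Ideal.sub_mem _ h5 h6
      apply h3P P hP
      have h9 : (3 : 𝓞 F) = -((-1 - Om - Om) * (-1 - Om - Om)) := by
        linear_combination 4 * hOm2
      rw [h9]
      exact Ideal.neg_mem_iff _ |>.2 (Ideal.mul_mem_left _ _ h4)
    obtain ⟨hs, hg1, hg2⟩ := n2_two _ _ hef hsum P P' hP hP' hne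
    have hf1 := Nat.eq_one_of_mul_eq_one_left hg1
    have hf2 := Nat.eq_one_of_mul_eq_one_left hg2
    let v' : HeightOneSpectrum (𝓞 F) := ⟨P', ((hmem P').1 hP').1, hbot P' ((hmem P').1 hP').2⟩
    refine ⟨v, v', fun h => hne (congrArg HeightOneSpectrum.asIdeal h), fun u => ?_, ?_, ?_⟩
    · have h4 := hmem u.asIdeal
      rw [hs, Finset.mem_insert, Finset.mem_singleton] at h4
      constructor
      · intro h
        rcases h4.2 ⟨u.isPrime, h⟩ with h | h
        · exact Or.inl (HeightOneSpectrum.ext h)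
        · exact Or.inr (HeightOneSpectrum.ext h)
      · rintro (rfl | rfl)
        · exact hPl
        · exact ((hmem P').1 hP').2
    · rw [show v.asIdeal = P from rfl, hcard P hP, hf1, pow_one]
    · rw [show v'.asIdeal = P' from rfl, hcard P' hP', hf2, pow_one]
  · intro hq
    have hfin : Finite (𝓞 F₀ ⧸ v₀.asIdeal) := Nat.finite_of_card_ne_zero (by omega)
    have hf2 : 2 ≤ v₀.asIdeal.inertiaDeg' P := by
      by_contra hcon
      have h4 : v₀.asIdeal.inertiaDeg' P = 1 := by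
        have := hf P hP
        omega
      have h5 := hcard P hP
      rw [h4, pow_one] at h5
      have hfin' : Finite (𝓞 F ⧸ P) := Nat.finite_of_card_ne_zero (by omega)
      have hPm : P.IsMaximal := v.isMaximal
      let := Ideal.Quotient.field P
      have h6 := n2_root (Ideal.Quotient.mk P Om) (by
        rw [← map_pow, ← map_add, ← map_one (Ideal.Quotient.mk P), ← map_add, hOm2, map_zero])
        (by rw [h5]; exact hq)
      apply h3P P hP
      rw [← Ideal.Quotient.eq_zero_iff_mem, map_ofNat]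
      exact h6
    obtain ⟨hs, hg⟩ := n2_one _ _ hef hsum P hP
      (hf2.trans (Nat.le_mul_of_pos_left _ (he P hP)))
    have hf3 : v₀.asIdeal.inertiaDeg' P = 2 := by
      have h4 : v₀.asIdeal.inertiaDeg' P ∣ 2 := Dvd.intro_left _ hg
      exact le_antisymm (Nat.le_of_dvd (by norm_num) h4) hf2
    refine ⟨v, fun u => ?_, ?_⟩
    · have h4 := hmem u.asIdeal
      rw [hs, Finset.mem_singleton] at h4
      constructor
      · intro h
        exact HeightOneSpectrum.ext (h4.2 ⟨u.isPrime, h⟩)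
      · rintro rfl
        exact hPl
    · rw [show v.asIdeal = P from rfl, hcard P hP, hf3]

end RF
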