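import Pool.Agent.MP_ae0bd0_nt.RF.U1
import Pool.Agent.MP_9ab903_nt.CF.X1

set_option autoImplicit false

open NumberField IsDedekindDomain
open CM27 CMT CF
open scoped ComplexConjugate Classical

namespace RF

/-! ## [RF-U2] automorphisms which fix the ray class field (file U2.lean) -/

/-- every `σ` acts on `E[∏ b]` as multiplication by some `u` -/
theorem u2_exists (S : Finset Eis) (hS : ∀ b ∈ S, NEis b) (σ : AutK) :
    ∃ u : Eis, IsCoprime u (gS S) ∧ ActsBy S σ u ∧
      ∀ c : Eis, ptMap ((σ : ℂ ≃+* ℂ) : ℂ →+* ℂ) (pt (emb c / emb (gS S))) =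
        pt (emb (c * u) / emb (gS S)) := by
  have := eis_isDomain
  have hg0 : gS S ≠ 0 := by
    intro h
    exact u1_ne S hS S (Finset.Subset.refl S) (by rw [h, map_zero])
  obtain ⟨u, hu, h⟩ := gal_eis (gS S) hg0 (σ : ℂ ≃+* ℂ) σ.2
  refine ⟨u, hu, ?_, h⟩
  intro b
  have hb0 : (b : Eis) ≠ 0 := (hS b b.2).prime.ne_zero
  obtain ⟨d, hd⟩ : (b : Eis) ∣ gS S := Finset.dvd_prod_of_mem (fun b => b) b.2
  have hd0 : d ≠ 0 := by
    rintro rfl
    rw [mul_zero] at hd
    exact hg0 hd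
  have heb : emb (b : Eis) ≠ 0 := by
    intro h; exact hb0 (emb_injective (by rw [h, map_zero]))
  have hed : emb d ≠ 0 := by
    intro h; exact hd0 (emb_injective (by rw [h, map_zero]))
  have hq : ∀ c : Eis, emb c / emb (b : Eis) = emb (c * d) / emb (gS S) := by
    intro c
    rw [hd, map_mul, map_mul]
    field_simp
  have h1 : G1P (b : Eis) (σ : ℂ ≃+* ℂ) (Ideal.Quotient.mk _ u) := by
    intro u' hu' c
    rw [hq c, h (c * d), show c * d * u = (c * u) * d by ring, ← hq (c * u)]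
    exact g1_pt_congr (b : Eis) hb0 u u' c hu'
  have h2 : G1P (b : Eis) (σ : ℂ ≃+* ℂ) (th S σ b : Eis ⧸ Ideal.span {(b : Eis)}) := by
    intro u' hu' c
    exact th_spec S hS σ b u' hu' c
  exact g1_unique (b : Eis) hb0 (σ : ℂ ≃+* ℂ) _ _ h2 h1

/-- an automorphism which fixes the ray class field acts as a unit -/
theorem u2_unit (m : ℕ) (hm : NLevel m) (S : Finset Eis) (hS : ∀ b ∈ S, NEis b)
    (hSm : ∃ u : Eis, IsUnit u ∧ (m : Eis) = u * gS S) (σ : AutK)
    (hσ : σ ∈ fixer (rayField (E ℂ) m)) : ∃ u : Eis, IsUnit u ∧ ActsBy S σ u := by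
  have := eis_isDomain
  obtain ⟨u, hu, hact, h⟩ := u2_exists S hS σ
  have hg0 := u1_ne S hS S (Finset.Subset.refl S)
  set z := emb 1 / emb (gS S) with hz
  by_cases hz0 : z ∈ Set.range emb
  · -- `g` is a unit
    refine ⟨1, isUnit_one, fun b => ?_⟩
    exfalso
    obtain ⟨d, hd⟩ := hz0
    have h1 : gS S * d = 1 := by
      apply emb_injective
      rw [map_mul, hd, hz]
      field_simp
    have h2 : (b : Eis) ∣ 1 :=
      (Finset.dvd_prod_of_mem (fun b => b) b.2).trans (Dvd.intro d h1)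
    exact (hS b b.2).prime.not_unit (isUnit_of_dvd_one h2)
  · -- `pt z` is a point of order `m`
    obtain ⟨u₀, hu₀, hmu⟩ := hSm
    obtain ⟨h1, e1⟩ := pt_of_not_mem z hz0
    have hk : m • (WeierstrassCurve.Affine.Point.some _ _ h1 : (E ℂ).toAffine.Point) = 0 := by
      rw [← e1]
      have h2 := a7_pt_zsmul m z
      rw [natCast_zsmul] at h2
      rw [← h2, pt_eq_zero_iff]
      refine ⟨u₀, ?_⟩
      have h3 : ((m : ℤ) : ℂ) = emb u₀ * emb (gS S) := by
        rw [← map_mul, ← hmu, map_natCast]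
        norm_num
      rw [h3, hz, map_one]
      field_simp
    have h3 : (σ : ℂ ≃+* ℂ) (xw z ^ 3) = xw z ^ 3 :=
      hσ _ (IntermediateField.subset_adjoin ℚ _ (Or.inr ⟨_, _, h1, hk, rfl⟩))
    have h4 := h 1
    rw [← hz, one_mul] at h4
    set v := emb u / emb (gS S) with hv
    have hv0 : v ∉ Set.range emb := by
      intro h0
      rw [(pt_eq_zero_iff v).2 h0, e1] at h4
      exact absurd h4 (by intro h'; cases h')
    obtain ⟨h5, e5⟩ := pt_of_not_mem v hv0
    rw [e1, e5] at h4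
    simp only [ptMap, WeierstrassCurve.Affine.Point.some.injEq] at h4
    have h6 : xw v ^ 3 = xw z ^ 3 := by
      rw [← h3, map_pow]
      exact congrArg (· ^ 3) h4.1.symm
    -- `xw v = ω^k xw z`
    have hw3 : w ^ 3 = 1 := a1_w3
    have h7 : (xw v - xw z) * ((xw v - w * xw z) * (xw v - w ^ 2 * xw z)) = 0 := by
      have hw1 : w ^ 2 = -1 - w := by rw [pow_two]; exact w_sq
      have : (xw v - xw z) * ((xw v - w * xw z) * (xw v - w ^ 2 * xw z)) =
          xw v ^ 3 - (1 + w + w ^ 2) * xw v ^ 2 * xw z +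
            (w + w ^ 2 + w ^ 3) * xw v * xw z ^ 2 - w ^ 3 * xw z ^ 3 := by ring
      rw [this, hw3, h6, hw1]
      ring
    have hwz : ∀ x : ℂ, x ∉ Set.range emb → w * x ∉ Set.range emb := by
      intro x hx h0
      exact hx ((a6_mem_w x).1 h0)
    -- a unit `e` with `v - e z` in the lattice
    have key : ∃ e : Eis, IsUnit e ∧ v - emb e * z ∈ Set.range emb := by
      have hfin : ∀ e : Eis, IsUnit e → emb e * z ∉ Set.range emb → xw v = xw (emb e * z) →
          ∃ e : Eis, IsUnit e ∧ v - emb e * z ∈ Set.range emb := by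
        intro e he he0 hx
        rcases (xw_eq_iff v (emb e * z) hv0 he0).1 hx with h8 | h8
        · exact ⟨e, he, h8⟩
        · refine ⟨-e, he.neg, ?_⟩
          rw [map_neg, neg_mul, sub_neg_eq_add]
          exact h8
      have hom : IsUnit (⟨0, 1⟩ : Eis) := by
        rw [eis_isUnit_iff, norm_eq]
        norm_num
      have e0 : emb (⟨0, 1⟩ : Eis) = w := a1_emb_om
      rcases mul_eq_zero.1 h7 with h8 | h8
      · refine hfin 1 isUnit_one ?_ ?_
        · rw [map_one, one_mul]; exact hz0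
        · rw [map_one, one_mul]; exact sub_eq_zero.1 h8
      · rcases mul_eq_zero.1 h8 with h9 | h9
        · refine hfin ⟨0, 1⟩ hom ?_ ?_
          · rw [e0]; exact hwz z hz0
          · rw [e0, xw_w]; exact sub_eq_zero.1 h9
        · refine hfin (⟨0, 1⟩ * ⟨0, 1⟩) (hom.mul hom) ?_ ?_
          · rw [map_mul, e0, mul_assoc]; exact hwz _ (hwz z hz0)
          · rw [map_mul, e0, mul_assoc, xw_w, xw_w, ← mul_assoc, ← pow_two]
            exact sub_eq_zero.1 h9
    obtain ⟨e, he, c, hc⟩ := key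
    refine ⟨e, he, fun b => ?_⟩
    rw [hact b, Ideal.Quotient.eq, Ideal.mem_span_singleton]
    have h8 : u - e = gS S * c := by
      apply emb_injective
      rw [map_sub, map_mul, hc, hv, hz, map_one]
      field_simp
    rw [h8]
    exact (Finset.dvd_prod_of_mem (fun b => b) b.2).trans (dvd_mul_right _ _)

/-- inclusion of fields and fixers -/
theorem u2_le (F₁ F₂ : IntermediateField ℚ ℂ) [NumberField F₁] [NumberField F₂] (hw : w ∈ F₂)
    (h : fixer F₂ ≤ fixer F₁) : F₁ ≤ F₂ := by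
  have hfd : FiniteDimensional ℚ ↥(F₂ ⊔ F₁) := IntermediateField.finiteDimensional_sup F₂ F₁
  have hnf : NumberField ↥(F₂ ⊔ F₁) :=
    { to_charZero := inferInstance, to_finiteDimensional := hfd }
  have hw' : w ∈ F₂ ⊔ F₁ := (le_sup_left : F₂ ≤ _) hw
  have hfix : fixer (F₂ ⊔ F₁) = fixer F₂ := by
    apply le_antisymm
    · intro τ hτ
      rw [d2_mem_fixer] at hτ ⊢
      exact le_sup_left.trans hτ
    · intro τ hτ
      have h1 := h hτ
      rw [d2_mem_fixer] at hτ h1 ⊢
      exact sup_le hτ h1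
  have h1 := index_fixer F₂ hw
  have h2 := index_fixer (F₂ ⊔ F₁) hw'
  rw [hfix, h1] at h2
  have h3 : F₂ = F₂ ⊔ F₁ := IntermediateField.eq_of_le_of_finrank_eq le_sup_left h2
  rw [h3]
  exact le_sup_right

end RF
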