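import Pool.Agent.MP_ae0bd0_nt.RF.V0
import Pool.Agent.MP_ae0bd0_nt.CM.A1

set_option autoImplicit false

open scoped ComplexConjugate Classical
open Filter Topology CM27 BS3

namespace RF

/-! ## [RF-V1] removing Euler factors (file V1.lean) -/

/-- `φ` outside of the multiples of the elements of `T` -/
noncomputable def strip (T : Finset Eis) (φ : Eis → ℂ) (a : Eis) : ℂ :=
  if ∃ b ∈ T, b ∣ a then 0 else φ a

theorem v1_cofactor {a c : Eis} (ha : Primary a) (h : Primary (a * c)) : Primary c := by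
  have h1 : c - 1 = (a * c - 1) - (a - 1) * c := by ring
  rw [Primary, h1]
  exact dvd_sub h (Dvd.dvd.mul_right ha c)

theorem v1_eq_of_dvd {b b' : Eis} (hb : Primary b) (hp : Prime b) (hb' : Primary b')
    (hp' : Prime b') (h : b ∣ b') : b = b' := by
  have := eis_isDomain
  obtain ⟨c, hc⟩ := h
  have hu : IsUnit c := by
    rcases hp'.irreducible.isUnit_or_isUnit hc with h1 | h1
    · exact absurd h1 hp.not_isUnit
    · exact h1
  have h2 : Primary (c * b) := by rw [mul_comm, ← hc]; exact hb'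
  rw [hc, primary_unique b c hb hu h2, mul_one]

theorem v1_strip_insert {T : Finset Eis} {φ : Eis → ℂ} {b : Eis} (a : Eis) :
    strip (insert b T) φ a = if b ∣ a then 0 else strip T φ a := by
  unfold strip
  by_cases h : b ∣ a
  · rw [if_pos ⟨b, Finset.mem_insert_self _ _, h⟩, if_pos h]
  · rw [if_neg h]
    by_cases h2 : ∃ b ∈ T, b ∣ a
    · obtain ⟨c, hc, hca⟩ := h2
      rw [if_pos ⟨c, Finset.mem_insert_of_mem hc, hca⟩, if_pos ⟨c, hc, hca⟩]
    · rw [if_neg h2, if_neg]
      rintro ⟨c, hc, hca⟩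
      rcases Finset.mem_insert.1 hc with h3 | h3
      · rw [h3] at hca
        exact h hca
      · exact h2 ⟨c, h3, hca⟩

theorem v1_strip_mul {φ : Eis → ℂ} (hmul : ∀ a b, φ (a * b) = φ a * φ b) {T : Finset Eis}
    (hT : ∀ b ∈ T, Primary b ∧ Prime b) {b : Eis} (hb : Primary b) (hbp : Prime b) (hbT : b ∉ T)
    (c : Eis) : strip T φ (b * c) = φ b * strip T φ c := by
  have h : (∃ t ∈ T, t ∣ b * c) ↔ ∃ t ∈ T, t ∣ c := by
    constructor
    · rintro ⟨t, ht, htc⟩
      refine ⟨t, ht, ?_⟩
      rcases (hT t ht).2.dvd_or_dvd htc with h1 | h1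
      · exfalso
        apply hbT
        rw [← v1_eq_of_dvd (hT t ht).1 (hT t ht).2 hb hbp h1]
        exact ht
      · exact h1
    · rintro ⟨t, ht, htc⟩
      exact ⟨t, ht, Dvd.dvd.mul_left htc b⟩
  unfold strip
  by_cases h2 : ∃ t ∈ T, t ∣ c
  · rw [if_pos (h.2 h2), if_pos h2, mul_zero]
  · rw [if_neg (fun h3 => h2 (h.1 h3)), if_neg h2, hmul]

/-- the part of the coefficient belonging to the multiples of `b` -/
theorem v1_sum_dvd {ψ : Eis → ℂ} {b : Eis} (hb : Primary b) (hbp : Prime b) {x : ℂ}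
    (hψ : ∀ c, ψ (b * c) = x * ψ c) (n : ℕ) (hn : n ≠ 0) :
    ∑ a ∈ (primSet n).filter (fun a => b ∣ a), ψ a * conj (emb a) =
      LSeries.convolution (fun m => if m = b.norm.natAbs then x * conj (emb b) else 0) (cf ψ) n := by
  have := eis_isDomain
  have hb0 : b ≠ 0 := hbp.ne_zero
  have hq : ((b.norm.natAbs : ℕ) : ℤ) = b.norm := Int.natAbs_of_nonneg (norm_nonneg' b)
  have hq0 : b.norm.natAbs ≠ 0 := by
    have := a1_norm_pos hb0
    omega
  rw [LSeries.convolution_def]
  simp only [ite_mul, zero_mul]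
  by_cases hdvd : b.norm.natAbs ∣ n
  · obtain ⟨m, rfl⟩ := hdvd
    rw [Finset.sum_eq_single (b.norm.natAbs, m)]
    · rw [if_pos rfl]
      unfold cf
      rw [Finset.mul_sum]
      symm
      refine Finset.sum_bij (fun c _ => b * c) ?_ ?_ ?_ ?_
      · intro c hc
        rw [mem_primSet] at hc
        rw [Finset.mem_filter, mem_primSet]
        refine ⟨⟨?_, hb.mul hc.2⟩, dvd_mul_right b c⟩
        rw [map_mul, hc.1, Nat.cast_mul, hq]
      · intro c _ c' _ h
        exact mul_left_cancel₀ hb0 h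
      · intro a ha
        rw [Finset.mem_filter, mem_primSet] at ha
        obtain ⟨⟨h1, h2⟩, c, rfl⟩ := ha
        refine ⟨c, ?_, rfl⟩
        rw [mem_primSet]
        refine ⟨?_, v1_cofactor hb h2⟩
        rw [map_mul, Nat.cast_mul, hq] at h1
        exact mul_left_cancel₀ (a1_norm_pos hb0).ne' h1
      · intro c _
        rw [hψ, map_mul, map_mul]
        ring
    · rintro ⟨u, v⟩ huv hne
      rw [Nat.mem_divisorsAntidiagonal] at huv
      rw [if_neg]
      rintro rfl
      apply hne
      have : v = m := Nat.eq_of_mul_eq_mul_left (Nat.pos_of_ne_zero hq0) huv.1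
      rw [this]
    · intro h
      exfalso
      apply h
      rw [Nat.mem_divisorsAntidiagonal]
      exact ⟨rfl, hn⟩
  · rw [Finset.sum_eq_zero, Finset.sum_eq_zero]
    · rintro ⟨u, v⟩ huv
      rw [Nat.mem_divisorsAntidiagonal] at huv
      rw [if_neg]
      rintro rfl
      exact hdvd ⟨v, huv.1.symm⟩
    · intro a ha
      exfalso
      rw [Finset.mem_filter, mem_primSet] at ha
      obtain ⟨⟨h1, -⟩, c, rfl⟩ := ha
      apply hdvd
      rw [map_mul] at h1
      have h2 : (n : ℤ).natAbs = (b.norm * c.norm).natAbs := by rw [h1]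
      rw [Int.natAbs_mul, Int.natAbs_natCast] at h2
      exact ⟨_, h2⟩

theorem v1_cf_insert {φ : Eis → ℂ} (hmul : ∀ a b, φ (a * b) = φ a * φ b) {T : Finset Eis}
    (hT : ∀ b ∈ T, Primary b ∧ Prime b) {b : Eis} (hb : Primary b) (hbp : Prime b) (hbT : b ∉ T)
    (n : ℕ) (hn : n ≠ 0) :
    cf (strip (insert b T) φ) n = (cf (strip T φ) - LSeries.convolution
      (fun m => if m = b.norm.natAbs then φ b * conj (emb b) else 0) (cf (strip T φ))) n := by
  rw [Pi.sub_apply, ← v1_sum_dvd hb hbp (v1_strip_mul hmul hT hb hbp hbT) n hn]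
  unfold cf
  rw [eq_sub_iff_add_eq, Finset.sum_filter, ← Finset.sum_add_distrib]
  apply Finset.sum_congr rfl
  intro a _
  rw [v1_strip_insert]
  split_ifs with h
  · ring
  · ring

theorem v1_delta (q : ℕ) (hq : q ≠ 0) (x s : ℂ) :
    LSeriesSummable (fun m => if m = q then x else 0) s ∧
      LSeries (fun m => if m = q then x else 0) s = x * (q : ℂ) ^ (-s) := by
  have h : ∀ n, n ≠ q → LSeries.term (fun m => if m = q then x else 0) s n = 0 := by
    intro n hn
    rw [LSeries.term_def]
    simp [hn]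
  refine ⟨?_, ?_⟩
  · refine summable_of_ne_finset_zero (s := {q}) ?_
    intro n hn
    exact h n (by simpa using hn)
  · rw [LSeries, tsum_eq_single q h, LSeries.term_def, if_neg hq, if_pos rfl, Complex.cpow_neg]
    rfl

/-- Induction on `T`: for `b ∉ T`, `ψ = strip T φ`, the primary elements of norm `n` which are divisible by
`b` are the `b c`, `c` primary of norm `n / N b` (`b c` primary iff `c` primary as `b` is primary), and
`ψ (b c) = φ b ψ c` if no element of `T` divides `b` (distinct primary primes do not divide each other: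
`CMT.primary_eq_of_dvd` or similar, see `gS_dvd`). So `cf (strip (insert b T) φ) n =
cf ψ n - [N b ∣ n] φ b conj(b) cf ψ (n / N b)`, and `∑ cf ψ (n / q) n^{-s} = q^{-s} LSeries (cf ψ) s`
(`q = N b`). Summability: by the same induction (or from `L_entire'`/`series`, the bound `‖φ a‖ ≤ 1`
and comparison). -/
theorem LSeries_strip {M : ℕ} (hM : M ≠ 0) (h3 : ¬ 3 ∣ M) {φ : Eis → ℂ} (hφ : IsG M φ)
    (T : Finset Eis) (hT : ∀ b ∈ T, Primary b ∧ Prime b) (s : ℂ) (hs : 3 / 2 < s.re) :
    LSeriesSummable (cf (strip T φ)) s ∧ LSeries (cf (strip T φ)) s =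
      (∏ b ∈ T, (1 - φ b * conj (emb b) * ((b.norm.natAbs : ℕ) : ℂ) ^ (-s))) *
        LSeries (cf φ) s := by
  induction T using Finset.induction_on with
  | empty =>
    have h0 : strip ∅ φ = φ := by
      funext a
      simp [strip]
    rw [h0, Finset.prod_empty, one_mul]
    obtain ⟨Φ, -, h⟩ := L_entire' hM h3 hφ
    exact ⟨(h s hs).1, rfl⟩
  | insert b T hbT ih =>
    have hT' : ∀ b ∈ T, Primary b ∧ Prime b := fun c hc => hT c (Finset.mem_insert_of_mem hc)
    obtain ⟨ih1, ih2⟩ := ih hT'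
    obtain ⟨hb, hbp⟩ := hT b (Finset.mem_insert_self _ _)
    have := eis_isDomain
    have hq0 : b.norm.natAbs ≠ 0 := by
      have := a1_norm_pos hbp.ne_zero
      omega
    have hcf : ∀ {n : ℕ}, n ≠ 0 → cf (strip (insert b T) φ) n =
        (cf (strip T φ) - LSeries.convolution
          (fun m => if m = b.norm.natAbs then φ b * conj (emb b) else 0) (cf (strip T φ))) n :=
      fun {n} hn => v1_cf_insert hφ.mul hT' hb hbp hbT n hn
    obtain ⟨d1, d2⟩ := v1_delta b.norm.natAbs hq0 (φ b * conj (emb b)) s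
    have hconv := d1.convolution ih1
    refine ⟨(LSeriesSummable_congr s hcf).2 (ih1.sub hconv), ?_⟩
    rw [LSeries_congr hcf s, LSeries_sub ih1 hconv, LSeries_convolution' d1 ih1, d2,
      Finset.prod_insert hbT, ih2]
    ring

/-- The primary primes dividing `M`. -/
theorem exists_primes (M : ℕ) (hM : M ≠ 0) (h3 : ¬ 3 ∣ M) : ∃ T : Finset Eis,
    (∀ b ∈ T, Primary b ∧ Prime b) ∧
    ∀ a : Eis, (∃ b ∈ T, b ∣ a) ↔ ¬ IsCoprime a (M : Eis) := by
  have := eis_isDomain
  have := eis_pid
  have hMn : ((M : ℕ) : Eis).norm = (M : ℤ) ^ 2 := by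
    rw [norm_eq]
    simp
  refine ⟨((Finset.range (M ^ 2 + 1)).biUnion primSet).filter
    (fun b => Prime b ∧ b ∣ (M : Eis)), ?_, ?_⟩
  · intro b hb
    rw [Finset.mem_filter, Finset.mem_biUnion] at hb
    obtain ⟨⟨n, -, hn⟩, hp, -⟩ := hb
    exact ⟨((mem_primSet n b).1 hn).2, hp⟩
  · intro a
    constructor
    · rintro ⟨b, hb, hba⟩ ⟨x, y, hxy⟩
      rw [Finset.mem_filter] at hb
      apply hb.2.1.not_isUnit
      rw [isUnit_iff_dvd_one, ← hxy]
      exact dvd_add (Dvd.dvd.mul_left hba x) (Dvd.dvd.mul_left hb.2.2 y)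
    · intro h
      by_contra hcon
      apply h
      apply isCoprime_of_prime_dvd
      · rintro ⟨-, h0⟩
        have : ((M : ℕ) : Eis).norm = 0 := by rw [h0]; simp
        rw [hMn] at this
        exact hM (by exact_mod_cast (pow_eq_zero_iff two_ne_zero).1 this)
      · intro z hz hza hzM
        have hnd : z.norm ∣ (M : ℤ) ^ 2 := by
          rw [← hMn]
          obtain ⟨c, hc⟩ := hzM
          rw [hc, map_mul]
          exact dvd_mul_right _ _
        have hz3 : ¬ (3 : ℤ) ∣ z.norm := by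
          intro h4
          apply h3
          have h5 : (3 : ℤ) ∣ (M : ℤ) ^ 2 := h4.trans hnd
          have h6 : (3 : ℤ) ∣ (M : ℤ) := Int.prime_three.dvd_of_dvd_pow h5
          exact_mod_cast h6
        obtain ⟨u, hu, hprim⟩ := exists_primary z hz3
        have hass : Associated z (u * z) := by
          obtain ⟨v, rfl⟩ := hu
          exact ⟨v, mul_comm _ _⟩
        apply hcon
        refine ⟨u * z, ?_, hass.symm.dvd.trans hza⟩
        rw [Finset.mem_filter, Finset.mem_biUnion]
        have hun : u.norm = 1 := (eis_isUnit_iff u).1 hu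
        refine ⟨⟨z.norm.natAbs, ?_, ?_⟩, hass.prime hz, hass.symm.dvd.trans hzM⟩
        · rw [Finset.mem_range]
          have h7 : z.norm.natAbs ∣ M ^ 2 := by
            have := Int.natAbs_dvd_natAbs.2 hnd
            rwa [Int.natAbs_pow, Int.natAbs_natCast] at this
          have := Nat.le_of_dvd (by positivity) h7
          omega
        · rw [mem_primSet]
          refine ⟨?_, hprim⟩
          rw [map_mul, hun, one_mul]
          exact (Int.natAbs_of_nonneg (norm_nonneg' z)).symm

end RF
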