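import Pool.Agent.MP_ae0bd0_nt.RF.V1
import Pool.Agent.MP_ae0bd0_nt.B3.N1

set_option autoImplicit false

open scoped ComplexConjugate Classical
open Filter Topology CM27 BS3

namespace RF

/-! ## [RF-V2] non-vanishing (file V2.lean; uses V0, V1) -/

theorem v2_isCh {M : ℕ} {φ : Eis → ℂ} (hφ : IsG M φ) (T : Finset Eis)
    (hT : ∀ a : Eis, (∃ b ∈ T, b ∣ a) ↔ ¬ IsCoprime a (M : Eis)) : IsCh M (strip T φ) := by
  have hval : ∀ a, strip T φ a = if IsCoprime a (M : Eis) then φ a else 0 := by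
    intro a
    unfold strip
    by_cases h : IsCoprime a (M : Eis)
    · rw [if_pos h, if_neg]
      rw [hT a]
      exact not_not.2 h
    · rw [if_neg h, if_pos ((hT a).2 h)]
  refine ⟨?_, ?_, ?_, ?_, ?_⟩
  · rw [hval, if_pos isCoprime_one_left, hφ.one]
  · intro a b
    rw [hval, hval, hval]
    by_cases ha : IsCoprime a (M : Eis)
    · by_cases hb : IsCoprime b (M : Eis)
      · rw [if_pos ha, if_pos hb, if_pos (ha.mul_left hb), hφ.mul]
      · rw [if_neg hb, mul_zero, if_neg]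
        exact fun h => hb h.of_mul_left_right
    · rw [if_neg ha, zero_mul, if_neg]
      exact fun h => ha h.of_mul_left_left
  · intro a b
    rw [hval, hval]
    simp only [n1_coprime_per, hφ.per]
  · intro u hu
    have hcop : IsCoprime u (M : Eis) := by
      obtain ⟨f, hf⟩ := hu.exists_left_inv
      exact ⟨f, 0, by rw [hf, zero_mul, add_zero]⟩
    rw [hval, if_pos hcop, hφ.unit u hu]
  · intro a ha
    rw [hval, if_neg ha]

/-- `T` from `exists_primes (4 m)`, `φ' = strip T φ` is a character `IsCh (4 m) φ'`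
(`zero`: by the choice of `T`; `per`: `IsCoprime (a + M b) M ↔ IsCoprime a M`). `BS3.L_entire` gives an
entire `Φ'` with `Φ' 1 = c * rsum ..`, `c ≠ 0`, and `BS3.sum_ne_zero` gives `Φ' 1 ≠ 0` (`φ' a = φ a` for `a`
prime to `4 m`). `L_entire'` gives the entire `Φ` for `φ`. By `LSeries_strip` the entire functions
`Φ'` and `s ↦ ∏ (1 - φ b conj(b) N(b)^{-s}) Φ s` agree for `re s > 3/2`, hence everywhere
(`AnalyticOnNhd.eq_of_eventuallyEq` or `Differentiable.analyticAt` + identity theorem), so `Φ 1 ≠ 0`. -/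
theorem value_ne_zero (m : ℕ) (hm : Good m) (φ : Eis → ℂ) (hφ : IsG (4 * m) φ) (n : ℕ)
    (hχ : ∀ a, IsCoprime a ((4 * m : ℕ) : Eis) → (φ a * ch4 a) ^ 3 ^ n = 1) :
    ∃ Φ : ℂ → ℂ, Differentiable ℂ Φ ∧
      (∀ s : ℂ, 3 / 2 < s.re → LSeriesSummable (cf φ) s ∧ Φ s = LSeries (cf φ) s) ∧ Φ 1 ≠ 0 := by
  have hm0 : m ≠ 0 := hm.1.ne_zero
  have hM : 4 * m ≠ 0 := mul_ne_zero (by norm_num) hm0
  have h3 : ¬ 3 ∣ 4 * m := n1_not_three m hm
  obtain ⟨T, hT1, hT2⟩ := exists_primes (4 * m) hM h3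
  have hch : IsCh (4 * m) (strip T φ) := v2_isCh hφ T hT2
  obtain ⟨Φ', hΦ', hs', c, hc, h5⟩ := L_entire hM h3 hch
  obtain ⟨Φ, hΦ, hs⟩ := L_entire' hM h3 hφ
  refine ⟨Φ, hΦ, hs, ?_⟩
  have hne : Φ' 1 ≠ 0 := by
    rw [h5]
    refine mul_ne_zero hc ?_
    apply sum_ne_zero m hm _ hch n
    intro a ha
    have h1 : strip T φ a = φ a := by
      unfold strip
      rw [if_neg]
      rw [hT2 a]
      exact not_not.2 ha
    rw [h1]
    exact hχ a ha
  intro h0
  apply hne
  -- the Euler factors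
  set g : ℂ → ℂ := fun s =>
    (∏ b ∈ T, (1 - φ b * conj (emb b) * ((b.norm.natAbs : ℕ) : ℂ) ^ (-s))) * Φ s with hg
  have hgd : Differentiable ℂ g := by
    refine Differentiable.mul ?_ hΦ
    refine Differentiable.fun_finsetProd fun b hb => ?_
    have hb0 : b ≠ 0 := (hT1 b hb).2.ne_zero
    have hq0 : ((b.norm.natAbs : ℕ) : ℂ) ≠ 0 := by
      have := a1_norm_pos hb0
      have h2 : b.norm.natAbs ≠ 0 := by omega
      exact_mod_cast h2
    have h1 : Differentiable ℂ fun s : ℂ => ((b.norm.natAbs : ℕ) : ℂ) ^ (-s) := by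
      intro s
      exact (differentiableAt_id.neg).const_cpow (Or.inl hq0)
    exact (differentiable_const _).sub ((differentiable_const _).mul h1)
  have heq : ∀ s : ℂ, 3 / 2 < s.re → Φ' s = g s := by
    intro s hs1
    rw [(hs' s hs1).2, (LSeries_strip hM h3 hφ T hT1 s hs1).2, hg]
    simp only []
    rw [(hs s hs1).2]
  have hall : Φ' = g := by
    refine AnalyticOnNhd.eq_of_eventuallyEq (𝕜 := ℂ) (z₀ := 2)
      (fun z _ => (hΦ'.analyticAt z)) (fun z _ => (hgd.analyticAt z)) ?_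
    have hopen : IsOpen {s : ℂ | 3 / 2 < s.re} := isOpen_lt continuous_const Complex.continuous_re
    filter_upwards [hopen.mem_nhds (show (2 : ℂ) ∈ {s : ℂ | 3 / 2 < s.re} by
      simp only [Set.mem_setOf_eq]; norm_num)] with s hs1
    exact heq s hs1
  rw [hall, hg]
  simp only []
  rw [h0, mul_zero]

end RF
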