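import Pool.Agent.MP_ae0bd0_nt.RF.U2

set_option autoImplicit false

open NumberField IsDedekindDomain
open CM27 CMT CF
open scoped ComplexConjugate Classical

namespace RF

/-! ## [RF-X1] there are many fields `F`, not normal over `ℚ` (file X1.lean) -/

/-- Galois correspondence inside `LS S` -/
theorem exists_F (S : Finset Eis) (hS : ∀ b ∈ S, NEis b) (H : Subgroup AutK)
    (hH : fixer (LS S) ≤ H) : ∃ F : IntermediateField ℚ ℂ, w ∈ F ∧ F ≤ LS S ∧ fixer F = H ∧
      Module.finrank ℚ F = 2 * H.index := by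
  have hfd : FiniteDimensional ℚ (LS S) := LS_finite S hS
  obtain ⟨ρ, hρ⟩ := x1_res (LS S) AutK.subtype (fun σ x hx => LS_stable S hS σ x hx)
    (fun σ r => by
      rw [eq_ratCast]
      exact map_ratCast _ r)
  have hker : ρ.ker ≤ H := by
    intro σ hσ
    apply hH
    intro x hx
    rw [MonoidHom.mem_ker] at hσ
    have h1 := hρ σ ⟨x, hx⟩
    rw [hσ] at h1
    exact h1.symm
  obtain ⟨F, hle, h1, h2, h3⟩ := x1_galois (LS S) ρ H hker
  have hw : w ∈ F := by
    apply h1 w (w_mem_LS S)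
    intro σ _
    apply Subtype.ext
    rw [hρ]
    exact σ.2
  have hfix : fixer F = H := by
    apply le_antisymm
    · intro σ hσ
      apply h3
      intro x hx hxF
      apply Subtype.ext
      rw [hρ]
      exact hσ x hxF
    · intro σ hσ x hx
      have h4 := congrArg Subtype.val (h2 x (hle hx) hx σ hσ)
      rw [hρ] at h4
      exact h4
  have hfF : FiniteDimensional ℚ F := x1_finite hle
  have : NumberField F := ⟨⟩
  refine ⟨F, hw, hle, hfix, ?_⟩
  rw [← index_fixer F hw, hfix]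

/-! ### cubic characters -/

/-- elements of norm `≡ 19 mod 36` -/
def N19 (b : Eis) : Prop := Primary b ∧ ∃ p : ℕ, p.Prime ∧ p % 36 = 19 ∧ b.norm = p

theorem N19.neis {b : Eis} (h : N19 b) : NEis b := by
  obtain ⟨h1, p, hp, h2, h3⟩ := h
  exact ⟨h1, p, ⟨hp, by omega, by omega⟩, h3⟩

theorem rx_cyc (G : Type) [CommGroup G] [Finite G] [IsCyclic G] (h : 3 ∣ Nat.card G) :
    Nat.card (powMonoidHom (α := G) (Nat.card G / 3)).range = 3 := by
  obtain ⟨k, hk⟩ := h
  have hk0 : 0 < k := by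
    have : 0 < Nat.card G := Nat.card_pos
    omega
  have h1 : (powMonoidHom (α := G) (Nat.card G / 3)).range.index = k := by
    rw [IsCyclic.index_powMonoidHom_range, hk]
    rw [Nat.mul_div_cancel_left _ (by norm_num)]
    exact Nat.gcd_eq_right (Dvd.intro_left 3 rfl)
  have h2 := Subgroup.card_mul_index (powMonoidHom (α := G) (Nat.card G / 3)).range
  rw [h1, hk] at h2
  rw [hk]
  exact Nat.eq_of_mul_eq_mul_right hk0 h2

/-- the multiplicative group modulo `b` -/
theorem rx_card (b : Eis) (hb : N19 b) :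
    18 ∣ Nat.card (Eis ⧸ Ideal.span {b})ˣ ∧ Finite (Eis ⧸ Ideal.span {b})ˣ ∧
      IsCyclic (Eis ⧸ Ideal.span {b})ˣ := by
  have hpr := hb.neis.prime
  have hdom := eis_isDomain
  have hpid := eis_pid
  have hmax : (Ideal.span {b}).IsMaximal :=
    PrincipalIdealRing.isMaximal_of_irreducible hpr.irreducible
  have hfin : Finite (Eis ⧸ Ideal.span {b}) := I3.quot_finite b hpr.ne_zero
  obtain ⟨h1, p, hp, h2, h3⟩ := hb
  letI : Field (Eis ⧸ Ideal.span {b}) := Ideal.Quotient.field _
  refine ⟨?_, inferInstance, inferInstance⟩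
  have h4 : Nat.card (Eis ⧸ Ideal.span {b}) = p := by
    rw [p4_card, h3]
    rfl
  have h5 : Nat.card (Eis ⧸ Ideal.span {b})ˣ = p - 1 := by
    rw [Nat.card_units, h4]
  rw [h5]
  have := hp.one_lt
  omega

/-- the exponent -/
noncomputable def rx_k (b : Eis) : ℕ := Nat.card (Eis ⧸ Ideal.span {b})ˣ / 3

/-- the powers -/
noncomputable def rx_psi (S : Finset Eis) : AS S →* AS S where
  toFun a b := a b ^ rx_k b
  map_one' := by
    funext b
    simp
  map_mul' a a' := by
    funext b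
    exact mul_pow (a b) (a' b) _

theorem rx_range (S : Finset Eis) (hS : ∀ b ∈ S, N19 b) :
    Nat.card (rx_psi S).range = 3 ^ S.card := by
  have hfin : ∀ b : {x // x ∈ S}, Finite (Eis ⧸ Ideal.span {(b : Eis)})ˣ :=
    fun b => (rx_card b (hS b b.2)).2.1
  let R : (b : {x // x ∈ S}) → Type := fun b =>
    (powMonoidHom (α := (Eis ⧸ Ideal.span {(b : Eis)})ˣ) (rx_k b)).range
  let e : (rx_psi S).range ≃ ((b : {x // x ∈ S}) → R b) :=
    { toFun := fun f b => ⟨f.1 b, by
        obtain ⟨a, ha⟩ := f.2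
        exact ⟨a b, by rw [← ha]; rfl⟩⟩
      invFun := fun g => ⟨fun b => (g b).1, by
        choose a ha using fun b => (g b).2
        exact ⟨a, by funext b; exact ha b⟩⟩
      left_inv := fun f => rfl
      right_inv := fun g => rfl }
  rw [Nat.card_congr e, Nat.card_pi]
  have h3 : ∀ b : {x // x ∈ S}, Nat.card (R b) = 3 := by
    intro b
    have h := rx_card b (hS b b.2)
    haveI := h.2.1
    haveI := h.2.2
    exact rx_cyc _ ((by norm_num : 3 ∣ 18).trans h.1)
  rw [Finset.prod_congr rfl (fun b _ => h3 b), Finset.prod_const, Finset.card_univ,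
    Fintype.card_coe]

/-- the subgroup `H` -/
noncomputable def rx_H (S : Finset Eis) : Subgroup AutK := ((rx_psi S).comp (th S)).ker

theorem rx_mem_H (S : Finset Eis) (σ : AutK) :
    σ ∈ rx_H S ↔ ∀ b : {x // x ∈ S}, th S σ b ^ rx_k b = 1 := by
  rw [rx_H, MonoidHom.mem_ker]
  exact funext_iff

theorem rx_fixer_le (S : Finset Eis) (hS : ∀ b ∈ S, NEis b) : fixer (LS S) ≤ rx_H S := by
  intro σ hσ
  have h := (th_eq_one_iff S hS σ).2 hσ
  rw [rx_mem_H]
  intro b
  rw [h, Pi.one_apply, one_pow]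

theorem rx_index (S : Finset Eis) (hS : ∀ b ∈ S, N19 b) : (rx_H S).index = 3 ^ S.card := by
  have hS' : ∀ b ∈ S, NEis b := fun b hb => (hS b hb).neis
  rw [rx_H, Subgroup.index_ker, ← rx_range S hS, MonoidHom.range_comp,
    MonoidHom.range_eq_top.2 (th_surjective S hS'), ← MonoidHom.range_eq_map]

/-- the value of `th` does not depend on `S` -/
theorem rx_compat (S T : Finset Eis) (hS : ∀ b ∈ S, NEis b) (hT : ∀ b ∈ T, NEis b)
    (σ : AutK) (b : Eis) (h : b ∈ S) (h' : b ∈ T) : th S σ ⟨b, h⟩ = th T σ ⟨b, h'⟩ := by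
  apply Units.ext
  obtain ⟨u, hu⟩ := Ideal.Quotient.mk_surjective
    (th T σ ⟨b, h'⟩ : Eis ⧸ Ideal.span {b})
  have h1 := th_spec T hT σ ⟨b, h'⟩ u hu.symm 1
  have h2 := g4_th S hS σ ⟨b, h⟩ u h1
  rw [← hu]
  exact h2

/-- an element whose power is not `1` -/
theorem rx_exists (b : Eis) (hb : N19 b) : ∃ v : (Eis ⧸ Ideal.span {b})ˣ, v ^ rx_k b ≠ 1 := by
  by_contra hcon
  push Not at hcon
  obtain ⟨h18, hfin, hcyc⟩ := rx_card b hb
  have h := rx_cyc _ ((by norm_num : 3 ∣ 18).trans h18)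
  have h1 : (powMonoidHom (α := (Eis ⧸ Ideal.span {b})ˣ)
      (Nat.card (Eis ⧸ Ideal.span {b})ˣ / 3)).range = ⊥ := by
    rw [eq_bot_iff]
    rintro _ ⟨v, rfl⟩
    exact hcon v
  rw [h1, Subgroup.card_bot] at h
  norm_num at h

/-- the separation lemma -/
theorem rx_sep (S T : Finset Eis) (hS : ∀ b ∈ S, N19 b) (hT : ∀ b ∈ T, NEis b)
    (b : Eis) (hb : b ∈ S) (hbT : b ∉ T) (F : IntermediateField ℚ ℂ) (hF : F ≤ LS T)
    (hfix : fixer F = rx_H S) : False := by
  have hS' : ∀ b ∈ S, NEis b := fun b hb => (hS b hb).neis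
  have hU : ∀ b ∈ S ∪ T, NEis b := by
    intro c hc
    rcases Finset.mem_union.1 hc with h | h
    · exact hS' c h
    · exact hT c h
  have hbU : b ∈ S ∪ T := Finset.mem_union_left _ hb
  obtain ⟨v, hv⟩ := rx_exists b (hS b hb)
  obtain ⟨σ, hσ⟩ := th_surjective (S ∪ T) hU (Pi.mulSingle ⟨b, hbU⟩ v)
  have h1 : th T σ = 1 := by
    funext c
    have hc : (c : Eis) ∈ S ∪ T := Finset.mem_union_right _ c.2
    have h2 := rx_compat T (S ∪ T) hT hU σ c c.2 hc
    have h3 : th (S ∪ T) σ ⟨c, hc⟩ = 1 := by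
      rw [hσ]
      apply Pi.mulSingle_eq_of_ne
      intro h
      apply hbT
      have : (c : Eis) = b := congrArg Subtype.val h
      rw [← this]
      exact c.2
    rw [h3] at h2
    exact h2
  have h2 : σ ∈ fixer F := by
    have h3 := (th_eq_one_iff T hT σ).1 h1
    intro x hx
    exact h3 x (hF hx)
  rw [hfix, rx_mem_H] at h2
  have h3 := h2 ⟨b, hb⟩
  rw [rx_compat S (S ∪ T) hS' hU σ b hb hbU, hσ, Pi.mulSingle_eq_same] at h3
  exact hv h3

theorem rx_not_normal (S : Finset Eis) (hS : ∀ b ∈ S, N19 b) (b : Eis) (hb : b ∈ S)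
    (hbs : b ∉ S.image star) (F : IntermediateField ℚ ℂ) (hF : F ≤ LS S)
    (hfix : fixer F = rx_H S) : ¬ Normal ℚ F := by
  intro hN
  have hT : ∀ c ∈ S.image star, NEis c := good_star S (fun b hb => (hS b hb).neis)
  apply rx_sep S (S.image star) hS hT b hb hbs F _ hfix
  intro x hx
  have h2 : conj x ∈ F := x1_range hN x1_conj x hx
  have h3 := x1_conj_LS S (conj x) (hF h2)
  rwa [Complex.conj_conj] at h3

/-- the field is contained in the ray class field -/
theorem rx_le_ray (S : Finset Eis) (hS : ∀ b ∈ S, N19 b) (m : ℕ) (hm : NLevel m)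
    (hSm : ∀ b ∈ S, b ∣ (m : Eis)) (F : IntermediateField ℚ ℂ) (hF : F ≤ LS S)
    (hfix : fixer F = rx_H S) : F ≤ rayField (E ℂ) m := by
  have hS' : ∀ b ∈ S, NEis b := fun b hb => (hS b hb).neis
  obtain ⟨T, hT, hTd, hTm⟩ := exists_S_level m hm
  have hST : ∀ b ∈ S, b ∈ T := fun b hb =>
    (hTd b).2 ⟨(hS' b hb).1, (hS' b hb).prime, hSm b hb⟩
  have hfdS : FiniteDimensional ℚ (LS S) := LS_finite S hS'
  have hfdT : FiniteDimensional ℚ (LS T) := LS_finite T hT
  have hfF : FiniteDimensional ℚ F := x1_finite hF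
  have hfR : FiniteDimensional ℚ (rayField (E ℂ) m) := x1_finite (rayField_le m hm T hT hTm)
  have : NumberField F := ⟨⟩
  have : NumberField (rayField (E ℂ) m) := ⟨⟩
  have hwray : w ∈ rayField (E ℂ) m := by
    refine IntermediateField.subset_adjoin ℚ _ (Or.inl ?_)
    have := w_sq
    linear_combination this
  apply u2_le F _ hwray
  intro σ hσ
  obtain ⟨u, hu, hact⟩ := u2_unit m hm T hT hTm σ hσ
  rw [hfix, rx_mem_H]
  rintro ⟨b, hb⟩
  rw [rx_compat S T hS' hT σ b hb (hST b hb)]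
  have h1 := hact ⟨b, hST b hb⟩
  have h6 : u ^ 6 = 1 := by
    apply emb_injective
    rw [map_pow, map_one]
    exact BS3.x0_six hu
  have hk : 6 ∣ rx_k b := by
    obtain ⟨t, ht⟩ := (rx_card b (hS b hb)).1
    rw [rx_k, ht]
    refine ⟨t, ?_⟩
    omega
  obtain ⟨j, hj⟩ := hk
  rw [hj, pow_mul]
  have h7 : th T σ ⟨b, hST b hb⟩ ^ 6 = 1 := by
    apply Units.ext
    rw [Units.val_pow_eq_pow_val, h1, ← map_pow, h6, map_one, Units.val_one]
  rw [h7, one_pow]

/-- Many fields `F`, non-normal over `ℚ`. -/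
theorem infinite_ray (n : ℕ) (hn : 0 < n) (N : ℕ) (hN : N ≠ 0) :
    {F : IntermediateField ℚ ℂ | w ∈ F ∧ Module.finrank ℚ F = 2 * 3 ^ n ∧ ¬ Normal ℚ F ∧
      ∃ m : ℕ, NLevel m ∧ m.Coprime N ∧ F ≤ rayField (E ℂ) m}.Infinite := by
  have hinf : {p : ℕ | p.Prime ∧ p ≡ 19 [MOD 36]}.Infinite :=
    Nat.infinite_setOfPred_prime_and_modEq (by norm_num) (by norm_num)
  have hinf' : {p : ℕ | p.Prime ∧ p % 36 = 19 ∧ N < p}.Infinite := by
    refine (hinf.diff (Set.finite_le_nat N)).mono ?_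
    rintro p ⟨⟨h1, h2⟩, h3⟩
    refine ⟨h1, h2, ?_⟩
    by_contra hcon
    exact h3 (by simpa using hcon)
  let P := hinf'.natEmbedding
  have hP : ∀ i, (P i : ℕ).Prime ∧ (P i : ℕ) % 36 = 19 ∧ N < (P i : ℕ) := fun i => (P i).2
  have hPinj : ∀ i j, ((P i : ℕ) = P j) → i = j := fun i j h => P.injective (Subtype.ext h)
  have hg : ∀ i, ∃ a : Eis, Primary a ∧ a.norm = (P i : ℕ) := fun i =>
    exists_primary_prime _ (hP i).1 (by have := (hP i).2.1; omega)
  choose g hg1 hg2 using hg
  have hgood : ∀ i, N19 (g i) := fun i => ⟨hg1 i, P i, (hP i).1, (hP i).2.1, hg2 i⟩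
  have hnorm : ∀ i j, (g i).norm = (g j).norm → i = j := by
    intro i j h
    rw [hg2, hg2] at h
    exact hPinj i j (by exact_mod_cast h)
  have hginj : Function.Injective g := fun i j h => hnorm i j (by rw [h])
  set S : ℕ → Finset Eis := fun k => (Finset.range n).image (fun i => g (k + i)) with hSdef
  have hmem : ∀ k b, b ∈ S k ↔ ∃ i < n, g (k + i) = b := by
    intro k b
    simp [hSdef]
  have hS : ∀ k, ∀ b ∈ S k, N19 b := by
    intro k b hb
    obtain ⟨i, _, rfl⟩ := (hmem k b).1 hb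
    exact hgood _
  have hS' : ∀ k, ∀ b ∈ S k, NEis b := fun k b hb => (hS k b hb).neis
  have hcard : ∀ k, (S k).card = n := by
    intro k
    rw [hSdef]
    simp only
    rw [Finset.card_image_of_injective, Finset.card_range]
    intro i j h
    have := hginj h
    omega
  have hF := fun k => exists_F (S k) (hS' k) (rx_H (S k)) (rx_fixer_le (S k) (hS' k))
  choose F hwF hFle hFfix hFrank using hF
  have hk : ∀ k, g k ∈ S k := fun k => (hmem k _).2 ⟨0, hn, by rw [add_zero]⟩
  apply Set.infinite_of_injective_forall_mem (f := F)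
  · have key : ∀ k l, k < l → F k ≠ F l := by
      intro k l hkl h
      apply rx_sep (S k) (S l) (hS k) (hS' l) (g k) (hk k) _ (F k) _ (hFfix k)
      · intro h1
        obtain ⟨i, _, hi⟩ := (hmem l _).1 h1
        have := hginj hi
        omega
      · rw [h]
        exact hFle l
    intro k l h
    rcases lt_trichotomy k l with h1 | h1 | h1
    · exact (key k l h1 h).elim
    · exact h1
    · exact (key l k h1 h.symm).elim
  · intro k
    have hlev : NLevel (∏ i ∈ Finset.range n, (P (k + i) : ℕ)) := by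
      refine ⟨?_, ?_⟩
      · apply Finset.squarefree_prod_of_pairwise_isCoprime
        · intro i _ j _ hij
          rw [Function.onFun, ← Nat.coprime_iff_isRelPrime,
            Nat.coprime_primes (hP _).1 (hP _).1]
          intro h
          have := hPinj _ _ h
          omega
        · intro i _
          exact (hP _).1.prime.squarefree
      · intro q hq hd
        rw [Prime.dvd_finsetProd_iff hq.prime] at hd
        obtain ⟨i, _, hi⟩ := hd
        rw [(Nat.prime_dvd_prime_iff_eq hq (hP _).1).1 hi]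
        refine ⟨(hP _).1, ?_, ?_⟩
        · have := (hP (k + i)).2.1; omega
        · have := (hP (k + i)).2.1; omega
    refine ⟨hwF k, ?_, ?_, ?_⟩
    · rw [hFrank, rx_index _ (hS k), hcard]
    · apply rx_not_normal (S k) (hS k) (g k) (hk k) _ (F k) (hFle k) (hFfix k)
      intro h
      obtain ⟨c, hc, hcs⟩ := Finset.mem_image.1 h
      obtain ⟨i, _, rfl⟩ := (hmem k c).1 hc
      have h1 : k + i = k := hnorm _ _ (by rw [← hcs, QuadraticAlgebra.norm_star])
      rw [h1] at hcs
      exact not_dvd_star _ (hP k).1 (by have := (hP k).2.1; omega) (g k) (hg2 k) (by rw [hcs])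
    · refine ⟨∏ i ∈ Finset.range n, (P (k + i) : ℕ), hlev, ?_, ?_⟩
      · apply Nat.Coprime.prod_left
        intro i _
        refine (Nat.Prime.coprime_iff_not_dvd (hP _).1).2 fun hd => ?_
        have h1 := Nat.le_of_dvd (Nat.pos_of_ne_zero hN) hd
        have h2 := (hP (k + i)).2.2
        omega
      · refine rx_le_ray (S k) (hS k) _ hlev ?_ (F k) (hFle k) (hFfix k)
        intro b hb
        obtain ⟨i, hi, rfl⟩ := (hmem k b).1 hb
        have h1 : g (k + i) ∣ ((P (k + i) : ℕ) : Eis) := by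
          have h2 := a3_mul_star (g (k + i))
          rw [hg2, Int.cast_natCast] at h2
          exact ⟨_, h2.symm⟩
        refine h1.trans ?_
        have h3 : (P (k + i) : ℕ) ∣ ∏ i ∈ Finset.range n, (P (k + i) : ℕ) :=
          Finset.dvd_prod_of_mem (fun i => (P (k + i) : ℕ)) (Finset.mem_range.2 hi)
        exact Nat.cast_dvd_cast h3

end RF
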